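import Pool.Agent.Helper192.Syn.H4

/-! the weight -/

set_option linter.all false

open MeasureTheory Set Filter Topology Complex
open scoped BigOperators ContDiff ComplexConjugate

namespace Pool.Agent.Helper192.Syn

namespace J_psh_add

/-- sums of plurisubharmonic functions -/
theorem psh_add {n : ℕ} (u v : Cn n → ℝ) (hu : Psh u) (hv : Psh v) : Psh (fun z => u z + v z) := by
  refine ⟨hu.1.add hv.1, fun z w => ?_⟩
  rw [lev_add u v hu.1 hv.1 z w]
  exact add_nonneg (hu.2 z w) (hv.2 z w)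

end J_psh_add

alias psh_add := J_psh_add.psh_add

namespace J_psh_smul

/-- nonnegative multiples of plurisubharmonic functions -/
theorem psh_smul {n : ℕ} (c : ℝ) (hc : 0 ≤ c) (u : Cn n → ℝ) (hu : Psh u) :
    Psh (fun z => c * u z) := by
  obtain ⟨hu1, hu2⟩ := hu
  have hd : Differentiable ℝ u := hu1.differentiable (by simp)
  have hD2 : ∀ z w : Cn n, D2 (fun z => c * u z) z w = c * D2 u z w := by
    intro z w
    unfold D2
    have h1 : (fun y => fderiv ℝ (fun z => c * u z) y w) = fun y => c * fderiv ℝ u y w := by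
      funext y
      rw [fderiv_const_mul (hd y) c]
      rfl
    have h2 : Differentiable ℝ (fun y => fderiv ℝ u y w) := by
      have h3 : ContDiff ℝ 1 (fderiv ℝ u) := hu1.fderiv_right (m := 1) (by decide)
      exact (h3.clm_apply contDiff_const).differentiable (by simp)
    rw [h1, fderiv_const_mul (h2 z) c]
    rfl
  refine ⟨contDiff_const.mul hu1, ?_⟩
  intro z w
  have h4 : Lev (fun z => c * u z) z w = c * Lev u z w := by
    unfold Lev
    rw [hD2, hD2]
    ring
  rw [h4]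
  exact mul_nonneg hc (hu2 z w)

end J_psh_smul

alias psh_smul := J_psh_smul.psh_smul

namespace J_psh_const

/-- constants are plurisubharmonic -/
theorem psh_const {n : ℕ} (c : ℝ) : Psh (fun _ : Cn n => c) := by
  refine ⟨contDiff_const, fun z w => ?_⟩
  unfold Lev D2
  simp

end J_psh_const

alias psh_const := J_psh_const.psh_const

namespace J_psh_log_norm

theorem psh_log_norm_smooth {n : ℕ} (g : Cn n → ℂ) (hg : Differentiable ℂ g) :
    ContDiff ℝ ∞ g := by
  obtain ⟨ρ, h1, -, h3, h4, h5, h6⟩ := exists_moll n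
  have hcs : HasCompactSupport (ρ 0) := by
    refine HasCompactSupport.intro (isCompact_closedBall (0 : Cn n) 1) fun z hz => ?_
    apply h4 0 z
    rw [Metric.mem_closedBall, dist_zero_right, not_le] at hz
    simpa using hz
  have hmv := mean_value g hg (ρ 0) (h1 0).continuous hcs (h3 0) (h5 0)
  have heq : g = MeasureTheory.convolution (ρ 0) g (ContinuousLinearMap.lsmul ℝ ℝ) volume := by
    funext z
    rw [← hmv z, MeasureTheory.convolution]
    rw [← integral_neg_eq_self]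
    refine integral_congr_ae (Filter.Eventually.of_forall fun w => ?_)
    simp only [h6, ContinuousLinearMap.lsmul_apply, Complex.real_smul, sub_eq_add_neg]
  rw [heq]
  exact hcs.contDiff_convolution_left _ (h1 0) hg.continuous.locallyIntegrable

theorem psh_log_norm_D2 {n : ℕ} (g : Cn n → ℂ) (hg : ContDiff ℝ ∞ g) (z w : Cn n) :
    D2 (fun z => Real.log (1 + ‖g z‖ ^ 2)) z w =
      (2 * ((fderiv ℝ g z w).re ^ 2 + (fderiv ℝ g z w).im ^ 2 +
        ((g z).re * (fderiv ℝ (fderiv ℝ g) z w w).re +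
          (g z).im * (fderiv ℝ (fderiv ℝ g) z w w).im)) *
        (1 + ((g z).re ^ 2 + (g z).im ^ 2)) -
        (2 * ((g z).re * (fderiv ℝ g z w).re + (g z).im * (fderiv ℝ g z w).im)) ^ 2) /
        (1 + ((g z).re ^ 2 + (g z).im ^ 2)) ^ 2 := by
  have hgd : Differentiable ℝ g := hg.differentiable (by simp)
  have hGc : ContDiff ℝ ∞ (fderiv ℝ g) := hg.fderiv_right (m := ∞) (by simp)
  have hGd : Differentiable ℝ (fderiv ℝ g) := hGc.differentiable (by simp)
  have hq : ∀ y, (0 : ℝ) < 1 + ((g y).re ^ 2 + (g y).im ^ 2) := fun y => by positivity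
  have hnorm : (fun z => Real.log (1 + ‖g z‖ ^ 2)) =
      fun z => Real.log (1 + ((g z).re ^ 2 + (g z).im ^ 2)) := by
    funext y
    rw [← Complex.normSq_eq_norm_sq, Complex.normSq_apply]
    ring_nf
  rw [hnorm]
  have hre : ∀ y, HasFDerivAt (fun y => (g y).re) (reCLM.comp (fderiv ℝ g y)) y := fun y =>
    reCLM.hasFDerivAt.comp y (hgd y).hasFDerivAt
  have him : ∀ y, HasFDerivAt (fun y => (g y).im) (imCLM.comp (fderiv ℝ g y)) y := fun y =>
    imCLM.hasFDerivAt.comp y (hgd y).hasFDerivAt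
  have hf1 : ∀ y, fderiv ℝ (fun z => Real.log (1 + ((g z).re ^ 2 + (g z).im ^ 2))) y w =
      (2 * ((g y).re * (fderiv ℝ g y w).re + (g y).im * (fderiv ℝ g y w).im)) /
        (1 + ((g y).re ^ 2 + (g y).im ^ 2)) := by
    intro y
    have h : HasFDerivAt (fun z => Real.log (1 + ((g z).re ^ 2 + (g z).im ^ 2))) _ y :=
      ((((hre y).pow 2).add ((him y).pow 2)).const_add 1).log (hq y).ne'
    rw [h.fderiv]
    simp
    field_simp
  unfold D2
  simp only [hf1]
  have hre1 : Differentiable ℝ (fun y => (g y).re) := fun y => (hre y).differentiableAt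
  have him1 : Differentiable ℝ (fun y => (g y).im) := fun y => (him y).differentiableAt
  have hGw : Differentiable ℝ (fun y => fderiv ℝ g y w) := fun y =>
    (hGd y).clm_apply (differentiableAt_const w)
  have hGre : Differentiable ℝ (fun y => (fderiv ℝ g y w).re) := fun y =>
    reCLM.differentiableAt.comp y (hGw y)
  have hGim : Differentiable ℝ (fun y => (fderiv ℝ g y w).im) := fun y =>
    imCLM.differentiableAt.comp y (hGw y)
  have hdiff : DifferentiableAt ℝ (fun y => (2 * ((g y).re * (fderiv ℝ g y w).re +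
      (g y).im * (fderiv ℝ g y w).im)) / (1 + ((g y).re ^ 2 + (g y).im ^ 2))) z := by
    have d1 : DifferentiableAt ℝ (fun y => 2 * ((g y).re * (fderiv ℝ g y w).re +
        (g y).im * (fderiv ℝ g y w).im)) z :=
      (((hre1 z).mul (hGre z)).add ((him1 z).mul (hGim z))).const_mul 2
    have d2 : DifferentiableAt ℝ (fun y => 1 + ((g y).re ^ 2 + (g y).im ^ 2)) z :=
      (((hre1 z).pow 2).add ((him1 z).pow 2)).const_add 1
    simp only [div_eq_mul_inv]
    exact d1.mul (d2.inv (hq z).ne')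
  rw [← hdiff.lineDeriv_eq_fderiv]
  have l1 : HasDerivAt (fun t : ℝ => g (z + t • w)) (fderiv ℝ g z w) 0 :=
    (hgd z).hasFDerivAt.hasLineDerivAt w
  have l2 : HasDerivAt (fun t : ℝ => fderiv ℝ g (z + t • w)) (fderiv ℝ (fderiv ℝ g) z w) 0 :=
    (hGd z).hasFDerivAt.hasLineDerivAt w
  have l3 : HasDerivAt (fun t : ℝ => fderiv ℝ g (z + t • w) w)
      (fderiv ℝ (fderiv ℝ g) z w w) 0 := by
    have := l2.clm_apply (hasDerivAt_const (0 : ℝ) w)
    simpa using this
  have r1 : HasDerivAt (fun t : ℝ => (g (z + t • w)).re) (fderiv ℝ g z w).re 0 :=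
    reCLM.hasFDerivAt.comp_hasDerivAt 0 l1
  have r2 : HasDerivAt (fun t : ℝ => (g (z + t • w)).im) (fderiv ℝ g z w).im 0 :=
    imCLM.hasFDerivAt.comp_hasDerivAt 0 l1
  have r3 : HasDerivAt (fun t : ℝ => (fderiv ℝ g (z + t • w) w).re)
      (fderiv ℝ (fderiv ℝ g) z w w).re 0 := reCLM.hasFDerivAt.comp_hasDerivAt 0 l3
  have r4 : HasDerivAt (fun t : ℝ => (fderiv ℝ g (z + t • w) w).im)
      (fderiv ℝ (fderiv ℝ g) z w w).im 0 := imCLM.hasFDerivAt.comp_hasDerivAt 0 l3
  have r5 := (((r1.mul r3).add (r2.mul r4)).const_mul 2).div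
    (((r1.pow 2).add (r2.pow 2)).const_add 1) (by
      simp only [zero_smul, add_zero, Pi.add_apply, Pi.mul_apply, Pi.pow_apply]
      exact (hq z).ne')
  have r6 : HasLineDerivAt ℝ (fun y => (2 * ((g y).re * (fderiv ℝ g y w).re +
      (g y).im * (fderiv ℝ g y w).im)) / (1 + ((g y).re ^ 2 + (g y).im ^ 2))) _ z w := r5
  rw [r6.lineDeriv]
  simp only [zero_smul, add_zero, Pi.add_apply, Pi.mul_apply, Pi.pow_apply]
  congr 1
  push_cast
  ring

/-- `log (1 + |g|^2)` is plurisubharmonic for holomorphic `g` -/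
theorem psh_log_norm {n : ℕ} (g : Cn n → ℂ) (hg : Differentiable ℂ g) :
    Psh (fun z => Real.log (1 + ‖g z‖ ^ 2)) := by
  have hgs := psh_log_norm_smooth g hg
  have hgd : Differentiable ℝ g := hgs.differentiable (by simp)
  have hGd : Differentiable ℝ (fderiv ℝ g) :=
    (hgs.fderiv_right (m := ∞) (by simp)).differentiable (by simp)
  refine ⟨?_, fun z w => ?_⟩
  · refine ContDiff.log ?_ fun z => by positivity
    exact contDiff_const.add (hgs.norm_sq ℝ)
  · have hI : ∀ y u, fderiv ℝ g y (I • u) = I * fderiv ℝ g y u := by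
      intro y u
      have h1 : HasFDerivAt g ((fderiv ℂ g y).restrictScalars ℝ) y :=
        (hg y).hasFDerivAt.restrictScalars ℝ
      rw [h1.fderiv]
      simp
    have hs : IsSymmSndFDerivAt ℝ g z :=
      hgs.contDiffAt.isSymmSndFDerivAt (by
        rw [minSmoothness_of_isRCLikeNormedField]
        exact WithTop.coe_le_coe.2 (le_top : (2 : ℕ∞) ≤ ⊤))
    have hI2 : ∀ u v, fderiv ℝ (fderiv ℝ g) z u (I • v) = I * fderiv ℝ (fderiv ℝ g) z u v := by
      intro u v
      have e1 : ∀ v : Cn n, HasFDerivAt (fun y => fderiv ℝ g y v)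
          ((fderiv ℝ (fderiv ℝ g) z).flip v) z := by
        intro v
        have := (hGd z).hasFDerivAt.clm_apply (hasFDerivAt_const v z)
        simpa using this
      have e2 : HasFDerivAt (fun y => fderiv ℝ g y (I • v))
          (I • (fderiv ℝ (fderiv ℝ g) z).flip v) z := by
        simp only [hI]
        exact (e1 v).const_mul I
      have e3 := (e1 (I • v)).unique e2
      have e4 := congrArg (fun L : Cn n →L[ℝ] ℂ => L u) e3
      simpa using e4
    have hb : fderiv ℝ (fderiv ℝ g) z (I • w) (I • w) = - fderiv ℝ (fderiv ℝ g) z w w := by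
      rw [hI2, hs.eq (I • w) w, hI2, ← mul_assoc, I_mul_I]
      ring
    unfold Lev
    rw [psh_log_norm_D2 g hgs z w, psh_log_norm_D2 g hgs z (I • w), hb, hI, ← add_div]
    apply div_nonneg _ (sq_nonneg _)
    simp only [Complex.mul_re, Complex.mul_im, Complex.I_re, Complex.I_im, Complex.neg_re,
      Complex.neg_im]
    nlinarith [sq_nonneg (fderiv ℝ g z w).re, sq_nonneg (fderiv ℝ g z w).im]

end J_psh_log_norm

alias psh_log_norm := J_psh_log_norm.psh_log_norm

namespace J_glue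

theorem glue_rho : ∃ ρ : ℝ → ℝ, ContDiff ℝ ∞ ρ ∧ (∀ x, x ≤ -1 → ρ x = 0) ∧
    (∀ x, 0 ≤ deriv ρ x ∧ deriv ρ x ≤ 1) ∧ (∀ x, 0 ≤ deriv (deriv ρ) x) ∧
    (∀ x, max x 0 ≤ ρ x ∧ ρ x ≤ max x 0 + 1) := by
  set S : ℝ → ℝ := fun t => Real.smoothTransition (t + 1) with hS
  have hSc : Continuous S := Real.smoothTransition.continuous.comp (continuous_id.add continuous_const)
  have hSs : ContDiff ℝ ∞ S :=
    Real.smoothTransition.contDiff.comp (contDiff_id.add contDiff_const)
  have hS0 : ∀ t, t ≤ -1 → S t = 0 := fun t ht =>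
    Real.smoothTransition.zero_of_nonpos (by linarith)
  have hS1 : ∀ t, 0 ≤ t → S t = 1 := fun t ht =>
    Real.smoothTransition.one_of_one_le (by linarith)
  have hSn : ∀ t, 0 ≤ S t := fun t => Real.smoothTransition.nonneg _
  have hSl : ∀ t, S t ≤ 1 := fun t => Real.smoothTransition.le_one _
  have hSm : Monotone S := fun a b hab =>
    Real.smoothTransition.monotone (by linarith)
  have hSi : ∀ a b, IntervalIntegrable S volume a b := fun a b => hSc.intervalIntegrable a b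
  have hd : ∀ x, HasDerivAt (fun x => ∫ t in (-1:ℝ)..x, S t) (S x) x := fun x =>
    (hSc.integral_hasStrictDerivAt (-1) x).hasDerivAt
  have hdd : deriv (fun x => ∫ t in (-1:ℝ)..x, S t) = S := by
    funext x
    exact (hd x).deriv
  refine ⟨fun x => ∫ t in (-1:ℝ)..x, S t, ?_, ?_, ?_, ?_, ?_⟩
  · rw [contDiff_infty_iff_deriv]
    refine ⟨fun x => (hd x).differentiableAt, ?_⟩
    rw [hdd]
    exact hSs
  · intro x hx
    have h1 : ∫ t in (-1:ℝ)..x, S t = ∫ t in (-1:ℝ)..x, (0:ℝ) := by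
      apply intervalIntegral.integral_congr
      intro t ht
      rw [uIcc_of_ge hx] at ht
      exact hS0 t ht.2
    show ∫ t in (-1:ℝ)..x, S t = 0
    rw [h1, intervalIntegral.integral_zero]
  · intro x
    rw [hdd]
    exact ⟨hSn x, hSl x⟩
  · intro x
    rw [hdd]
    exact hSm.deriv_nonneg
  · intro x
    show max x 0 ≤ ∫ t in (-1:ℝ)..x, S t ∧ ∫ t in (-1:ℝ)..x, S t ≤ max x 0 + 1
    rcases le_total x (-1) with hx | hx
    · have h1 : ∫ t in (-1:ℝ)..x, S t = ∫ t in (-1:ℝ)..x, (0:ℝ) := by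
        apply intervalIntegral.integral_congr
        intro t ht
        rw [uIcc_of_ge hx] at ht
        exact hS0 t ht.2
      rw [h1, intervalIntegral.integral_zero, max_eq_right (by linarith)]
      constructor <;> norm_num
    · have hnn : 0 ≤ ∫ t in (-1:ℝ)..x, S t :=
        intervalIntegral.integral_nonneg hx (fun t _ => hSn t)
      have hup : ∫ t in (-1:ℝ)..x, S t ≤ x + 1 := by
        calc ∫ t in (-1:ℝ)..x, S t ≤ ∫ t in (-1:ℝ)..x, (1:ℝ) :=
              intervalIntegral.integral_mono_on hx (hSi _ _) intervalIntegrable_const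
                (fun t _ => hSl t)
          _ = x + 1 := by
              rw [intervalIntegral.integral_const, smul_eq_mul]
              ring
      refine ⟨max_le ?_ hnn, by linarith [le_max_left x 0]⟩
      rcases le_total x 0 with h0 | h0
      · linarith
      · have hsplit : ∫ t in (-1:ℝ)..x, S t = (∫ t in (-1:ℝ)..0, S t) + ∫ t in (0:ℝ)..x, S t :=
          (intervalIntegral.integral_add_adjacent_intervals (hSi _ _) (hSi _ _)).symm
        have h2 : ∫ t in (0:ℝ)..x, S t = ∫ t in (0:ℝ)..x, (1:ℝ) := by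
          apply intervalIntegral.integral_congr
          intro t ht
          rw [uIcc_of_le h0] at ht
          exact hS1 t ht.1
        have h3 : 0 ≤ ∫ t in (-1:ℝ)..0, S t :=
          intervalIntegral.integral_nonneg (by norm_num) (fun t _ => hSn t)
        rw [hsplit, h2, intervalIntegral.integral_const, smul_eq_mul]
        linarith

theorem glue_D2 {n : ℕ} (ρ : ℝ → ℝ) (hρ : ContDiff ℝ ∞ ρ) (g : Cn n → ℝ) (hg : ContDiff ℝ ∞ g)
    (z w : Cn n) : D2 (fun y => ρ (g y)) z w =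
      deriv (deriv ρ) (g z) * (fderiv ℝ g z w) ^ 2 + deriv ρ (g z) * D2 g z w := by
  have hρd : Differentiable ℝ ρ := (contDiff_infty_iff_deriv.mp hρ).1
  have hρs : ContDiff ℝ ∞ (deriv ρ) := (contDiff_infty_iff_deriv.mp hρ).2
  have hρdd : Differentiable ℝ (deriv ρ) := (contDiff_infty_iff_deriv.mp hρs).1
  have hgd : Differentiable ℝ g := hg.differentiable (by simp)
  have hfg : Differentiable ℝ (fun y => fderiv ℝ g y w) :=
    ((hg.fderiv_right (m := ∞) (by simp)).clm_apply contDiff_const).differentiable (by simp)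
  have h1 : (fun y => fderiv ℝ (fun y => ρ (g y)) y w) =
      fun y => deriv ρ (g y) * fderiv ℝ g y w := by
    funext y
    have hd : HasFDerivAt (fun y => ρ (g y)) (deriv ρ (g y) • fderiv ℝ g y) y :=
      (hρd (g y)).hasDerivAt.comp_hasFDerivAt y (hgd y).hasFDerivAt
    rw [hd.fderiv]
    rfl
  have hA : HasFDerivAt (fun y => deriv ρ (g y)) (deriv (deriv ρ) (g z) • fderiv ℝ g z) z :=
    (hρdd (g z)).hasDerivAt.comp_hasFDerivAt z (hgd z).hasFDerivAt
  have hB := (hfg z).hasFDerivAt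
  have hAB := (hA.mul hB).fderiv
  unfold D2
  rw [h1]
  have h2 : fderiv ℝ (fun y => deriv ρ (g y) * fderiv ℝ g y w) z =
      deriv ρ (g z) • fderiv ℝ (fun y => fderiv ℝ g y w) z +
        fderiv ℝ g z w • (deriv (deriv ρ) (g z) • fderiv ℝ g z) := hAB
  rw [h2]
  simp only [add_apply, smul_apply, smul_eq_mul]
  ring

theorem glue_psh {n : ℕ} (u v : Cn n → ℝ) (hu : Psh u) (hv : Psh v) (ρ : ℝ → ℝ)
    (hρ : ContDiff ℝ ∞ ρ) (h1 : ∀ x, 0 ≤ deriv ρ x ∧ deriv ρ x ≤ 1)
    (h2 : ∀ x, 0 ≤ deriv (deriv ρ) x) : Psh (fun z => v z + ρ (u z - v z)) := by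
  have hg : ContDiff ℝ ∞ (fun z => u z - v z) := hu.1.sub hv.1
  have hρg : ContDiff ℝ ∞ (fun z => ρ (u z - v z)) := hρ.comp hg
  refine ⟨hv.1.add hρg, ?_⟩
  intro z w
  rw [lev_add v (fun z => ρ (u z - v z)) hv.1 hρg z w]
  have h3 : Lev (fun z => ρ (u z - v z)) z w =
      deriv (deriv ρ) (u z - v z) * ((fderiv ℝ (fun z => u z - v z) z w) ^ 2 +
        (fderiv ℝ (fun z => u z - v z) z (I • w)) ^ 2) +
      deriv ρ (u z - v z) * Lev (fun z => u z - v z) z w := by
    unfold Lev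
    rw [glue_D2 ρ hρ (fun z => u z - v z) hg z w, glue_D2 ρ hρ (fun z => u z - v z) hg z (I • w)]
    ring
  have h4 : Lev u z w = Lev v z w + Lev (fun z => u z - v z) z w := by
    rw [← lev_add v (fun z => u z - v z) hv.1 hg z w]
    congr 1
    funext y
    ring
  rw [h3]
  have h5 := hu.2 z w
  have h6 := hv.2 z w
  have h7 := h1 (u z - v z)
  have h8 := h2 (u z - v z)
  have h9 : Lev (fun z => u z - v z) z w = Lev u z w - Lev v z w := by linarith
  rw [h9]
  have h10 : 0 ≤ deriv (deriv ρ) (u z - v z) * ((fderiv ℝ (fun z => u z - v z) z w) ^ 2 +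
        (fderiv ℝ (fun z => u z - v z) z (I • w)) ^ 2) := by positivity
  have h11 : 0 ≤ (1 - deriv ρ (u z - v z)) * Lev v z w := mul_nonneg (by linarith [h7.2]) h6
  have h12 : 0 ≤ deriv ρ (u z - v z) * Lev u z w := mul_nonneg h7.1 h5
  nlinarith

theorem glue_germ {n : ℕ} (θ : Cn n → ℝ) (h : ∀ z, ∃ ψ : Cn n → ℝ, Psh ψ ∧ θ =ᶠ[𝓝 z] ψ) :
    Psh θ := by
  constructor
  · rw [contDiff_iff_contDiffAt]
    intro z
    obtain ⟨ψ, hψ, he⟩ := h z
    exact hψ.1.contDiffAt.congr_of_eventuallyEq he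
  · intro z w
    obtain ⟨ψ, hψ, he⟩ := h z
    have hD : ∀ w, D2 θ z w = D2 ψ z w := by
      intro w
      unfold D2
      have h1 : (fun y => fderiv ℝ θ y w) =ᶠ[𝓝 z] (fun y => fderiv ℝ ψ y w) := by
        filter_upwards [he.fderiv (𝕜 := ℝ)] with y hy
        rw [hy]
      rw [h1.fderiv_eq]
    unfold Lev
    rw [hD, hD]
    exact hψ.2 z w

/-- gluing lemma: regularised maximum inside the ball, `v` outside -/
theorem glue {n : ℕ} (u v : Cn n → ℝ) (hu : Psh u) (hv : Psh v) (r : ℝ)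
    (h : ∀ z, nsq z = r → u z + 1 < v z) :
    ∃ θ : Cn n → ℝ, Psh θ ∧ (∀ z, r ≤ nsq z → θ z = v z) ∧
      (∀ z, nsq z ≤ r → max (u z) (v z) ≤ θ z ∧ θ z ≤ max (u z) (v z) + 1) := by
  obtain ⟨ρ, hρ, hρ0, hρ1, hρ2, hρ3⟩ := glue_rho
  classical
  have hnc : Continuous (nsq (n := n)) := by
    unfold nsq
    fun_prop
  have hψ := glue_psh u v hu hv ρ hρ hρ1 hρ2
  refine ⟨fun z => if nsq z < r then v z + ρ (u z - v z) else v z, ?_, ?_, ?_⟩
  · apply glue_germ
    intro z
    rcases lt_trichotomy (nsq z) r with hz | hz | hz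
    · refine ⟨_, hψ, ?_⟩
      filter_upwards [(isOpen_Iio.preimage hnc).mem_nhds hz] with y hy
      exact if_pos hy
    · refine ⟨v, hv, ?_⟩
      have hop : IsOpen {y | u y + 1 < v y} :=
        isOpen_lt (hu.1.continuous.add continuous_const) hv.1.continuous
      filter_upwards [hop.mem_nhds (h z hz)] with y hy
      split_ifs with hc
      · rw [hρ0 _ (by have : u y + 1 < v y := hy; linarith), add_zero]
      · rfl
    · refine ⟨v, hv, ?_⟩
      filter_upwards [(isOpen_Ioi.preimage hnc).mem_nhds hz] with y hy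
      exact if_neg (not_lt.mpr (le_of_lt hy))
  · intro z hz
    exact if_neg (not_lt.mpr hz)
  · intro z hz
    rcases lt_or_eq_of_le hz with hlt | heq
    · have h1 : (if nsq z < r then v z + ρ (u z - v z) else v z) = v z + ρ (u z - v z) :=
        if_pos hlt
      show max (u z) (v z) ≤ (if nsq z < r then v z + ρ (u z - v z) else v z) ∧
        (if nsq z < r then v z + ρ (u z - v z) else v z) ≤ max (u z) (v z) + 1
      rw [h1]
      have h2 := hρ3 (u z - v z)
      have h3 : max (u z) (v z) = v z + max (u z - v z) 0 := by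
        rcases le_total (u z) (v z) with h4 | h4
        · rw [max_eq_right h4, max_eq_right (by linarith)]
          ring
        · rw [max_eq_left h4, max_eq_left (by linarith)]
          ring
      rw [h3]
      constructor
      · linarith [h2.1]
      · linarith [h2.2]
    · have h1 : (if nsq z < r then v z + ρ (u z - v z) else v z) = v z :=
        if_neg (not_lt.mpr heq.ge)
      show max (u z) (v z) ≤ (if nsq z < r then v z + ρ (u z - v z) else v z) ∧
        (if nsq z < r then v z + ρ (u z - v z) else v z) ≤ max (u z) (v z) + 1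
      rw [h1]
      have h2 := h z heq
      rw [max_eq_right (by linarith)]
      constructor <;> linarith

end J_glue

alias glue := J_glue.glue

namespace J_exists_weight

theorem exists_weight_nsq0 {n : ℕ} (z : Cn n) : 0 ≤ nsq z :=
  Finset.sum_nonneg fun _ _ => by positivity

theorem exists_weight_r1 (a s : ℝ) (ha : 0 < a) : a * (1 + s - Real.log a) ≤ Real.exp s := by
  have h := Real.add_one_le_exp (s - Real.log a)
  rw [Real.exp_sub, Real.exp_log ha] at h
  have h2 := mul_le_mul_of_nonneg_left h ha.le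
  rw [mul_div_cancel₀ _ ha.ne'] at h2
  linarith

theorem exists_weight_sqrt (x : ℝ) (hx : 0 ≤ x) :
    Real.exp ((1 / 2) * Real.log (1 + x)) = Real.sqrt (1 + x) := by
  have h1 : 0 < 1 + x := by linarith
  rw [Real.sqrt_eq_rpow, Real.rpow_def_of_pos h1, mul_comm]

theorem exists_weight_W (C C1 q y : ℝ) (hC : 0 ≤ C) (hC1 : C1 ≤ C) (hq : 0 ≤ q) (hy : 0 ≤ y)
    (h : y ≤ Real.exp (C1 * (1 + q))) : (1 / 2) * Real.log (1 + y ^ 2) ≤ C * (1 + q) + 1 := by
  have h1 : y ≤ Real.exp (C * (1 + q)) := by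
    refine h.trans (Real.exp_le_exp.mpr ?_)
    exact mul_le_mul_of_nonneg_right hC1 (by linarith)
  have h2 : y ^ 2 ≤ Real.exp (C * (1 + q)) ^ 2 := pow_le_pow_left₀ hy h1 2
  have h3 : (1 : ℝ) ≤ Real.exp (C * (1 + q)) := Real.one_le_exp (by positivity)
  have h4 : 1 + y ^ 2 ≤ 2 * Real.exp (C * (1 + q)) ^ 2 := by nlinarith
  have h5 : Real.log (1 + y ^ 2) ≤ Real.log (2 * Real.exp (C * (1 + q)) ^ 2) :=
    Real.log_le_log (by positivity) h4
  rw [Real.log_mul two_ne_zero (by positivity), Real.log_pow, Real.log_exp] at h5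
  have h6 := Real.log_two_lt_d9
  push_cast at h5
  linarith

theorem exists_weight_gap (C ε ρ N W s : ℝ) (hC : 0 ≤ C) (hε : 0 < ε) (hN1 : 1 ≤ N)
    (hN : 10 * C ≤ ε * N) (hρ : 4 * (C + 3) ≤ ε * ρ) (hρ0 : 0 < ρ) (hW : W ≤ C * (1 + ρ) + 1)
    (hs : Real.log ρ ≤ s) :
    W / N + 1 < ε * (ρ * (1 + s - Real.log ρ) - (ρ / 4) * (1 + s - Real.log (ρ / 4))) := by
  have hN0 : 0 < N := by linarith
  have h1 : W / N ≤ (C + 1) + ε * ρ / 10 := by
    rw [div_le_iff₀ hN0]
    have h2 : C * ρ ≤ ε * ρ / 10 * N := by nlinarith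
    have h3 : C + 1 ≤ (C + 1) * N := by nlinarith
    nlinarith
  have hlog4 : Real.log 4 ≤ 1.4 := by
    have : (4 : ℝ) = 2 ^ 2 := by norm_num
    rw [this, Real.log_pow]
    have := Real.log_two_lt_d9
    push_cast
    linarith
  have h4 : Real.log (ρ / 4) = Real.log ρ - Real.log 4 := Real.log_div hρ0.ne' (by norm_num)
  rw [h4]
  have h5 : ρ * (0.4 : ℝ) ≤ ρ * (1 + s - Real.log ρ) -
      (ρ / 4) * (1 + s - (Real.log ρ - Real.log 4)) := by
    have h6 : ρ * (1 + s - Real.log ρ) - (ρ / 4) * (1 + s - (Real.log ρ - Real.log 4)) =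
        ρ * ((3 / 4) * (1 + (s - Real.log ρ)) - Real.log 4 / 4) := by ring
    rw [h6]
    apply mul_le_mul_of_nonneg_left _ hρ0.le
    linarith
  have h7 := mul_le_mul_of_nonneg_left h5 hε.le
  nlinarith

/-- the functions of the chain -/
noncomputable def ewU {n : ℕ} (g : Cn n → ℂ) (ε R : ℝ) (N k : ℕ) (z : Cn n) : ℝ :=
  (1 - (k : ℝ) / N) * ((1 / 2) * Real.log (1 + ‖g z‖ ^ 2)) +
    ((ε * (4 ^ k * R) * (1 / 2)) * Real.log (1 + nsq z) +
      ε * (4 ^ k * R) * (1 - Real.log (4 ^ k * R)))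

theorem exists_weight_psh {n : ℕ} (g : Cn n → ℂ) (hg : Differentiable ℂ g) (ε R : ℝ) (hε : 0 < ε)
    (hR : 0 < R) (N k : ℕ) (hk : k ≤ N) : Psh (ewU g ε R N k) := by
  have h1 : Psh (fun z : Cn n => Real.log (1 + nsq z)) := by
    refine ⟨(lev_log_nsq n).1, fun z w => le_trans ?_ ((lev_log_nsq n).2 z w)⟩
    have := exists_weight_nsq0 w
    positivity
  have ht : (0 : ℝ) ≤ 1 - (k : ℝ) / N := by
    rcases Nat.eq_zero_or_pos N with h0 | h0
    · subst h0
      simp
    · have h2 : (0 : ℝ) < N := by exact_mod_cast h0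
      have h3 : (k : ℝ) ≤ N := by exact_mod_cast hk
      rw [sub_nonneg, div_le_one h2]
      exact h3
  exact psh_add _ _ (psh_smul _ ht _ (psh_smul _ (by norm_num) _ (psh_log_norm g hg)))
    (psh_add _ _ (psh_smul _ (by positivity) _ h1) (psh_const _))

theorem exists_weight_up {n : ℕ} (g : Cn n → ℂ) (ε R : ℝ) (hε : 0 < ε)
    (hR : 0 < R) (N k : ℕ) (z : Cn n) : ewU g ε R N k z ≤
      (1 - (k : ℝ) / N) * ((1 / 2) * Real.log (1 + ‖g z‖ ^ 2)) + ε * Real.sqrt (1 + nsq z) := by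
  unfold ewU
  have h1 := exists_weight_r1 (4 ^ k * R) ((1 / 2) * Real.log (1 + nsq z)) (by positivity)
  rw [exists_weight_sqrt _ (exists_weight_nsq0 z)] at h1
  have h2 := mul_le_mul_of_nonneg_left h1 hε.le
  nlinarith

theorem exists_weight_step {n : ℕ} (g : Cn n → ℂ) (C1 C : ℝ)
    (hg : ∀ z, ‖g z‖ ≤ Real.exp (C1 * (1 + Real.sqrt (nsq z)))) (ε R : ℝ) (hε : 0 < ε)
    (hR : 0 < R) (hC : 0 ≤ C) (hC1 : C1 ≤ C) (N k : ℕ) (hN1 : 1 ≤ N) (hN : 10 * C ≤ ε * N)
    (hRC : C + 3 ≤ ε * R) (z : Cn n) (hz : nsq z = (4 ^ (k + 1) * R) ^ 2) :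
    ewU g ε R N k z + 1 < ewU g ε R N (k + 1) z := by
  set ρ := 4 ^ (k + 1) * R with hρ
  have hρ0 : 0 < ρ := by positivity
  have hRρ : 4 * R ≤ ρ := by
    have h1 : (1 : ℝ) ≤ 4 ^ k := one_le_pow₀ (by norm_num)
    rw [hρ, pow_succ]
    nlinarith
  have hρ4 : 4 ^ k * R = ρ / 4 := by
    rw [hρ, pow_succ]
    ring
  have hsq : Real.sqrt (nsq z) = ρ := by
    rw [hz, Real.sqrt_sq hρ0.le]
  have hW := exists_weight_W C C1 (Real.sqrt (nsq z)) ‖g z‖ hC hC1 (Real.sqrt_nonneg _)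
    (norm_nonneg _) (hg z)
  rw [hsq] at hW
  have hs : Real.log ρ ≤ (1 / 2) * Real.log (1 + nsq z) := by
    have h1 : Real.log (ρ ^ 2) ≤ Real.log (1 + nsq z) := by
      apply Real.log_le_log (by positivity)
      rw [hz]
      linarith
    rw [Real.log_pow] at h1
    push_cast at h1
    linarith
  have hN1' : (1 : ℝ) ≤ N := by exact_mod_cast hN1
  have hgap := exists_weight_gap C ε ρ N _ _ hC hε hN1' hN (by nlinarith) hρ0 hW hs
  unfold ewU
  rw [← hρ, hρ4]
  push_cast
  have hN0 : (N : ℝ) ≠ 0 := by positivity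
  have e1 : (1 - ((k : ℝ) + 1) / N) * ((1 / 2) * Real.log (1 + ‖g z‖ ^ 2)) =
      (1 - (k : ℝ) / N) * ((1 / 2) * Real.log (1 + ‖g z‖ ^ 2)) -
        ((1 / 2) * Real.log (1 + ‖g z‖ ^ 2)) / N := by
    field_simp
    ring
  rw [e1]
  nlinarith [hgap]

theorem exists_weight_ind {n : ℕ} (g : Cn n → ℂ) (hgd : Differentiable ℂ g) (C1 C : ℝ)
    (hg : ∀ z, ‖g z‖ ≤ Real.exp (C1 * (1 + Real.sqrt (nsq z)))) (ε R : ℝ) (hε : 0 < ε)
    (hR : 0 < R) (hC : 0 ≤ C) (hC1 : C1 ≤ C) (N : ℕ) (hN1 : 1 ≤ N) (hN : 10 * C ≤ ε * N)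
    (hRC : C + 3 ≤ ε * R) : ∀ j : ℕ, j ≤ N → ∃ θ : Cn n → ℝ, Psh θ ∧
      (∀ z, nsq z ≤ (4 ^ (N - j + 1) * R) ^ 2 → ewU g ε R N (N - j) z ≤ θ z) ∧
      (∀ z, ∃ i, i ≤ N ∧ θ z ≤ ewU g ε R N i z + j) ∧
      (∀ z, (4 ^ N * R) ^ 2 ≤ nsq z → θ z = ewU g ε R N N z) := by
  intro j
  induction j with
  | zero =>
    intro _
    refine ⟨ewU g ε R N N, exists_weight_psh g hgd ε R hε hR N N le_rfl, ?_, ?_, ?_⟩
    · intro z _
      exact le_rfl
    · intro z
      exact ⟨N, le_rfl, by simp⟩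
    · intro z _
      rfl
  | succ j ih =>
    intro hj
    obtain ⟨θ, hθ, h1, h2, h3⟩ := ih (by omega)
    obtain ⟨k, hk⟩ : ∃ k, N = k + (j + 1) := ⟨N - (j + 1), by omega⟩
    have hk1 : N - (j + 1) = k := by omega
    have hk2 : N - j = k + 1 := by omega
    rw [hk1]
    rw [hk2] at h1
    have hmono : ∀ a b : ℕ, a ≤ b → (4 ^ a * R) ^ 2 ≤ (4 ^ b * R) ^ 2 := by
      intro a b hab
      apply pow_le_pow_left₀ (by positivity)
      apply mul_le_mul_of_nonneg_right _ hR.le
      exact pow_le_pow_right₀ (by norm_num) hab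
    obtain ⟨η, hη, g1, g2⟩ := glue (ewU g ε R N k) θ
      (exists_weight_psh g hgd ε R hε hR N k (by omega)) hθ ((4 ^ (k + 1) * R) ^ 2) (by
        intro z hz
        have e1 := exists_weight_step g C1 C hg ε R hε hR hC hC1 N k hN1 hN hRC z hz
        refine lt_of_lt_of_le e1 (h1 z ?_)
        rw [hz]
        exact hmono _ _ (by omega))
    refine ⟨η, hη, ?_, ?_, ?_⟩
    · intro z hz
      exact (le_max_left _ _).trans (g2 z hz).1
    · intro z
      obtain ⟨i, hi, hi2⟩ := h2 z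
      rcases le_total (nsq z) ((4 ^ (k + 1) * R) ^ 2) with hz | hz
      · obtain ⟨-, g3⟩ := g2 z hz
        rcases le_total (ewU g ε R N k z) (θ z) with hm | hm
        · rw [max_eq_right hm] at g3
          refine ⟨i, hi, ?_⟩
          push_cast
          linarith
        · rw [max_eq_left hm] at g3
          refine ⟨k, by omega, ?_⟩
          push_cast
          have : (0 : ℝ) ≤ j := by positivity
          linarith
      · rw [g1 z hz]
        refine ⟨i, hi, ?_⟩
        push_cast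
        linarith
    · intro z hz
      rw [g1 z ((hmono _ _ (by omega)).trans hz)]
      exact h3 z hz

/-- the weight -/
theorem exists_weight {n : ℕ} (g : Cn n → ℂ) (hg : Differentiable ℂ g) (C1 : ℝ)
    (hC : ∀ z, ‖g z‖ ≤ Real.exp (C1 * (1 + Real.sqrt (nsq z)))) (ε : ℝ) (hε : 0 < ε) :
    ∃ (N : ℕ) (R0 : ℝ), ∀ R : ℝ, R0 ≤ R → 0 < R → ∃ θ : Cn n → ℝ, Psh θ ∧
      (∀ z, ∃ t : ℝ, 0 ≤ t ∧ t ≤ 1 ∧
        θ z ≤ t * ((1 / 2) * Real.log (1 + ‖g z‖ ^ 2)) + ε * Real.sqrt (1 + nsq z) + N) ∧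
      (∀ z, R ^ 2 ≤ nsq z → nsq z ≤ 4 * R ^ 2 →
        (1 / 2) * Real.log (1 + ‖g z‖ ^ 2) + ε * R ≤ θ z) ∧
      ∃ B : ℝ, ∀ z, θ z ≤ B + B * Real.log (1 + nsq z) := by
  set C := |C1| with hCdef
  have hC0 : 0 ≤ C := abs_nonneg _
  have hC1 : C1 ≤ C := le_abs_self _
  refine ⟨⌈10 * C / ε⌉₊ + 1, (C + 3) / ε, ?_⟩
  intro R hR0 hR
  set N := ⌈10 * C / ε⌉₊ + 1 with hNdef
  have hN1 : 1 ≤ N := by omega
  have hN : 10 * C ≤ ε * N := by
    have h1 := Nat.le_ceil (10 * C / ε)
    rw [div_le_iff₀ hε] at h1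
    rw [hNdef]
    push_cast
    nlinarith
  have hRC : C + 3 ≤ ε * R := by
    rw [div_le_iff₀ hε] at hR0
    linarith
  obtain ⟨θ, hθ, h1, h2, h3⟩ := exists_weight_ind g hg C1 C hC ε R hε hR hC0 hC1 N hN1 hN hRC N
    le_rfl
  rw [Nat.sub_self] at h1
  have hNpos : (0 : ℝ) < N := by exact_mod_cast (by omega : 0 < N)
  have ht : ∀ i : ℕ, i ≤ N → 0 ≤ 1 - (i : ℝ) / N ∧ 1 - (i : ℝ) / N ≤ 1 := by
    intro i hi
    have h5 : (i : ℝ) ≤ N := by exact_mod_cast hi
    refine ⟨?_, ?_⟩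
    · rw [sub_nonneg, div_le_one hNpos]
      exact h5
    · have : 0 ≤ (i : ℝ) / N := by positivity
      linarith
  refine ⟨θ, hθ, ?_, ?_, ?_⟩
  · intro z
    obtain ⟨i, hi, hi2⟩ := h2 z
    refine ⟨1 - (i : ℝ) / N, (ht i hi).1, (ht i hi).2, ?_⟩
    have h4 := exists_weight_up g ε R hε hR N i z
    linarith
  · intro z hz1 hz2
    have h4 := h1 z (by
      have : (4 ^ (0 + 1) * R) ^ 2 = 16 * R ^ 2 := by ring
      rw [this]
      nlinarith [sq_nonneg R])
    refine le_trans ?_ h4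
    unfold ewU
    have hs : Real.log R ≤ (1 / 2) * Real.log (1 + nsq z) := by
      have h5 : Real.log (R ^ 2) ≤ Real.log (1 + nsq z) := by
        apply Real.log_le_log (by positivity)
        linarith
      rw [Real.log_pow] at h5
      push_cast at h5
      linarith
    have h6 : (0 : ℝ) < ε * R := by positivity
    simp only [pow_zero, one_mul, Nat.cast_zero, zero_div, sub_zero]
    nlinarith
  · set ρ := (4 : ℝ) ^ N * R with hρ
    have hρ0 : 0 < ρ := by positivity
    refine ⟨(C * (1 + ρ) + 1 + ε * Real.sqrt (1 + ρ ^ 2) + N) +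
      (ε * ρ * (1 / 2) + |ε * ρ * (1 - Real.log ρ)|), fun z => ?_⟩
    set B1 := C * (1 + ρ) + 1 + ε * Real.sqrt (1 + ρ ^ 2) + N with hB1
    have hB10 : 0 ≤ B1 := by positivity
    have hlog : 0 ≤ Real.log (1 + nsq z) := Real.log_nonneg (by linarith [exists_weight_nsq0 z])
    rcases le_total (nsq z) (ρ ^ 2) with hz | hz
    · obtain ⟨i, hi, hi2⟩ := h2 z
      have h4 := exists_weight_up g ε R hε hR N i z
      have hsq : Real.sqrt (nsq z) ≤ ρ := by
        rw [Real.sqrt_le_left hρ0.le]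
        exact hz
      have hW := exists_weight_W C C1 (Real.sqrt (nsq z)) ‖g z‖ hC0 hC1 (Real.sqrt_nonneg _)
        (norm_nonneg _) (hC z)
      have hW0 : 0 ≤ (1 / 2) * Real.log (1 + ‖g z‖ ^ 2) := by
        have : 0 ≤ Real.log (1 + ‖g z‖ ^ 2) := Real.log_nonneg (by
          have : 0 ≤ ‖g z‖ ^ 2 := by positivity
          linarith)
        positivity
      have h5 : (1 - (i : ℝ) / N) * ((1 / 2) * Real.log (1 + ‖g z‖ ^ 2)) ≤ C * (1 + ρ) + 1 := by
        have h6 : (1 - (i : ℝ) / N) * ((1 / 2) * Real.log (1 + ‖g z‖ ^ 2)) ≤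
            1 * ((1 / 2) * Real.log (1 + ‖g z‖ ^ 2)) :=
          mul_le_mul_of_nonneg_right (ht i hi).2 hW0
        have h7 : C * (1 + Real.sqrt (nsq z)) ≤ C * (1 + ρ) :=
          mul_le_mul_of_nonneg_left (by linarith) hC0
        linarith
      have h6 : ε * Real.sqrt (1 + nsq z) ≤ ε * Real.sqrt (1 + ρ ^ 2) :=
        mul_le_mul_of_nonneg_left (Real.sqrt_le_sqrt (by linarith)) hε.le
      have h7 : θ z ≤ B1 := by
        rw [hB1]
        linarith
      have h8 : 0 ≤ ε * ρ * (1 / 2) + |ε * ρ * (1 - Real.log ρ)| := by positivity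
      have h9 : 0 ≤ (B1 + (ε * ρ * (1 / 2) + |ε * ρ * (1 - Real.log ρ)|)) *
        Real.log (1 + nsq z) := by positivity
      linarith
    · rw [h3 z hz]
      unfold ewU
      rw [← hρ]
      have h4 : (1 - (N : ℝ) / N) = 0 := by
        rw [div_self hNpos.ne', sub_self]
      rw [h4, zero_mul, zero_add]
      have h5 := le_abs_self (ε * ρ * (1 - Real.log ρ))
      have h6 : 0 ≤ |ε * ρ * (1 - Real.log ρ)| := abs_nonneg _
      have h7 : 0 ≤ ε * ρ * (1 / 2) := by positivity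
      have h8 : (ε * ρ * (1 / 2)) * Real.log (1 + nsq z) ≤
          (B1 + (ε * ρ * (1 / 2) + |ε * ρ * (1 - Real.log ρ)|)) * Real.log (1 + nsq z) :=
        mul_le_mul_of_nonneg_right (by linarith) hlog
      linarith

end J_exists_weight

alias exists_weight := J_exists_weight.exists_weight

end Pool.Agent.Helper192.Syn
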