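import Pool.Agent.Helper192.Syn.H3

/-! growth of entire functions -/

set_option linter.all false

open MeasureTheory Set Filter Topology Complex
open scoped BigOperators ContDiff ComplexConjugate

namespace Pool.Agent.Helper192.Syn

namespace J_poly_of_growth

theorem poly_of_growth_one (N : ℕ) : ∀ f : ℂ → ℂ, Differentiable ℂ f → ∀ C : ℝ,
    (∀ t, ‖f t‖ ≤ C * (1 + ‖t‖) ^ N) →
    ∃ p : Polynomial ℂ, p.natDegree ≤ N ∧ ∀ t, f t = p.eval t := by
  induction N with
  | zero =>
    intro f hf C hb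
    refine ⟨Polynomial.C (f 0), by simp, fun t => ?_⟩
    rw [Polynomial.eval_C]
    refine hf.apply_eq_apply_of_bounded ?_ t 0
    rw [isBounded_iff_forall_norm_le]
    refine ⟨C, ?_⟩
    rintro _ ⟨t, rfl⟩
    simpa using hb t
  | succ N ih =>
    intro f hf C hb
    have hC0 : ‖f 0‖ ≤ C := by simpa using hb 0
    have hC : 0 ≤ C := (norm_nonneg _).trans hC0
    have hg : Differentiable ℂ (dslope f 0) := by
      have := (Complex.differentiableOn_dslope (f := f) (s := univ) (c := 0) univ_mem).mpr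
        hf.differentiableOn
      exact differentiableOn_univ.mp this
    obtain ⟨B, hB⟩ := (isCompact_closedBall (0:ℂ) 1).exists_bound_of_continuousOn
      hg.continuous.continuousOn
    have hB0 : 0 ≤ B := (norm_nonneg _).trans (hB 0 (by simp))
    obtain ⟨p, hp, hpe⟩ := ih (dslope f 0) hg (2 * C + ‖f 0‖ + B) (by
      intro t
      have h1 : (1:ℝ) ≤ (1 + ‖t‖) ^ N := one_le_pow₀ (by linarith [norm_nonneg t])
      by_cases ht : ‖t‖ ≤ 1
      · have h2 := hB t (by simpa using ht)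
        calc ‖dslope f 0 t‖ ≤ B := h2
          _ ≤ (2 * C + ‖f 0‖ + B) * 1 := by linarith [norm_nonneg (f 0)]
          _ ≤ _ := mul_le_mul_of_nonneg_left h1 (by positivity)
      · push Not at ht
        have ht0 : 0 < ‖t‖ := by linarith
        have h2 : ‖t‖ * ‖dslope f 0 t‖ ≤ C * (1 + ‖t‖) ^ (N+1) + ‖f 0‖ := by
          have h3 := sub_smul_dslope f 0 t
          rw [sub_zero, smul_eq_mul] at h3
          rw [← norm_mul, h3]
          exact (norm_sub_le _ _).trans (by linarith [hb t])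
        have h4 : C * (1 + ‖t‖) ^ (N+1) ≤ ‖t‖ * (2 * C * (1 + ‖t‖) ^ N) := by
          rw [pow_succ]
          have : (1 + ‖t‖) ≤ 2 * ‖t‖ := by linarith
          have h5 : 0 ≤ C * (1 + ‖t‖) ^ N := by positivity
          nlinarith
        have h6 : ‖f 0‖ ≤ ‖t‖ * (‖f 0‖ * (1 + ‖t‖) ^ N) := by
          have h7 : ‖f 0‖ ≤ ‖f 0‖ * (1 + ‖t‖) ^ N := le_mul_of_one_le_right (norm_nonneg _) h1
          have h8 : ‖f 0‖ * (1 + ‖t‖) ^ N ≤ ‖t‖ * (‖f 0‖ * (1 + ‖t‖) ^ N) :=
            le_mul_of_one_le_left (by positivity) ht.le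
          linarith
        have h9 : ‖t‖ * ‖dslope f 0 t‖ ≤ ‖t‖ * ((2 * C + ‖f 0‖) * (1 + ‖t‖) ^ N) := by
          calc _ ≤ _ := h2
            _ ≤ ‖t‖ * (2 * C * (1 + ‖t‖) ^ N) + ‖t‖ * (‖f 0‖ * (1 + ‖t‖) ^ N) := by linarith
            _ = _ := by ring
        have h10 := le_of_mul_le_mul_left h9 ht0
        refine h10.trans ?_
        exact mul_le_mul_of_nonneg_right (by linarith) (by positivity))
    refine ⟨Polynomial.C (f 0) + Polynomial.X * p, ?_, fun t => ?_⟩
    · refine Polynomial.natDegree_add_le_of_degree_le (by simp) ?_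
      refine Polynomial.natDegree_mul_le.trans ?_
      have := Polynomial.natDegree_X_le (R := ℂ)
      omega
    · rw [Polynomial.eval_add, Polynomial.eval_C, Polynomial.eval_mul, Polynomial.eval_X, ← hpe t]
      have h3 := sub_smul_dslope f 0 t
      rw [sub_zero, smul_eq_mul] at h3
      rw [h3]; ring

/-- entire functions of polynomial growth are polynomials -/
theorem poly_of_growth {n : ℕ} (h : Cn n → ℂ) (hh : Differentiable ℂ h) (C : ℝ) (N : ℕ)
    (hb : ∀ z, ‖h z‖ ≤ C * (1 + ‖z‖) ^ N) :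
    ∃ P : MvPolynomial (Fin n) ℂ, ∀ z, h z = MvPolynomial.eval z P := by
  induction n generalizing C with
  | zero =>
    refine ⟨MvPolynomial.C (h 0), fun z => ?_⟩
    rw [MvPolynomial.eval_C, Subsingleton.elim z 0]
  | succ n ih =>
    classical
    have hC : 0 ≤ C := by
      have := hb 0
      simp at this
      exact (norm_nonneg _).trans this
    have hcons : ∀ t : ℂ, Differentiable ℂ (fun z : Cn n => (Fin.cons t z : Cn (n+1))) := by
      intro t
      rw [differentiable_pi]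
      intro i
      refine Fin.cases ?_ (fun i => ?_) i
      · simp only [Fin.cons_zero]; exact differentiable_const _
      · simp only [Fin.cons_succ]; exact differentiable_apply i
    have hcons2 : ∀ z : Cn n, Differentiable ℂ (fun t : ℂ => (Fin.cons t z : Cn (n+1))) := by
      intro z
      rw [differentiable_pi]
      intro i
      refine Fin.cases ?_ (fun i => ?_) i
      · simp only [Fin.cons_zero]; exact differentiable_id
      · simp only [Fin.cons_succ]; exact differentiable_const _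
    have hnorm : ∀ (t : ℂ) (z : Cn n), 1 + ‖(Fin.cons t z : Cn (n+1))‖ ≤ (1 + ‖t‖) * (1 + ‖z‖) := by
      intro t z
      have : ‖(Fin.cons t z : Cn (n+1))‖ ≤ ‖t‖ + ‖z‖ := by
        rw [pi_norm_le_iff_of_nonneg (by positivity)]
        intro i
        refine Fin.cases ?_ (fun i => ?_) i
        · simp only [Fin.cons_zero]; linarith [norm_nonneg z]
        · simp only [Fin.cons_succ]; linarith [norm_nonneg t, norm_le_pi_norm z i]
      nlinarith [norm_nonneg t, norm_nonneg z, mul_nonneg (norm_nonneg t) (norm_nonneg z)]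
    have hbd : ∀ (t : ℂ) (z : Cn n), ‖h (Fin.cons t z)‖ ≤ C * ((1 + ‖t‖) ^ N * (1 + ‖z‖) ^ N) := by
      intro t z
      refine (hb _).trans (mul_le_mul_of_nonneg_left ?_ hC)
      rw [← mul_pow]
      exact pow_le_pow_left₀ (by positivity) (hnorm t z) N
    have hP : ∀ t : ℂ, ∃ P : MvPolynomial (Fin n) ℂ, ∀ z : Cn n,
        h (Fin.cons t z) = MvPolynomial.eval z P := by
      intro t
      refine ih (fun z => h (Fin.cons t z)) (hh.comp (hcons t)) (C := C * (1 + ‖t‖) ^ N) ?_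
      intro z
      rw [mul_assoc]
      exact hbd t z
    choose P hP using hP
    let s : Finset ℕ := Finset.range (N + 1)
    let v : ℕ → ℂ := fun k => (k : ℂ)
    refine ⟨∑ k ∈ s, MvPolynomial.rename Fin.succ (P (v k)) *
      Polynomial.aeval (MvPolynomial.X 0 : MvPolynomial (Fin (n+1)) ℂ) (Lagrange.basis s v k), ?_⟩
    intro z
    obtain ⟨p, hp, hpe⟩ := poly_of_growth_one N (fun t => h (Fin.cons t (Fin.tail z)))
      (hh.comp (hcons2 _)) (C * (1 + ‖Fin.tail z‖) ^ N) (by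
        intro t
        refine (hbd t _).trans (le_of_eq ?_)
        ring)
    have hinj : Set.InjOn v s := by
      intro a _ b _ hab
      exact Nat.cast_injective hab
    have hdeg : p.degree < s.card := by
      rw [Finset.card_range]
      refine lt_of_le_of_lt Polynomial.degree_le_natDegree ?_
      exact_mod_cast Nat.lt_succ_of_le hp
    have hint := Lagrange.eq_interpolate (f := p) hinj hdeg
    have hz : h z = p.eval (z 0) := by
      rw [← hpe (z 0), Fin.cons_self_tail]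
    rw [hz, hint, Lagrange.interpolate_apply, Polynomial.eval_finsetSum, map_sum]
    refine Finset.sum_congr rfl fun k _ => ?_
    rw [Polynomial.eval_mul, Polynomial.eval_C, map_mul, MvPolynomial.eval_rename]
    congr 1
    · rw [← hpe (v k), hP]
      rfl
    · have h2 : MvPolynomial.eval z (Polynomial.aeval (MvPolynomial.X 0 : MvPolynomial (Fin (n+1)) ℂ)
        (Lagrange.basis s v k)) = (MvPolynomial.aeval z : MvPolynomial (Fin (n+1)) ℂ →ₐ[ℂ] ℂ)
          (Polynomial.aeval (MvPolynomial.X 0 : MvPolynomial (Fin (n+1)) ℂ) (Lagrange.basis s v k)) := by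
        rw [MvPolynomial.aeval_eq_eval]
      rw [h2, ← Polynomial.aeval_algHom_apply]
      simp

end J_poly_of_growth

alias poly_of_growth := J_poly_of_growth.poly_of_growth

namespace J_sup_of_L2

/-- sub mean value inequality -/
theorem sup_of_L2 (n : ℕ) : ∃ C : ℝ, ∀ (h : Cn n → ℂ) (z : Cn n), Differentiable ℂ h →
    ‖h z‖ ^ 2 ≤ C * ∫ w in Metric.closedBall z 1, ‖h w‖ ^ 2 := by
  obtain ⟨ρ, h1, h2, h3, h4, h5, h6⟩ := exists_moll n
  have hc : Continuous (ρ 0) := (h1 0).continuous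
  have hz0 : ∀ z : Cn n, 1 < ‖z‖ → ρ 0 z = 0 := by
    intro z hz
    apply h4 0 z
    simpa using hz
  have hcs : HasCompactSupport (ρ 0) := by
    apply HasCompactSupport.intro (isCompact_closedBall (0 : Cn n) 1)
    intro x hx
    apply hz0
    rw [Metric.mem_closedBall, dist_zero_right, not_le] at hx
    exact hx
  obtain ⟨C, hC⟩ := hcs.exists_bound_of_continuous hc
  refine ⟨C, fun h z hh => ?_⟩
  have hmv := mean_value (fun w => h w ^ 2) (hh.pow 2) (ρ 0) hc hcs (h3 0) (h5 0) z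
  have htr := integral_add_left_eq_self (μ := (volume : Measure (Cn n)))
    (fun w => (ρ 0 (w - z) : ℂ) * h w ^ 2) z
  simp only [add_sub_cancel_left] at htr
  rw [htr] at hmv
  have hset : ∫ w in Metric.closedBall z 1, (ρ 0 (w - z) : ℂ) * h w ^ 2 =
      ∫ w, (ρ 0 (w - z) : ℂ) * h w ^ 2 := by
    apply setIntegral_eq_integral_of_forall_compl_eq_zero
    intro x hx
    rw [Metric.mem_closedBall, dist_eq_norm, not_le] at hx
    rw [hz0 _ hx]
    simp
  have hint : IntegrableOn (fun w => C * ‖h w‖ ^ 2) (Metric.closedBall z 1) := by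
    apply ContinuousOn.integrableOn_compact (isCompact_closedBall z 1)
    exact (continuous_const.mul ((hh.continuous.norm).pow 2)).continuousOn
  have hle := norm_integral_le_of_norm_le (μ := volume.restrict (Metric.closedBall z 1))
    (f := fun w => (ρ 0 (w - z) : ℂ) * h w ^ 2) (g := fun w => C * ‖h w‖ ^ 2) hint
    (Filter.Eventually.of_forall fun w => by
      simp only [norm_mul, norm_pow, Complex.norm_real]
      exact mul_le_mul_of_nonneg_right (hC _) (by positivity))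
  rw [hset, hmv, norm_pow, integral_const_mul] at hle
  exact hle

end J_sup_of_L2

alias sup_of_L2 := J_sup_of_L2.sup_of_L2

namespace J_quot_one

theorem h940_step (φ : ℂ → ℂ) (hφ : Differentiable ℂ φ) (R : ℝ) (hR : 0 < R) (a : ℂ)
    (ha : 2 * ‖a‖ ≤ R) (hza : φ a = 0) (h0 : φ 0 ≠ 0) :
    ∃ φ' : ℂ → ℂ, Differentiable ℂ φ' ∧ (∀ z, ‖z‖ = R → ‖φ' z‖ = ‖φ z‖) ∧ 2 * ‖φ 0‖ ≤ ‖φ' 0‖ := by
  have ha0 : a ≠ 0 := by
    rintro rfl
    exact h0 hza
  have hd : Differentiable ℂ (dslope φ a) := by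
    rw [← differentiableOn_univ]
    exact (Complex.differentiableOn_dslope Filter.univ_mem).2 (differentiableOn_univ.2 hφ)
  refine ⟨fun z => (((R : ℂ) ^ 2 - conj a * z) / R) * dslope φ a z, ?_, ?_, ?_⟩
  · refine Differentiable.mul ?_ hd
    fun_prop
  · intro z hz
    have hne : z ≠ a := by
      rintro rfl
      have : 0 < ‖z‖ := norm_pos_iff.2 ha0
      linarith
    have hne' : z - a ≠ 0 := sub_ne_zero.2 hne
    have h1 : dslope φ a z = φ z / (z - a) := by
      rw [dslope_of_ne _ hne, slope_def_field, hza, sub_zero]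
    have h2 : ((R : ℂ) ^ 2 - conj a * z) = z * conj (z - a) := by
      have h3 : z * conj z = (R : ℂ) ^ 2 := by
        rw [Complex.mul_conj, Complex.normSq_eq_norm_sq, hz]
        push_cast; ring
      rw [map_sub, mul_sub, h3]; ring
    change ‖(((R : ℂ) ^ 2 - conj a * z) / R) * dslope φ a z‖ = _
    rw [h1, h2, norm_mul, norm_div, norm_mul, norm_div, RCLike.norm_conj, hz, Complex.norm_real,
      Real.norm_of_nonneg hR.le]
    have h4 : ‖z - a‖ ≠ 0 := norm_ne_zero_iff.2 hne'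
    field_simp
  · have h1 : dslope φ a 0 = φ 0 / (0 - a) := by
      rw [dslope_of_ne _ ha0.symm, slope_def_field, hza, sub_zero]
    change _ ≤ ‖(((R : ℂ) ^ 2 - conj a * 0) / R) * dslope φ a 0‖
    have h2 : ((R : ℂ) ^ 2 - conj a * 0) / R = R := by
      have : (R : ℂ) ≠ 0 := by exact_mod_cast hR.ne'
      rw [mul_zero, sub_zero]; field_simp
    rw [h1, h2, zero_sub, norm_mul, norm_div, norm_neg, Complex.norm_real, Real.norm_of_nonneg hR.le]
    have h3 : 0 < ‖a‖ := norm_pos_iff.2 ha0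
    rw [← mul_div_assoc, le_div_iff₀ h3]
    have := norm_nonneg (φ 0)
    nlinarith

theorem h940_max (f : ℂ → ℂ) (hf : Differentiable ℂ f) (R M : ℝ) (hR : 0 < R)
    (h : ∀ z, ‖z‖ = R → ‖f z‖ ≤ M) (z : ℂ) (hz : ‖z‖ ≤ R) : ‖f z‖ ≤ M := by
  refine Complex.norm_le_of_forall_mem_frontier_norm_le (U := Metric.ball 0 R) Metric.isBounded_ball
    hf.diffContOnCl ?_ ?_
  · intro w hw
    rw [frontier_ball _ hR.ne'] at hw
    exact h w (by simpa using hw)
  · rw [closure_ball _ hR.ne']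
    simpa using hz

theorem h940_remove (R M : ℝ) (hR : 0 < R) (N : ℕ) : ∀ φ : ℂ → ℂ, Differentiable ℂ φ →
    (∀ z, ‖z‖ = R → ‖φ z‖ ≤ M) → φ 0 ≠ 0 → M < ‖φ 0‖ * 2 ^ N →
    ∃ ψ : ℂ → ℂ, Differentiable ℂ ψ ∧ (∀ z, ‖z‖ = R → ‖ψ z‖ = ‖φ z‖) ∧ ‖φ 0‖ ≤ ‖ψ 0‖ ∧
      ∀ z, 2 * ‖z‖ ≤ R → ψ z ≠ 0 := by
  induction N with
  | zero =>
    intro φ hφ hM h0 hlt
    exfalso
    have h1 := h940_max φ hφ R M hR hM 0 (by simpa using hR.le)
    rw [pow_zero, mul_one] at hlt
    linarith
  | succ N ih =>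
    intro φ hφ hM h0 hlt
    by_cases hz : ∀ z, 2 * ‖z‖ ≤ R → φ z ≠ 0
    · exact ⟨φ, hφ, fun z _ => rfl, le_refl _, hz⟩
    · push Not at hz
      obtain ⟨a, ha, hza⟩ := hz
      obtain ⟨φ', h1, h2, h3⟩ := h940_step φ hφ R hR a ha hza h0
      have hpos : 0 < ‖φ 0‖ := norm_pos_iff.2 h0
      have h0' : φ' 0 ≠ 0 := by
        rw [← norm_pos_iff]; linarith
      have hlt' : M < ‖φ' 0‖ * 2 ^ N := by
        refine hlt.trans_le ?_
        rw [pow_succ]
        have : (0:ℝ) < 2 ^ N := by positivity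
        nlinarith
      obtain ⟨ψ, g1, g2, g3, g4⟩ := ih φ' h1 (fun z hz => by rw [h2 z hz]; exact hM z hz) h0' hlt'
      exact ⟨ψ, g1, fun z hz => by rw [g2 z hz, h2 z hz], by linarith, g4⟩

theorem h940_harnack (ψ : ℂ → ℂ) (hψ : Differentiable ℂ ψ) (r M : ℝ) (hr : 0 < r) (hM0 : 0 < M)
    (hM : ∀ z, ‖z‖ ≤ r → ‖ψ z‖ ≤ M) (hne : ∀ z, ‖z‖ ≤ r → ψ z ≠ 0) (w : ℂ) (hw : 2 * ‖w‖ ≤ r) :
    Real.log M - Real.log ‖ψ w‖ ≤ 3 * (Real.log M - Real.log ‖ψ 0‖) := by
  let u : ℂ → ℝ := fun z => Real.log M - Real.log ‖ψ z‖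
  have hu : InnerProductSpace.HarmonicOnNhd u (Metric.closedBall 0 r) := by
    intro z hz
    have h1 : InnerProductSpace.HarmonicAt (fun z => Real.log ‖ψ z‖) z :=
      AnalyticAt.harmonicAt_log_norm (hψ.analyticAt z) (hne z (by simpa using hz))
    exact (InnerProductSpace.harmonicAt_const (Real.log M)).sub h1
  have hu0 : ∀ z, ‖z‖ ≤ r → 0 ≤ u z := by
    intro z hz
    have h1 : 0 < ‖ψ z‖ := norm_pos_iff.2 (hne z hz)
    have h2 := Real.log_le_log h1 (hM z hz)
    change 0 ≤ Real.log M - Real.log ‖ψ z‖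
    linarith
  have hwb : w ∈ Metric.ball (0 : ℂ) r := by
    rw [mem_ball_zero_iff]
    have := norm_nonneg w
    linarith
  have h1 := hu.circleAverage_re_herglotzRieszKernel_smul hwb
  have h2 : Real.circleAverage u 0 r = u 0 :=
    InnerProductSpace.HarmonicOnNhd.circleAverage_eq (by rw [abs_of_pos hr]; exact hu)
  have hcu : ContinuousOn u (Metric.sphere 0 |r|) := by
    rw [abs_of_pos hr]
    exact hu.continuousOn.mono Metric.sphere_subset_closedBall
  have hci : CircleIntegrable u 0 r := hcu.circleIntegrable'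
  have hck : CircleIntegrable ((Complex.re ∘ herglotzRieszKernel 0 w) • u) 0 r := by
    refine ContinuousOn.circleIntegrable' ?_
    exact (Complex.continuous_re.comp_continuousOn (continuousOn_herglotzRieszKernel_sphere hwb)).smul hcu
  have h3 : Real.circleAverage ((Complex.re ∘ herglotzRieszKernel 0 w) • u) 0 r
      ≤ Real.circleAverage ((3 : ℝ) • u) 0 r := by
    refine Real.circleAverage_mono hck (hci.const_smul) ?_
    intro z hz
    rw [abs_of_pos hr] at hz
    have h4 := re_herglotzRieszKernel_le hz hwb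
    rw [sub_zero, sub_zero] at h4
    have h5 : (r + ‖w‖) / (r - ‖w‖) ≤ 3 := by
      have := norm_nonneg w
      rw [div_le_iff₀ (by linarith)]
      linarith
    have h6 : (Complex.re ∘ herglotzRieszKernel 0 w) z ≤ 3 := by
      simp only [Function.comp_apply, herglotzRieszKernel_def, sub_zero]
      exact h4.trans h5
    have h7 : 0 ≤ u z := hu0 z (by
      rw [mem_sphere_zero_iff_norm] at hz
      exact hz.le)
    change (Complex.re ∘ herglotzRieszKernel 0 w) z * u z ≤ 3 * u z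
    exact mul_le_mul_of_nonneg_right h6 h7
  rw [h1, Real.circleAverage_smul, h2] at h3
  exact h3

/-- growth of a quotient, one variable -/
theorem quot_one (A B c : ℝ) (hA : 1 ≤ A) (hB : 0 ≤ B) (hc : 0 < c) :
    ∃ C : ℝ, 0 ≤ C ∧ ∀ φ g : ℂ → ℂ, Differentiable ℂ φ → Differentiable ℂ g → c ≤ ‖φ 0‖ →
      (∀ z, ‖φ z‖ ≤ A * Real.exp (B * ‖z‖)) → (∀ z, ‖φ z * g z‖ ≤ A * Real.exp (B * ‖z‖)) →
      ∀ z, ‖g z‖ ≤ Real.exp (C * (1 + ‖z‖)) := by
  have hlA : 0 ≤ Real.log A := Real.log_nonneg hA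
  refine ⟨3 * (Real.log A + 4 * B + |Real.log c|), by positivity, ?_⟩
  intro φ g hφ hg hc0 hφA hφg w
  set R : ℝ := 4 * (‖w‖ + 1) with hRdef
  have hwn := norm_nonneg w
  have hR : 0 < R := by positivity
  set M : ℝ := A * Real.exp (B * R) with hMdef
  have hM0 : 0 < M := by positivity
  have h0pos : 0 < ‖φ 0‖ := lt_of_lt_of_le hc hc0
  have h0 : φ 0 ≠ 0 := norm_pos_iff.1 h0pos
  have hMφ : ∀ z, ‖z‖ = R → ‖φ z‖ ≤ M := fun z hz => by
    have := hφA z
    rwa [hz] at this
  obtain ⟨N, hN⟩ := pow_unbounded_of_one_lt (M / ‖φ 0‖) (one_lt_two : (1:ℝ) < 2)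
  have hN' : M < ‖φ 0‖ * 2 ^ N := by
    rw [div_lt_iff₀ h0pos] at hN
    linarith [mul_comm (2 ^ N) ‖φ 0‖]
  obtain ⟨ψ, p1, p2, p3, p4⟩ := h940_remove R M hR N φ hφ hMφ h0 hN'
  have hψM : ∀ z, ‖z‖ ≤ R → ‖ψ z‖ ≤ M :=
    h940_max ψ p1 R M hR (fun z hz => by rw [p2 z hz]; exact hMφ z hz)
  have hgM : ∀ z, ‖z‖ ≤ R → ‖g z * ψ z‖ ≤ M := by
    refine h940_max (fun z => g z * ψ z) (hg.mul p1) R M hR ?_
    intro z hz
    have h1 := hφg z
    rw [hz] at h1
    rw [norm_mul, p2 z hz, ← norm_mul, mul_comm]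
    exact h1
  have hwR : ‖w‖ ≤ R := by rw [hRdef]; linarith
  have hH := h940_harnack ψ p1 (R / 2) M (by positivity) hM0
    (fun z hz => hψM z (by linarith)) (fun z hz => p4 z (by linarith)) w
    (by rw [hRdef]; linarith)
  have hψw : 0 < ‖ψ w‖ := norm_pos_iff.2 (p4 w (by rw [hRdef]; linarith))
  have hψ0 : Real.log c ≤ Real.log ‖ψ 0‖ := Real.log_le_log hc (hc0.trans p3)
  have hlM : Real.log M = Real.log A + B * R := by
    rw [hMdef, Real.log_mul (by linarith) (Real.exp_pos _).ne', Real.log_exp]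
  rcases eq_or_ne (g w) 0 with hgw | hgw
  · rw [hgw, norm_zero]; exact (Real.exp_pos _).le
  have hgw' : 0 < ‖g w‖ := norm_pos_iff.2 hgw
  rw [← Real.log_le_iff_le_exp hgw']
  have h1 : Real.log ‖g w‖ + Real.log ‖ψ w‖ ≤ Real.log M := by
    rw [← Real.log_mul hgw'.ne' hψw.ne', ← norm_mul]
    refine Real.log_le_log ?_ (hgM w hwR)
    rw [norm_mul]; positivity
  have h2 : - Real.log c ≤ |Real.log c| := neg_le_abs _
  have h3 : B * R = 4 * B * (1 + ‖w‖) := by rw [hRdef]; ring
  have h4 : Real.log ‖g w‖ ≤ 3 * (Real.log A + B * R - Real.log c) := by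
    rw [← hlM]; linarith
  refine h4.trans ?_
  rw [h3]
  have h5 := abs_nonneg (Real.log c)
  nlinarith [mul_nonneg hlA hwn, mul_nonneg h5 hwn]

end J_quot_one

alias quot_one := J_quot_one.quot_one

end Pool.Agent.Helper192.Syn
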