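import Pool.Agent.Helper192.Syn.A2

/-! growth of a quotient -/

set_option linter.all false

open MeasureTheory Set Filter Topology Complex
open scoped BigOperators ContDiff ComplexConjugate

namespace Pool.Agent.Helper192.Syn

namespace J_quot_growth

/-- growth of a quotient -/
theorem quot_growth {n : ℕ} (φ g : Cn n → ℂ) (hφ : Differentiable ℂ φ) (hg : Differentiable ℂ g)
    (h0 : ∃ z, φ z ≠ 0) (A B : ℝ) (hA : ∀ z, ‖φ z‖ ≤ A * Real.exp (B * ‖z‖))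
    (hA' : ∀ z, ‖φ z * g z‖ ≤ A * Real.exp (B * ‖z‖)) :
    ∃ C : ℝ, 0 ≤ C ∧ ∀ z, ‖g z‖ ≤ Real.exp (C * (1 + ‖z‖)) := by
  obtain ⟨z0, hz0⟩ := h0
  have hA0 : 0 ≤ A := by
    have h1 := hA z0
    have h2 : 0 < Real.exp (B * ‖z0‖) := Real.exp_pos _
    by_contra hcon
    push Not at hcon
    have h3 : A * Real.exp (B * ‖z0‖) < 0 := mul_neg_of_neg_of_pos hcon h2
    linarith [norm_nonneg (φ z0)]
  obtain ⟨C, hC0, hC⟩ := quot_one (max 1 (A * Real.exp (|B| * ‖z0‖))) |B| ‖φ z0‖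
    (le_max_left _ _) (abs_nonneg _) (norm_pos_iff.mpr hz0)
  refine ⟨C * (1 + ‖z0‖), by positivity, fun z => ?_⟩
  obtain ⟨v, hv1, hv2⟩ : ∃ v : Cn n, ‖v‖ ≤ 1 ∧ z0 + ((‖z - z0‖ : ℝ) : ℂ) • v = z := by
    by_cases h : z = z0
    · refine ⟨0, by simp, by simp [h]⟩
    · have hn : ‖z - z0‖ ≠ 0 := by
        rw [norm_ne_zero_iff]
        exact sub_ne_zero.mpr h
      have hnc : ((‖z - z0‖ : ℝ) : ℂ) ≠ 0 := by exact_mod_cast hn
      refine ⟨((‖z - z0‖ : ℝ) : ℂ)⁻¹ • (z - z0), ?_, ?_⟩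
      · rw [norm_smul, norm_inv, Complex.norm_real, Real.norm_eq_abs, abs_of_nonneg (norm_nonneg _),
          inv_mul_cancel₀ hn]
      · rw [smul_smul, mul_inv_cancel₀ hnc, one_smul]
        abel
  have hd : Differentiable ℂ (fun l : ℂ => z0 + l • v) := by fun_prop
  have hnorm : ∀ l : ℂ, ‖z0 + l • v‖ ≤ ‖z0‖ + ‖l‖ := by
    intro l
    calc ‖z0 + l • v‖ ≤ ‖z0‖ + ‖l • v‖ := norm_add_le _ _
      _ = ‖z0‖ + ‖l‖ * ‖v‖ := by rw [norm_smul]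
      _ ≤ ‖z0‖ + ‖l‖ * 1 := by gcongr
      _ = ‖z0‖ + ‖l‖ := by ring
  have hexp : ∀ l : ℂ, A * Real.exp (B * ‖z0 + l • v‖)
      ≤ max 1 (A * Real.exp (|B| * ‖z0‖)) * Real.exp (|B| * ‖l‖) := by
    intro l
    have h1 : B * ‖z0 + l • v‖ ≤ |B| * ‖z0‖ + |B| * ‖l‖ := by
      calc B * ‖z0 + l • v‖ ≤ |B| * ‖z0 + l • v‖ := by
            gcongr
            exact le_abs_self B
        _ ≤ |B| * (‖z0‖ + ‖l‖) := by
            gcongr
            exact hnorm l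
        _ = |B| * ‖z0‖ + |B| * ‖l‖ := by ring
    calc A * Real.exp (B * ‖z0 + l • v‖) ≤ A * Real.exp (|B| * ‖z0‖ + |B| * ‖l‖) := by
          gcongr
      _ = (A * Real.exp (|B| * ‖z0‖)) * Real.exp (|B| * ‖l‖) := by
          rw [Real.exp_add]; ring
      _ ≤ max 1 (A * Real.exp (|B| * ‖z0‖)) * Real.exp (|B| * ‖l‖) := by
          gcongr
          exact le_max_right _ _
  have h := hC (fun l => φ (z0 + l • v)) (fun l => g (z0 + l • v)) (hφ.comp hd) (hg.comp hd)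
    (by simp) (fun l => (hA _).trans (hexp l)) (fun l => (hA' _).trans (hexp l))
    ((‖z - z0‖ : ℝ) : ℂ)
  simp only [hv2] at h
  refine h.trans (Real.exp_le_exp.mpr ?_)
  rw [Complex.norm_real, Real.norm_eq_abs, abs_of_nonneg (norm_nonneg _)]
  have h2 : ‖z - z0‖ ≤ ‖z‖ + ‖z0‖ := norm_sub_le _ _
  have h3 : 0 ≤ ‖z‖ * ‖z0‖ := by positivity
  calc C * (1 + ‖z - z0‖) ≤ C * (1 + (‖z‖ + ‖z0‖)) := by gcongr
    _ ≤ C * ((1 + ‖z0‖) * (1 + ‖z‖)) := by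
        gcongr
        nlinarith
    _ = C * (1 + ‖z0‖) * (1 + ‖z‖) := by ring

end J_quot_growth

alias quot_growth := J_quot_growth.quot_growth

end Pool.Agent.Helper192.Syn
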