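import Pool.Agent.Helper192.Syn.A1
import Pool.Agent.Helper192.Syn.A2b

/-! approximation by polynomial multiples -/

set_option linter.all false

open MeasureTheory Set Filter Topology Complex
open scoped BigOperators ContDiff ComplexConjugate

namespace Pool.Agent.Helper192.Syn

namespace J_step_poly

/-- cutoff -/
noncomputable def spChi {n : ℕ} (z : Cn n) : ℝ := Real.smoothTransition ((4 - nsq z) / 3)

theorem sp_nsq_smooth (n : ℕ) : ContDiff ℝ ∞ (nsq : Cn n → ℝ) := by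
  unfold nsq
  exact ContDiff.sum fun i _ => (contDiff_apply ℝ ℂ i).norm_sq ℝ

theorem spChi_smooth (n : ℕ) : ContDiff ℝ ∞ (spChi : Cn n → ℝ) := by
  unfold spChi
  exact Real.smoothTransition.contDiff.comp ((contDiff_const.sub (sp_nsq_smooth n)).div_const 3)

theorem sp_nsq_nonneg {n : ℕ} (z : Cn n) : 0 ≤ nsq z := Finset.sum_nonneg fun i _ => sq_nonneg _

theorem sp_norm_le {n : ℕ} (z : Cn n) (r : ℝ) (hr : 0 ≤ r) (h : nsq z ≤ r ^ 2) : ‖z‖ ≤ r := by
  rw [pi_norm_le_iff_of_nonneg hr]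
  intro i
  have h1 : ‖z i‖ ^ 2 ≤ nsq z :=
    Finset.single_le_sum (f := fun i => ‖z i‖ ^ 2) (fun i _ => sq_nonneg _) (Finset.mem_univ i)
  exact (pow_le_pow_iff_left₀ (norm_nonneg _) hr (by norm_num)).mp (h1.trans h)

theorem sp_nsq_le {n : ℕ} (z : Cn n) : nsq z ≤ n * ‖z‖ ^ 2 := by
  unfold nsq
  calc ∑ i, ‖z i‖ ^ 2 ≤ ∑ _i : Fin n, ‖z‖ ^ 2 :=
        Finset.sum_le_sum fun i _ => pow_le_pow_left₀ (norm_nonneg _) (norm_le_pi_norm z i) 2
    _ = n * ‖z‖ ^ 2 := by simp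

theorem spChi_zero {n : ℕ} (z : Cn n) (h : 4 ≤ nsq z) : spChi z = 0 :=
  Real.smoothTransition.zero_of_nonpos (by linarith)

theorem spChi_one {n : ℕ} (z : Cn n) (h : nsq z ≤ 1) : spChi z = 1 :=
  Real.smoothTransition.one_of_one_le (by linarith)

theorem spChi_supp (n : ℕ) : HasCompactSupport (spChi : Cn n → ℝ) := by
  refine HasCompactSupport.intro (isCompact_closedBall (0 : Cn n) 2) fun z hz => ?_
  apply spChi_zero
  by_contra h
  push Not at h
  apply hz
  rw [mem_closedBall_zero_iff]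
  exact sp_norm_le z 2 (by norm_num) (by linarith)

theorem spChi_fderiv {n : ℕ} (z : Cn n) (h : ¬ (1 ≤ nsq z ∧ nsq z ≤ 4)) :
    fderiv ℝ (spChi : Cn n → ℝ) z = 0 := by
  have hc : Continuous (nsq : Cn n → ℝ) := (sp_nsq_smooth n).continuous
  by_cases h1 : nsq z < 1
  · have : (spChi : Cn n → ℝ) =ᶠ[𝓝 z] fun _ => (1 : ℝ) := by
      filter_upwards [(isOpen_lt hc continuous_const).mem_nhds h1] with y hy
      exact spChi_one y (le_of_lt hy)
    rw [this.fderiv_eq]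
    exact fderiv_const_apply _
  · have h2 : 4 < nsq z := by
      by_contra h3
      exact h ⟨not_lt.mp h1, not_lt.mp h3⟩
    have : (spChi : Cn n → ℝ) =ᶠ[𝓝 z] fun _ => (0 : ℝ) := by
      filter_upwards [(isOpen_lt continuous_const hc).mem_nhds h2] with y hy
      exact spChi_zero y (le_of_lt hy)
    rw [this.fderiv_eq]
    exact fderiv_const_apply _

theorem spChi_bound (n : ℕ) : ∃ M : ℝ, 0 ≤ M ∧ ∀ z : Cn n, ‖fderiv ℝ (spChi : Cn n → ℝ) z‖ ≤ M := by
  obtain ⟨M, hM⟩ := ((spChi_smooth n).continuous_fderiv (by simp)).bounded_above_of_compact_support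
    ((spChi_supp n).fderiv ℝ)
  exact ⟨M, (norm_nonneg _).trans (hM 0), hM⟩

theorem sp_nsq_smul {n : ℕ} (R : ℝ) (z : Cn n) : nsq (R⁻¹ • z) = nsq z / R ^ 2 := by
  unfold nsq
  rw [Finset.sum_div]
  refine Finset.sum_congr rfl fun i _ => ?_
  rw [Pi.smul_apply, norm_smul, norm_inv, mul_pow, Real.norm_eq_abs, inv_pow, sq_abs]
  field_simp

theorem sp_single_I {n : ℕ} (j : Fin n) :
    (Pi.single j I : Cn n) = I • (Pi.single j 1 : Cn n) := by
  ext i
  by_cases h : i = j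
  · subst h; simp
  · simp [Pi.single_eq_of_ne h]

theorem sp_dzb {n : ℕ} (g : Cn n → ℂ) (hg : Differentiable ℂ g) (R : ℝ) (j : Fin n) (z : Cn n) :
    dzb j (fun z => ((spChi (R⁻¹ • z) : ℝ) : ℂ) * g z) z = g z * ((1 / 2) *
      (((fderiv ℝ (spChi : Cn n → ℝ) (R⁻¹ • z) (R⁻¹ • Pi.single j 1) : ℝ) : ℂ) +
        I * ((fderiv ℝ (spChi : Cn n → ℝ) (R⁻¹ • z) (R⁻¹ • Pi.single j I) : ℝ) : ℂ))) := by
  have h1 : HasFDerivAt (fun z : Cn n => R⁻¹ • z) (R⁻¹ • ContinuousLinearMap.id ℝ (Cn n)) z :=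
    (hasFDerivAt_id z).const_smul R⁻¹
  have hd : DifferentiableAt ℝ (spChi : Cn n → ℝ) (R⁻¹ • z) :=
    ((spChi_smooth n).differentiable (by simp)) _
  have h2 : HasFDerivAt (fun z : Cn n => spChi (R⁻¹ • z))
      ((fderiv ℝ (spChi : Cn n → ℝ) (R⁻¹ • z)).comp (R⁻¹ • ContinuousLinearMap.id ℝ (Cn n))) z :=
    HasFDerivAt.comp (g := (spChi : Cn n → ℝ)) z hd.hasFDerivAt h1
  have h3 : HasFDerivAt (fun z : Cn n => ((spChi (R⁻¹ • z) : ℝ) : ℂ))
      (Complex.ofRealCLM.comp ((fderiv ℝ (spChi : Cn n → ℝ) (R⁻¹ • z)).comp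
        (R⁻¹ • ContinuousLinearMap.id ℝ (Cn n)))) z :=
    HasFDerivAt.comp (g := fun x : ℝ => (x : ℂ)) z Complex.ofRealCLM.hasFDerivAt h2
  have h4 : HasFDerivAt g ((fderiv ℂ g z).restrictScalars ℝ) z :=
    (hg z).hasFDerivAt.restrictScalars ℝ
  have h5 : HasFDerivAt (fun z => ((spChi (R⁻¹ • z) : ℝ) : ℂ) * g z) _ z := h3.mul h4
  have h6 : fderiv ℂ g z (Pi.single j I) = I * fderiv ℂ g z (Pi.single j 1) := by
    rw [sp_single_I, map_smul, smul_eq_mul]
  unfold dzb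
  rw [h5.fderiv]
  simp only [ContinuousLinearMap.add_apply, ContinuousLinearMap.smul_apply,
    ContinuousLinearMap.comp_apply, ContinuousLinearMap.coe_restrictScalars', ofRealCLM_apply,
    smul_eq_mul, ContinuousLinearMap.id_apply, h6]
  ring_nf
  rw [Complex.I_sq]
  ring

theorem sp_dzb_bound {n : ℕ} (M : ℝ) (hM0 : 0 ≤ M)
    (hM : ∀ z : Cn n, ‖fderiv ℝ (spChi : Cn n → ℝ) z‖ ≤ M)
    (g : Cn n → ℂ) (hg : Differentiable ℂ g) (R : ℝ) (hR : 1 ≤ R) (j : Fin n) (z : Cn n) :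
    ‖dzb j (fun z => ((spChi (R⁻¹ • z) : ℝ) : ℂ) * g z) z‖ ≤ M * ‖g z‖ ∧
    (¬ (R ^ 2 ≤ nsq z ∧ nsq z ≤ 4 * R ^ 2) →
      dzb j (fun z => ((spChi (R⁻¹ • z) : ℝ) : ℂ) * g z) z = 0) := by
  have hR0 : 0 < R := by linarith
  rw [sp_dzb g hg]
  constructor
  · have hb : ∀ c : ℂ, ‖c‖ = 1 →
        ‖((fderiv ℝ (spChi : Cn n → ℝ) (R⁻¹ • z) (R⁻¹ • Pi.single j c) : ℝ) : ℂ)‖ ≤ M := by
      intro c hc
      rw [Complex.norm_real]
      refine (ContinuousLinearMap.le_opNorm _ _).trans ?_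
      have h1 : ‖R⁻¹ • (Pi.single j c : Cn n)‖ ≤ 1 := by
        rw [norm_smul, norm_inv, Real.norm_eq_abs, abs_of_pos hR0]
        have h2 : ‖(Pi.single j c : Cn n)‖ ≤ 1 := by
          rw [pi_norm_le_iff_of_nonneg zero_le_one]
          intro i
          by_cases h : i = j
          · subst h; rw [Pi.single_eq_same, hc]
          · rw [Pi.single_eq_of_ne h]; simp
        have h3 : R⁻¹ ≤ 1 := inv_le_one_of_one_le₀ hR
        calc R⁻¹ * ‖(Pi.single j c : Cn n)‖ ≤ 1 * 1 :=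
              mul_le_mul h3 h2 (norm_nonneg _) zero_le_one
          _ = 1 := one_mul 1
      calc ‖fderiv ℝ (spChi : Cn n → ℝ) (R⁻¹ • z)‖ * ‖R⁻¹ • (Pi.single j c : Cn n)‖ ≤ M * 1 :=
            mul_le_mul (hM _) h1 (norm_nonneg _) hM0
        _ = M := mul_one M
    have h1 := hb 1 (by simp)
    have h2 := hb I (by simp)
    rw [norm_mul, norm_mul, mul_comm]
    have h3 : ‖(1 / 2 : ℂ)‖ = 1 / 2 := by simp
    rw [h3]
    have h4 := norm_add_le ((fderiv ℝ (spChi : Cn n → ℝ) (R⁻¹ • z) (R⁻¹ • Pi.single j 1) : ℝ) : ℂ)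
      (I * ((fderiv ℝ (spChi : Cn n → ℝ) (R⁻¹ • z) (R⁻¹ • Pi.single j I) : ℝ) : ℂ))
    rw [norm_mul I, Complex.norm_I, one_mul] at h4
    refine mul_le_mul_of_nonneg_right ?_ (norm_nonneg _)
    linarith
  · intro h
    have h0 : fderiv ℝ (spChi : Cn n → ℝ) (R⁻¹ • z) = 0 := by
      apply spChi_fderiv
      rw [sp_nsq_smul]
      rintro ⟨h1, h2⟩
      apply h
      rw [le_div_iff₀ (by positivity)] at h1
      rw [div_le_iff₀ (by positivity)] at h2
      exact ⟨by linarith, h2⟩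
    rw [h0]
    simp

theorem sp_vol (n : ℕ) : ∃ V : ℝ, 0 ≤ V ∧ ∀ R : ℝ, 1 ≤ R →
    (volume : Measure (Cn n)).real (Metric.closedBall 0 (2 * R)) ≤ V * (1 + R) ^ (2 * n) := by
  refine ⟨2 ^ (2 * n) * (volume : Measure (Cn n)).real (Metric.ball 0 1), by positivity, ?_⟩
  intro R hR
  have hdim : Module.finrank ℝ (Cn n) = 2 * n := by
    rw [Module.finrank_pi_fintype]
    simp [Complex.finrank_real_complex, mul_comm]
  rw [Measure.addHaar_real_closedBall _ _ (by linarith), hdim, mul_pow]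
  have h1 : R ^ (2 * n) ≤ (1 + R) ^ (2 * n) := pow_le_pow_left₀ (by linarith) (by linarith) _
  have h2 : 0 ≤ (volume : Measure (Cn n)).real (Metric.ball 0 1) := measureReal_nonneg
  calc 2 ^ (2 * n) * R ^ (2 * n) * (volume : Measure (Cn n)).real (Metric.ball 0 1)
      ≤ 2 ^ (2 * n) * (1 + R) ^ (2 * n) * (volume : Measure (Cn n)).real (Metric.ball 0 1) := by
        gcongr
    _ = _ := by ring


theorem sp_growth {n : ℕ} (h v : Cn n → ℂ) (hh : Differentiable ℂ h) (hv : Continuous v)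
    (hvc : HasCompactSupport v) (θ : Cn n → ℝ) (B : ℝ)
    (hB : ∀ z, θ z ≤ B + B * Real.log (1 + nsq z))
    (hint : Integrable (fun z => ‖v z - h z‖ ^ 2 / (1 + nsq z) * Real.exp (-(2 * θ z)))) :
    ∃ P : MvPolynomial (Fin n) ℂ, ∀ z, h z = MvPolynomial.eval z P := by
  obtain ⟨C, hC⟩ := sup_of_L2 n
  obtain ⟨Mv, hMv⟩ := hv.bounded_above_of_compact_support hvc
  obtain ⟨m, hm⟩ := exists_nat_ge (1 + 2 * max B 0)
  set B' := max B 0 with hB'
  have hB0 : 0 ≤ B' := le_max_right _ _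
  set G : Cn n → ℝ := fun z => ‖v z - h z‖ ^ 2 / (1 + nsq z) * Real.exp (-(2 * θ z)) with hG
  have hG0 : ∀ z, 0 ≤ G z := fun z => mul_nonneg (div_nonneg (sq_nonneg _)
    (by linarith [sp_nsq_nonneg z])) (Real.exp_pos _).le
  have hθ : ∀ z, θ z ≤ B' + B' * Real.log (1 + nsq z) := by
    intro z
    have hl : 0 ≤ Real.log (1 + nsq z) := Real.log_nonneg (by linarith [sp_nsq_nonneg z])
    have h1 := hB z
    have h2 : B ≤ B' := le_max_left _ _
    nlinarith
  -- pointwise bound of the difference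
  have hpt : ∀ w : Cn n, ‖v w - h w‖ ^ 2 ≤ Real.exp (2 * B') * (1 + nsq w) ^ m * G w := by
    intro w
    have hn1 : 1 ≤ 1 + nsq w := by linarith [sp_nsq_nonneg w]
    have hn0 : 0 < 1 + nsq w := by linarith
    have h1 : Real.exp (2 * θ w) ≤ Real.exp (2 * B') * (1 + nsq w) ^ (2 * B') := by
      rw [Real.rpow_def_of_pos hn0, ← Real.exp_add, Real.exp_le_exp]
      have := hθ w
      nlinarith
    have h2 : (1 + nsq w) * (1 + nsq w) ^ (2 * B') ≤ (1 + nsq w) ^ m := by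
      rw [← Real.rpow_natCast (1 + nsq w) m]
      calc (1 + nsq w) * (1 + nsq w) ^ (2 * B') = (1 + nsq w) ^ (1 + 2 * B') := by
            rw [Real.rpow_add hn0, Real.rpow_one]
        _ ≤ (1 + nsq w) ^ (m : ℝ) := Real.rpow_le_rpow_of_exponent_le hn1 hm
    have h3 : ‖v w - h w‖ ^ 2 = (1 + nsq w) * Real.exp (2 * θ w) * G w := by
      rw [hG]
      simp only
      rw [Real.exp_neg]
      have := Real.exp_pos (2 * θ w)
      field_simp
    rw [h3]
    refine mul_le_mul_of_nonneg_right ?_ (hG0 w)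
    calc (1 + nsq w) * Real.exp (2 * θ w)
        ≤ (1 + nsq w) * (Real.exp (2 * B') * (1 + nsq w) ^ (2 * B')) := by gcongr
      _ = Real.exp (2 * B') * ((1 + nsq w) * (1 + nsq w) ^ (2 * B')) := by ring
      _ ≤ Real.exp (2 * B') * (1 + nsq w) ^ m := by gcongr
  set V1 : ℝ := (volume : Measure (Cn n)).real (Metric.closedBall 0 1) with hV1
  have hV1nn : 0 ≤ V1 := measureReal_nonneg
  set IG : ℝ := ∫ z, G z with hIG
  have hIG0 : 0 ≤ IG := integral_nonneg hG0
  set A : ℝ := max C 0 * (2 * (Mv ^ 2 * V1) + 2 * (Real.exp (2 * B') * (4 * (n + 1) : ℝ) ^ m * IG))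
    with hA
  have hA0 : 0 ≤ A := by positivity
  refine poly_of_growth h hh (Real.sqrt A) m fun z => ?_
  have hz1 : 1 ≤ 1 + ‖z‖ := by linarith [norm_nonneg z]
  have hhc : Continuous h := hh.continuous
  have hsq : ‖h z‖ ^ 2 ≤ A * (1 + ‖z‖) ^ (2 * m) := by
    have hball : ∫ w in Metric.closedBall z 1, ‖h w‖ ^ 2 ≤
        2 * (Mv ^ 2 * V1) + 2 * (Real.exp (2 * B') * (4 * (n + 1) : ℝ) ^ m *
          (1 + ‖z‖) ^ (2 * m) * IG) := by
      have hvolb : (volume : Measure (Cn n)).real (Metric.closedBall z 1) = V1 := by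
        rw [hV1, Measure.addHaar_real_closedBall _ _ zero_le_one,
          Measure.addHaar_real_closedBall _ _ zero_le_one]
      have hbd : ∀ w ∈ Metric.closedBall z 1, ‖h w‖ ^ 2 ≤ 2 * Mv ^ 2 +
          2 * (Real.exp (2 * B') * (4 * (n + 1) : ℝ) ^ m * (1 + ‖z‖) ^ (2 * m)) * G w := by
        intro w hw
        have h1 : ‖h w‖ ^ 2 ≤ 2 * ‖v w‖ ^ 2 + 2 * ‖v w - h w‖ ^ 2 := by
          have h2 : ‖h w‖ ≤ ‖v w‖ + ‖v w - h w‖ := by
            have := norm_sub_norm_le (h w) (v w)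
            rw [norm_sub_rev (v w) (h w)]
            linarith
          have h3 : ‖h w‖ ^ 2 ≤ (‖v w‖ + ‖v w - h w‖) ^ 2 :=
            pow_le_pow_left₀ (norm_nonneg _) h2 2
          nlinarith [sq_nonneg (‖v w‖ - ‖v w - h w‖)]
        have h4 : ‖v w‖ ^ 2 ≤ Mv ^ 2 := pow_le_pow_left₀ (norm_nonneg _) (hMv w) 2
        have h5 := hpt w
        have h6 : (1 + nsq w) ^ m ≤ (4 * (n + 1) : ℝ) ^ m * (1 + ‖z‖) ^ (2 * m) := by
          rw [pow_mul, ← mul_pow]
          refine pow_le_pow_left₀ (by linarith [sp_nsq_nonneg w]) ?_ m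
          have h7 : ‖w‖ ≤ 1 + ‖z‖ := by
            have h8 : ‖w - z‖ ≤ 1 := by
              rw [← dist_eq_norm]; exact Metric.mem_closedBall.mp hw
            have := norm_sub_norm_le w z
            linarith
          have h9 := sp_nsq_le w
          have h10 : ‖w‖ ^ 2 ≤ (1 + ‖z‖) ^ 2 := pow_le_pow_left₀ (norm_nonneg _) h7 2
          have h11 : (n : ℝ) * ‖w‖ ^ 2 ≤ n * (1 + ‖z‖) ^ 2 := by gcongr
          have h12 : (1 : ℝ) ≤ (1 + ‖z‖) ^ 2 := one_le_pow₀ hz1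
          have h13 : (0 : ℝ) ≤ (n : ℝ) * (1 + ‖z‖) ^ 2 := by positivity
          nlinarith
        have h14 : Real.exp (2 * B') * (1 + nsq w) ^ m * G w ≤
            Real.exp (2 * B') * ((4 * (n + 1) : ℝ) ^ m * (1 + ‖z‖) ^ (2 * m)) * G w := by
          refine mul_le_mul_of_nonneg_right ?_ (hG0 w)
          gcongr
        nlinarith
      have hintG : IntegrableOn G (Metric.closedBall z 1) := hint.integrableOn
      have hci : Integrable (fun _ : Cn n => 2 * Mv ^ 2)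
          (volume.restrict (Metric.closedBall z 1)) :=
        integrableOn_const (hs := by exact (isCompact_closedBall z 1).measure_lt_top.ne)
      calc ∫ w in Metric.closedBall z 1, ‖h w‖ ^ 2
          ≤ ∫ w in Metric.closedBall z 1, (2 * Mv ^ 2 +
            2 * (Real.exp (2 * B') * (4 * (n + 1) : ℝ) ^ m * (1 + ‖z‖) ^ (2 * m)) * G w) := by
            refine setIntegral_mono_on ?_ ?_ measurableSet_closedBall hbd
            · exact (hhc.norm.pow 2).continuousOn.integrableOn_compact (isCompact_closedBall z 1)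
            · exact Integrable.add hci (hintG.const_mul _)
        _ = 2 * Mv ^ 2 * V1 + 2 * (Real.exp (2 * B') * (4 * (n + 1) : ℝ) ^ m *
              (1 + ‖z‖) ^ (2 * m)) * ∫ w in Metric.closedBall z 1, G w := by
            rw [integral_add hci (hintG.const_mul _),
              setIntegral_const, integral_const_mul, smul_eq_mul, hvolb]
            ring
        _ ≤ 2 * Mv ^ 2 * V1 + 2 * (Real.exp (2 * B') * (4 * (n + 1) : ℝ) ^ m *
              (1 + ‖z‖) ^ (2 * m)) * IG := by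
            have : ∫ w in Metric.closedBall z 1, G w ≤ IG :=
              setIntegral_le_integral hint (Filter.Eventually.of_forall hG0)
            gcongr
        _ = _ := by ring
    have h1 := hC h z hh
    have hI0 : 0 ≤ ∫ w in Metric.closedBall z 1, ‖h w‖ ^ 2 :=
      integral_nonneg fun w => sq_nonneg _
    have h2 : (1 : ℝ) ≤ (1 + ‖z‖) ^ (2 * m) := one_le_pow₀ hz1
    calc ‖h z‖ ^ 2 ≤ C * ∫ w in Metric.closedBall z 1, ‖h w‖ ^ 2 := h1
      _ ≤ max C 0 * ∫ w in Metric.closedBall z 1, ‖h w‖ ^ 2 :=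
          mul_le_mul_of_nonneg_right (le_max_left _ _) hI0
      _ ≤ max C 0 * (2 * (Mv ^ 2 * V1) + 2 * (Real.exp (2 * B') * (4 * (n + 1) : ℝ) ^ m *
          (1 + ‖z‖) ^ (2 * m) * IG)) :=
          mul_le_mul_of_nonneg_left hball (le_max_right _ _)
      _ ≤ max C 0 * ((2 * (Mv ^ 2 * V1)) * (1 + ‖z‖) ^ (2 * m) +
          2 * (Real.exp (2 * B') * (4 * (n + 1) : ℝ) ^ m *
          (1 + ‖z‖) ^ (2 * m) * IG)) := by
          refine mul_le_mul_of_nonneg_left ?_ (le_max_right _ _)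
          have : 0 ≤ 2 * (Mv ^ 2 * V1) := by positivity
          nlinarith
      _ = A * (1 + ‖z‖) ^ (2 * m) := by
          rw [hA]; ring
  have h3 : ‖h z‖ ^ 2 ≤ (Real.sqrt A * (1 + ‖z‖) ^ m) ^ 2 := by
    rw [mul_pow, Real.sq_sqrt hA0, ← pow_mul, mul_comm m 2]
    exact hsq
  exact (pow_le_pow_iff_left₀ (norm_nonneg _) (by positivity) (by norm_num)).mp h3


theorem sp_hol_smooth {n : ℕ} (g : Cn n → ℂ) (hg : Differentiable ℂ g) : ContDiff ℝ ∞ g := by
  have hsq : ∀ g : Cn n → ℂ, Differentiable ℂ g → ContDiff ℝ ∞ (fun z => ‖g z‖ ^ 2) := by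
    intro g hg
    have h1 := (psh_log_norm g hg).1
    have h2 : (fun z => ‖g z‖ ^ 2) = fun z => Real.exp (Real.log (1 + ‖g z‖ ^ 2)) - 1 := by
      funext z
      rw [Real.exp_log (by positivity)]
      ring
    rw [h2]
    exact h1.exp.sub contDiff_const
  have hre : ContDiff ℝ ∞ (fun z => (g z).re) := by
    have h3 := hsq (fun z => g z + 1) (hg.add_const 1)
    have h4 : (fun z => (g z).re) = fun z => (‖g z + 1‖ ^ 2 - ‖g z‖ ^ 2 - 1) / 2 := by
      funext z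
      rw [← Complex.normSq_eq_norm_sq, ← Complex.normSq_eq_norm_sq, Complex.normSq_apply,
        Complex.normSq_apply]
      simp
      ring
    rw [h4]
    exact ((h3.sub (hsq g hg)).sub contDiff_const).div_const 2
  have him : ContDiff ℝ ∞ (fun z => (g z).im) := by
    have h3 := hsq (fun z => g z + I) (hg.add_const I)
    have h4 : (fun z => (g z).im) = fun z => (‖g z + I‖ ^ 2 - ‖g z‖ ^ 2 - 1) / 2 := by
      funext z
      rw [← Complex.normSq_eq_norm_sq, ← Complex.normSq_eq_norm_sq, Complex.normSq_apply,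
        Complex.normSq_apply]
      simp
      ring
    rw [h4]
    exact ((h3.sub (hsq g hg)).sub contDiff_const).div_const 2
  have h5 : g = fun z => (((g z).re : ℝ) : ℂ) + (((g z).im : ℝ) : ℂ) * I := by
    funext z
    exact (Complex.re_add_im _).symm
  rw [h5]
  exact (ofRealCLM.contDiff.comp hre).add ((ofRealCLM.contDiff.comp him).mul contDiff_const)

/-- one approximation step -/
theorem step_poly (n : ℕ) : ∃ C : ℝ, ∀ (g : Cn n → ℂ) (θ : Cn n → ℝ) (R ε : ℝ),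
    Differentiable ℂ g → Psh θ → 1 ≤ R → 0 < ε →
    (∀ z, R ^ 2 ≤ nsq z → nsq z ≤ 4 * R ^ 2 →
      (1 / 2) * Real.log (1 + ‖g z‖ ^ 2) + ε * R ≤ θ z) →
    (∃ B : ℝ, ∀ z, θ z ≤ B + B * Real.log (1 + nsq z)) →
    ∃ (P : MvPolynomial (Fin n) ℂ) (χ : Cn n → ℝ), Continuous χ ∧ (∀ z, 0 ≤ χ z ∧ χ z ≤ 1) ∧
      (∀ z, nsq z ≤ R ^ 2 → χ z = 1) ∧
      Integrable (fun z => ‖(χ z : ℂ) * g z - MvPolynomial.eval z P‖ ^ 2 / (1 + nsq z)
        * Real.exp (-(2 * θ z))) ∧
      ∫ z, ‖(χ z : ℂ) * g z - MvPolynomial.eval z P‖ ^ 2 / (1 + nsq z) * Real.exp (-(2 * θ z))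
        ≤ C * (1 + R) ^ (2 * n + 2) * Real.exp (-(2 * ε * R)) := by
  obtain ⟨M, hM0, hM⟩ := spChi_bound n
  obtain ⟨V, hV0, hV⟩ := sp_vol n
  refine ⟨n * M ^ 2 * 4 * V, ?_⟩
  rintro g θ R ε hg hθ hR hε hshell ⟨B, hB⟩
  have hR0 : 0 < R := by linarith
  have hχs : ContDiff ℝ ∞ (fun z : Cn n => spChi (R⁻¹ • z)) :=
    (spChi_smooth n).comp (contDiff_const_smul _)
  have hgs := sp_hol_smooth g hg
  set v : Cn n → ℂ := fun z => ((spChi (R⁻¹ • z) : ℝ) : ℂ) * g z with hvdef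
  have hv : ContDiff ℝ ∞ v := (ofRealCLM.contDiff.comp hχs).mul hgs
  have hout : ∀ z : Cn n, z ∉ Metric.closedBall (0 : Cn n) (2 * R) → 4 * R ^ 2 < nsq z := by
    intro z hz
    by_contra h
    push Not at h
    apply hz
    rw [mem_closedBall_zero_iff]
    exact sp_norm_le z (2 * R) (by linarith) (by rw [mul_pow]; linarith)
  have hvc : HasCompactSupport v := by
    refine HasCompactSupport.intro (isCompact_closedBall (0 : Cn n) (2 * R)) fun z hz => ?_
    have h1 := hout z hz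
    have h2 : spChi (R⁻¹ • z) = 0 := by
      apply spChi_zero
      rw [sp_nsq_smul, le_div_iff₀ (by positivity)]
      exact h1.le
    simp [hvdef, h2]
  have hdz := fun j z => sp_dzb_bound M hM0 hM g hg R hR j z
  set F : Cn n → ℝ := fun z => (∑ j, ‖dzb j v z‖ ^ 2) * (1 + nsq z) * Real.exp (-(2 * θ z))
    with hFdef
  have hFcont : Continuous F := by
    have hfd : Continuous (fderiv ℝ v) := hv.continuous_fderiv (by simp)
    have hdc : ∀ j : Fin n, Continuous (dzb j v) := by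
      intro j
      unfold dzb
      exact continuous_const.mul ((hfd.clm_apply continuous_const).add
        (continuous_const.mul (hfd.clm_apply continuous_const)))
    have hnc : Continuous (nsq : Cn n → ℝ) := (sp_nsq_smooth n).continuous
    have hθc : Continuous θ := hθ.1.continuous
    refine ((continuous_finsetSum _ fun j _ => ((hdc j).norm.pow 2)).mul
      (continuous_const.add hnc)).mul ?_
    exact Real.continuous_exp.comp (continuous_const.mul hθc).neg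
  have hF0 : ∀ z, ¬ (R ^ 2 ≤ nsq z ∧ nsq z ≤ 4 * R ^ 2) → F z = 0 := by
    intro z hz
    have : ∀ j, dzb j v z = 0 := fun j => (hdz j z).2 hz
    simp [hFdef, this]
  have hFc : HasCompactSupport F := by
    refine HasCompactSupport.intro (isCompact_closedBall (0 : Cn n) (2 * R)) fun z hz => ?_
    exact hF0 z fun h => absurd h.2 (not_le.mpr (hout z hz))
  have hFint : Integrable F := hFcont.integrable_of_hasCompactSupport hFc
  set c0 : ℝ := n * M ^ 2 * (4 * (1 + R) ^ 2) * Real.exp (-(2 * ε * R)) with hc0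
  have hc00 : 0 ≤ c0 := by positivity
  have hFle : ∀ z, F z ≤ (Metric.closedBall (0 : Cn n) (2 * R)).indicator (fun _ => c0) z := by
    intro z
    by_cases hz : R ^ 2 ≤ nsq z ∧ nsq z ≤ 4 * R ^ 2
    · have hzb : z ∈ Metric.closedBall (0 : Cn n) (2 * R) := by
        by_contra h
        exact absurd hz.2 (not_le.mpr (hout z h))
      rw [indicator_of_mem hzb]
      have h1 : ∑ j, ‖dzb j v z‖ ^ 2 ≤ n * M ^ 2 * ‖g z‖ ^ 2 := by
        calc ∑ j, ‖dzb j v z‖ ^ 2 ≤ ∑ _j : Fin n, (M * ‖g z‖) ^ 2 :=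
              Finset.sum_le_sum fun j _ => pow_le_pow_left₀ (norm_nonneg _) (hdz j z).1 2
          _ = n * M ^ 2 * ‖g z‖ ^ 2 := by simp; ring
      have h2 : 1 + nsq z ≤ 4 * (1 + R) ^ 2 := by nlinarith [hz.2]
      have hn0 : 0 ≤ nsq z := sp_nsq_nonneg z
      have hg1 : 0 < 1 + ‖g z‖ ^ 2 := by positivity
      have h3 : Real.exp (-(2 * θ z)) ≤ Real.exp (-(2 * ε * R)) / (1 + ‖g z‖ ^ 2) := by
        rw [div_eq_mul_inv, ← Real.exp_log hg1, ← Real.exp_neg, ← Real.exp_add, Real.exp_le_exp]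
        have := hshell z hz.1 hz.2
        linarith
      calc F z ≤ (n * M ^ 2 * ‖g z‖ ^ 2) * (4 * (1 + R) ^ 2) *
            (Real.exp (-(2 * ε * R)) / (1 + ‖g z‖ ^ 2)) := by
            rw [hFdef]
            simp only
            gcongr
        _ = c0 * (‖g z‖ ^ 2 / (1 + ‖g z‖ ^ 2)) := by rw [hc0]; ring
        _ ≤ c0 * 1 := by
            refine mul_le_mul_of_nonneg_left ?_ hc00
            rw [div_le_one hg1]
            linarith
        _ = c0 := mul_one _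
    · rw [hF0 z hz]
      exact indicator_nonneg (fun _ _ => hc00) z
  have hball : (volume : Measure (Cn n)) (Metric.closedBall (0 : Cn n) (2 * R)) ≠ ⊤ :=
    (isCompact_closedBall _ _).measure_lt_top.ne
  have hFI : ∫ z, F z ≤ n * M ^ 2 * 4 * V * (1 + R) ^ (2 * n + 2) * Real.exp (-(2 * ε * R)) := by
    have h1 : ∫ z, F z ≤ ∫ z, (Metric.closedBall (0 : Cn n) (2 * R)).indicator (fun _ => c0) z := by
      refine integral_mono hFint ?_ hFle
      rw [integrable_indicator_iff measurableSet_closedBall]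
      exact integrableOn_const (hs := hball)
    rw [integral_indicator_const _ measurableSet_closedBall, smul_eq_mul] at h1
    refine h1.trans ?_
    calc (volume : Measure (Cn n)).real (Metric.closedBall 0 (2 * R)) * c0
        ≤ V * (1 + R) ^ (2 * n) * c0 := mul_le_mul_of_nonneg_right (hV R hR) hc00
      _ = _ := by rw [hc0, pow_add]; ring
  obtain ⟨h, hh, hint, hle⟩ := HD (fun z => 2 * θ z) (psh_smul 2 (by norm_num) θ hθ) v hv hFint
  obtain ⟨P, hP⟩ := sp_growth h v hh hv.continuous hvc θ B hB hint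
  refine ⟨P, fun z => spChi (R⁻¹ • z), hχs.continuous, fun z =>
    ⟨Real.smoothTransition.nonneg _, Real.smoothTransition.le_one _⟩, ?_, ?_, ?_⟩
  · intro z hz
    apply spChi_one
    rw [sp_nsq_smul, div_le_one (by positivity)]
    exact hz
  · have : (fun z => ‖((spChi (R⁻¹ • z) : ℝ) : ℂ) * g z - MvPolynomial.eval z P‖ ^ 2 / (1 + nsq z)
        * Real.exp (-(2 * θ z))) = fun z => ‖v z - h z‖ ^ 2 / (1 + nsq z)
        * Real.exp (-(2 * θ z)) := by
      funext z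
      rw [← hP z]
    rw [this]
    exact hint
  · have : (fun z => ‖((spChi (R⁻¹ • z) : ℝ) : ℂ) * g z - MvPolynomial.eval z P‖ ^ 2 / (1 + nsq z)
        * Real.exp (-(2 * θ z))) = fun z => ‖v z - h z‖ ^ 2 / (1 + nsq z)
        * Real.exp (-(2 * θ z)) := by
      funext z
      rw [← hP z]
    rw [this]
    exact hle.trans hFI

end J_step_poly

alias step_poly := J_step_poly.step_poly

namespace J_apx_L2

theorem a_nsq_nonneg {n : ℕ} (z : Cn n) : 0 ≤ nsq z := by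
  unfold nsq; positivity

theorem a_norm_le {n : ℕ} (z : Cn n) : ‖z‖ ≤ Real.sqrt (nsq z) := by
  rw [pi_norm_le_iff_of_nonneg (Real.sqrt_nonneg _)]
  intro i
  apply Real.le_sqrt_of_sq_le
  unfold nsq
  exact Finset.single_le_sum (f := fun i => ‖z i‖ ^ 2) (fun i _ => by positivity)
    (Finset.mem_univ i)

theorem a_nsq_le {n : ℕ} (z : Cn n) : nsq z ≤ n * ‖z‖ ^ 2 := by
  unfold nsq
  calc ∑ i, ‖z i‖ ^ 2 ≤ ∑ _i : Fin n, ‖z‖ ^ 2 := by
        apply Finset.sum_le_sum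
        intro i _
        exact pow_le_pow_left₀ (norm_nonneg _) (norm_le_pi_norm z i) 2
    _ = n * ‖z‖ ^ 2 := by simp

theorem a_nsq_cont {n : ℕ} : Continuous (fun z : Cn n => nsq z) := by
  unfold nsq; fun_prop

theorem a_sqrt_le {n : ℕ} (z : Cn n) : Real.sqrt (nsq z) ≤ Real.sqrt n * ‖z‖ := by
  have h : nsq z ≤ (Real.sqrt n * ‖z‖) ^ 2 := by
    rw [mul_pow, Real.sq_sqrt (Nat.cast_nonneg n)]; exact a_nsq_le z
  exact Real.sqrt_le_iff.2 ⟨by positivity, h⟩

theorem a_sqrt1_le {n : ℕ} (z : Cn n) : Real.sqrt (1 + nsq z) ≤ 1 + Real.sqrt n * ‖z‖ := by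
  have h1 := a_sqrt_le z
  have h2 : Real.sqrt (1 + nsq z) ≤ 1 + Real.sqrt (nsq z) := by
    rw [Real.sqrt_le_iff]
    refine ⟨by positivity, ?_⟩
    have := Real.sq_sqrt (a_nsq_nonneg z)
    nlinarith [Real.sqrt_nonneg (nsq z)]
  linarith

theorem a_exp_int (n : ℕ) (δ : ℝ) (hδ : 0 < δ) :
    Integrable (fun z : Cn n => Real.exp (-(δ * ‖z‖))) volume := by
  set r : ℕ := Module.finrank ℝ (Cn n) + 1 with hr
  have h1 : Integrable (fun z : Cn n => (1 + ‖z‖) ^ (-(r : ℝ))) volume := by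
    apply integrable_one_add_norm
    rw [hr]; push_cast; linarith
  refine (h1.const_mul ((r.factorial : ℝ) / δ ^ r * Real.exp δ)).mono' ?_ ?_
  · exact (by fun_prop : Continuous (fun z : Cn n => Real.exp (-(δ * ‖z‖)))).aestronglyMeasurable
  · refine Filter.Eventually.of_forall ?_
    intro z
    rw [Real.norm_eq_abs, abs_of_pos (Real.exp_pos _)]
    have hx : 0 < 1 + ‖z‖ := by positivity
    have h2 := Real.pow_div_factorial_le_exp (δ * (1 + ‖z‖)) (by positivity) r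
    rw [Real.rpow_neg hx.le, Real.rpow_natCast]
    have h3 : Real.exp (δ * (1 + ‖z‖)) = Real.exp δ * Real.exp (δ * ‖z‖) := by
      rw [← Real.exp_add]; congr 1; ring
    rw [h3, mul_pow, div_le_iff₀ (by positivity)] at h2
    rw [Real.exp_neg, ← div_eq_mul_inv, le_div_iff₀ (by positivity), ← div_eq_inv_mul,
      div_le_iff₀ (Real.exp_pos _)]
    rw [div_mul_eq_mul_div, div_mul_eq_mul_div, le_div_iff₀ (by positivity)]
    nlinarith [h2]

theorem a_lim (a b c : ℝ) (hb : 0 < b) (hc : 0 < c) (D : ℝ) (k : ℕ) :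
    Tendsto (fun R : ℝ => a * Real.exp (-(b * R)) + D * ((1 + R) ^ k * Real.exp (-(c * R))))
      atTop (𝓝 0) := by
  have h1 : Tendsto (fun R : ℝ => Real.exp (-(b * R))) atTop (𝓝 0) := by
    apply Real.tendsto_exp_neg_atTop_nhds_zero.comp
    exact tendsto_id.const_mul_atTop hb
  have h2 : Tendsto (fun R : ℝ => (1 + R) ^ k * Real.exp (-(c * R))) atTop (𝓝 0) := by
    have h3 := Real.tendsto_pow_mul_exp_neg_atTop_nhds_zero k
    have h4 : Tendsto (fun R : ℝ => c * (1 + R)) atTop atTop := by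
      apply Tendsto.const_mul_atTop hc
      exact tendsto_atTop_add_const_left _ _ tendsto_id
    have h5 := (h3.comp h4).const_mul (Real.exp c / c ^ k)
    rw [mul_zero] at h5
    refine h5.congr ?_
    intro R
    simp only [Function.comp]
    have h6 : Real.exp (-(c * (1 + R))) = Real.exp (-(c * R)) / Real.exp c := by
      rw [← Real.exp_sub]; congr 1; ring
    rw [h6, mul_pow]
    have := Real.exp_pos c
    have hck : c ^ k ≠ 0 := by positivity
    field_simp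
  have h7 := (h1.const_mul a).add (h2.const_mul D)
  simpa using h7

theorem a_alg1 (a t b c : ℝ) :
    (a * t + b * c) ^ 2 ≤ 2 * (a ^ 2 * t ^ 2) + 2 * (b ^ 2 * c ^ 2) := by
  nlinarith [sq_nonneg (a * t - b * c)]

theorem a_alg2 (s f E T X T' : ℝ) (hs : s ≠ 0) (hT : T * T' = 1) :
    f * X * E = (s * (f * E) * T) * (X / s * T') := by
  have : (s * (f * E) * T) * (X / s * T') = f * E * X * (T * T') * (s / s) := by ring
  rw [this, hT, div_self hs]; ring

theorem a_split (φ g p : ℂ) (χ : ℝ) :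
    ‖φ * (p - g)‖ ^ 2 ≤ 2 * (‖φ * g‖ ^ 2 * (1 - χ) ^ 2)
          + 2 * (‖φ‖ ^ 2 * ‖(χ : ℂ) * g - p‖ ^ 2) := by
  have e1 : φ * (p - g) = -((φ * g) * ((1 - χ : ℝ) : ℂ)) + -(φ * ((χ : ℂ) * g - p)) := by
    push_cast; ring
  have e2 : ‖φ * (p - g)‖ ≤ ‖φ * g‖ * |1 - χ| + ‖φ‖ * ‖(χ : ℂ) * g - p‖ := by
    rw [e1]
    refine (norm_add_le _ _).trans ?_
    rw [norm_neg, norm_neg, norm_mul (φ * g), norm_mul φ (_ - _),
      Complex.norm_real, Real.norm_eq_abs]
  have e3 := pow_le_pow_left₀ (norm_nonneg _) e2 2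
  refine e3.trans ?_
  have e4 : (1 - χ) ^ 2 = |1 - χ| ^ 2 := (sq_abs _).symm
  rw [e4]
  exact a_alg1 _ _ _ _

theorem a_wt (s f gg M x θ r q ε ε' N A Kc : ℝ) (hs : 0 ≤ s) (hf0 : 0 ≤ f) (hgg : 0 ≤ gg)
    (hx : 0 ≤ x) (hε : 0 < ε) (hε'0 : 0 < ε') (hKc : 0 ≤ Kc)
    (hθ : θ ≤ (1 / 2) * Real.log (1 + gg ^ 2) + ε' * q + N)
    (hf : f ≤ A * Real.exp M) (hfg : f * gg ≤ A * Real.exp M) (hq : q ≤ 1 + r * x)
    (hεε : ε = 8 * (r + 1) * ε') (hK : 1 + s ≤ Kc * Real.exp (ε / 4 * x)) :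
    (1 + s) * (f ^ 2 * Real.exp (-(2 * M) - ε * x)) * Real.exp (2 * θ)
      ≤ 2 * A ^ 2 * Real.exp (2 * N + 2 * ε') * Kc := by
  have h1 : Real.exp (2 * θ) ≤ (1 + gg ^ 2) * Real.exp (2 * ε' * q + 2 * N) := by
    have hpos : 0 < 1 + gg ^ 2 := by positivity
    calc Real.exp (2 * θ) ≤ Real.exp (Real.log (1 + gg ^ 2) + (2 * ε' * q + 2 * N)) := by
          apply Real.exp_le_exp.2; linarith
      _ = _ := by rw [Real.exp_add, Real.exp_log hpos]
  have h2 : f ^ 2 * (1 + gg ^ 2) ≤ 2 * A ^ 2 * Real.exp (2 * M) := by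
    have e0 : Real.exp (2 * M) = Real.exp M ^ 2 := by
      rw [← Real.exp_nat_mul]; norm_num
    have e1 : f ^ 2 ≤ A ^ 2 * Real.exp (2 * M) := by
      rw [e0, ← mul_pow]; exact pow_le_pow_left₀ hf0 hf 2
    have e2 : f ^ 2 * gg ^ 2 ≤ A ^ 2 * Real.exp (2 * M) := by
      rw [e0, ← mul_pow, ← mul_pow]; exact pow_le_pow_left₀ (by positivity) hfg 2
    linarith
  have h3 : 2 * ε' * q ≤ 2 * ε' + ε / 4 * x := by
    have e1 := mul_le_mul_of_nonneg_left hq (by positivity : 0 ≤ 2 * ε')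
    have e2 : 2 * ε' * (r * x) ≤ ε / 4 * x := by
      rw [hεε]
      have : 0 ≤ ε' * x := by positivity
      nlinarith
    linarith
  calc (1 + s) * (f ^ 2 * Real.exp (-(2 * M) - ε * x)) * Real.exp (2 * θ)
      ≤ (1 + s) * (f ^ 2 * Real.exp (-(2 * M) - ε * x)) *
        ((1 + gg ^ 2) * Real.exp (2 * ε' * q + 2 * N)) :=
        mul_le_mul_of_nonneg_left h1 (by positivity)
    _ = (1 + s) * (f ^ 2 * (1 + gg ^ 2)) * Real.exp (-(2 * M) - ε * x
        + (2 * ε' * q + 2 * N)) := by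
        rw [Real.exp_add (-(2 * M) - ε * x)]; ring
    _ ≤ (Kc * Real.exp (ε / 4 * x)) * (2 * A ^ 2 * Real.exp (2 * M)) *
        Real.exp (-(2 * M) - ε * x + (2 * ε' + ε / 4 * x + 2 * N)) := by
        apply mul_le_mul _ _ (Real.exp_pos _).le (by positivity)
        · exact mul_le_mul hK h2 (by positivity) (by positivity)
        · apply Real.exp_le_exp.2; linarith
    _ = 2 * A ^ 2 * Kc * (Real.exp (ε / 4 * x) * Real.exp (2 * M) *
        Real.exp (-(2 * M) - ε * x + (2 * ε' + ε / 4 * x + 2 * N))) := by ring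
    _ = 2 * A ^ 2 * Kc * Real.exp (2 * N + 2 * ε' + -(ε / 2 * x)) := by
        rw [← Real.exp_add, ← Real.exp_add]; congr 2; ring
    _ ≤ 2 * A ^ 2 * Kc * Real.exp (2 * N + 2 * ε') := by
        apply mul_le_mul_of_nonneg_left _ (by positivity)
        apply Real.exp_le_exp.2
        have : 0 ≤ ε / 2 * x := by positivity
        linarith
    _ = _ := by ring

theorem a_t1 (f χ M x r ε ε' A R : ℝ) (hf0 : 0 ≤ f) (hε'0 : 0 < ε')
    (hf : f ≤ A * Real.exp M) (h0 : 0 ≤ χ) (h1 : χ ≤ 1) (hR : R ≤ (r + 1) * x)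
    (hεε : ε = 8 * (r + 1) * ε') :
    f ^ 2 * (1 - χ) ^ 2 * Real.exp (-(2 * M) - ε * x)
        ≤ A ^ 2 * Real.exp (-(4 * ε' * R)) * Real.exp (-(ε / 2 * x)) := by
  have e0 : Real.exp (2 * M) = Real.exp M ^ 2 := by
    rw [← Real.exp_nat_mul]; norm_num
  have e2 : f ^ 2 ≤ A ^ 2 * Real.exp (2 * M) := by
    rw [e0, ← mul_pow]; exact pow_le_pow_left₀ hf0 hf 2
  have e3 : (1 - χ) ^ 2 ≤ 1 := by nlinarith
  have e4 : 4 * ε' * R ≤ ε / 2 * x := by
    rw [hεε]
    have := mul_le_mul_of_nonneg_left hR (by positivity : 0 ≤ 4 * ε')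
    linarith
  calc f ^ 2 * (1 - χ) ^ 2 * Real.exp (-(2 * M) - ε * x)
      ≤ (A ^ 2 * Real.exp (2 * M)) * 1 * Real.exp (-(2 * M) - ε * x) := by
        apply mul_le_mul_of_nonneg_right _ (Real.exp_pos _).le
        exact mul_le_mul e2 e3 (by positivity) (by positivity)
    _ = A ^ 2 * Real.exp (-(ε / 2 * x) + -(ε / 2 * x)) := by
        rw [mul_one, mul_assoc, ← Real.exp_add]; congr 2; ring
    _ ≤ A ^ 2 * Real.exp (-(4 * ε' * R) + -(ε / 2 * x)) := by
        apply mul_le_mul_of_nonneg_left _ (by positivity)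
        apply Real.exp_le_exp.2; linarith
    _ = _ := by rw [Real.exp_add]; ring

/-- weighted mean square approximation by polynomial multiples -/
theorem apx_L2 {n : ℕ} (φ g : Cn n → ℂ) (hφ : Differentiable ℂ φ) (hg : Differentiable ℂ g)
    (h0 : ∃ z, φ z ≠ 0) (M : Cn n → ℝ) (B : ℝ) (hM : ∀ z w, |M z - M w| ≤ B * ‖z - w‖) (A : ℝ)
    (hA : ∀ z, ‖φ z‖ ≤ A * Real.exp (M z)) (hA' : ∀ z, ‖φ z * g z‖ ≤ A * Real.exp (M z))
    (ε : ℝ) (hε : 0 < ε) (η : ℝ) (hη : 0 < η) :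
    ∃ P : MvPolynomial (Fin n) ℂ,
      Integrable (fun z => ‖φ z * (MvPolynomial.eval z P - g z)‖ ^ 2
        * Real.exp (-(2 * M z) - ε * ‖z‖)) ∧
      ∫ z, ‖φ z * (MvPolynomial.eval z P - g z)‖ ^ 2 * Real.exp (-(2 * M z) - ε * ‖z‖) ≤ η := by
  have hA0 : 0 ≤ A := by
    have h := (norm_nonneg _).trans (hA 0)
    by_contra hneg
    push Not at hneg
    have := mul_neg_of_neg_of_pos hneg (Real.exp_pos (M 0))
    linarith
  -- continuity of M
  have hMc : Continuous M := by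
    have : LipschitzWith (Real.toNNReal |B|) M := by
      apply LipschitzWith.of_dist_le_mul
      intro x y
      rw [Real.dist_eq, dist_eq_norm, Real.coe_toNNReal _ (abs_nonneg _)]
      exact (hM x y).trans (mul_le_mul_of_nonneg_right (le_abs_self B) (norm_nonneg _))
    exact this.continuous
  have hM0 : ∀ z, M z ≤ M 0 + |B| * ‖z‖ := by
    intro z
    have h1 := hM z 0
    rw [sub_zero] at h1
    have h2 := le_abs_self (M z - M 0)
    have h3 := mul_le_mul_of_nonneg_right (le_abs_self B) (norm_nonneg z)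
    linarith
  have hexpM : ∀ z, A * Real.exp (M z) ≤ (A * Real.exp (M 0)) * Real.exp (|B| * ‖z‖) := by
    intro z
    rw [mul_assoc, ← Real.exp_add]
    exact mul_le_mul_of_nonneg_left (Real.exp_le_exp.2 (hM0 z)) hA0
  obtain ⟨C, hC0, hC⟩ := quot_growth φ g hφ hg h0 (A * Real.exp (M 0)) |B|
    (fun z => (hA z).trans (hexpM z)) (fun z => (hA' z).trans (hexpM z))
  have hC' : ∀ z, ‖g z‖ ≤ Real.exp (C * (1 + Real.sqrt (nsq z))) := by
    intro z
    refine (hC z).trans (Real.exp_le_exp.2 ?_)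
    exact mul_le_mul_of_nonneg_left (by linarith [a_norm_le z]) hC0
  have hsn : 0 ≤ Real.sqrt n := Real.sqrt_nonneg _
  set ε' : ℝ := ε / (8 * (Real.sqrt n + 1)) with hε'
  have hε'0 : 0 < ε' := by positivity
  have hεε : ε = 8 * (Real.sqrt n + 1) * ε' := by
    rw [hε']; field_simp
  obtain ⟨N, R0, hW⟩ := exists_weight g hg C hC' ε' hε'0
  obtain ⟨C2, hstep⟩ := step_poly n
  set J : ℝ := ∫ z : Cn n, Real.exp (-(ε / 2 * ‖z‖)) with hJ
  set Kc : ℝ := 1 + n * (32 / ε ^ 2) with hKc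
  set C3 : ℝ := 2 * A ^ 2 * Real.exp (2 * N + 2 * ε') * Kc with hC3
  have hKc0 : 0 ≤ Kc := by positivity
  have hC30 : 0 ≤ C3 := by positivity
  have hlim := a_lim (2 * A ^ 2 * J) (4 * ε') (2 * ε') (by positivity) (by positivity)
    (2 * C3 * C2) (2 * n + 2)
  have hev : ∀ᶠ R : ℝ in atTop, (2 * A ^ 2 * J) * Real.exp (-(4 * ε' * R))
      + (2 * C3 * C2) * ((1 + R) ^ (2 * n + 2) * Real.exp (-(2 * ε' * R))) < η :=
    hlim.eventually (gt_mem_nhds hη)
  obtain ⟨R, ⟨hR1, hR2⟩, hR3⟩ := ((hev.and (eventually_ge_atTop R0)).and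
    (eventually_ge_atTop (1 : ℝ))).exists
  have hRpos : 0 < R := by linarith
  obtain ⟨θ, hθ1, hθ2, hθ3, hθ4⟩ := hW R hR2 hRpos
  obtain ⟨P, χ, hχc, hχ01, hχ1, hPi, hPb⟩ := hstep g θ R ε' hg hθ1 hR3 hε'0 hθ3 hθ4
  -- pointwise bound of the weight
  have hKb : ∀ z : Cn n, 1 + nsq z ≤ Kc * Real.exp (ε / 4 * ‖z‖) := by
    intro z
    have h1 := a_nsq_le z
    have h2 := Real.pow_div_factorial_le_exp (ε / 4 * ‖z‖) (by positivity) 2
    have h3 : (1 : ℝ) ≤ Real.exp (ε / 4 * ‖z‖) := Real.one_le_exp (by positivity)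
    have h4 : ‖z‖ ^ 2 ≤ 32 / ε ^ 2 * Real.exp (ε / 4 * ‖z‖) := by
      rw [div_mul_eq_mul_div, le_div_iff₀ (by positivity)]
      have : ((2 : ℕ).factorial : ℝ) = 2 := by norm_num
      rw [this, div_le_iff₀ (by norm_num)] at h2
      nlinarith [h2]
    have hn : (0 : ℝ) ≤ n := Nat.cast_nonneg n
    rw [hKc, add_mul, one_mul, mul_assoc]
    have h5 := mul_le_mul_of_nonneg_left h4 hn
    linarith
  have hwt : ∀ z : Cn n, (1 + nsq z) * (‖φ z‖ ^ 2 * Real.exp (-(2 * M z) - ε * ‖z‖))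
      * Real.exp (2 * θ z) ≤ C3 := by
    intro z
    obtain ⟨t, ht0, ht1, hθ⟩ := hθ2 z
    have hW0 : 0 ≤ (1 / 2) * Real.log (1 + ‖g z‖ ^ 2) := by
      have : 0 ≤ Real.log (1 + ‖g z‖ ^ 2) := Real.log_nonneg (by nlinarith [norm_nonneg (g z)])
      positivity
    have hθ' : θ z ≤ (1 / 2) * Real.log (1 + ‖g z‖ ^ 2) + ε' * Real.sqrt (1 + nsq z) + N := by
      have := mul_le_of_le_one_left hW0 ht1
      linarith
    have := a_wt (nsq z) ‖φ z‖ ‖g z‖ (M z) ‖z‖ (θ z) (Real.sqrt n) (Real.sqrt (1 + nsq z)) ε ε' N A Kc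
      (a_nsq_nonneg z) (norm_nonneg _) (norm_nonneg _) (norm_nonneg _) hε hε'0 hKc0 hθ' (hA z)
      (by rw [← norm_mul]; exact hA' z) (a_sqrt1_le z) hεε (hKb z)
    exact this
  -- the dominating function
  set F : Cn n → ℝ := fun z => ‖φ z * (MvPolynomial.eval z P - g z)‖ ^ 2
        * Real.exp (-(2 * M z) - ε * ‖z‖) with hF
  set Q : Cn n → ℝ := fun z => ‖(χ z : ℂ) * g z - MvPolynomial.eval z P‖ ^ 2 / (1 + nsq z)
        * Real.exp (-(2 * θ z)) with hQ
  set G : Cn n → ℝ := fun z => (2 * A ^ 2 * Real.exp (-(4 * ε' * R))) * Real.exp (-(ε / 2 * ‖z‖))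
    + (2 * C3) * Q z with hG
  have hGi : Integrable G volume :=
    ((a_exp_int n (ε / 2) (by positivity)).const_mul _).add (hPi.const_mul _)
  have hFG : ∀ z, F z ≤ G z := by
    intro z
    have hnn : 0 < 1 + nsq z := by linarith [a_nsq_nonneg z]
    have hsplit : ‖φ z * (MvPolynomial.eval z P - g z)‖ ^ 2
        ≤ 2 * (‖φ z * g z‖ ^ 2 * (1 - χ z) ^ 2)
          + 2 * (‖φ z‖ ^ 2 * ‖(χ z : ℂ) * g z - MvPolynomial.eval z P‖ ^ 2) := by
      exact a_split _ _ _ _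
    -- first term
    have ht1 : ‖φ z * g z‖ ^ 2 * (1 - χ z) ^ 2 * Real.exp (-(2 * M z) - ε * ‖z‖)
        ≤ A ^ 2 * Real.exp (-(4 * ε' * R)) * Real.exp (-(ε / 2 * ‖z‖)) := by
      by_cases hz : nsq z ≤ R ^ 2
      · rw [hχ1 z hz]
        simp only [sub_self]
        have : (0:ℝ) ≤ A ^ 2 * Real.exp (-(4 * ε' * R)) * Real.exp (-(ε / 2 * ‖z‖)) := by
          positivity
        simpa using this
      · push Not at hz
        have e1 : R ≤ (Real.sqrt n + 1) * ‖z‖ := by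
          have f1 : R ≤ Real.sqrt (nsq z) := Real.le_sqrt_of_sq_le hz.le
          have f2 := a_sqrt_le z
          nlinarith [norm_nonneg z]
        exact a_t1 _ _ _ _ _ _ _ _ _ (norm_nonneg _) hε'0 (hA' z) (hχ01 z).1 (hχ01 z).2 e1 hεε
    -- second term
    have ht2 : ‖φ z‖ ^ 2 * ‖(χ z : ℂ) * g z - MvPolynomial.eval z P‖ ^ 2
        * Real.exp (-(2 * M z) - ε * ‖z‖) ≤ C3 * Q z := by
      have e1 : ‖φ z‖ ^ 2 * ‖(χ z : ℂ) * g z - MvPolynomial.eval z P‖ ^ 2
        * Real.exp (-(2 * M z) - ε * ‖z‖)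
        = ((1 + nsq z) * (‖φ z‖ ^ 2 * Real.exp (-(2 * M z) - ε * ‖z‖))
          * Real.exp (2 * θ z)) * Q z := by
        have e2 : Real.exp (2 * θ z) * Real.exp (-(2 * θ z)) = 1 := by
          rw [← Real.exp_add]; simp
        simp only [hQ]
        exact a_alg2 _ _ _ _ _ _ hnn.ne' e2
      rw [e1]
      apply mul_le_mul_of_nonneg_right (hwt z)
      simp only [hQ]
      positivity
    calc F z ≤ (2 * (‖φ z * g z‖ ^ 2 * (1 - χ z) ^ 2)
          + 2 * (‖φ z‖ ^ 2 * ‖(χ z : ℂ) * g z - MvPolynomial.eval z P‖ ^ 2))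
          * Real.exp (-(2 * M z) - ε * ‖z‖) :=
          mul_le_mul_of_nonneg_right hsplit (Real.exp_pos _).le
      _ = 2 * (‖φ z * g z‖ ^ 2 * (1 - χ z) ^ 2 * Real.exp (-(2 * M z) - ε * ‖z‖))
          + 2 * (‖φ z‖ ^ 2 * ‖(χ z : ℂ) * g z - MvPolynomial.eval z P‖ ^ 2
            * Real.exp (-(2 * M z) - ε * ‖z‖)) := by ring
      _ ≤ 2 * (A ^ 2 * Real.exp (-(4 * ε' * R)) * Real.exp (-(ε / 2 * ‖z‖)))
          + 2 * (C3 * Q z) := by linarith
      _ = G z := by simp only [hG]; ring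
  have hFc : Continuous F := by
    have hP : Continuous (fun z : Cn n => MvPolynomial.eval z P) :=
      MvPolynomial.continuous_eval P
    have h1 := hφ.continuous
    have h2 := hg.continuous
    simp only [hF]
    fun_prop
  have hF0 : ∀ z, 0 ≤ F z := by
    intro z
    simp only [hF]
    positivity
  have hFi : Integrable F volume := by
    refine hGi.mono' hFc.aestronglyMeasurable ?_
    refine Filter.Eventually.of_forall ?_
    intro z
    rw [Real.norm_eq_abs, abs_of_nonneg (hF0 z)]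
    exact hFG z
  refine ⟨P, hFi, ?_⟩
  calc ∫ z, F z ≤ ∫ z, G z := integral_mono hFi hGi hFG
    _ = (2 * A ^ 2 * Real.exp (-(4 * ε' * R))) * J + (2 * C3) * ∫ z, Q z := by
        simp only [hG]
        rw [integral_add ((a_exp_int n (ε / 2) (by positivity)).const_mul _) (hPi.const_mul _),
          integral_const_mul, integral_const_mul]
    _ ≤ (2 * A ^ 2 * Real.exp (-(4 * ε' * R))) * J + (2 * C3) *
        (C2 * (1 + R) ^ (2 * n + 2) * Real.exp (-(2 * ε' * R))) := by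
        have := mul_le_mul_of_nonneg_left hPb (by positivity : 0 ≤ 2 * C3)
        linarith
    _ ≤ η := by
        have : (2 * A ^ 2 * Real.exp (-(4 * ε' * R))) * J + (2 * C3) *
          (C2 * (1 + R) ^ (2 * n + 2) * Real.exp (-(2 * ε' * R)))
          = (2 * A ^ 2 * J) * Real.exp (-(4 * ε' * R))
            + (2 * C3 * C2) * ((1 + R) ^ (2 * n + 2) * Real.exp (-(2 * ε' * R))) := by ring
        rw [this]
        exact hR1.le

end J_apx_L2

alias apx_L2 := J_apx_L2.apx_L2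

namespace J_apx

theorem aux28163_diff {n : ℕ} (P : MvPolynomial (Fin n) ℂ) :
    Differentiable ℂ (fun z : Cn n => MvPolynomial.eval z P) := by
  induction P using MvPolynomial.induction_on with
  | C a => simp
  | add p q hp hq =>
    simp only [map_add]
    exact hp.add hq
  | mul_X p i hp =>
    simp only [map_mul, MvPolynomial.eval_X]
    exact hp.mul (differentiable_apply i)

/-- uniform weighted approximation by polynomial multiples -/
theorem apx {n : ℕ} (φ g : Cn n → ℂ) (hφ : Differentiable ℂ φ) (hg : Differentiable ℂ g)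
    (h0 : ∃ z, φ z ≠ 0) (M : Cn n → ℝ) (B : ℝ) (hM : ∀ z w, |M z - M w| ≤ B * ‖z - w‖) (A : ℝ)
    (hA : ∀ z, ‖φ z‖ ≤ A * Real.exp (M z)) (hA' : ∀ z, ‖φ z * g z‖ ≤ A * Real.exp (M z))
    (ε : ℝ) (hε : 0 < ε) :
    ∃ (P : ℕ → MvPolynomial (Fin n) ℂ) (δ : ℕ → ℝ), Tendsto δ atTop (𝓝 0) ∧ (∀ k, 0 ≤ δ k) ∧
      ∀ k z, ‖φ z * (MvPolynomial.eval z (P k) - g z)‖ ≤ δ k * Real.exp (M z + ε * ‖z‖) := by
  have hη : ∀ k : ℕ, (0 : ℝ) < 1 / ((k : ℝ) + 1) := fun k => by positivity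
  choose P hPi hPb using fun k : ℕ => apx_L2 φ g hφ hg h0 M B hM A hA hA' ε hε (1 / ((k : ℝ) + 1)) (hη k)
  obtain ⟨C, hC⟩ := sup_of_L2 n
  refine ⟨P, fun k => Real.sqrt (|C| * Real.exp (2 * |B| + ε) * (1 / ((k : ℝ) + 1))), ?_, ?_, ?_⟩
  · have h1 : Tendsto (fun k : ℕ => |C| * Real.exp (2 * |B| + ε) * (1 / ((k : ℝ) + 1))) atTop
        (𝓝 (|C| * Real.exp (2 * |B| + ε) * 0)) :=
      tendsto_one_div_add_atTop_nhds_zero_nat.const_mul _
    rw [mul_zero] at h1
    have h2 := (Real.continuous_sqrt.tendsto 0).comp h1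
    rw [Real.sqrt_zero] at h2
    exact h2
  · intro k
    exact Real.sqrt_nonneg _
  · intro k z
    set h : Cn n → ℂ := fun w => φ w * (MvPolynomial.eval w (P k) - g w) with hh
    have hd : Differentiable ℂ h := hφ.mul ((aux28163_diff (P k)).sub hg)
    set F : Cn n → ℝ := fun w => ‖h w‖ ^ 2 * Real.exp (-(2 * M w) - ε * ‖w‖) with hF
    have hFi : Integrable F := hPi k
    have hFb : ∫ w, F w ≤ 1 / ((k : ℝ) + 1) := hPb k
    have hF0 : ∀ w, 0 ≤ F w := fun w => by positivity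
    have hcont : Continuous (fun w => ‖h w‖ ^ 2) := (hd.continuous.norm.pow 2)
    have hint : IntegrableOn (fun w => ‖h w‖ ^ 2) (Metric.closedBall z 1) :=
      hcont.continuousOn.integrableOn_compact (isCompact_closedBall z 1)
    set E : ℝ := Real.exp (2 * M z + 2 * |B| + ε * (‖z‖ + 1)) with hE
    have hpt : ∀ w ∈ Metric.closedBall z 1, ‖h w‖ ^ 2 ≤ E * F w := by
      intro w hw
      have hw1 : ‖w - z‖ ≤ 1 := by
        rw [← dist_eq_norm]; exact Metric.mem_closedBall.mp hw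
      have hMw : M w - M z ≤ |B| := by
        have h1 := hM w z
        have h2 : B * ‖w - z‖ ≤ |B| * 1 := by
          calc B * ‖w - z‖ ≤ |B| * ‖w - z‖ :=
                mul_le_mul_of_nonneg_right (le_abs_self B) (norm_nonneg _)
            _ ≤ |B| * 1 := mul_le_mul_of_nonneg_left hw1 (abs_nonneg B)
        have h3 := le_abs_self (M w - M z)
        linarith
      have hnw : ‖w‖ ≤ ‖z‖ + 1 := by
        have h4 : ‖w‖ ≤ ‖w - z‖ + ‖z‖ := by
          calc ‖w‖ = ‖(w - z) + z‖ := by rw [sub_add_cancel]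
            _ ≤ ‖w - z‖ + ‖z‖ := norm_add_le _ _
        linarith
      have h5 : (1 : ℝ) ≤ E * Real.exp (-(2 * M w) - ε * ‖w‖) := by
        rw [hE, ← Real.exp_add]
        apply Real.one_le_exp
        have h6 : ε * ‖w‖ ≤ ε * (‖z‖ + 1) := mul_le_mul_of_nonneg_left hnw hε.le
        linarith
      calc ‖h w‖ ^ 2 = ‖h w‖ ^ 2 * 1 := (mul_one _).symm
        _ ≤ ‖h w‖ ^ 2 * (E * Real.exp (-(2 * M w) - ε * ‖w‖)) :=
            mul_le_mul_of_nonneg_left h5 (by positivity)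
        _ = E * F w := by rw [hF]; ring
    have hset : ∫ w in Metric.closedBall z 1, ‖h w‖ ^ 2 ≤ E * (1 / ((k : ℝ) + 1)) := by
      calc ∫ w in Metric.closedBall z 1, ‖h w‖ ^ 2
          ≤ ∫ w in Metric.closedBall z 1, E * F w :=
            setIntegral_mono_on hint (hFi.integrableOn.const_mul E) Metric.isClosed_closedBall.measurableSet hpt
        _ ≤ ∫ w, E * F w := by
            apply setIntegral_le_integral (hFi.const_mul E)
            filter_upwards with w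
            exact mul_nonneg (Real.exp_pos _).le (hF0 w)
        _ = E * ∫ w, F w := integral_const_mul _ _
        _ ≤ E * (1 / ((k : ℝ) + 1)) := mul_le_mul_of_nonneg_left hFb (Real.exp_pos _).le
    have hset0 : 0 ≤ ∫ w in Metric.closedBall z 1, ‖h w‖ ^ 2 := by
      apply integral_nonneg
      intro w
      positivity
    have hmain : ‖h z‖ ^ 2 ≤ |C| * (E * (1 / ((k : ℝ) + 1))) := by
      calc ‖h z‖ ^ 2 ≤ C * ∫ w in Metric.closedBall z 1, ‖h w‖ ^ 2 := hC h z hd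
        _ ≤ |C| * ∫ w in Metric.closedBall z 1, ‖h w‖ ^ 2 :=
            mul_le_mul_of_nonneg_right (le_abs_self C) hset0
        _ ≤ |C| * (E * (1 / ((k : ℝ) + 1))) := mul_le_mul_of_nonneg_left hset (abs_nonneg C)
    have hEe : E = Real.exp (2 * |B| + ε) * (Real.exp (M z + ε * ‖z‖ / 2)) ^ 2 := by
      rw [hE, ← Real.exp_nat_mul, ← Real.exp_add]
      congr 1
      push_cast
      ring
    have hsq : (‖h z‖) ^ 2 ≤ (Real.sqrt (|C| * Real.exp (2 * |B| + ε) * (1 / ((k : ℝ) + 1)))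
        * Real.exp (M z + ε * ‖z‖)) ^ 2 := by
      rw [mul_pow, Real.sq_sqrt (by positivity)]
      calc ‖h z‖ ^ 2 ≤ |C| * (E * (1 / ((k : ℝ) + 1))) := hmain
        _ = (|C| * Real.exp (2 * |B| + ε) * (1 / ((k : ℝ) + 1))) * (Real.exp (M z + ε * ‖z‖ / 2)) ^ 2 := by
            rw [hEe]; ring
        _ ≤ (|C| * Real.exp (2 * |B| + ε) * (1 / ((k : ℝ) + 1))) * (Real.exp (M z + ε * ‖z‖)) ^ 2 := by
            apply mul_le_mul_of_nonneg_left _ (by positivity)
            apply pow_le_pow_left₀ (Real.exp_pos _).le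
            apply Real.exp_le_exp.mpr
            have : 0 ≤ ε * ‖z‖ := by positivity
            linarith
    change ‖h z‖ ≤ _
    exact (abs_le_of_sq_le_sq' hsq (by positivity)).2

end J_apx

alias apx := J_apx.apx

end Pool.Agent.Helper192.Syn
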