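import Pool.Agent.Helper192.Syn.A1
import Pool.Agent.Helper192.Syn.A2

/-! extension with bounds -/

set_option linter.all false

open MeasureTheory Set Filter Topology Complex
open scoped BigOperators ContDiff ComplexConjugate

namespace Pool.Agent.Helper192.Syn

namespace J_psh_of_convex

theorem psh_of_convex_D2 {n : ℕ} (u : Cn n → ℝ) (hu : ContDiff ℝ ∞ u) (hc : ConvexOn ℝ univ u)
    (z w : Cn n) : 0 ≤ D2 u z w := by
  have hud : Differentiable ℝ u := hu.differentiable (by simp)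
  have hψ : Differentiable ℝ (fun y => fderiv ℝ u y w) := by
    have h1 : ContDiff ℝ 1 (fderiv ℝ u) := hu.fderiv_right (m := 1) (by norm_cast)
    exact (h1.clm_apply contDiff_const).differentiable (by simp)
  have hline : ∀ t : ℝ, HasDerivAt (fun t : ℝ => z + t • w) w t := by
    intro t
    have h1 := ((hasDerivAt_id t).smul_const w).const_add z
    simpa using h1
  have hφd : ∀ t : ℝ, HasDerivAt (fun t : ℝ => u (z + t • w)) (fderiv ℝ u (z + t • w) w) t := by
    intro t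
    exact (hud (z + t • w)).hasFDerivAt.comp_hasDerivAt t (hline t)
  have hφc : ConvexOn ℝ univ (fun t : ℝ => u (z + t • w)) := by
    refine ⟨convex_univ, fun x _ y _ a b ha hb hab => ?_⟩
    have h1 := hc.2 (mem_univ (z + x • w)) (mem_univ (z + y • w)) ha hb hab
    have h2 : a • (z + x • w) + b • (z + y • w) = z + (a • x + b • y) • w := by
      have h3 : a • z + b • z = z := by rw [← add_smul, hab, one_smul]
      calc a • (z + x • w) + b • (z + y • w) = (a • z + b • z) + (a • x + b • y) • w := by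
            rw [smul_add, smul_add, smul_smul, smul_smul, add_smul, smul_eq_mul, smul_eq_mul]
            abel
        _ = z + (a • x + b • y) • w := by rw [h3]
    rw [h2] at h1
    exact h1
  have hmono : Monotone (deriv (fun t : ℝ => u (z + t • w))) := by
    rw [← monotoneOn_univ]
    exact hφc.monotoneOn_deriv (fun t _ => (hφd t).differentiableAt)
  have hderiv : deriv (fun t : ℝ => u (z + t • w)) = fun t => fderiv ℝ u (z + t • w) w :=
    funext fun t => (hφd t).deriv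
  have h2 : HasDerivAt (fun t : ℝ => fderiv ℝ u (z + t • w) w)
      (fderiv ℝ (fun y => fderiv ℝ u y w) (z + (0 : ℝ) • w) w) 0 := by
    have h4 : HasFDerivAt (fun y => fderiv ℝ u y w)
        (fderiv ℝ (fun y => fderiv ℝ u y w) (z + (0 : ℝ) • w)) (z + (0 : ℝ) • w) :=
      (hψ (z + (0 : ℝ) • w)).hasFDerivAt
    exact HasFDerivAt.comp_hasDerivAt (f := fun t : ℝ => z + t • w) (0 : ℝ) h4 (hline 0)
  have h3 := hmono.deriv_nonneg (x := 0)
  rw [hderiv, h2.deriv, zero_smul, add_zero] at h3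
  exact h3

/-- smooth convex functions are plurisubharmonic -/
theorem psh_of_convex {n : ℕ} (u : Cn n → ℝ) (hu : ContDiff ℝ ∞ u) (hc : ConvexOn ℝ univ u) :
    Psh u := by
  refine ⟨hu, fun z w => ?_⟩
  exact add_nonneg (psh_of_convex_D2 u hu hc z w) (psh_of_convex_D2 u hu hc z (I • w))

end J_psh_of_convex

alias psh_of_convex := J_psh_of_convex.psh_of_convex

namespace J_psh_comp

theorem D2_comp_aux {m n : ℕ} (u : Cn n → ℝ) (hu : ContDiff ℝ ∞ u) (T : Cn m →L[ℝ] Cn n) (z w : Cn m) :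
    D2 (fun y => u (T y)) z w = D2 u (T z) (T w) := by
  have hud : Differentiable ℝ u := hu.differentiable (by simp)
  have h1 : ∀ y : Cn m, fderiv ℝ (fun y => u (T y)) y w = fderiv ℝ u (T y) (T w) := by
    intro y
    have h := (hud (T y)).hasFDerivAt.comp y T.hasFDerivAt
    have h2 : fderiv ℝ (fun y => u (T y)) y = (fderiv ℝ u (T y)).comp T := h.fderiv
    rw [h2]; rfl
  have hg : Differentiable ℝ (fun y' : Cn n => fderiv ℝ u y' (T w)) := by
    have h3 : ContDiff ℝ 1 (fderiv ℝ u) := (hu.fderiv_right (m := ∞) (by simp)).of_le (by exact_mod_cast le_top)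
    exact (h3.clm_apply contDiff_const).differentiable (by norm_num)
  unfold D2
  have h4 : (fun y => fderiv ℝ (fun y => u (T y)) y w) = fun y => (fun y' : Cn n => fderiv ℝ u y' (T w)) (T y) :=
    funext h1
  rw [h4]
  have h := (hg (T z)).hasFDerivAt.comp z T.hasFDerivAt
  have h2 : fderiv ℝ (fun y => (fun y' : Cn n => fderiv ℝ u y' (T w)) (T y)) z =
      (fderiv ℝ (fun y' : Cn n => fderiv ℝ u y' (T w)) (T z)).comp T := h.fderiv
  rw [h2]; rfl

/-- composition with a complex linear map -/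
theorem psh_comp {m n : ℕ} (u : Cn n → ℝ) (hu : Psh u) (T : Cn m →L[ℂ] Cn n) :
    Psh (fun z => u (T z)) := by
  have hT : ∀ z, T z = (T.restrictScalars ℝ) z := fun z => rfl
  refine ⟨?_, ?_⟩
  · exact hu.1.comp (T.restrictScalars ℝ).contDiff
  · intro z w
    unfold Lev
    have h1 := D2_comp_aux u hu.1 (T.restrictScalars ℝ) z w
    have h2 := D2_comp_aux u hu.1 (T.restrictScalars ℝ) z (I • w)
    have h3 : (T.restrictScalars ℝ) (I • w) = I • (T.restrictScalars ℝ) w := by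
      rw [← hT, ← hT, map_smul]
    rw [h3] at h2
    simp only [← hT] at h1 h2
    rw [h1, h2]
    exact hu.2 (T z) (T w)

end J_psh_comp

alias psh_comp := J_psh_comp.psh_comp

namespace J_smooth_convex

/-- smoothing of Lipschitz convex functions -/
theorem smooth_convex {E : Type*} [NormedAddCommGroup E] [NormedSpace ℝ E] [FiniteDimensional ℝ E]
    (h : E → ℝ) (B : NNReal) (hc : ConvexOn ℝ univ h) (hl : LipschitzWith B h) :
    ∃ H : E → ℝ, ContDiff ℝ ∞ H ∧ ConvexOn ℝ univ H ∧ LipschitzWith B H ∧ ∀ x, |H x - h x| ≤ B := by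
  borelize E
  let μ : Measure E := Measure.addHaar
  let φ : ContDiffBump (0 : E) := ⟨1 / 2, 1, by norm_num, by norm_num⟩
  obtain ⟨ρ, hρ⟩ : ∃ ρ : E → ℝ, ρ = φ.normed μ := ⟨_, rfl⟩
  have h1 : ContDiff ℝ ∞ ρ := by
    rw [hρ]
    exact φ.contDiff_normed
  have h2 : HasCompactSupport ρ := by
    rw [hρ]
    exact φ.hasCompactSupport_normed
  have h3 : ∀ x, 0 ≤ ρ x := fun x => by
    rw [hρ]
    exact φ.nonneg_normed x
  have h4 : ∫ x, ρ x ∂μ = 1 := by
    rw [hρ]
    exact φ.integral_normed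
  have h5 : ∀ x, ρ x ≠ 0 → ‖x‖ ≤ 1 := by
    intro x hx
    have h6 : x ∈ Function.support ρ := hx
    rw [hρ, φ.support_normed_eq] at h6
    have h7 := mem_ball_zero_iff.1 h6
    exact h7.le
  have hcont : Continuous h := hl.continuous
  have hint : ∀ x, Integrable (fun t => ρ t * h (x - t)) μ := by
    intro x
    refine Continuous.integrable_of_hasCompactSupport ?_ ?_
    · exact h1.continuous.mul (hcont.comp (continuous_const.sub continuous_id))
    · exact h2.mul_right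
  have hρi : Integrable ρ μ := h1.continuous.integrable_of_hasCompactSupport h2
  refine ⟨fun x => ∫ t, ρ t * h (x - t) ∂μ, ?_, ?_, ?_, ?_⟩
  · have := h2.contDiff_convolution_left (L := ContinuousLinearMap.lsmul ℝ ℝ) (μ := μ) h1
      (hcont.locallyIntegrable)
    exact this
  · refine ⟨convex_univ, fun x _ y _ a b ha hb hab => ?_⟩
    simp only [smul_eq_mul]
    rw [← integral_const_mul, ← integral_const_mul,
      ← integral_add ((hint x).const_mul a) ((hint y).const_mul b)]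
    refine integral_mono (hint _) (((hint x).const_mul a).add ((hint y).const_mul b)) fun t => ?_
    have e : a • x + b • y - t = a • (x - t) + b • (y - t) := by
      rw [smul_sub, smul_sub]
      have h8 : t = a • t + b • t := by rw [← add_smul, hab, one_smul]
      nth_rewrite 1 [h8]
      abel
    show ρ t * h (a • x + b • y - t) ≤ a * (ρ t * h (x - t)) + b * (ρ t * h (y - t))
    rw [e]
    have h6 := hc.2 (mem_univ (x - t)) (mem_univ (y - t)) ha hb hab
    simp only [smul_eq_mul] at h6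
    have h9 := mul_le_mul_of_nonneg_left h6 (h3 t)
    linarith
  · refine LipschitzWith.of_dist_le_mul fun x y => ?_
    rw [Real.dist_eq, ← integral_sub (hint x) (hint y)]
    calc |∫ t, (ρ t * h (x - t) - ρ t * h (y - t)) ∂μ|
        ≤ ∫ t, ‖ρ t * h (x - t) - ρ t * h (y - t)‖ ∂μ := by
          rw [← Real.norm_eq_abs]
          exact norm_integral_le_integral_norm _
      _ ≤ ∫ t, ρ t * (B * dist x y) ∂μ := by
          refine integral_mono ((hint x).sub (hint y)).norm (hρi.mul_const _) fun t => ?_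
          show ‖ρ t * h (x - t) - ρ t * h (y - t)‖ ≤ ρ t * (B * dist x y)
          rw [← mul_sub, norm_mul, Real.norm_of_nonneg (h3 t)]
          refine mul_le_mul_of_nonneg_left ?_ (h3 t)
          have h6 := hl.dist_le_mul (x - t) (y - t)
          rw [Real.dist_eq, dist_sub_right] at h6
          exact h6
      _ = B * dist x y := by rw [integral_mul_const, h4, one_mul]
  · intro x
    have e : h x = ∫ t, ρ t * h x ∂μ := by rw [integral_mul_const, h4, one_mul]
    calc |(∫ t, ρ t * h (x - t) ∂μ) - h x| = |∫ t, (ρ t * h (x - t) - ρ t * h x) ∂μ| := by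
          rw [integral_sub (hint x) (hρi.mul_const _), ← e]
      _ ≤ ∫ t, ‖ρ t * h (x - t) - ρ t * h x‖ ∂μ := by
          rw [← Real.norm_eq_abs]
          exact norm_integral_le_integral_norm _
      _ ≤ ∫ t, ρ t * B ∂μ := by
          refine integral_mono ((hint x).sub (hρi.mul_const _)).norm (hρi.mul_const _)
            fun t => ?_
          show ‖ρ t * h (x - t) - ρ t * h x‖ ≤ ρ t * B
          by_cases ht : ρ t = 0
          · simp [ht]
          · rw [← mul_sub, norm_mul, Real.norm_of_nonneg (h3 t)]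
            refine mul_le_mul_of_nonneg_left ?_ (h3 t)
            have h6 := hl.dist_le_mul (x - t) x
            rw [Real.dist_eq, dist_eq_norm (x - t) x] at h6
            have h7 : ‖x - t - x‖ = ‖t‖ := by rw [sub_sub_cancel_left, norm_neg]
            rw [h7] at h6
            calc ‖h (x - t) - h x‖ ≤ (B:ℝ) * ‖t‖ := h6
              _ ≤ B * 1 := mul_le_mul_of_nonneg_left (h5 t ht) B.2
              _ = B := mul_one _
      _ = B := by rw [integral_mul_const, h4, one_mul]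

end J_smooth_convex

alias smooth_convex := J_smooth_convex.smooth_convex

namespace J_ext_one

theorem xo_kappa : ∃ (κ : ℂ → ℂ) (η : ℂ → ℝ) (C0 : ℝ), ContDiff ℝ ∞ κ ∧ (∀ t, 0 ≤ η t ∧ η t ≤ 1) ∧
    (∀ t, 1 ≤ ‖t‖ → η t = 0) ∧ (∀ t, t * κ t = (η t : ℂ) - 1) ∧ 0 ≤ C0 ∧
    ∀ t, ‖(1 / 2 : ℂ) * (fderiv ℝ κ t 1 + I * fderiv ℝ κ t I)‖ ≤ C0 ∧
      (1 < ‖t‖ → (1 / 2 : ℂ) * (fderiv ℝ κ t 1 + I * fderiv ℝ κ t I) = 0) := by
  let f : ContDiffBump (0 : ℂ) := ⟨1 / 2, 1, by norm_num, by norm_num⟩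
  have hf1 : ∀ t : ℂ, ‖t‖ ≤ 1 / 2 → f t = 1 := fun t ht => by
    apply f.one_of_mem_closedBall
    rw [mem_closedBall_zero_iff]
    exact ht
  have hf0 : ∀ t : ℂ, 1 ≤ ‖t‖ → f t = 0 := fun t ht => by
    apply f.zero_of_le_dist
    rw [dist_zero_right]
    exact ht
  set κ : ℂ → ℂ := fun t => ((f t : ℂ) - 1) * t⁻¹ with hκ
  have hsm : ContDiff ℝ ∞ κ := by
    rw [contDiff_iff_contDiffAt]
    intro t
    by_cases ht : t = 0
    · subst ht
      have : κ =ᶠ[𝓝 0] fun _ => (0 : ℂ) := by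
        filter_upwards [Metric.ball_mem_nhds (0 : ℂ) (show (0 : ℝ) < 1 / 2 by norm_num)] with t ht
        rw [mem_ball_zero_iff] at ht
        rw [hκ]
        simp only
        rw [hf1 t ht.le]
        simp
      exact contDiffAt_const.congr_of_eventuallyEq this
    · have h1 : ContDiffAt ℝ ∞ (fun t : ℂ => ((f t : ℂ) - 1)) t :=
        ((Complex.ofRealCLM.contDiff.comp f.contDiff).contDiffAt).sub contDiffAt_const
      have h2 : ContDiffAt ℝ ∞ (fun t : ℂ => t⁻¹) t := contDiffAt_inv ℝ ht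
      exact h1.mul h2
  have hb : Continuous (fun t : ℂ => (1 / 2 : ℂ) * (fderiv ℝ κ t 1 + I * fderiv ℝ κ t I)) := by
    have hc : Continuous (fderiv ℝ κ) := hsm.continuous_fderiv (by simp)
    exact continuous_const.mul ((hc.clm_apply continuous_const).add
      (continuous_const.mul (hc.clm_apply continuous_const)))
  have hz : ∀ t : ℂ, 1 < ‖t‖ → (1 / 2 : ℂ) * (fderiv ℝ κ t 1 + I * fderiv ℝ κ t I) = 0 := by
    intro t ht
    have hev : κ =ᶠ[𝓝 t] fun s => -(s⁻¹) := by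
      have : {s : ℂ | 1 < ‖s‖} ∈ 𝓝 t := (isOpen_lt continuous_const continuous_norm).mem_nhds ht
      filter_upwards [this] with s hs
      rw [hκ]
      simp only
      rw [hf0 s (le_of_lt hs)]
      simp
    have ht0 : t ≠ 0 := by
      intro h
      rw [h, norm_zero] at ht
      linarith
    have hd := (hasDerivAt_inv ht0).neg
    have hd2 := hd.hasFDerivAt.restrictScalars ℝ
    have hd3 := hd2.congr_of_eventuallyEq hev
    rw [hd3.fderiv]
    simp
    ring_nf
    rw [Complex.I_sq]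
    ring
  obtain ⟨C0, hC0⟩ := (isCompact_closedBall (0 : ℂ) 1).exists_bound_of_continuousOn hb.continuousOn
  refine ⟨κ, fun t => f t, |C0|, hsm, fun t => ⟨f.nonneg, f.le_one⟩, hf0, ?_, abs_nonneg _, ?_⟩
  · intro t
    by_cases ht : t = 0
    · subst ht
      have h0 : f 0 = 1 := hf1 0 (by simp)
      simp only [h0]
      simp
    · rw [hκ]
      field_simp
  · intro t
    refine ⟨?_, hz t⟩
    by_cases h : ‖t‖ ≤ 1
    · exact (hC0 t (by rw [mem_closedBall_zero_iff]; exact h)).trans (le_abs_self _)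
    · rw [hz t (not_le.mp h), norm_zero]
      exact abs_nonneg _

theorem xo_nsq_le {n : ℕ} (w : Cn n) : nsq w ≤ n * ‖w‖ ^ 2 := by
  unfold nsq
  calc ∑ i, ‖w i‖ ^ 2 ≤ ∑ _i : Fin n, ‖w‖ ^ 2 :=
        Finset.sum_le_sum (fun i _ => pow_le_pow_left₀ (norm_nonneg _) (norm_le_pi_norm w i) 2)
    _ = n * ‖w‖ ^ 2 := by simp

theorem xo_nsq_nonneg {n : ℕ} (w : Cn n) : 0 ≤ nsq w :=
  Finset.sum_nonneg (fun i _ => by positivity)

theorem xo_coord_le {n : ℕ} (w : Cn n) (i : Fin n) : ‖w i‖ ^ 2 ≤ nsq w :=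
  Finset.single_le_sum (f := fun i => ‖w i‖ ^ 2) (fun i _ => by positivity) (Finset.mem_univ i)

theorem xo_norm_le {n : ℕ} (w : Cn n) : ‖w‖ ^ 2 ≤ nsq w := by
  have h : ‖w‖ ≤ Real.sqrt (nsq w) := by
    rw [pi_norm_le_iff_of_nonneg (Real.sqrt_nonneg _)]
    intro i
    apply Real.le_sqrt_of_sq_le
    exact xo_coord_le w i
  calc ‖w‖ ^ 2 ≤ (Real.sqrt (nsq w)) ^ 2 := pow_le_pow_left₀ (norm_nonneg _) h 2
    _ = nsq w := Real.sq_sqrt (xo_nsq_nonneg w)

theorem xo_one_add {n : ℕ} (w : Cn n) : (1 + ‖w‖) ^ 2 ≤ 2 * (1 + nsq w) := by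
  have := xo_norm_le w
  nlinarith [sq_nonneg (1 - ‖w‖)]

theorem xo_cont_nsq (n : ℕ) : Continuous (fun w : Cn n => nsq w) := by
  unfold nsq
  fun_prop

theorem xo_integrable (m : ℕ) : Integrable (fun w : Cn (m + 1) => ((1 + nsq w) ^ (m + 2))⁻¹) := by
  have hfr : (Module.finrank ℝ (Cn (m + 1)) : ℝ) < 2 * (m + 2 : ℕ) := by
    have : Module.finrank ℝ (Cn (m + 1)) = 2 * (m + 1) := by
      change Module.finrank ℝ (Fin (m + 1) → ℂ) = _
      rw [Module.finrank_pi_fintype]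
      simp [Complex.finrank_real_complex]
      ring
    rw [this]
    push_cast
    linarith
  have h1 := (integrable_one_add_norm (μ := (volume : Measure (Cn (m + 1)))) hfr).const_mul
    ((2 : ℝ) ^ (m + 2))
  refine h1.mono' ?_ ?_
  · have : Continuous (fun w : Cn (m + 1) => ((1 + nsq w) ^ (m + 2))⁻¹) := by
      apply Continuous.inv₀
      · exact (continuous_const.add (xo_cont_nsq _)).pow _
      · intro w
        have := xo_nsq_nonneg w
        positivity
    exact this.aestronglyMeasurable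
  · filter_upwards with w
    have hn := xo_nsq_nonneg w
    rw [Real.norm_eq_abs, abs_of_nonneg (by positivity)]
    have h2 : (1 + ‖w‖) ^ (-(2 * ((m + 2 : ℕ) : ℝ))) = (((1 + ‖w‖) ^ 2) ^ (m + 2))⁻¹ := by
      rw [Real.rpow_neg (by positivity)]
      congr 1
      rw [← pow_mul]
      rw [← Real.rpow_natCast]
      congr 1
      push_cast
      ring
    rw [h2]
    rw [← div_eq_mul_inv, le_div_iff₀ (by positivity), inv_mul_le_iff₀ (by positivity)]
    calc ((1 + ‖w‖) ^ 2) ^ (m + 2) ≤ (2 * (1 + nsq w)) ^ (m + 2) :=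
          pow_le_pow_left₀ (by positivity) (xo_one_add w) _
      _ = (1 + nsq w) ^ (m + 2) * 2 ^ (m + 2) := by rw [mul_pow]; ring


theorem xo_dzb (m : ℕ) (F : Cn m → ℂ) (hF : Differentiable ℂ F) (κ : ℂ → ℂ) (hκ : ContDiff ℝ ∞ κ)
    (w : Cn (m + 1)) :
    ∑ j, ‖dzb j (fun w : Cn (m + 1) => F (fun i => w (Fin.castSucc i)) * κ (w (Fin.last m))) w‖ ^ 2 =
      ‖F (fun i => w (Fin.castSucc i))‖ ^ 2 *
        ‖(1 / 2 : ℂ) * (fderiv ℝ κ (w (Fin.last m)) 1 + I * fderiv ℝ κ (w (Fin.last m)) I)‖ ^ 2 := by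
  let L1 : Cn (m + 1) →L[ℂ] Cn m := ContinuousLinearMap.pi
    (fun i : Fin m => ContinuousLinearMap.proj (R := ℂ) (φ := fun _ : Fin (m + 1) => ℂ) (Fin.castSucc i))
  let L2 : Cn (m + 1) →L[ℂ] ℂ :=
    ContinuousLinearMap.proj (R := ℂ) (φ := fun _ : Fin (m + 1) => ℂ) (Fin.last m)
  have h1 : HasFDerivAt (fun w : Cn (m + 1) => F (L1 w))
      (((fderiv ℂ F (L1 w)).comp L1).restrictScalars ℝ) w :=
    (((hF (L1 w)).hasFDerivAt.comp w L1.hasFDerivAt)).restrictScalars ℝ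
  have h2 : HasFDerivAt (fun w : Cn (m + 1) => κ (L2 w))
      ((fderiv ℝ κ (L2 w)).comp (L2.restrictScalars ℝ)) w := by
    have hk : HasFDerivAt κ (fderiv ℝ κ (L2 w)) (L2 w) :=
      (hκ.differentiable (by simp) (L2 w)).hasFDerivAt
    have hl : HasFDerivAt (fun w : Cn (m + 1) => L2 w) (L2.restrictScalars ℝ) w :=
      (L2.restrictScalars ℝ).hasFDerivAt
    exact hk.comp w hl
  have h3 := h1.mul h2
  have h4 : ∀ y : Cn (m + 1), fderiv ℝ (fun w : Cn (m + 1) => F (fun i => w (Fin.castSucc i)) *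
      κ (w (Fin.last m))) w y = F (L1 w) * fderiv ℝ κ (L2 w) (L2 y) +
        κ (L2 w) * fderiv ℂ F (L1 w) (L1 y) := by
    intro y
    have h5 : (fun w : Cn (m + 1) => F (fun i => w (Fin.castSucc i)) * κ (w (Fin.last m))) =
      (fun w : Cn (m + 1) => F (L1 w)) * (fun w : Cn (m + 1) => κ (L2 w)) := rfl
    rw [h5, h3.fderiv]
    simp
  rw [Fin.sum_univ_castSucc]
  have h6 : ∀ i : Fin m, dzb (Fin.castSucc i) (fun w : Cn (m + 1) => F (fun i => w (Fin.castSucc i)) *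
      κ (w (Fin.last m))) w = 0 := by
    intro i
    unfold dzb
    rw [h4, h4]
    have e1 : ∀ c : ℂ, L2 (Pi.single (Fin.castSucc i) c) = 0 := by
      intro c
      change (Pi.single (Fin.castSucc i) c : Cn (m + 1)) (Fin.last m) = 0
      rw [Pi.single_eq_of_ne]
      exact (Fin.castSucc_lt_last i).ne'
    have e2 : L1 (Pi.single (Fin.castSucc i) I) = I • L1 (Pi.single (Fin.castSucc i) 1) := by
      rw [← map_smul]
      congr 1
      ext k
      by_cases hk : k = Fin.castSucc i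
      · subst hk; simp
      · simp [Pi.single_eq_of_ne hk]
    rw [e1, e1, e2, map_smul]
    simp
    ring_nf
    rw [Complex.I_sq]
    ring
  have h7 : dzb (Fin.last m) (fun w : Cn (m + 1) => F (fun i => w (Fin.castSucc i)) *
      κ (w (Fin.last m))) w = F (L1 w) * ((1 / 2 : ℂ) * (fderiv ℝ κ (L2 w) 1 + I * fderiv ℝ κ (L2 w) I)) := by
    unfold dzb
    rw [h4, h4]
    have e1 : ∀ c : ℂ, L2 (Pi.single (Fin.last m) c) = c := by
      intro c
      change (Pi.single (Fin.last m) c : Cn (m + 1)) (Fin.last m) = c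
      rw [Pi.single_eq_same]
    have e2 : ∀ c : ℂ, L1 (Pi.single (Fin.last m) c) = 0 := by
      intro c
      ext k
      change (Pi.single (Fin.last m) c : Cn (m + 1)) (Fin.castSucc k) = 0
      rw [Pi.single_eq_of_ne]
      exact (Fin.castSucc_lt_last k).ne
    rw [e1, e1, e2, e2]
    simp
    ring
  rw [h7]
  simp only [h6]
  rw [norm_mul, mul_pow]
  simp
  rfl

theorem xo_smooth (m : ℕ) (F : Cn m → ℂ) (hF : Differentiable ℂ F) : ContDiff ℝ ∞ F := by
  obtain ⟨ρ, h1, h2, h3, h4, h5, h6⟩ := exists_moll m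
  have hc : HasCompactSupport (ρ 0) := by
    apply HasCompactSupport.intro (isCompact_closedBall (0 : Cn m) 1)
    intro z hz
    apply h4 0 z
    rw [mem_closedBall_zero_iff, not_le] at hz
    simpa using hz
  have hmv := fun z => mean_value F hF (ρ 0) (h1 0).continuous hc (h3 0) (h5 0) z
  have hconv := hc.contDiff_convolution_left (ContinuousLinearMap.lsmul ℝ ℝ) (h1 0)
    (hF.continuous.locallyIntegrable (μ := volume))
  have he : (convolution (ρ 0) F (ContinuousLinearMap.lsmul ℝ ℝ) volume) = F := by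
    funext z
    rw [convolution_def, ← hmv z, ← integral_neg_eq_self (fun w => (ρ 0 w : ℂ) * F (z + w))]
    congr 1
    funext t
    rw [h6 0 t]
    simp [sub_eq_add_neg]
  rw [he] at hconv
  exact hconv

theorem xo_exp {n : ℕ} (a : ℝ) (p : ℕ) (w : Cn n) :
    Real.exp (-(2 * a + (p : ℝ) * Real.log (1 + nsq w))) =
      Real.exp (-(2 * a)) * ((1 + nsq w) ^ p)⁻¹ := by
  have hn : 0 < 1 + nsq w := by have := xo_nsq_nonneg w; linarith
  rw [neg_add, Real.exp_add]
  congr 1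
  rw [Real.exp_neg, Real.exp_nat_mul, Real.exp_log hn]

theorem xo_proj_norm {m : ℕ} (w : Cn (m + 1)) : ‖(fun i : Fin m => w (Fin.castSucc i))‖ ≤ ‖w‖ := by
  rw [pi_norm_le_iff_of_nonneg (norm_nonneg _)]
  intro i
  exact norm_le_pi_norm w _

theorem xo_sn_sub {m : ℕ} (w : Cn (m + 1)) :
    ‖sn (fun i : Fin m => w (Fin.castSucc i)) 0 - w‖ ≤ ‖w (Fin.last m)‖ := by
  rw [pi_norm_le_iff_of_nonneg (norm_nonneg _)]
  intro i
  refine Fin.lastCases ?_ (fun i => ?_) i
  · simp [sn]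
  · simp [sn]

theorem xo_Fbound {m : ℕ} (B : ℝ) (N : ℕ) (Φ : Cn (m + 1) → ℝ)
    (hL : ∀ w w', |Φ w - Φ w'| ≤ B * ‖w - w'‖) (F : Cn m → ℂ) (A : ℝ) (hA : 0 ≤ A)
    (hFb : ∀ z, ‖F z‖ ≤ A * (1 + ‖z‖) ^ N * Real.exp (Φ (sn z 0))) (w : Cn (m + 1))
    (hw : ‖w (Fin.last m)‖ ≤ 1) :
    ‖F (fun i => w (Fin.castSucc i))‖ ^ 2 * Real.exp (-(2 * Φ w)) ≤
      A ^ 2 * (Real.exp (2 * |B|) * 2 ^ N) * (1 + nsq w) ^ N := by
  set z : Cn m := fun i => w (Fin.castSucc i) with hz
  have h1 := hFb z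
  have h2 : Φ (sn z 0) ≤ Φ w + |B| := by
    have h3 := hL (sn z 0) w
    have h4 := le_abs_self (Φ (sn z 0) - Φ w)
    have h5 : B * ‖sn z 0 - w‖ ≤ |B| * 1 := by
      calc B * ‖sn z 0 - w‖ ≤ |B| * ‖sn z 0 - w‖ :=
            mul_le_mul_of_nonneg_right (le_abs_self B) (norm_nonneg _)
        _ ≤ |B| * 1 := mul_le_mul_of_nonneg_left ((xo_sn_sub w).trans hw) (abs_nonneg B)
    linarith
  have h6 : ‖F z‖ ≤ A * (1 + ‖w‖) ^ N * Real.exp (Φ w + |B|) := by
    refine h1.trans ?_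
    have h7 : (1 + ‖z‖) ^ N ≤ (1 + ‖w‖) ^ N :=
      pow_le_pow_left₀ (by positivity) (by linarith [xo_proj_norm w]) N
    have h8 : Real.exp (Φ (sn z 0)) ≤ Real.exp (Φ w + |B|) := Real.exp_le_exp.mpr h2
    exact mul_le_mul (mul_le_mul_of_nonneg_left h7 hA) h8 (Real.exp_pos _).le (by positivity)
  have h9 : ‖F z‖ ^ 2 ≤ (A * (1 + ‖w‖) ^ N * Real.exp (Φ w + |B|)) ^ 2 :=
    pow_le_pow_left₀ (norm_nonneg _) h6 2
  have h10 : (A * (1 + ‖w‖) ^ N * Real.exp (Φ w + |B|)) ^ 2 * Real.exp (-(2 * Φ w)) =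
      A ^ 2 * Real.exp (2 * |B|) * ((1 + ‖w‖) ^ 2) ^ N := by
    have e1 : (Real.exp (Φ w + |B|)) ^ 2 * Real.exp (-(2 * Φ w)) = Real.exp (2 * |B|) := by
      rw [← Real.exp_nat_mul, ← Real.exp_add]
      congr 1
      push_cast
      ring
    calc (A * (1 + ‖w‖) ^ N * Real.exp (Φ w + |B|)) ^ 2 * Real.exp (-(2 * Φ w))
        = A ^ 2 * ((1 + ‖w‖) ^ N) ^ 2 * ((Real.exp (Φ w + |B|)) ^ 2 * Real.exp (-(2 * Φ w))) := by ring
      _ = A ^ 2 * Real.exp (2 * |B|) * ((1 + ‖w‖) ^ 2) ^ N := by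
          rw [e1, ← pow_mul, ← pow_mul, mul_comm N 2]; ring
  calc ‖F z‖ ^ 2 * Real.exp (-(2 * Φ w))
      ≤ (A * (1 + ‖w‖) ^ N * Real.exp (Φ w + |B|)) ^ 2 * Real.exp (-(2 * Φ w)) :=
        mul_le_mul_of_nonneg_right h9 (Real.exp_pos _).le
    _ = A ^ 2 * Real.exp (2 * |B|) * ((1 + ‖w‖) ^ 2) ^ N := h10
    _ ≤ A ^ 2 * Real.exp (2 * |B|) * (2 * (1 + nsq w)) ^ N := by
        apply mul_le_mul_of_nonneg_left _ (by positivity)
        exact pow_le_pow_left₀ (by positivity) (xo_one_add w) N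
    _ = A ^ 2 * (Real.exp (2 * |B|) * 2 ^ N) * (1 + nsq w) ^ N := by
        rw [mul_pow]; ring

/-- extension from a hyperplane with bounds -/
theorem ext_one (m : ℕ) (B : ℝ) (N : ℕ) : ∃ (C : ℝ) (N' : ℕ), 0 ≤ C ∧ ∀ Φ : Cn (m + 1) → ℝ, Psh Φ →
    (∀ w w', |Φ w - Φ w'| ≤ B * ‖w - w'‖) → ∀ (F : Cn m → ℂ) (A : ℝ), Differentiable ℂ F →
    (∀ z, ‖F z‖ ≤ A * (1 + ‖z‖) ^ N * Real.exp (Φ (sn z 0))) →
    ∃ G : Cn (m + 1) → ℂ, Differentiable ℂ G ∧ (∀ z, G (sn z 0) = F z) ∧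
      ∀ w, ‖G w‖ ≤ C * A * (1 + ‖w‖) ^ N' * Real.exp (Φ w) := by
  obtain ⟨κ, η, C0, hκ, hη, hη0, htκ, hC0, hb⟩ := xo_kappa
  obtain ⟨C1, hC1⟩ := sup_of_L2 (m + 1)
  have hJi := xo_integrable m
  set J : ℝ := ∫ w : Cn (m + 1), ((1 + nsq w) ^ (m + 2))⁻¹ with hJdef
  have hnn : ∀ w : Cn (m + 1), 0 ≤ nsq w := xo_nsq_nonneg
  have hJ : 0 ≤ J := integral_nonneg (fun w => by have := hnn w; positivity)
  set K0 : ℝ := Real.exp (2 * |B|) * 2 ^ N with hK0
  have hK0p : 0 ≤ K0 := by positivity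
  set p : ℕ := N + m + 3 with hp
  refine ⟨Real.sqrt (|C1| * Real.exp (2 * |B|) * ((m : ℝ) + 2) ^ (p + 2) *
    (2 * K0 * J + 2 * (K0 * C0 ^ 2 * J))), p + 2, Real.sqrt_nonneg _, ?_⟩
  intro Φ hΦ hL F A hF hFb
  have hA : 0 ≤ A := by
    by_contra hneg
    rw [not_le] at hneg
    have h1 := hFb 0
    have h2 : A * (1 + ‖(0 : Cn m)‖) ^ N * Real.exp (Φ (sn 0 0)) < 0 := by
      apply mul_neg_of_neg_of_pos _ (Real.exp_pos _)
      apply mul_neg_of_neg_of_pos hneg
      positivity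
    linarith [norm_nonneg (F 0)]
  have hFB := xo_Fbound B N Φ hL F A hA hFb
  set P : Cn (m + 1) → Cn m := fun w i => w (Fin.castSucc i) with hP
  have hPd : Differentiable ℂ P := by
    rw [hP]
    fun_prop
  have hPr : ContDiff ℝ ∞ P := by
    rw [contDiff_pi]
    intro i
    exact contDiff_apply ℝ ℂ (Fin.castSucc i)
  set v : Cn (m + 1) → ℂ := fun w => F (P w) * κ (w (Fin.last m)) with hv
  have hvs : ContDiff ℝ ∞ v :=
    ((xo_smooth m F hF).comp hPr).mul (hκ.comp (contDiff_apply ℝ ℂ (Fin.last m)))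
  have hlog : Psh (fun w : Cn (m + 1) => Real.log (1 + nsq w)) := by
    obtain ⟨h1, h2⟩ := lev_log_nsq (m + 1)
    refine ⟨h1, fun z w => le_trans ?_ (h2 z w)⟩
    have := xo_nsq_nonneg w
    positivity
  set ψ : Cn (m + 1) → ℝ := fun w => 2 * Φ w + (p : ℝ) * Real.log (1 + nsq w) with hψ
  have hψp : Psh ψ := psh_add _ _ (psh_smul 2 (by norm_num) Φ hΦ)
    (psh_smul (p : ℝ) (by positivity) _ hlog)
  have hdz : ∀ w, ∑ j, ‖dzb j v w‖ ^ 2 = ‖F (P w)‖ ^ 2 *
      ‖(1 / 2 : ℂ) * (fderiv ℝ κ (w (Fin.last m)) 1 + I * fderiv ℝ κ (w (Fin.last m)) I)‖ ^ 2 :=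
    fun w => xo_dzb m F hF κ hκ w
  -- pointwise bound of the right hand side
  have hR0 : ∀ w, 0 ≤ (∑ j, ‖dzb j v w‖ ^ 2) * (1 + nsq w) * Real.exp (-ψ w) := fun w => by
    have := hnn w
    positivity
  have hRb : ∀ w, (∑ j, ‖dzb j v w‖ ^ 2) * (1 + nsq w) * Real.exp (-ψ w) ≤
      (A ^ 2 * (K0 * C0 ^ 2)) * ((1 + nsq w) ^ (m + 2))⁻¹ := by
    intro w
    have hw1 : 0 < 1 + nsq w := by have := hnn w; linarith
    rw [hdz w, xo_exp]
    by_cases ht : ‖w (Fin.last m)‖ ≤ 1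
    · have h1 := hFB w ht
      have h2 := (hb (w (Fin.last m))).1
      set b : ℂ := (1 / 2 : ℂ) * (fderiv ℝ κ (w (Fin.last m)) 1 + I * fderiv ℝ κ (w (Fin.last m)) I)
      have h3 : ‖b‖ ^ 2 ≤ C0 ^ 2 := pow_le_pow_left₀ (norm_nonneg _) h2 2
      have h4 : (1 + nsq w) ^ N * (1 + nsq w) * ((1 + nsq w) ^ p)⁻¹ = ((1 + nsq w) ^ (m + 2))⁻¹ := by
        have e1 : (1 + nsq w) ^ p = (1 + nsq w) ^ N * (1 + nsq w) * (1 + nsq w) ^ (m + 2) := by
          rw [hp, ← pow_succ, ← pow_add]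
          congr 1
          omega
        rw [e1]
        field_simp
      calc ‖F (P w)‖ ^ 2 * ‖b‖ ^ 2 * (1 + nsq w) * (Real.exp (-(2 * Φ w)) * ((1 + nsq w) ^ p)⁻¹)
          = (‖F (P w)‖ ^ 2 * Real.exp (-(2 * Φ w))) * ‖b‖ ^ 2 * ((1 + nsq w) * ((1 + nsq w) ^ p)⁻¹) := by
            ring
        _ ≤ (A ^ 2 * K0 * (1 + nsq w) ^ N) * C0 ^ 2 * ((1 + nsq w) * ((1 + nsq w) ^ p)⁻¹) := by
            apply mul_le_mul_of_nonneg_right _ (by positivity)
            exact mul_le_mul h1 h3 (by positivity) (by positivity)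
        _ = (A ^ 2 * (K0 * C0 ^ 2)) * ((1 + nsq w) ^ N * (1 + nsq w) * ((1 + nsq w) ^ p)⁻¹) := by ring
        _ = (A ^ 2 * (K0 * C0 ^ 2)) * ((1 + nsq w) ^ (m + 2))⁻¹ := by rw [h4]
    · have h2 := (hb (w (Fin.last m))).2 (not_le.mp ht)
      rw [h2]
      simp only [norm_zero]
      have : 0 ≤ (A ^ 2 * (K0 * C0 ^ 2)) * ((1 + nsq w) ^ (m + 2))⁻¹ := by positivity
      simpa using this
  have hnc : Continuous (fun w : Cn (m + 1) => nsq w) := xo_cont_nsq _
  have hΦc : Continuous Φ := hΦ.1.continuous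
  have hRm : AEStronglyMeasurable (fun w => (∑ j, ‖dzb j v w‖ ^ 2) * (1 + nsq w) * Real.exp (-ψ w))
      volume := by
    have hbc : Continuous (fun t : ℂ => (1 / 2 : ℂ) * (fderiv ℝ κ t 1 + I * fderiv ℝ κ t I)) := by
      have hc : Continuous (fderiv ℝ κ) := hκ.continuous_fderiv (by simp)
      exact continuous_const.mul ((hc.clm_apply continuous_const).add
        (continuous_const.mul (hc.clm_apply continuous_const)))
    have hc2 : Continuous (fun w : Cn (m + 1) => ∑ j, ‖dzb j v w‖ ^ 2) := by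
      simp_rw [hdz]
      exact (((hF.continuous.comp hPd.continuous).norm).pow 2).mul
        (((hbc.comp (continuous_apply (Fin.last m))).norm).pow 2)
    exact ((hc2.mul (continuous_const.add hnc)).mul
      (Real.continuous_exp.comp hψp.1.continuous.neg)).aestronglyMeasurable
  have hRi : Integrable (fun w => (∑ j, ‖dzb j v w‖ ^ 2) * (1 + nsq w) * Real.exp (-ψ w)) := by
    refine (hJi.const_mul (A ^ 2 * (K0 * C0 ^ 2))).mono' hRm ?_
    filter_upwards with w
    rw [Real.norm_eq_abs, abs_of_nonneg (hR0 w)]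
    exact hRb w
  obtain ⟨h, hh, hhi, hhb⟩ := HD ψ hψp v hvs hRi
  have hhb2 : ∫ z, ‖v z - h z‖ ^ 2 / (1 + nsq z) * Real.exp (-ψ z) ≤ A ^ 2 * (K0 * C0 ^ 2) * J := by
    refine hhb.trans ?_
    rw [hJdef, ← integral_const_mul]
    exact integral_mono hRi (hJi.const_mul _) hRb
  -- the extension
  set G : Cn (m + 1) → ℂ := fun w => F (P w) + w (Fin.last m) * h w with hG
  have hGd : Differentiable ℂ G :=
    (hF.comp hPd).add ((differentiable_apply (Fin.last m)).mul hh)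
  have hGe : ∀ w, G w = (η (w (Fin.last m)) : ℂ) * F (P w) - w (Fin.last m) * (v w - h w) := by
    intro w
    have h1 := htκ (w (Fin.last m))
    have h2 : w (Fin.last m) * v w = F (P w) * ((η (w (Fin.last m)) : ℂ) - 1) := by
      rw [← h1, hv]; ring
    rw [hG, mul_sub, h2]
    ring
  have hG2 : ∀ w, ‖G w‖ ^ 2 * (Real.exp (-(2 * Φ w)) * ((1 + nsq w) ^ (p + 2))⁻¹) ≤
      (2 * (A ^ 2 * K0)) * ((1 + nsq w) ^ (m + 2))⁻¹ +
        2 * (‖v w - h w‖ ^ 2 / (1 + nsq w) * Real.exp (-ψ w)) := by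
    intro w
    have hw1 : 0 < 1 + nsq w := by have := hnn w; linarith
    have hw2 : 1 ≤ 1 + nsq w := by have := hnn w; linarith
    have ha : ‖G w‖ ^ 2 ≤ 2 * ‖(η (w (Fin.last m)) : ℂ) * F (P w)‖ ^ 2 +
        2 * ‖w (Fin.last m) * (v w - h w)‖ ^ 2 := by
      rw [hGe w]
      have h1 := norm_sub_le ((η (w (Fin.last m)) : ℂ) * F (P w)) (w (Fin.last m) * (v w - h w))
      have h2 := pow_le_pow_left₀ (norm_nonneg _) h1 2
      nlinarith [sq_nonneg (‖(η (w (Fin.last m)) : ℂ) * F (P w)‖ - ‖w (Fin.last m) * (v w - h w)‖)]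
    have hc1 : ‖(η (w (Fin.last m)) : ℂ) * F (P w)‖ ^ 2 *
        (Real.exp (-(2 * Φ w)) * ((1 + nsq w) ^ (p + 2))⁻¹) ≤
          (A ^ 2 * K0) * ((1 + nsq w) ^ (m + 2))⁻¹ := by
      by_cases ht : ‖w (Fin.last m)‖ ≤ 1
      · have h1 := hFB w ht
        have h2 : ‖(η (w (Fin.last m)) : ℂ)‖ ^ 2 ≤ 1 := by
          rw [Complex.norm_real, Real.norm_eq_abs, abs_of_nonneg (hη _).1]
          exact pow_le_one₀ (hη _).1 (hη _).2
        have h4 : (1 + nsq w) ^ N * ((1 + nsq w) ^ (p + 2))⁻¹ ≤ ((1 + nsq w) ^ (m + 2))⁻¹ := by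
          have e1 : (1 + nsq w) ^ (p + 2) = (1 + nsq w) ^ N * (1 + nsq w) ^ (m + 5) := by
            have e0 : p + 2 = N + (m + 5) := by omega
            rw [e0, pow_add]
          rw [e1, mul_inv, ← mul_assoc, mul_inv_cancel₀ (by positivity), one_mul]
          apply inv_anti₀ (by positivity)
          exact pow_le_pow_right₀ hw2 (by omega)
        rw [norm_mul, mul_pow]
        calc ‖(η (w (Fin.last m)) : ℂ)‖ ^ 2 * ‖F (P w)‖ ^ 2 *
              (Real.exp (-(2 * Φ w)) * ((1 + nsq w) ^ (p + 2))⁻¹)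
            = ‖(η (w (Fin.last m)) : ℂ)‖ ^ 2 * ((‖F (P w)‖ ^ 2 * Real.exp (-(2 * Φ w))) *
              ((1 + nsq w) ^ (p + 2))⁻¹) := by ring
          _ ≤ 1 * ((A ^ 2 * K0 * (1 + nsq w) ^ N) * ((1 + nsq w) ^ (p + 2))⁻¹) := by
              apply mul_le_mul h2 _ (by positivity) (by positivity)
              exact mul_le_mul_of_nonneg_right h1 (by positivity)
          _ = (A ^ 2 * K0) * ((1 + nsq w) ^ N * ((1 + nsq w) ^ (p + 2))⁻¹) := by ring
          _ ≤ (A ^ 2 * K0) * ((1 + nsq w) ^ (m + 2))⁻¹ :=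
              mul_le_mul_of_nonneg_left h4 (by positivity)
      · have h2 := hη0 (w (Fin.last m)) (not_le.mp ht).le
        rw [h2]
        have : 0 ≤ (A ^ 2 * K0) * ((1 + nsq w) ^ (m + 2))⁻¹ := by positivity
        simpa using this
    have hc2 : ‖w (Fin.last m) * (v w - h w)‖ ^ 2 *
        (Real.exp (-(2 * Φ w)) * ((1 + nsq w) ^ (p + 2))⁻¹) ≤
          ‖v w - h w‖ ^ 2 / (1 + nsq w) * Real.exp (-ψ w) := by
      rw [norm_mul, mul_pow, hψ, xo_exp]
      have h1 : ‖w (Fin.last m)‖ ^ 2 ≤ 1 + nsq w := by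
        have := xo_coord_le w (Fin.last m)
        linarith
      have e1 : ((1 + nsq w) ^ (p + 2))⁻¹ = ((1 + nsq w) ^ p)⁻¹ * (1 + nsq w)⁻¹ * (1 + nsq w)⁻¹ := by
        rw [pow_add, mul_inv]
        rw [pow_two, mul_inv]
        ring
      rw [e1]
      calc ‖w (Fin.last m)‖ ^ 2 * ‖v w - h w‖ ^ 2 *
            (Real.exp (-(2 * Φ w)) * (((1 + nsq w) ^ p)⁻¹ * (1 + nsq w)⁻¹ * (1 + nsq w)⁻¹))
          = ‖w (Fin.last m)‖ ^ 2 * (‖v w - h w‖ ^ 2 *
            (Real.exp (-(2 * Φ w)) * (((1 + nsq w) ^ p)⁻¹ * (1 + nsq w)⁻¹ * (1 + nsq w)⁻¹))) := by ring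
        _ ≤ (1 + nsq w) * (‖v w - h w‖ ^ 2 *
            (Real.exp (-(2 * Φ w)) * (((1 + nsq w) ^ p)⁻¹ * (1 + nsq w)⁻¹ * (1 + nsq w)⁻¹))) :=
            mul_le_mul_of_nonneg_right h1 (by positivity)
        _ = ‖v w - h w‖ ^ 2 / (1 + nsq w) * (Real.exp (-(2 * Φ w)) * ((1 + nsq w) ^ p)⁻¹) := by
            field_simp
    calc ‖G w‖ ^ 2 * (Real.exp (-(2 * Φ w)) * ((1 + nsq w) ^ (p + 2))⁻¹)
        ≤ (2 * ‖(η (w (Fin.last m)) : ℂ) * F (P w)‖ ^ 2 +
            2 * ‖w (Fin.last m) * (v w - h w)‖ ^ 2) *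
              (Real.exp (-(2 * Φ w)) * ((1 + nsq w) ^ (p + 2))⁻¹) :=
          mul_le_mul_of_nonneg_right ha (by positivity)
      _ = 2 * (‖(η (w (Fin.last m)) : ℂ) * F (P w)‖ ^ 2 *
              (Real.exp (-(2 * Φ w)) * ((1 + nsq w) ^ (p + 2))⁻¹)) +
            2 * (‖w (Fin.last m) * (v w - h w)‖ ^ 2 *
              (Real.exp (-(2 * Φ w)) * ((1 + nsq w) ^ (p + 2))⁻¹)) := by ring
      _ ≤ 2 * ((A ^ 2 * K0) * ((1 + nsq w) ^ (m + 2))⁻¹) +
            2 * (‖v w - h w‖ ^ 2 / (1 + nsq w) * Real.exp (-ψ w)) := by linarith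
      _ = _ := by ring
  set Wt : Cn (m + 1) → ℝ := fun w => ‖G w‖ ^ 2 * (Real.exp (-(2 * Φ w)) * ((1 + nsq w) ^ (p + 2))⁻¹)
    with hWt
  have hW0 : ∀ w, 0 ≤ Wt w := fun w => by have := hnn w; positivity
  have hdom : Integrable (fun w => (2 * (A ^ 2 * K0)) * ((1 + nsq w) ^ (m + 2))⁻¹ +
        2 * (‖v w - h w‖ ^ 2 / (1 + nsq w) * Real.exp (-ψ w))) :=
    (hJi.const_mul _).add (hhi.const_mul 2)
  have hWi : Integrable Wt := by
    refine hdom.mono' ?_ ?_
    · have : Continuous Wt := by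
        apply (hGd.continuous.norm.pow 2).mul
        apply (Real.continuous_exp.comp (continuous_const.mul hΦc).neg).mul
        apply Continuous.inv₀ ((continuous_const.add hnc).pow _)
        intro w
        have h0 : 0 < 1 + nsq w := by have := hnn w; linarith
        exact (pow_pos h0 _).ne'
      exact this.aestronglyMeasurable
    · filter_upwards with w
      rw [Real.norm_eq_abs, abs_of_nonneg (hW0 w)]
      exact hG2 w
  have hWb : ∫ w, Wt w ≤ A ^ 2 * (2 * K0 * J + 2 * (K0 * C0 ^ 2 * J)) := by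
    calc ∫ w, Wt w ≤ ∫ w, ((2 * (A ^ 2 * K0)) * ((1 + nsq w) ^ (m + 2))⁻¹ +
          2 * (‖v w - h w‖ ^ 2 / (1 + nsq w) * Real.exp (-ψ w))) := integral_mono hWi hdom hG2
      _ = (2 * (A ^ 2 * K0)) * J + 2 * ∫ w, (‖v w - h w‖ ^ 2 / (1 + nsq w) * Real.exp (-ψ w)) := by
          rw [integral_add (hJi.const_mul _) (hhi.const_mul 2), integral_const_mul, integral_const_mul]
      _ ≤ (2 * (A ^ 2 * K0)) * J + 2 * (A ^ 2 * (K0 * C0 ^ 2) * J) := by linarith
      _ = _ := by ring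
  refine ⟨G, hGd, ?_, ?_⟩
  · intro z
    rw [hG]
    simp only
    have e1 : (sn z 0) (Fin.last m) = 0 := by simp [sn]
    have e2 : P (sn z 0) = z := by
      funext i
      simp [hP, sn]
    rw [e1, e2]
    simp
  · intro w0
    set E : ℝ := Real.exp (2 * Φ w0 + 2 * |B|) * (((m : ℝ) + 2) * (1 + ‖w0‖) ^ 2) ^ (p + 2) with hE
    have hE0 : 0 ≤ E := by positivity
    have hpt : ∀ w ∈ Metric.closedBall w0 1, ‖G w‖ ^ 2 ≤ E * Wt w := by
      intro w hw
      have hn1 : 0 < 1 + nsq w := by have := hnn w; linarith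
      have hw1 : ‖w - w0‖ ≤ 1 := by
        rw [← dist_eq_norm]; exact Metric.mem_closedBall.mp hw
      have hΦw : Φ w ≤ Φ w0 + |B| := by
        have h1 := hL w w0
        have h2 : B * ‖w - w0‖ ≤ |B| * 1 := by
          calc B * ‖w - w0‖ ≤ |B| * ‖w - w0‖ :=
                mul_le_mul_of_nonneg_right (le_abs_self B) (norm_nonneg _)
            _ ≤ |B| * 1 := mul_le_mul_of_nonneg_left hw1 (abs_nonneg B)
        have h3 := le_abs_self (Φ w - Φ w0)
        linarith
      have hnw : ‖w‖ ≤ 1 + ‖w0‖ := by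
        have h4 : ‖w‖ ≤ ‖w - w0‖ + ‖w0‖ := by
          calc ‖w‖ = ‖(w - w0) + w0‖ := by rw [sub_add_cancel]
            _ ≤ ‖w - w0‖ + ‖w0‖ := norm_add_le _ _
        linarith
      have hnq : 1 + nsq w ≤ ((m : ℝ) + 2) * (1 + ‖w0‖) ^ 2 := by
        have h5 := xo_nsq_le w
        push_cast at h5
        have h6 : ‖w‖ ^ 2 ≤ (1 + ‖w0‖) ^ 2 := pow_le_pow_left₀ (norm_nonneg _) hnw 2
        have h7 : (1 : ℝ) ≤ (1 + ‖w0‖) ^ 2 := by
          have := norm_nonneg w0
          nlinarith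
        have h8 : ((m : ℝ) + 1) * ‖w‖ ^ 2 ≤ ((m : ℝ) + 1) * (1 + ‖w0‖) ^ 2 :=
          mul_le_mul_of_nonneg_left h6 (by positivity)
        linarith
      have h9 : (1 : ℝ) ≤ E * (Real.exp (-(2 * Φ w)) * ((1 + nsq w) ^ (p + 2))⁻¹) := by
        have h10 : (1 : ℝ) ≤ Real.exp (2 * Φ w0 + 2 * |B|) * Real.exp (-(2 * Φ w)) := by
          rw [← Real.exp_add]
          apply Real.one_le_exp
          linarith
        have h11 : (1 : ℝ) ≤ (((m : ℝ) + 2) * (1 + ‖w0‖) ^ 2) ^ (p + 2) * ((1 + nsq w) ^ (p + 2))⁻¹ := by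
          rw [← div_eq_mul_inv, one_le_div (by positivity)]
          exact pow_le_pow_left₀ hn1.le hnq _
        calc (1 : ℝ) = 1 * 1 := (one_mul 1).symm
          _ ≤ (Real.exp (2 * Φ w0 + 2 * |B|) * Real.exp (-(2 * Φ w))) *
              ((((m : ℝ) + 2) * (1 + ‖w0‖) ^ 2) ^ (p + 2) * ((1 + nsq w) ^ (p + 2))⁻¹) :=
              mul_le_mul h10 h11 (by norm_num) (by positivity)
          _ = _ := by rw [hE]; ring
      calc ‖G w‖ ^ 2 = ‖G w‖ ^ 2 * 1 := (mul_one _).symm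
        _ ≤ ‖G w‖ ^ 2 * (E * (Real.exp (-(2 * Φ w)) * ((1 + nsq w) ^ (p + 2))⁻¹)) :=
            mul_le_mul_of_nonneg_left h9 (by positivity)
        _ = E * Wt w := by rw [hWt]; ring
    have hint : IntegrableOn (fun w => ‖G w‖ ^ 2) (Metric.closedBall w0 1) :=
      (hGd.continuous.norm.pow 2).continuousOn.integrableOn_compact (isCompact_closedBall w0 1)
    have hset : ∫ w in Metric.closedBall w0 1, ‖G w‖ ^ 2 ≤
        E * (A ^ 2 * (2 * K0 * J + 2 * (K0 * C0 ^ 2 * J))) := by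
      calc ∫ w in Metric.closedBall w0 1, ‖G w‖ ^ 2
          ≤ ∫ w in Metric.closedBall w0 1, E * Wt w :=
            setIntegral_mono_on hint (hWi.integrableOn.const_mul E)
              Metric.isClosed_closedBall.measurableSet hpt
        _ ≤ ∫ w, E * Wt w := by
            apply setIntegral_le_integral (hWi.const_mul E)
            filter_upwards with w
            exact mul_nonneg hE0 (hW0 w)
        _ = E * ∫ w, Wt w := integral_const_mul _ _
        _ ≤ E * (A ^ 2 * (2 * K0 * J + 2 * (K0 * C0 ^ 2 * J))) :=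
            mul_le_mul_of_nonneg_left hWb hE0
    have hset0 : 0 ≤ ∫ w in Metric.closedBall w0 1, ‖G w‖ ^ 2 := by
      apply integral_nonneg
      intro w
      positivity
    have hmain : ‖G w0‖ ^ 2 ≤ |C1| * (E * (A ^ 2 * (2 * K0 * J + 2 * (K0 * C0 ^ 2 * J)))) := by
      calc ‖G w0‖ ^ 2 ≤ C1 * ∫ w in Metric.closedBall w0 1, ‖G w‖ ^ 2 := hC1 G w0 hGd
        _ ≤ |C1| * ∫ w in Metric.closedBall w0 1, ‖G w‖ ^ 2 :=
            mul_le_mul_of_nonneg_right (le_abs_self C1) hset0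
        _ ≤ |C1| * (E * (A ^ 2 * (2 * K0 * J + 2 * (K0 * C0 ^ 2 * J)))) :=
            mul_le_mul_of_nonneg_left hset (abs_nonneg C1)
    have hsq : ‖G w0‖ ^ 2 ≤ (Real.sqrt (|C1| * Real.exp (2 * |B|) * ((m : ℝ) + 2) ^ (p + 2) *
        (2 * K0 * J + 2 * (K0 * C0 ^ 2 * J))) * A * (1 + ‖w0‖) ^ (p + 2) * Real.exp (Φ w0)) ^ 2 := by
      refine hmain.trans (le_of_eq ?_)
      rw [mul_pow, mul_pow, mul_pow, Real.sq_sqrt (by positivity), hE, mul_pow, Real.exp_add,
        ← pow_mul, ← pow_mul, ← Real.exp_nat_mul, mul_comm 2 (p + 2)]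
      push_cast
      ring
    exact (abs_le_of_sq_le_sq' hsq (by positivity)).2

end J_ext_one

alias ext_one := J_ext_one.ext_one

namespace J_ext_many

theorem ap_zero_right_aux {m : ℕ} (z : Cn m) : ap z (0 : Cn 0) = z := by
  funext i
  show Fin.append z (0 : Cn 0) i = z i
  have h : Fin.append z (0 : Cn 0) (Fin.castAdd 0 i) = z i := Fin.append_left z (0 : Cn 0) i
  exact h

theorem sn_ap_zero_aux {m k : ℕ} (z : Cn m) :
    sn (ap z (0 : Cn k)) 0 = (ap z (0 : Cn (k + 1)) : Cn (m + (k + 1))) := by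
  funext i
  show Fin.snoc (α := fun _ => ℂ) (Fin.append z (0 : Cn k)) 0 i = Fin.append z (0 : Cn (k + 1)) i
  refine Fin.lastCases ?_ (fun j => ?_) i
  · rw [Fin.snoc_last]
    have h : Fin.append z (0 : Cn (k + 1)) (Fin.natAdd m (Fin.last k)) = 0 :=
      Fin.append_right z (0 : Cn (k + 1)) (Fin.last k)
    exact h.symm
  · rw [Fin.snoc_castSucc]
    refine Fin.addCases (fun l => ?_) (fun l => ?_) j
    · rw [Fin.append_left]
      have h : Fin.append z (0 : Cn (k + 1)) (Fin.castAdd (k + 1) l) = z l :=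
        Fin.append_left z (0 : Cn (k + 1)) l
      exact h.symm
    · rw [Fin.append_right]
      have h : Fin.append z (0 : Cn (k + 1)) (Fin.natAdd m l.castSucc) = 0 :=
        Fin.append_right z (0 : Cn (k + 1)) l.castSucc
      exact h.symm

noncomputable def snL (m : ℕ) : Cn m →L[ℂ] Cn (m + 1) :=
  LinearMap.toContinuousLinearMap
    { toFun := fun w => sn w 0
      map_add' := by
        intro x y
        funext i
        show Fin.snoc (α := fun _ => ℂ) (x + y) 0 i =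
          Fin.snoc (α := fun _ => ℂ) x 0 i + Fin.snoc (α := fun _ => ℂ) y 0 i
        refine Fin.lastCases ?_ (fun j => ?_) i
        · rw [Fin.snoc_last, Fin.snoc_last, Fin.snoc_last, add_zero]
        · rw [Fin.snoc_castSucc, Fin.snoc_castSucc, Fin.snoc_castSucc]
          rfl
      map_smul' := by
        intro c x
        funext i
        show Fin.snoc (α := fun _ => ℂ) (c • x) 0 i = c • Fin.snoc (α := fun _ => ℂ) x 0 i
        refine Fin.lastCases ?_ (fun j => ?_) i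
        · rw [Fin.snoc_last, Fin.snoc_last, smul_zero]
        · rw [Fin.snoc_castSucc, Fin.snoc_castSucc]
          rfl }

theorem snL_apply (m : ℕ) (w : Cn m) : snL m w = sn w 0 := rfl

theorem norm_sn_zero_aux {m : ℕ} (w : Cn m) : ‖(sn w 0 : Cn (m + 1))‖ = ‖w‖ := by
  apply le_antisymm
  · rw [pi_norm_le_iff_of_nonneg (norm_nonneg w)]
    intro i
    refine Fin.lastCases ?_ (fun j => ?_) i
    · have h : (sn w 0 : Cn (m + 1)) (Fin.last m) = 0 := Fin.snoc_last (α := fun _ => ℂ) 0 w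
      rw [h, norm_zero]
      exact norm_nonneg w
    · have h : (sn w 0 : Cn (m + 1)) (Fin.castSucc j) = w j :=
        Fin.snoc_castSucc (α := fun _ => ℂ) 0 w j
      rw [h]
      exact norm_le_pi_norm w j
  · rw [pi_norm_le_iff_of_nonneg (norm_nonneg _)]
    intro j
    have h : (sn w 0 : Cn (m + 1)) (Fin.castSucc j) = w j :=
      Fin.snoc_castSucc (α := fun _ => ℂ) 0 w j
    rw [← h]
    exact norm_le_pi_norm (sn w 0 : Cn (m + 1)) (Fin.castSucc j)

theorem norm_sn_sub_aux {m : ℕ} (w w' : Cn m) :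
    ‖(sn w 0 : Cn (m + 1)) - sn w' 0‖ = ‖w - w'‖ := by
  rw [← snL_apply, ← snL_apply, ← map_sub, snL_apply, norm_sn_zero_aux]

/-- extension from a subspace with bounds -/
theorem ext_many (m k : ℕ) (B : ℝ) (N : ℕ) : ∃ (C : ℝ) (N' : ℕ), 0 ≤ C ∧
    ∀ Φ : Cn (m + k) → ℝ, Psh Φ →
    (∀ w w', |Φ w - Φ w'| ≤ B * ‖w - w'‖) → ∀ (F : Cn m → ℂ) (A : ℝ), Differentiable ℂ F →
    (∀ z, ‖F z‖ ≤ A * (1 + ‖z‖) ^ N * Real.exp (Φ (ap z 0))) →
    ∃ G : Cn (m + k) → ℂ, Differentiable ℂ G ∧ (∀ z, G (ap z 0) = F z) ∧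
      ∀ w, ‖G w‖ ≤ C * A * (1 + ‖w‖) ^ N' * Real.exp (Φ w) := by
  induction k with
  | zero =>
    refine ⟨1, N, zero_le_one, ?_⟩
    intro Φ _ _ F A hF hb
    refine ⟨F, hF, ?_, ?_⟩
    · intro z
      exact congrArg F (ap_zero_right_aux z)
    · intro w
      have h := hb w
      have h2 : Φ (ap w (0 : Cn 0)) = Φ w := congrArg Φ (ap_zero_right_aux w)
      rw [h2] at h
      rw [one_mul]
      exact h
  | succ k ih =>
    obtain ⟨C1, N1, hC1, h1⟩ := ih
    obtain ⟨C2, N2, hC2, h2⟩ := ext_one (m + k) B N1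
    refine ⟨C2 * C1, N2, mul_nonneg hC2 hC1, ?_⟩
    intro Φ hΦ hL F A hF hb
    obtain ⟨G1, hG1, hG1r, hG1b⟩ := h1 (fun w => Φ (snL (m + k) w)) (psh_comp Φ hΦ (snL (m + k)))
      (by
        intro w w'
        have h := hL (snL (m + k) w) (snL (m + k) w')
        rw [snL_apply, snL_apply] at h
        have h3 := norm_sn_sub_aux w w'
        have h4 : ‖(sn w 0 : Cn (m + (k + 1))) - sn w' 0‖ = ‖w - w'‖ := h3
        rw [h4] at h
        exact h)
      F A hF
      (by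
        intro z
        have h := hb z
        rw [← sn_ap_zero_aux] at h
        exact h)
    obtain ⟨G, hG, hGr, hGb⟩ := h2 Φ hΦ hL G1 (C1 * A) hG1 hG1b
    refine ⟨G, hG, ?_, ?_⟩
    · intro z
      rw [← sn_ap_zero_aux]
      exact (hGr (ap z 0)).trans (hG1r z)
    · intro w
      have h := hGb w
      rw [mul_assoc C2 C1 A]
      exact h

end J_ext_many

alias ext_many := J_ext_many.ext_many

namespace J_extJ

theorem ej_left {m k : ℕ} (z : Cn m) (z' : Cn k) (i : Fin m) : ap z z' (Fin.castAdd k i) = z i :=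
  Fin.append_left _ _ _
theorem ej_right {m k : ℕ} (z : Cn m) (z' : Cn k) (i : Fin k) : ap z z' (Fin.natAdd m i) = z' i :=
  Fin.append_right _ _ _

theorem ej_ext {m k : ℕ} {w w' : Cn (m + k)}
    (h1 : ∀ i, w (Fin.castAdd k i) = w' (Fin.castAdd k i))
    (h2 : ∀ i, w (Fin.natAdd m i) = w' (Fin.natAdd m i)) : w = w' := by
  funext i
  exact Fin.addCases h1 h2 i

/-- `(z, z') ↦ (z + z', i (z - z'))` -/
noncomputable def ejT (n : ℕ) : Cn (n + n) →ₗ[ℂ] Cn (n + n) where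
  toFun w := ap (fun j => w (Fin.castAdd n j) + w (Fin.natAdd n j))
    (fun j => I * (w (Fin.castAdd n j) - w (Fin.natAdd n j)))
  map_add' w w' := by
    apply ej_ext
    · intro i
      simp only [ej_left, Pi.add_apply]
      ring
    · intro i
      simp only [ej_right, Pi.add_apply]
      ring
  map_smul' c w := by
    apply ej_ext
    · intro i
      simp only [ej_left, Pi.smul_apply, smul_eq_mul, RingHom.id_apply]
      ring
    · intro i
      simp only [ej_right, Pi.smul_apply, smul_eq_mul, RingHom.id_apply]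
      ring

/-- the inverse map -/
noncomputable def ejS (n : ℕ) : Cn (n + n) →ₗ[ℂ] Cn (n + n) where
  toFun w := ap (fun j => (w (Fin.castAdd n j) - I * w (Fin.natAdd n j)) / 2)
    (fun j => (w (Fin.castAdd n j) + I * w (Fin.natAdd n j)) / 2)
  map_add' w w' := by
    apply ej_ext
    · intro i
      simp only [ej_left, Pi.add_apply]
      ring
    · intro i
      simp only [ej_right, Pi.add_apply]
      ring
  map_smul' c w := by
    apply ej_ext
    · intro i
      simp only [ej_left, Pi.smul_apply, smul_eq_mul, RingHom.id_apply]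
      ring
    · intro i
      simp only [ej_right, Pi.smul_apply, smul_eq_mul, RingHom.id_apply]
      ring

theorem ejTS (n : ℕ) (w : Cn (n + n)) : ejT n (ejS n w) = w := by
  apply ej_ext
  · intro i
    simp only [ejT, ejS, LinearMap.coe_mk, AddHom.coe_mk, ej_left, ej_right]
    ring
  · intro i
    simp only [ejT, ejS, LinearMap.coe_mk, AddHom.coe_mk, ej_left, ej_right]
    linear_combination (-w (Fin.natAdd n i)) * I_sq

theorem ejSJ (n : ℕ) (z : Cn n) : ejS n (Jm z) = ap z 0 := by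
  apply ej_ext
  · intro i
    simp only [ejS, Jm, LinearMap.coe_mk, AddHom.coe_mk, ej_left, ej_right, Pi.smul_apply,
      smul_eq_mul]
    linear_combination (-(z i) / 2) * I_sq
  · intro i
    simp only [ejS, Jm, LinearMap.coe_mk, AddHom.coe_mk, ej_left, ej_right, Pi.smul_apply,
      smul_eq_mul, Pi.zero_apply]
    linear_combination ((z i) / 2) * I_sq

/-- real part as a linear map -/
noncomputable def ejR (m : ℕ) : Cn m →ₗ[ℝ] EuclideanSpace ℝ (Fin m) where
  toFun := reE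
  map_add' w w' := by
    ext j
    simp [reE]
  map_smul' c w := by
    ext j
    simp [reE]

/-- extension from the complex subspace `{(z, i z)}` -/
theorem extJ (n : ℕ) (B : NNReal) : ∃ (C : ℝ) (N : ℕ), 0 ≤ C ∧
    ∀ h : EuclideanSpace ℝ (Fin (n + n)) → ℝ, ConvexOn ℝ univ h → LipschitzWith B h →
    ∀ (F : Cn n → ℂ) (A : ℝ), Differentiable ℂ F →
    (∀ z, ‖F z‖ ≤ A * Real.exp (h (reE (Jm z)))) →
    ∃ G : Cn (n + n) → ℂ, Differentiable ℂ G ∧ (∀ z, G (Jm z) = F z) ∧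
      ∀ w, ‖G w‖ ≤ C * A * (1 + ‖w‖) ^ N * Real.exp (h (reE w)) := by
  -- the real linear map
  let T : Cn (n + n) →L[ℂ] Cn (n + n) := LinearMap.toContinuousLinearMap (ejT n)
  let S : Cn (n + n) →L[ℂ] Cn (n + n) := LinearMap.toContinuousLinearMap (ejS n)
  let R : Cn (n + n) →L[ℝ] EuclideanSpace ℝ (Fin (n + n)) :=
    LinearMap.toContinuousLinearMap (ejR (n + n))
  have hT : ∀ w, T w = ejT n w := fun w => rfl
  have hSw : ∀ w, S w = ejS n w := fun w => rfl
  have hR : ∀ w, R w = reE w := fun w => rfl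
  let RT : Cn (n + n) →L[ℝ] EuclideanSpace ℝ (Fin (n + n)) :=
    R.comp (T.restrictScalars ℝ)
  have hRT : ∀ w, RT w = reE (T w) := fun w => rfl
  obtain ⟨C0, N0, hC0, hext⟩ := ext_many n n (B * ‖RT‖) 0
  refine ⟨C0 * Real.exp (2 * B) * (1 + ‖S‖) ^ N0, N0, by positivity, ?_⟩
  intro h hc hl F A hF hb
  obtain ⟨H, hH1, hH2, hH3, hH4⟩ := smooth_convex h B hc hl
  have hA : 0 ≤ A := by
    have h1 := (norm_nonneg _).trans (hb 0)
    exact nonneg_of_mul_nonneg_left h1 (Real.exp_pos _)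
  -- the weight
  have hΦ : Psh (fun w : Cn (n + n) => H (RT w)) := by
    apply psh_of_convex
    · exact hH1.comp RT.contDiff
    · exact hH2.comp_linearMap RT.toLinearMap
  have hΦl : ∀ w w' : Cn (n + n), |H (RT w) - H (RT w')| ≤ (B * ‖RT‖) * ‖w - w'‖ := by
    intro w w'
    have h1 := hH3.dist_le_mul (RT w) (RT w')
    rw [Real.dist_eq, dist_eq_norm, ← map_sub] at h1
    have h2 := RT.le_opNorm (w - w')
    calc |H (RT w) - H (RT w')| ≤ B * ‖RT (w - w')‖ := h1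
      _ ≤ B * (‖RT‖ * ‖w - w'‖) := mul_le_mul_of_nonneg_left h2 B.2
      _ = (B * ‖RT‖) * ‖w - w'‖ := by ring
  have hTJ : ∀ z : Cn n, T (ap z 0) = Jm z := by
    intro z
    rw [hT, ← ejSJ, ejTS]
  obtain ⟨G1, hG1, hG2, hG3⟩ := hext (fun w => H (RT w)) hΦ hΦl F (A * Real.exp B) hF (by
    intro z
    rw [pow_zero, mul_one]
    show ‖F z‖ ≤ A * Real.exp B * Real.exp (H (RT (ap z 0)))
    rw [hRT, hTJ, mul_assoc, ← Real.exp_add]
    refine (hb z).trans (mul_le_mul_of_nonneg_left (Real.exp_le_exp.2 ?_) hA)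
    have := abs_le.1 (hH4 (reE (Jm z)))
    linarith [this.1])
  refine ⟨fun w => G1 (S w), hG1.comp S.differentiable, fun z => ?_, fun w => ?_⟩
  · show G1 (S (Jm z)) = F z
    rw [hSw, ejSJ, hG2]
  · show ‖G1 (S w)‖ ≤ _
    refine (hG3 (S w)).trans ?_
    show C0 * (A * Real.exp B) * (1 + ‖S w‖) ^ N0 * Real.exp (H (RT (S w))) ≤ _
    have e1 : RT (S w) = reE w := by
      rw [hRT, hT, hSw, ejTS]
    rw [e1]
    have h1 : H (reE w) ≤ h (reE w) + B := by
      have := abs_le.1 (hH4 (reE w))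
      linarith [this.2]
    have h2 : 1 + ‖S w‖ ≤ (1 + ‖S‖) * (1 + ‖w‖) := by
      have h3 := S.le_opNorm w
      have h4 := norm_nonneg S
      have h5 := norm_nonneg w
      nlinarith
    have h3 : (1 + ‖S w‖) ^ N0 ≤ (1 + ‖S‖) ^ N0 * (1 + ‖w‖) ^ N0 := by
      rw [← mul_pow]
      exact pow_le_pow_left₀ (by positivity) h2 N0
    have h4 : Real.exp (H (reE w)) ≤ Real.exp (h (reE w)) * Real.exp B := by
      rw [← Real.exp_add]
      exact Real.exp_le_exp.2 h1
    calc C0 * (A * Real.exp B) * (1 + ‖S w‖) ^ N0 * Real.exp (H (reE w))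
        ≤ C0 * (A * Real.exp B) * ((1 + ‖S‖) ^ N0 * (1 + ‖w‖) ^ N0) *
          (Real.exp (h (reE w)) * Real.exp B) := by
          apply mul_le_mul _ h4 (Real.exp_pos _).le (by positivity)
          exact mul_le_mul_of_nonneg_left h3 (by positivity)
      _ = C0 * Real.exp (2 * B) * (1 + ‖S‖) ^ N0 * A * (1 + ‖w‖) ^ N0 *
          Real.exp (h (reE w)) := by
          have e2 : Real.exp (2 * B) = Real.exp B * Real.exp B := by
            rw [← Real.exp_add]; congr 1; ring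
          rw [e2]
          ring

end J_extJ

alias extJ := J_extJ.extJ

end Pool.Agent.Helper192.Syn
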