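import Pool.Agent.Helper192.Syn.H3

/-! Paley-Wiener theorem -/

set_option linter.all false

open MeasureTheory Set Filter Topology Complex
open scoped BigOperators ContDiff ComplexConjugate

namespace Pool.Agent.Helper192.Syn

namespace J_kappa

/-- the entire function `sinh √s / √s` -/
noncomputable def kapE (s : ℂ) : ℂ := ∑' k : ℕ, s ^ k / ((2 * k + 1).factorial : ℂ)

theorem kapE_term (s : ℂ) (k : ℕ) :
    ‖s ^ k / ((2 * k + 1).factorial : ℂ)‖ ≤ ‖s‖ ^ k / (k.factorial : ℝ) := by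
  rw [norm_div, norm_pow, Complex.norm_natCast]
  apply div_le_div_of_nonneg_left (by positivity)
  · exact_mod_cast Nat.factorial_pos k
  · exact_mod_cast Nat.factorial_le (by omega)

theorem kapE_summable (s : ℂ) : Summable (fun k : ℕ => s ^ k / ((2 * k + 1).factorial : ℂ)) :=
  Summable.of_norm_bounded (Real.summable_pow_div_factorial ‖s‖) (kapE_term s)

theorem kapE_diff : Differentiable ℂ kapE := by
  intro z
  have h := differentiableOn_tsum_of_summable_norm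
    (u := fun k : ℕ => (‖z‖ + 1) ^ k / (k.factorial : ℝ))
    (F := fun (k : ℕ) (s : ℂ) => s ^ k / ((2 * k + 1).factorial : ℂ))
    (U := Metric.ball (0 : ℂ) (‖z‖ + 1)) (Real.summable_pow_div_factorial _)
    (fun k => by fun_prop) Metric.isOpen_ball (fun k w hw => by
      refine (kapE_term w k).trans ?_
      rw [Metric.mem_ball, dist_zero_right] at hw
      gcongr)
  refine (h z ?_).differentiableAt (Metric.isOpen_ball.mem_nhds ?_)
  · rw [Metric.mem_ball, dist_zero_right]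
    linarith
  · rw [Metric.mem_ball, dist_zero_right]
    linarith

theorem kapE_zero : kapE 0 = 1 := by
  unfold kapE
  rw [tsum_eq_single 0]
  · simp
  · intro k hk
    rw [zero_pow hk, zero_div]

theorem kapE_le (s : ℂ) (hs : ‖s‖ ≤ 1) : ‖kapE s‖ ≤ Real.exp 1 := by
  unfold kapE
  refine tsum_of_norm_bounded (g := fun k : ℕ => (1 : ℝ) ^ k / (k.factorial : ℝ)) ?_ ?_
  · have := NormedSpace.expSeries_div_hasSum_exp (𝔸 := ℝ) (1 : ℝ)
    rw [← Real.exp_eq_exp_ℝ] at this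
    exact this
  · intro k
    refine (kapE_term s k).trans ?_
    gcongr

theorem kapE_sinh (z : ℂ) : kapE (z ^ 2) * z = Complex.sinh z := by
  unfold kapE
  rw [← tsum_mul_right, ← (Complex.hasSum_sinh z).tsum_eq]
  congr 1
  funext k
  rw [← pow_mul, pow_succ]
  ring

theorem kap_norm_sinh_le (z : ℂ) : ‖Complex.sinh z‖ ≤ Real.exp |z.re| := by
  have h1 : ‖Complex.exp z‖ ≤ Real.exp |z.re| := by
    rw [Complex.norm_exp]
    exact Real.exp_le_exp.mpr (le_abs_self _)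
  have h2 : ‖Complex.exp (-z)‖ ≤ Real.exp |z.re| := by
    rw [Complex.norm_exp, Complex.neg_re]
    exact Real.exp_le_exp.mpr (neg_le_abs _)
  unfold Complex.sinh
  rw [norm_div]
  have h3 : ‖(2 : ℂ)‖ = 2 := by simp
  rw [h3, div_le_iff₀ (by norm_num)]
  refine (norm_sub_le _ _).trans ?_
  linarith

theorem kapE_key (z : ℂ) : ‖kapE (z ^ 2)‖ * (1 + ‖z‖) ≤ 2 * Real.exp 1 * Real.exp |z.re| := by
  have he1 : (1 : ℝ) ≤ Real.exp 1 := Real.one_le_exp (by norm_num)
  have he2 : (1 : ℝ) ≤ Real.exp |z.re| := Real.one_le_exp (abs_nonneg _)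
  rcases le_or_gt ‖z‖ 1 with hz | hz
  · have h1 : ‖kapE (z ^ 2)‖ ≤ Real.exp 1 := by
      apply kapE_le
      rw [norm_pow]
      exact pow_le_one₀ (norm_nonneg z) hz
    calc ‖kapE (z ^ 2)‖ * (1 + ‖z‖) ≤ Real.exp 1 * 2 := by
          apply mul_le_mul h1 (by linarith) (by positivity) (by positivity)
      _ ≤ Real.exp 1 * 2 * Real.exp |z.re| := le_mul_of_one_le_right (by positivity) he2
      _ = 2 * Real.exp 1 * Real.exp |z.re| := by ring
  · have h1 : ‖kapE (z ^ 2)‖ * ‖z‖ ≤ Real.exp |z.re| := by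
      rw [← norm_mul, kapE_sinh]
      exact kap_norm_sinh_le z
    calc ‖kapE (z ^ 2)‖ * (1 + ‖z‖) ≤ ‖kapE (z ^ 2)‖ * (2 * ‖z‖) :=
          mul_le_mul_of_nonneg_left (by linarith) (norm_nonneg _)
      _ = 2 * (‖kapE (z ^ 2)‖ * ‖z‖) := by ring
      _ ≤ 2 * Real.exp |z.re| := by linarith
      _ ≤ 2 * Real.exp 1 * Real.exp |z.re| := by nlinarith [Real.exp_pos |z.re|]

/-- geometry of the complex square root of `∑ w_j^2` -/
theorem kap_geom {m : ℕ} (w : Cn m) (ζ : ℂ) (hζ : ζ ^ 2 = ∑ j, (w j) ^ 2) :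
    |ζ.re| ≤ ‖reE w‖ ∧ ‖w‖ ≤ 2 * ‖reE w‖ + ‖ζ‖ := by
  obtain ⟨Us, hUs⟩ : ∃ Us : ℝ, Us = ∑ j, (w j).re ^ 2 := ⟨_, rfl⟩
  obtain ⟨Vs, hVs⟩ : ∃ Vs : ℝ, Vs = ∑ j, (w j).im ^ 2 := ⟨_, rfl⟩
  obtain ⟨P, hP⟩ : ∃ P : ℝ, P = ∑ j, (w j).re * (w j).im := ⟨_, rfl⟩
  have hUs0 : 0 ≤ Us := by rw [hUs]; exact Finset.sum_nonneg fun j _ => sq_nonneg _
  have hVs0 : 0 ≤ Vs := by rw [hVs]; exact Finset.sum_nonneg fun j _ => sq_nonneg _
  have hCS : P ^ 2 ≤ Us * Vs := by
    rw [hP, hUs, hVs]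
    exact Finset.sum_mul_sq_le_sq_mul_sq _ _ _
  have hU : ‖reE w‖ ^ 2 = Us := by
    rw [EuclideanSpace.norm_sq_eq, hUs]
    refine Finset.sum_congr rfl fun j _ => ?_
    show ‖(w j).re‖ ^ 2 = _
    rw [Real.norm_eq_abs, sq_abs]
  have hre : ζ.re ^ 2 - ζ.im ^ 2 = Us - Vs := by
    have h1 := congrArg Complex.re hζ
    rw [Complex.re_sum] at h1
    simp only [pow_two, Complex.mul_re] at h1
    rw [hUs, hVs, ← Finset.sum_sub_distrib]
    rw [pow_two, pow_two, h1]
    refine Finset.sum_congr rfl fun j _ => ?_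
    ring
  have him : ζ.re * ζ.im = P := by
    have h1 := congrArg Complex.im hζ
    rw [Complex.im_sum] at h1
    simp only [pow_two, Complex.mul_im] at h1
    have h2 : ∑ j, ((w j).re * (w j).im + (w j).im * (w j).re) = 2 * P := by
      rw [hP, Finset.mul_sum]
      refine Finset.sum_congr rfl fun j _ => ?_
      ring
    rw [h2] at h1
    linarith
  have hUn : 0 ≤ ‖reE w‖ := norm_nonneg _
  have ha : ζ.re ^ 2 ≤ Us := by
    by_contra hlt
    push Not at hlt
    have hb : Vs < ζ.im ^ 2 := by linarith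
    have h3 : Us * Vs < ζ.re ^ 2 * ζ.im ^ 2 := by nlinarith
    rw [← mul_pow, him] at h3
    linarith
  refine ⟨?_, ?_⟩
  · apply abs_le_of_sq_le_sq _ hUn
    rw [hU]
    exact ha
  · have h4 : ‖w‖ ≤ √(Us + Vs) := by
      rw [pi_norm_le_iff_of_nonneg (Real.sqrt_nonneg _)]
      intro j
      apply Real.le_sqrt_of_sq_le
      have h5 : ‖w j‖ ^ 2 = (w j).re ^ 2 + (w j).im ^ 2 := by
        rw [← Complex.normSq_eq_norm_sq, Complex.normSq_apply]
        ring
      rw [h5, hUs, hVs]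
      exact add_le_add
        (Finset.single_le_sum (f := fun j => (w j).re ^ 2) (fun i _ => sq_nonneg _)
          (Finset.mem_univ j))
        (Finset.single_le_sum (f := fun j => (w j).im ^ 2) (fun i _ => sq_nonneg _)
          (Finset.mem_univ j))
    refine h4.trans ?_
    rw [Real.sqrt_le_left (by positivity)]
    have h6 : ‖ζ‖ ^ 2 = ζ.re ^ 2 + ζ.im ^ 2 := by
      rw [← Complex.normSq_eq_norm_sq, Complex.normSq_apply]
      ring
    have h7 : 0 ≤ ‖reE w‖ * ‖ζ‖ := by positivity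
    nlinarith [sq_nonneg ζ.re, sq_nonneg (‖reE w‖)]

/-- multiplier: the Fourier-Laplace transform of a circled bump -/
theorem kappa (n : ℕ) (δ : ℝ) (hδ : 0 < δ) (N : ℕ) : ∃ (κ : Cn (n + n) → ℂ) (C : ℝ),
    Differentiable ℂ κ ∧ (∀ z : Cn n, κ (Jm z) = 1) ∧
      ∀ w, ‖κ w‖ * (1 + ‖w‖) ^ N ≤ C * Real.exp (δ * ‖reE w‖) := by
  obtain ⟨ε, hε0, hε1, hεδ⟩ : ∃ ε : ℝ, 0 < ε ∧ ε ≤ 1 ∧ 2 * ε * N ≤ δ := by
    refine ⟨min 1 (δ / (2 * N + 2)), lt_min one_pos (by positivity), min_le_left _ _, ?_⟩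
    have h1 : min 1 (δ / (2 * N + 2)) ≤ δ / (2 * (N : ℝ) + 2) := min_le_right _ _
    have h2 : (0 : ℝ) ≤ N := Nat.cast_nonneg N
    calc 2 * min 1 (δ / (2 * N + 2)) * N ≤ 2 * (δ / (2 * (N : ℝ) + 2)) * N := by gcongr
      _ = δ * (2 * N / (2 * N + 2)) := by ring
      _ ≤ δ * 1 := by
        apply mul_le_mul_of_nonneg_left _ hδ.le
        rw [div_le_one (by positivity)]
        linarith
      _ = δ := mul_one δ
  refine ⟨fun w => kapE ((ε : ℂ) ^ 2 * ∑ j, (w j) ^ 2) ^ N, (4 * Real.exp 1 / ε ^ 2) ^ N,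
    ?_, ?_, ?_⟩
  · apply Differentiable.pow
    apply kapE_diff.comp
    fun_prop
  · intro z
    have h1 : ∑ j, (Jm z j) ^ 2 = 0 := by
      unfold Jm ap
      rw [Fin.sum_univ_add]
      simp only [Fin.append_left, Fin.append_right, Pi.smul_apply, smul_eq_mul, mul_pow,
        Complex.I_sq]
      rw [← Finset.mul_sum]
      ring
    show kapE ((ε : ℂ) ^ 2 * ∑ j, (Jm z j) ^ 2) ^ N = 1
    rw [h1, mul_zero, kapE_zero, one_pow]
  · intro w
    obtain ⟨ζ, hζ⟩ := IsAlgClosed.exists_pow_nat_eq (∑ j, (w j) ^ 2) (show 0 < 2 by norm_num)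
    obtain ⟨g1, g2⟩ := kap_geom w ζ hζ
    have hk := kapE_key ((ε : ℂ) * ζ)
    have hre : ((ε : ℂ) * ζ).re = ε * ζ.re := Complex.re_ofReal_mul ε ζ
    rw [mul_pow, hζ, norm_mul, Complex.norm_real, Real.norm_of_nonneg hε0.le, hre, abs_mul,
      abs_of_pos hε0] at hk
    obtain ⟨κ₀, hκ₀⟩ : ∃ κ₀ : ℂ, κ₀ = kapE ((ε : ℂ) ^ 2 * ∑ j, (w j) ^ 2) := ⟨_, rfl⟩
    rw [← hκ₀] at hk
    show ‖kapE ((ε : ℂ) ^ 2 * ∑ j, (w j) ^ 2) ^ N‖ * (1 + ‖w‖) ^ N ≤ _
    rw [← hκ₀, norm_pow, ← mul_pow]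
    obtain ⟨U, hU⟩ : ∃ U : ℝ, U = ‖reE w‖ := ⟨_, rfl⟩
    have hU0 : 0 ≤ U := by rw [hU]; exact norm_nonneg _
    rw [← hU] at g1 g2 ⊢
    have hz0 : 0 ≤ ‖ζ‖ := norm_nonneg ζ
    have hκn : 0 ≤ ‖κ₀‖ := norm_nonneg κ₀
    have e1 : ‖κ₀‖ * (1 + ε * ‖ζ‖) ≤ 2 * Real.exp 1 * Real.exp (ε * U) := by
      refine hk.trans ?_
      gcongr
    have e2 : ε / 2 * (1 + 2 * U) ≤ Real.exp (ε * U) := by
      have := Real.add_one_le_exp (ε * U)
      nlinarith
    have e3 : ε * (1 + ‖ζ‖) ≤ 1 + ε * ‖ζ‖ := by nlinarith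
    have e4 : 1 + ‖w‖ ≤ (1 + 2 * U) * (1 + ‖ζ‖) := by nlinarith [mul_nonneg hU0 hz0]
    have e5 : ‖κ₀‖ * (1 + ‖w‖) ≤ 4 * Real.exp 1 / ε ^ 2 * Real.exp (2 * ε * U) := by
      have e6 : (ε ^ 2 / 2) * (‖κ₀‖ * (1 + ‖w‖)) ≤
          (2 * Real.exp 1 * Real.exp (ε * U)) * Real.exp (ε * U) := by
        calc (ε ^ 2 / 2) * (‖κ₀‖ * (1 + ‖w‖))
            ≤ (ε ^ 2 / 2) * (‖κ₀‖ * ((1 + 2 * U) * (1 + ‖ζ‖))) := by gcongr
          _ = (‖κ₀‖ * (ε * (1 + ‖ζ‖))) * (ε / 2 * (1 + 2 * U)) := by ring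
          _ ≤ (‖κ₀‖ * (1 + ε * ‖ζ‖)) * (ε / 2 * (1 + 2 * U)) := by gcongr
          _ ≤ (2 * Real.exp 1 * Real.exp (ε * U)) * Real.exp (ε * U) :=
            mul_le_mul e1 e2 (by positivity) (by positivity)
      have e7 : Real.exp (2 * ε * U) = Real.exp (ε * U) * Real.exp (ε * U) := by
        rw [← Real.exp_add]
        congr 1
        ring
      rw [e7, div_mul_eq_mul_div, le_div_iff₀ (by positivity)]
      nlinarith
    calc (‖κ₀‖ * (1 + ‖w‖)) ^ N ≤ (4 * Real.exp 1 / ε ^ 2 * Real.exp (2 * ε * U)) ^ N :=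
          pow_le_pow_left₀ (by positivity) e5 N
      _ = (4 * Real.exp 1 / ε ^ 2) ^ N * Real.exp (N * (2 * ε * U)) := by
          rw [mul_pow, ← Real.exp_nat_mul]
      _ ≤ (4 * Real.exp 1 / ε ^ 2) ^ N * Real.exp (δ * U) := by
          apply mul_le_mul_of_nonneg_left _ (by positivity)
          apply Real.exp_le_exp.mpr
          nlinarith

end J_kappa

alias kappa := J_kappa.kappa

namespace J_shift

/-- shift of the domain of integration -/
theorem shift {m : ℕ} (Ψ : Cn m → ℂ) (hΨ : Differentiable ℂ Ψ) (A B : ℝ)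
    (hb : ∀ w, ‖Ψ w‖ * (1 + ‖w‖) ^ (m + 1) ≤ A * Real.exp (B * ‖reE w‖)) (a : Fin m → ℝ) :
    ∫ y : Fin m → ℝ, Ψ (fun j => (a j : ℂ) + I * (y j : ℂ))
      = ∫ y : Fin m → ℝ, Ψ (fun j => I * (y j : ℂ)) := by
  let p : ℂ → (Fin m → ℝ) → Cn m := fun s y j => s * (a j : ℂ) + I * (y j : ℂ)
  let Ca : ℝ := ‖reE (fun j => (a j : ℂ))‖
  let na : ℝ := ‖(fun j => (a j : ℂ) : Cn m)‖
  have hCa : 0 ≤ Ca := norm_nonneg _
  have hna : 0 ≤ na := norm_nonneg _
  have hre : ∀ s y, ‖reE (p s y)‖ = |s.re| * Ca := by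
    intro s y
    have h1 : reE (p s y) = s.re • reE (fun j => (a j : ℂ)) := by
      ext j
      simp [reE, p]
    rw [h1, norm_smul, Real.norm_eq_abs]
  have hA : 0 ≤ A := by
    have h1 := hb 0
    have h2 : reE (0 : Cn m) = 0 := by
      ext j
      simp [reE]
    rw [h2, norm_zero, norm_zero, mul_zero, Real.exp_zero, add_zero, one_pow, mul_one, mul_one] at h1
    exact (norm_nonneg _).trans h1
  let K : ℝ → ℝ := fun R => A * Real.exp (|B| * (R * Ca)) * (1 + R * na) ^ (m + 1)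
  let G : (Fin m → ℝ) → ℝ := fun y => ((1 + ‖y‖) ^ (m + 1))⁻¹
  have hGint : Integrable G := by
    have h1 : Integrable (fun y : Fin m → ℝ => (1 + ‖y‖) ^ (-((m : ℝ) + 1))) := by
      apply integrable_one_add_norm
      simp
    refine h1.congr (Eventually.of_forall fun y => ?_)
    have h2 : (0 : ℝ) ≤ 1 + ‖y‖ := by positivity
    change (1 + ‖y‖) ^ (-((m : ℝ) + 1)) = ((1 + ‖y‖) ^ (m + 1))⁻¹
    rw [Real.rpow_neg h2]
    congr 1
    rw [← Real.rpow_natCast]
    push_cast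
    rfl
  have hbound : ∀ R : ℝ, ∀ s : ℂ, ‖s‖ ≤ R → ∀ y, ‖Ψ (p s y)‖ ≤ K R * G y := by
    intro R s hs y
    have hR : 0 ≤ R := (norm_nonneg _).trans hs
    have hy : ‖y‖ ≤ ‖p s y‖ + R * na := by
      rw [pi_norm_le_iff_of_nonneg (by positivity)]
      intro j
      have h1 : I * (y j : ℂ) = p s y j - s * (a j : ℂ) := by simp [p]
      have h2 : ‖y j‖ = ‖I * (y j : ℂ)‖ := by simp
      rw [h2, h1]
      refine (norm_sub_le _ _).trans ?_
      apply add_le_add (norm_le_pi_norm _ j)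
      rw [norm_mul]
      apply mul_le_mul hs _ (norm_nonneg _) hR
      exact norm_le_pi_norm (fun j => (a j : ℂ) : Cn m) j
    have hP : 0 < 1 + ‖p s y‖ := by positivity
    have hY : 0 < 1 + ‖y‖ := by positivity
    have h3 : 1 + ‖y‖ ≤ (1 + ‖p s y‖) * (1 + R * na) := by
      have : 0 ≤ ‖p s y‖ * (R * na) := by positivity
      nlinarith
    have h4 : (1 + ‖y‖) ^ (m + 1) ≤ (1 + ‖p s y‖) ^ (m + 1) * (1 + R * na) ^ (m + 1) := by
      rw [← mul_pow]
      exact pow_le_pow_left₀ hY.le h3 _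
    have h5 := hb (p s y)
    rw [hre] at h5
    have h6 : B * (|s.re| * Ca) ≤ |B| * (R * Ca) := by
      have h7 : |s.re| * Ca ≤ R * Ca :=
        mul_le_mul_of_nonneg_right ((Complex.abs_re_le_norm s).trans hs) hCa
      have h8 : 0 ≤ |s.re| * Ca := by positivity
      exact (mul_le_mul_of_nonneg_right (le_abs_self B) h8).trans
        (mul_le_mul_of_nonneg_left h7 (abs_nonneg B))
    have h9 : A * Real.exp (B * (|s.re| * Ca)) ≤ A * Real.exp (|B| * (R * Ca)) :=
      mul_le_mul_of_nonneg_left (Real.exp_le_exp.mpr h6) hA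
    have h10 : ‖Ψ (p s y)‖ * (1 + ‖p s y‖) ^ (m + 1) ≤ A * Real.exp (|B| * (R * Ca)) := h5.trans h9
    change _ ≤ A * Real.exp (|B| * (R * Ca)) * (1 + R * na) ^ (m + 1) * ((1 + ‖y‖) ^ (m + 1))⁻¹
    rw [← div_eq_mul_inv, le_div_iff₀ (by positivity)]
    calc ‖Ψ (p s y)‖ * (1 + ‖y‖) ^ (m + 1)
        ≤ ‖Ψ (p s y)‖ * ((1 + ‖p s y‖) ^ (m + 1) * (1 + R * na) ^ (m + 1)) :=
          mul_le_mul_of_nonneg_left h4 (norm_nonneg _)
      _ = (‖Ψ (p s y)‖ * (1 + ‖p s y‖) ^ (m + 1)) * (1 + R * na) ^ (m + 1) := by ring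
      _ ≤ _ := mul_le_mul_of_nonneg_right h10 (by positivity)
  have hpc : Continuous (fun q : (Fin m → ℝ) × ℂ => p q.2 q.1) := by
    apply continuous_pi
    intro j
    simp only [p]
    fun_prop
  have hFc : Continuous (fun q : (Fin m → ℝ) × ℂ => Ψ (p q.2 q.1)) := hΨ.continuous.comp hpc
  have hpd : ∀ y, Differentiable ℂ (fun s => Ψ (p s y)) := by
    intro y
    apply hΨ.comp
    rw [differentiable_pi]
    intro j
    simp only [p]
    fun_prop
  have hyc : ∀ s, Continuous (fun y => Ψ (p s y)) := fun s =>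
    hFc.comp (continuous_id.prodMk continuous_const)
  have hint : ∀ s, Integrable (fun y => Ψ (p s y)) := by
    intro s
    refine Integrable.mono' (hGint.const_mul (K ‖s‖)) (hyc s).aestronglyMeasurable ?_
    exact Eventually.of_forall fun y => hbound ‖s‖ s le_rfl y
  let J : ℂ → ℂ := fun s => ∫ y, Ψ (p s y)
  have hJd : ∀ s, ∃ d, HasDerivAt J d s := by
    intro s
    have h1 := hasDerivAt_integral_of_dominated_loc_of_deriv_le (𝕜 := ℂ)
      (F := fun s y => Ψ (p s y)) (F' := fun s y => deriv (fun s => Ψ (p s y)) s) (x₀ := s)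
      (s := Metric.ball s 1) (bound := fun y => K (‖s‖ + 2) * G y) (μ := volume)
      (Metric.ball_mem_nhds s one_pos)
      (Eventually.of_forall fun x => (hyc x).aestronglyMeasurable) (hint s)
      ?_ ?_ (hGint.const_mul _) ?_
    · exact ⟨_, h1.2⟩
    · have h2 := stronglyMeasurable_deriv_with_param (f := fun (y : Fin m → ℝ) (s : ℂ) => Ψ (p s y)) hFc
      have h3 : StronglyMeasurable (fun y : Fin m → ℝ => deriv (fun s => Ψ (p s y)) s) :=
        h2.comp_measurable (measurable_id.prodMk measurable_const)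
      exact h3.aestronglyMeasurable
    · refine Eventually.of_forall fun y x hx => ?_
      have h4 := Complex.norm_deriv_le_of_forall_mem_sphere_norm_le (c := x) (R := 1)
        (C := K (‖s‖ + 2) * G y) (f := fun s => Ψ (p s y)) one_pos
        ((hpd y).diffContOnCl) ?_
      · simpa using h4
      · intro z hz
        apply hbound
        have h5 : ‖z - x‖ = 1 := by simpa [dist_eq_norm] using hz
        have h6 : ‖x - s‖ < 1 := by simpa [dist_eq_norm] using hx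
        have h7 : z = (z - x) + (x - s) + s := by ring
        rw [h7]
        refine (norm_add_le _ _).trans ?_
        have := norm_add_le (z - x) (x - s)
        linarith
    · refine Eventually.of_forall fun y x hx => ?_
      exact ((hpd y) x).hasDerivAt
  have hJinv : ∀ (s : ℂ) (t : ℝ), J (s + I * t) = J s := by
    intro s t
    have h1 : ∀ y, p (s + I * t) y = p s (y + t • a) := by
      intro y
      funext j
      simp only [p, Pi.add_apply, Pi.smul_apply, smul_eq_mul]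
      push_cast
      ring
    change (∫ y, Ψ (p (s + I * t) y)) = ∫ y, Ψ (p s y)
    simp_rw [h1]
    exact integral_add_right_eq_self (fun y => Ψ (p s y)) (t • a)
  have hJ0 : ∀ s, deriv J s = 0 := by
    intro s
    obtain ⟨d, hd⟩ := hJd s
    rw [hd.deriv]
    have h1 : HasDerivAt (fun z : ℂ => J (s + I * z)) (d * I) ((0 : ℝ) : ℂ) := by
      have h2 : HasDerivAt (fun z : ℂ => s + I * z) I ((0 : ℝ) : ℂ) := by
        have := ((hasDerivAt_id ((0 : ℝ) : ℂ)).const_mul I).const_add s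
        simpa using this
      have h3 : HasDerivAt J d (s + I * ((0 : ℝ) : ℂ)) := by simpa using hd
      exact h3.comp ((0 : ℝ) : ℂ) h2
    have h4 := h1.comp_ofReal
    have h5 : (fun t : ℝ => J (s + I * t)) = fun _ => J s := by
      funext t
      exact hJinv s t
    rw [h5] at h4
    have h6 := h4.unique (hasDerivAt_const (0 : ℝ) (J s))
    rcases mul_eq_zero.mp h6 with h7 | h7
    · exact h7
    · exact absurd h7 I_ne_zero
  have hdiff : Differentiable ℂ J := fun s => by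
    obtain ⟨d, hd⟩ := hJd s
    exact hd.differentiableAt
  have hfin := is_const_of_deriv_eq_zero hdiff hJ0 1 0
  have e1 : J 1 = ∫ y : Fin m → ℝ, Ψ (fun j => (a j : ℂ) + I * (y j : ℂ)) := by
    simp only [J, p, one_mul]
  have e0 : J 0 = ∫ y : Fin m → ℝ, Ψ (fun j => I * (y j : ℂ)) := by
    simp only [J, p, zero_mul, zero_add]
  rw [← e1, ← e0, hfin]

end J_shift

alias shift := J_shift.shift

namespace J_eq_of_imag

/-- an entire function vanishing on `i ℝ^m` vanishes -/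
theorem eq_of_imag {m : ℕ} (Ψ : Cn m → ℂ) (hΨ : Differentiable ℂ Ψ)
    (h : ∀ y : Fin m → ℝ, Ψ (fun j => I * (y j : ℂ)) = 0) (w : Cn m) : Ψ w = 0 := by
  have hg : Differentiable ℂ (fun l : ℂ => Ψ (fun j => I * ((w j).im : ℂ) + l * (I * ((w j).re : ℂ)))) := by
    apply hΨ.comp
    rw [differentiable_pi]
    intro j
    fun_prop
  have ht : Tendsto (fun t : ℝ => (t : ℂ)) (𝓝[≠] 0) (𝓝[≠] 0) := by
    apply tendsto_nhdsWithin_of_tendsto_nhds_of_eventually_within
    · have h1 : Tendsto (fun t : ℝ => (t : ℂ)) (𝓝 0) (𝓝 ((0 : ℝ) : ℂ)) :=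
        continuous_ofReal.tendsto 0
      rw [ofReal_zero] at h1
      exact h1.mono_left nhdsWithin_le_nhds
    · filter_upwards [self_mem_nhdsWithin] with t ht
      simpa using ht
  have hfr : ∃ᶠ l in 𝓝[≠] (0 : ℂ),
      (fun l : ℂ => Ψ (fun j => I * ((w j).im : ℂ) + l * (I * ((w j).re : ℂ)))) l
        = (fun _ : ℂ => (0 : ℂ)) l := by
    refine ht.frequently (Filter.Eventually.frequently (Filter.Eventually.of_forall ?_))
    intro t
    have h2 := h (fun j => (w j).im + t * (w j).re)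
    simp only
    rw [← h2]
    congr 1
    funext j
    push_cast
    ring
  have hA : AnalyticOnNhd ℂ
      (fun l : ℂ => Ψ (fun j => I * ((w j).im : ℂ) + l * (I * ((w j).re : ℂ)))) univ :=
    hg.differentiableOn.analyticOnNhd isOpen_univ
  have hB : AnalyticOnNhd ℂ (fun _ : ℂ => (0 : ℂ)) univ := analyticOnNhd_const
  have hE := AnalyticOnNhd.eq_of_frequently_eq hA hB hfr
  have h3 : Ψ (fun j => I * ((w j).im : ℂ) + (-I) * (I * ((w j).re : ℂ))) = 0 :=
    congrFun hE (-I)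
  rw [← h3]
  congr 1
  funext j
  have h4 : -I * (I * ((w j).re : ℂ)) = (w j).re := by
    rw [← mul_assoc, neg_mul, I_mul_I]; ring
  rw [h4]
  conv_lhs => rw [← re_add_im (w j)]
  ring

end J_eq_of_imag

alias eq_of_imag := J_eq_of_imag.eq_of_imag

namespace J_pw

theorem pw_inner {m : ℕ} (a x : EuclideanSpace ℝ (Fin m)) : inner ℝ a x = ∑ j, a j * x j := by
  rw [PiLp.inner_apply]
  apply Finset.sum_congr rfl
  intro j _
  simp [mul_comm]

theorem pw_re {m : ℕ} (w : Cn m) (x : EuclideanSpace ℝ (Fin m)) :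
    (∑ j, w j * (x j : ℂ)).re = inner ℝ (reE w) x := by
  rw [pw_inner, Complex.re_sum]
  apply Finset.sum_congr rfl
  intro j _
  rw [Complex.re_mul_ofReal]
  rfl

theorem pw_bnd_int (m : ℕ) : Integrable (fun y : Fin m → ℝ => ((1 + ‖y‖) ^ (m + 1))⁻¹) := by
  have h := integrable_one_add_norm (E := Fin m → ℝ) (μ := volume) (r := ((m + 1 : ℕ) : ℝ))
    (by rw [Module.finrank_fin_fun]; push_cast; linarith)
  refine h.congr (Eventually.of_forall fun y => ?_)
  show (1 + ‖y‖) ^ (-((m + 1 : ℕ) : ℝ)) = ((1 + ‖y‖) ^ (m + 1))⁻¹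
  rw [Real.rpow_neg (by positivity), Real.rpow_natCast]

theorem pw_spf_le {m : ℕ} (K : Set (EuclideanSpace ℝ (Fin m))) (hne : K.Nonempty)
    (x : EuclideanSpace ℝ (Fin m)) (M : ℝ) (h : ∀ ξ ∈ K, inner ℝ x ξ ≤ M) : spf K x ≤ M := by
  apply csSup_le (hne.image _)
  rintro _ ⟨ξ, hξ, rfl⟩
  exact h ξ hξ

theorem pw_A {m : ℕ} (K : Set (EuclideanSpace ℝ (Fin m))) (Γ : Cn m → ℂ) (A : ℝ)
    (hb : ∀ w, ‖Γ w‖ * (1 + ‖w‖) ^ (m + 1) ≤ A * Real.exp (spf K (reE w))) : 0 ≤ A := by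
  have h1 := hb 0
  have h2 : 0 ≤ A * Real.exp (spf K (reE (0 : Cn m))) := le_trans (by positivity) h1
  by_contra hc
  push Not at hc
  have := mul_neg_of_neg_of_pos hc (Real.exp_pos (spf K (reE (0 : Cn m))))
  linarith

theorem pw_gam {m : ℕ} (K : Set (EuclideanSpace ℝ (Fin m))) (hne : K.Nonempty) (Γ : Cn m → ℂ)
    (A : ℝ) (hb : ∀ w, ‖Γ w‖ * (1 + ‖w‖) ^ (m + 1) ≤ A * Real.exp (spf K (reE w)))
    (w : Cn m) (M : ℝ) (hM : ∀ ξ ∈ K, inner ℝ (reE w) ξ ≤ M) :
    ‖Γ (((2 * Real.pi : ℝ) : ℂ) • w)‖ * (1 + ‖w‖) ^ (m + 1) ≤ A * Real.exp (2 * Real.pi * M) := by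
  have hA := pw_A K Γ A hb
  have h1 := hb (((2 * Real.pi : ℝ) : ℂ) • w)
  have hre : reE (((2 * Real.pi : ℝ) : ℂ) • w) = (2 * Real.pi) • reE w := by
    ext j
    show (((2 * Real.pi : ℝ) : ℂ) * w j).re = (2 * Real.pi) * (w j).re
    rw [Complex.re_ofReal_mul]
  have h2 : spf K (reE (((2 * Real.pi : ℝ) : ℂ) • w)) ≤ 2 * Real.pi * M := by
    apply pw_spf_le K hne
    intro ξ hξ
    rw [hre, real_inner_smul_left]
    exact mul_le_mul_of_nonneg_left (hM ξ hξ) Real.two_pi_pos.le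
  have hn : ‖((2 * Real.pi : ℝ) : ℂ) • w‖ = 2 * Real.pi * ‖w‖ := by
    rw [norm_smul, Complex.norm_real, Real.norm_eq_abs, abs_of_pos Real.two_pi_pos]
  have h3 : ‖w‖ ≤ ‖((2 * Real.pi : ℝ) : ℂ) • w‖ := by
    rw [hn]
    have := Real.pi_gt_three
    nlinarith [norm_nonneg w]
  calc ‖Γ (((2 * Real.pi : ℝ) : ℂ) • w)‖ * (1 + ‖w‖) ^ (m + 1)
      ≤ ‖Γ (((2 * Real.pi : ℝ) : ℂ) • w)‖ * (1 + ‖((2 * Real.pi : ℝ) : ℂ) • w‖) ^ (m + 1) := by
        apply mul_le_mul_of_nonneg_left _ (norm_nonneg _)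
        exact pow_le_pow_left₀ (by positivity) (by linarith) _
    _ ≤ A * Real.exp (spf K (reE (((2 * Real.pi : ℝ) : ℂ) • w))) := h1
    _ ≤ A * Real.exp (2 * Real.pi * M) :=
        mul_le_mul_of_nonneg_left (Real.exp_le_exp.mpr h2) hA

/-- the integrand -/
noncomputable def pwPsi {m : ℕ} (Γ : Cn m → ℂ) (x : EuclideanSpace ℝ (Fin m)) (w : Cn m) : ℂ :=
  Γ (((2 * Real.pi : ℝ) : ℂ) • w) * cexp (-(((2 * Real.pi : ℝ) : ℂ) * ∑ j, w j * (x j : ℂ)))

theorem pw_psi_norm {m : ℕ} (Γ : Cn m → ℂ) (x : EuclideanSpace ℝ (Fin m)) (w : Cn m) :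
    ‖pwPsi Γ x w‖ = ‖Γ (((2 * Real.pi : ℝ) : ℂ) • w)‖ *
      Real.exp (-(2 * Real.pi * inner ℝ (reE w) x)) := by
  unfold pwPsi
  rw [norm_mul, Complex.norm_exp, Complex.neg_re, Complex.re_ofReal_mul, pw_re]

theorem pw_psi_diff {m : ℕ} (Γ : Cn m → ℂ) (hΓ : Differentiable ℂ Γ)
    (x : EuclideanSpace ℝ (Fin m)) : Differentiable ℂ (pwPsi Γ x) := by
  unfold pwPsi
  apply Differentiable.mul
  · exact hΓ.comp (differentiable_id.const_smul (((2 * Real.pi : ℝ) : ℂ)))
  · apply Differentiable.cexp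
    apply Differentiable.neg
    apply Differentiable.const_mul
    apply Differentiable.fun_sum
    intro j _
    exact (differentiable_apply j).mul_const _

theorem pw_est {m : ℕ} (K : Set (EuclideanSpace ℝ (Fin m))) (hne : K.Nonempty) (Γ : Cn m → ℂ)
    (A : ℝ) (hb : ∀ w, ‖Γ w‖ * (1 + ‖w‖) ^ (m + 1) ≤ A * Real.exp (spf K (reE w)))
    (x : EuclideanSpace ℝ (Fin m)) (w : Cn m) (y : Fin m → ℝ) (hy : ∀ j, (w j).im = y j)
    (M : ℝ) (hM : ∀ ξ ∈ K, inner ℝ (reE w) ξ ≤ M) :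
    ‖pwPsi Γ x w‖ ≤ A * Real.exp (2 * Real.pi * (M - inner ℝ (reE w) x)) *
      ((1 + ‖y‖) ^ (m + 1))⁻¹ := by
  have h1 := pw_gam K hne Γ A hb w M hM
  have h2 : ‖y‖ ≤ ‖w‖ := by
    rw [pi_norm_le_iff_of_nonneg (norm_nonneg w)]
    intro j
    rw [← hy j, Real.norm_eq_abs]
    exact (Complex.abs_im_le_norm (w j)).trans (norm_le_pi_norm w j)
  have hpos : 0 < (1 + ‖y‖) ^ (m + 1) := by positivity
  have h3 : ‖Γ (((2 * Real.pi : ℝ) : ℂ) • w)‖ * (1 + ‖y‖) ^ (m + 1) ≤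
      A * Real.exp (2 * Real.pi * M) := by
    refine le_trans ?_ h1
    apply mul_le_mul_of_nonneg_left _ (norm_nonneg _)
    exact pow_le_pow_left₀ (by positivity) (by linarith) _
  rw [pw_psi_norm, ← div_eq_mul_inv, le_div_iff₀ hpos]
  calc ‖Γ (((2 * Real.pi : ℝ) : ℂ) • w)‖ * Real.exp (-(2 * Real.pi * inner ℝ (reE w) x)) *
        (1 + ‖y‖) ^ (m + 1)
      = (‖Γ (((2 * Real.pi : ℝ) : ℂ) • w)‖ * (1 + ‖y‖) ^ (m + 1)) *
        Real.exp (-(2 * Real.pi * inner ℝ (reE w) x)) := by ring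
    _ ≤ (A * Real.exp (2 * Real.pi * M)) * Real.exp (-(2 * Real.pi * inner ℝ (reE w) x)) :=
        mul_le_mul_of_nonneg_right h3 (Real.exp_pos _).le
    _ = A * Real.exp (2 * Real.pi * (M - inner ℝ (reE w) x)) := by
        rw [mul_assoc, ← Real.exp_add]
        congr 2
        ring

theorem pw_est0 {m : ℕ} (K : Set (EuclideanSpace ℝ (Fin m))) (hne : K.Nonempty) (Γ : Cn m → ℂ)
    (A : ℝ) (hb : ∀ w, ‖Γ w‖ * (1 + ‖w‖) ^ (m + 1) ≤ A * Real.exp (spf K (reE w)))
    (x : EuclideanSpace ℝ (Fin m)) (y : Fin m → ℝ) :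
    ‖pwPsi Γ x (fun j => I * (y j : ℂ))‖ ≤ A * ((1 + ‖y‖) ^ (m + 1))⁻¹ := by
  have hre : reE (fun j => I * (y j : ℂ)) = (0 : EuclideanSpace ℝ (Fin m)) := by
    ext j
    show (I * (y j : ℂ)).re = 0
    simp
  have h1 := pw_est K hne Γ A hb x (fun j => I * (y j : ℂ)) y (fun j => by simp) 0
    (fun ξ _ => by rw [hre, inner_zero_left])
  rw [hre, inner_zero_left, sub_zero, mul_zero, Real.exp_zero, mul_one] at h1
  exact h1

theorem pw_cont_y {m : ℕ} (Γ : Cn m → ℂ) (hΓ : Differentiable ℂ Γ)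
    (x : EuclideanSpace ℝ (Fin m)) : Continuous fun y : Fin m → ℝ =>
      pwPsi Γ x (fun j => I * (y j : ℂ)) := by
  refine (pw_psi_diff Γ hΓ x).continuous.comp ?_
  fun_prop

theorem pw_cont_x {m : ℕ} (Γ : Cn m → ℂ) (w : Cn m) :
    Continuous fun x : EuclideanSpace ℝ (Fin m) => pwPsi Γ x w := by
  unfold pwPsi
  fun_prop

theorem pw_nu_cont {m : ℕ} (K : Set (EuclideanSpace ℝ (Fin m))) (hne : K.Nonempty) (Γ : Cn m → ℂ)
    (A : ℝ) (hΓ : Differentiable ℂ Γ)
    (hb : ∀ w, ‖Γ w‖ * (1 + ‖w‖) ^ (m + 1) ≤ A * Real.exp (spf K (reE w))) :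
    Continuous fun x : EuclideanSpace ℝ (Fin m) =>
      ∫ y : Fin m → ℝ, pwPsi Γ x (fun j => I * (y j : ℂ)) := by
  apply continuous_of_dominated (bound := fun y : Fin m → ℝ => A * ((1 + ‖y‖) ^ (m + 1))⁻¹)
  · intro x
    exact (pw_cont_y Γ hΓ x).aestronglyMeasurable
  · intro x
    exact Eventually.of_forall fun y => pw_est0 K hne Γ A hb x y
  · exact (pw_bnd_int m).const_mul A
  · exact Eventually.of_forall fun y => pw_cont_x Γ _

theorem pw_nu_zero {m : ℕ} (K : Set (EuclideanSpace ℝ (Fin m))) (hK : IsCompact K)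
    (hKc : Convex ℝ K) (hne : K.Nonempty) (Γ : Cn m → ℂ) (A : ℝ) (hΓ : Differentiable ℂ Γ)
    (hb : ∀ w, ‖Γ w‖ * (1 + ‖w‖) ^ (m + 1) ≤ A * Real.exp (spf K (reE w)))
    (x : EuclideanSpace ℝ (Fin m)) (hx : x ∉ K) :
    ∫ y : Fin m → ℝ, pwPsi Γ x (fun j => I * (y j : ℂ)) = 0 := by
  have hA := pw_A K Γ A hb
  obtain ⟨R0, hR0⟩ := hK.isBounded.exists_norm_le
  obtain ⟨f, u, hf1, hf2⟩ := geometric_hahn_banach_closed_point hKc hK.isClosed hx
  set a : EuclideanSpace ℝ (Fin m) := (InnerProductSpace.toDual ℝ _).symm f with ha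
  have haf : ∀ z, inner ℝ a z = f z := fun z => InnerProductSpace.toDual_symm_apply
  -- the shift
  have hsh : ∀ w, ‖pwPsi Γ x w‖ * (1 + ‖w‖) ^ (m + 1) ≤
      A * Real.exp ((2 * Real.pi * (R0 + ‖x‖)) * ‖reE w‖) := by
    intro w
    have h1 := pw_gam K hne Γ A hb w (R0 * ‖reE w‖) (fun ξ hξ => by
      refine (real_inner_le_norm _ _).trans ?_
      rw [mul_comm]
      exact mul_le_mul_of_nonneg_right (hR0 ξ hξ) (norm_nonneg _))
    have h2 : -(2 * Real.pi * inner ℝ (reE w) x) ≤ 2 * Real.pi * (‖reE w‖ * ‖x‖) := by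
      have h3 := abs_real_inner_le_norm (reE w) x
      rw [abs_le] at h3
      have := mul_le_mul_of_nonneg_left h3.1 Real.two_pi_pos.le
      linarith
    rw [pw_psi_norm]
    calc ‖Γ (((2 * Real.pi : ℝ) : ℂ) • w)‖ * Real.exp (-(2 * Real.pi * inner ℝ (reE w) x)) *
          (1 + ‖w‖) ^ (m + 1)
        = (‖Γ (((2 * Real.pi : ℝ) : ℂ) • w)‖ * (1 + ‖w‖) ^ (m + 1)) *
          Real.exp (-(2 * Real.pi * inner ℝ (reE w) x)) := by ring
      _ ≤ (A * Real.exp (2 * Real.pi * (R0 * ‖reE w‖))) *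
          Real.exp (2 * Real.pi * (‖reE w‖ * ‖x‖)) := by
          apply mul_le_mul h1 (Real.exp_le_exp.mpr h2) (Real.exp_pos _).le (by positivity)
      _ = A * Real.exp ((2 * Real.pi * (R0 + ‖x‖)) * ‖reE w‖) := by
          rw [mul_assoc, ← Real.exp_add]
          congr 2
          ring
  set C : ℝ := ∫ y : Fin m → ℝ, ((1 + ‖y‖) ^ (m + 1))⁻¹ with hC
  have hest : ∀ τ : ℝ, 0 ≤ τ → ‖∫ y : Fin m → ℝ, pwPsi Γ x (fun j => I * (y j : ℂ))‖ ≤
      A * Real.exp (2 * Real.pi * (u - f x) * τ) * C := by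
    intro τ hτ
    rw [← shift (pwPsi Γ x) (pw_psi_diff Γ hΓ x) A _ hsh (fun j => τ * a j), hC,
      ← integral_const_mul]
    apply norm_integral_le_of_norm_le ((pw_bnd_int m).const_mul _)
    refine Eventually.of_forall fun y => ?_
    have hre : reE (fun j => ((τ * a j : ℝ) : ℂ) + I * (y j : ℂ)) = τ • a := by
      ext j
      show (((τ * a j : ℝ) : ℂ) + I * (y j : ℂ)).re = τ * a j
      simp
    have h1 := pw_est K hne Γ A hb x (fun j => ((τ * a j : ℝ) : ℂ) + I * (y j : ℂ)) y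
      (fun j => by simp) (τ * u) (fun ξ hξ => by
        rw [hre, real_inner_smul_left, haf]
        exact mul_le_mul_of_nonneg_left (hf1 ξ hξ).le hτ)
    rw [hre, real_inner_smul_left, haf] at h1
    have h2 : 2 * Real.pi * (τ * u - τ * f x) = 2 * Real.pi * (u - f x) * τ := by ring
    rw [h2] at h1
    exact h1
  have hlim : Tendsto (fun τ : ℝ => A * Real.exp (2 * Real.pi * (u - f x) * τ) * C) atTop
      (𝓝 (A * 0 * C)) := by
    apply Tendsto.mul_const
    apply Tendsto.const_mul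
    apply Real.tendsto_exp_atBot.comp
    have hneg : 2 * Real.pi * (u - f x) < 0 :=
      mul_neg_of_pos_of_neg Real.two_pi_pos (by linarith)
    exact tendsto_id.const_mul_atTop_of_neg hneg
  rw [mul_zero, zero_mul] at hlim
  have h0 : ‖∫ y : Fin m → ℝ, pwPsi Γ x (fun j => I * (y j : ℂ))‖ ≤ 0 := by
    refine ge_of_tendsto hlim ?_
    filter_upwards [eventually_ge_atTop (0:ℝ)] with τ hτ
    exact hest τ hτ
  exact norm_le_zero_iff.mp h0

theorem pw_diff {m : ℕ} (ν : EuclideanSpace ℝ (Fin m) → ℂ) (hν : Continuous ν) (R0 : ℝ)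
    (hR0 : 0 ≤ R0) (hν0 : ∀ x, R0 < ‖x‖ → ν x = 0) (hc : HasCompactSupport ν) :
    Differentiable ℂ (fun w : Cn m => ∫ x, ν x * cexp (∑ j, w j * (x j : ℂ))) := by
  intro w0
  have hi : Integrable ν := hν.integrable_of_hasCompactSupport hc
  have hFc : ∀ w : Cn m, Continuous fun x : EuclideanSpace ℝ (Fin m) =>
      ν x * cexp (∑ j, w j * (x j : ℂ)) := by
    intro w
    fun_prop
  have hLc : Continuous fun x : EuclideanSpace ℝ (Fin m) =>
      (∑ j, (x j : ℂ) • ContinuousLinearMap.proj (R := ℂ) (φ := fun _ : Fin m => ℂ) j) := by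
    fun_prop
  have key := hasFDerivAt_integral_of_dominated_of_fderiv_le (𝕜 := ℂ) (μ := volume)
    (F := fun (w : Cn m) (x : EuclideanSpace ℝ (Fin m)) => ν x * cexp (∑ j, w j * (x j : ℂ)))
    (F' := fun w x => (ν x * cexp (∑ j, w j * (x j : ℂ))) •
      (∑ j, (x j : ℂ) • ContinuousLinearMap.proj (R := ℂ) (φ := fun _ : Fin m => ℂ) j))
    (x₀ := w0) (s := Metric.ball w0 1)
    (bound := fun x => ‖ν x‖ * (Real.exp (m * ((‖w0‖ + 1) * R0)) * (m * R0)))
    (Metric.ball_mem_nhds _ one_pos)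
    (Eventually.of_forall fun w => (hFc w).aestronglyMeasurable)
    ((hFc w0).integrable_of_hasCompactSupport (hc.mul_right))
    ((hFc w0).smul hLc).aestronglyMeasurable
    (by
      refine Eventually.of_forall fun x w hw => ?_
      rcases lt_or_ge R0 ‖x‖ with hx | hx
      · rw [hν0 x hx, zero_mul, norm_smul, norm_zero, zero_mul, zero_mul]
      · have hxj : ∀ j, ‖(x j : ℂ)‖ ≤ R0 := by
          intro j
          rw [Complex.norm_real]
          exact (PiLp.norm_apply_le x j).trans hx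
        have hwn : ‖w‖ ≤ ‖w0‖ + 1 := by
          rw [Metric.mem_ball, dist_eq_norm] at hw
          calc ‖w‖ = ‖w0 + (w - w0)‖ := by congr 1; abel
            _ ≤ ‖w0‖ + ‖w - w0‖ := norm_add_le _ _
            _ ≤ ‖w0‖ + 1 := by linarith
        have h1 : ‖cexp (∑ j, w j * (x j : ℂ))‖ ≤ Real.exp (m * ((‖w0‖ + 1) * R0)) := by
          refine (Complex.norm_exp_le_exp_norm _).trans (Real.exp_le_exp.mpr ?_)
          refine (norm_sum_le _ _).trans ?_
          calc ∑ j, ‖w j * (x j : ℂ)‖ ≤ ∑ _j : Fin m, (‖w0‖ + 1) * R0 := by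
                apply Finset.sum_le_sum
                intro j _
                rw [norm_mul]
                exact mul_le_mul ((norm_le_pi_norm w j).trans hwn) (hxj j) (norm_nonneg _)
                  (by positivity)
            _ = m * ((‖w0‖ + 1) * R0) := by
                rw [Finset.sum_const, Finset.card_univ, Fintype.card_fin, nsmul_eq_mul]
        have h2 : ‖(∑ j, (x j : ℂ) • ContinuousLinearMap.proj (R := ℂ)
            (φ := fun _ : Fin m => ℂ) j)‖ ≤ m * R0 := by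
          apply ContinuousLinearMap.opNorm_le_bound _ (by positivity)
          intro v
          have h3 : (∑ j, (x j : ℂ) • ContinuousLinearMap.proj (R := ℂ)
              (φ := fun _ : Fin m => ℂ) j) v = ∑ j, (x j : ℂ) * v j := by
            simp
          rw [h3]
          refine (norm_sum_le _ _).trans ?_
          calc ∑ j, ‖(x j : ℂ) * v j‖ ≤ ∑ _j : Fin m, R0 * ‖v‖ := by
                apply Finset.sum_le_sum
                intro j _
                rw [norm_mul]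
                exact mul_le_mul (hxj j) (norm_le_pi_norm v j) (norm_nonneg _) hR0
            _ = m * R0 * ‖v‖ := by
                rw [Finset.sum_const, Finset.card_univ, Fintype.card_fin, nsmul_eq_mul, mul_assoc]
        rw [norm_smul, norm_mul, mul_assoc]
        apply mul_le_mul_of_nonneg_left _ (norm_nonneg _)
        exact mul_le_mul h1 h2 (norm_nonneg _) (Real.exp_pos _).le)
    (hi.norm.mul_const _)
    (by
      refine Eventually.of_forall fun x w _ => ?_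
      have h1 : HasFDerivAt (fun w : Cn m => ∑ j, w j * (x j : ℂ))
          (∑ j, (x j : ℂ) • ContinuousLinearMap.proj (R := ℂ) (φ := fun _ : Fin m => ℂ) j) w := by
        have h2 : (fun w : Cn m => ∑ j, w j * (x j : ℂ)) =
            fun w => (∑ j, (x j : ℂ) • ContinuousLinearMap.proj (R := ℂ)
              (φ := fun _ : Fin m => ℂ) j) w := by
          funext v
          simp [mul_comm]
        rw [h2]
        exact ContinuousLinearMap.hasFDerivAt _
      have h3 := (h1.cexp).const_mul (ν x)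
      rw [smul_smul] at h3
      exact h3)
  exact key.differentiableAt

/-- Paley-Wiener theorem -/
theorem pw (m : ℕ) : ∃ C : ℝ, 0 ≤ C ∧ ∀ K : Set (EuclideanSpace ℝ (Fin m)), IsCompact K →
    Convex ℝ K → K.Nonempty → ∀ (Γ : Cn m → ℂ) (A : ℝ), Differentiable ℂ Γ →
    (∀ w, ‖Γ w‖ * (1 + ‖w‖) ^ (m + 1) ≤ A * Real.exp (spf K (reE w))) →
    ∃ ν : EuclideanSpace ℝ (Fin m) → ℂ, Continuous ν ∧ (∀ x, x ∉ K → ν x = 0) ∧
      (∀ x, ‖ν x‖ ≤ C * A) ∧ ∀ w : Cn m, Γ w = ∫ x, ν x * Complex.exp (∑ j, w j * (x j : ℂ)) := by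
  refine ⟨∫ y : Fin m → ℝ, ((1 + ‖y‖) ^ (m + 1))⁻¹, integral_nonneg fun y => by positivity, ?_⟩
  intro K hK hKc hne Γ A hΓ hb
  have hA := pw_A K Γ A hb
  set ν : EuclideanSpace ℝ (Fin m) → ℂ := fun x =>
    ∫ y : Fin m → ℝ, pwPsi Γ x (fun j => I * (y j : ℂ)) with hν
  have hνc : Continuous ν := pw_nu_cont K hne Γ A hΓ hb
  have hν0 : ∀ x, x ∉ K → ν x = 0 := fun x hx => pw_nu_zero K hK hKc hne Γ A hΓ hb x hx
  have hcs : HasCompactSupport ν := HasCompactSupport.intro hK hν0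
  have hνi : Integrable ν := hνc.integrable_of_hasCompactSupport hcs
  refine ⟨ν, hνc, hν0, ?_, ?_⟩
  · intro x
    have h1 : ‖ν x‖ ≤ ∫ y : Fin m → ℝ, A * ((1 + ‖y‖) ^ (m + 1))⁻¹ :=
      norm_integral_le_of_norm_le ((pw_bnd_int m).const_mul A)
        (Eventually.of_forall fun y => pw_est0 K hne Γ A hb x y)
    rw [integral_const_mul] at h1
    linarith
  · -- Fourier inversion
    have hmp := PiLp.volume_preserving_toLp (Fin m)
    have hemb : MeasurableEmbedding (@WithLp.toLp 2 (Fin m → ℝ)) :=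
      (MeasurableEquiv.toLp 2 (Fin m → ℝ)).measurableEmbedding
    set g : EuclideanSpace ℝ (Fin m) → ℂ := fun v =>
      Γ (((2 * Real.pi : ℝ) : ℂ) • (fun j => I * (v j : ℂ))) with hg
    have hgc : Continuous g := by
      refine hΓ.continuous.comp ?_
      fun_prop
    have hpsi0 : ∀ w : Cn m, pwPsi Γ (0 : EuclideanSpace ℝ (Fin m)) w =
        Γ (((2 * Real.pi : ℝ) : ℂ) • w) := by
      intro w
      unfold pwPsi
      simp
    have hgi : Integrable g := by
      rw [← hmp.integrable_comp_emb hemb]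
      refine Integrable.mono' ((pw_bnd_int m).const_mul A) ?_ ?_
      · exact (hgc.comp (by fun_prop)).aestronglyMeasurable
      · refine Eventually.of_forall fun y => ?_
        have h1 := pw_est0 K hne Γ A hb 0 y
        rw [hpsi0] at h1
        exact h1
    have hF : FourierTransform.fourier g = ν := by
      funext x
      rw [Real.fourier_eq']
      show _ = ∫ y : Fin m → ℝ, pwPsi Γ x (fun j => I * (y j : ℂ))
      rw [← hmp.integral_comp hemb]
      apply integral_congr_ae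
      refine Eventually.of_forall fun y => ?_
      show cexp (((-2 * Real.pi * inner ℝ (WithLp.toLp 2 y) x : ℝ) : ℂ) * I) •
        g (WithLp.toLp 2 y) = pwPsi Γ x (fun j => I * (y j : ℂ))
      unfold pwPsi
      rw [smul_eq_mul, mul_comm, hg]
      congr 2
      rw [pw_inner]
      push_cast
      rw [Finset.mul_sum, Finset.mul_sum, Finset.sum_mul, ← Finset.sum_neg_distrib]
      apply Finset.sum_congr rfl
      intro j _
      ring
    have hinv := hgc.fourierInv_fourier_eq hgi (by rw [hF]; exact hνi)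
    rw [hF] at hinv
    obtain ⟨R0, hR0⟩ := hK.isBounded.exists_norm_le
    have hR0' : 0 ≤ R0 := by
      obtain ⟨ξ, hξ⟩ := hne
      exact (norm_nonneg ξ).trans (hR0 ξ hξ)
    have hRd := pw_diff ν hνc R0 hR0' (fun x hx => hν0 x (fun hxK =>
      absurd (hR0 x hxK) (not_le.mpr hx))) hcs
    intro w
    have hfin := eq_of_imag (fun w => Γ w - ∫ x, ν x * cexp (∑ j, w j * (x j : ℂ)))
      (hΓ.sub hRd) (by
        intro y
        show Γ (fun j => I * (y j : ℂ)) -
          ∫ x, ν x * cexp (∑ j, (I * (y j : ℂ)) * (x j : ℂ)) = 0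
        rw [sub_eq_zero]
        have h1 := congrFun hinv (WithLp.toLp 2 (fun j => y j / (2 * Real.pi)))
        rw [Real.fourierInv_eq'] at h1
        have h2 : g (WithLp.toLp 2 (fun j => y j / (2 * Real.pi))) = Γ (fun j => I * (y j : ℂ)) := by
          rw [hg]
          show Γ (((2 * Real.pi : ℝ) : ℂ) • (fun j => I * ((y j / (2 * Real.pi) : ℝ) : ℂ))) = _
          congr 1
          funext j
          show ((2 * Real.pi : ℝ) : ℂ) * (I * ((y j / (2 * Real.pi) : ℝ) : ℂ)) = I * (y j : ℂ)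
          have hpi : (Real.pi : ℂ) ≠ 0 := by exact_mod_cast Real.pi_ne_zero
          push_cast
          field_simp
        rw [h2] at h1
        rw [← h1]
        apply integral_congr_ae
        refine Eventually.of_forall fun x => ?_
        show cexp (((2 * Real.pi *
          inner ℝ x (WithLp.toLp 2 (fun j => y j / (2 * Real.pi))) : ℝ) : ℂ) * I) • ν x =
          ν x * cexp (∑ j, (I * (y j : ℂ)) * (x j : ℂ))
        rw [smul_eq_mul, mul_comm]
        congr 2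
        rw [pw_inner, Finset.mul_sum]
        push_cast
        rw [Finset.sum_mul]
        apply Finset.sum_congr rfl
        intro j _
        have hpi : (Real.pi : ℂ) ≠ 0 := by exact_mod_cast Real.pi_ne_zero
        field_simp) w
    exact sub_eq_zero.mp hfin

end J_pw

alias pw := J_pw.pw

namespace J_spf_props

theorem spf_props_bdd {m : ℕ} (K : Set (EuclideanSpace ℝ (Fin m))) (hK : IsCompact K)
    (x : EuclideanSpace ℝ (Fin m)) : BddAbove ((fun ξ => inner ℝ x ξ) '' K) :=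
  (hK.image (continuous_const.inner continuous_id)).bddAbove

theorem spf_props_le {m : ℕ} (K : Set (EuclideanSpace ℝ (Fin m))) (hK : IsCompact K)
    (x ξ : EuclideanSpace ℝ (Fin m)) (hξ : ξ ∈ K) : inner ℝ x ξ ≤ spf K x :=
  le_csSup (spf_props_bdd K hK x) ⟨ξ, hξ, rfl⟩

theorem spf_props_sup {m : ℕ} (K : Set (EuclideanSpace ℝ (Fin m))) (hne : K.Nonempty)
    (x : EuclideanSpace ℝ (Fin m)) (c : ℝ) (h : ∀ ξ ∈ K, inner ℝ x ξ ≤ c) : spf K x ≤ c := by
  refine csSup_le (hne.image _) ?_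
  rintro _ ⟨ξ, hξ, rfl⟩
  exact h ξ hξ

/-- properties of the support function -/
theorem spf_props {m : ℕ} (K : Set (EuclideanSpace ℝ (Fin m))) (hK : IsCompact K)
    (hne : K.Nonempty) : ConvexOn ℝ univ (spf K) ∧ (∃ B : NNReal, LipschitzWith B (spf K)) ∧
    (∀ x, ∀ ξ ∈ K, inner ℝ x ξ ≤ spf K x) ∧
    (∀ x, ∀ δ : ℝ, 0 ≤ δ → spf (Metric.cthickening δ K) x = spf K x + δ * ‖x‖) := by
  have hle := spf_props_le K hK
  refine ⟨⟨convex_univ, ?_⟩, ?_, hle, ?_⟩
  · intro x _ y _ a b ha hb _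
    refine spf_props_sup K hne _ _ fun ξ hξ => ?_
    rw [inner_add_left, real_inner_smul_left, real_inner_smul_left]
    exact add_le_add (mul_le_mul_of_nonneg_left (hle x ξ hξ) ha)
      (mul_le_mul_of_nonneg_left (hle y ξ hξ) hb)
  · obtain ⟨R, hR⟩ := hK.isBounded.exists_norm_le
    refine ⟨⟨max R 0, le_max_right _ _⟩, LipschitzWith.of_le_add_mul _ fun x y => ?_⟩
    refine spf_props_sup K hne _ _ fun ξ hξ => ?_
    have h1 : inner ℝ x ξ = inner ℝ y ξ + inner ℝ (x - y) ξ := by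
      rw [inner_sub_left]; ring
    have h2 : inner ℝ (x - y) ξ ≤ ‖x - y‖ * ‖ξ‖ := real_inner_le_norm _ _
    have h3 : ‖x - y‖ * ‖ξ‖ ≤ ‖x - y‖ * max R 0 :=
      mul_le_mul_of_nonneg_left ((hR ξ hξ).trans (le_max_left _ _)) (norm_nonneg _)
    have h4 := hle y ξ hξ
    rw [h1, dist_eq_norm]
    show inner ℝ y ξ + inner ℝ (x - y) ξ ≤ spf K y + max R 0 * ‖x - y‖
    linarith
  · intro x δ hδ
    have hcc : IsCompact (Metric.cthickening δ K) := hK.cthickening
    have hne' : (Metric.cthickening δ K).Nonempty := hne.mono (Metric.self_subset_cthickening K)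
    have hsum := (hK.add_closedBall_zero hδ).symm
    refine le_antisymm ?_ ?_
    · refine spf_props_sup _ hne' _ _ fun z hz => ?_
      rw [hsum] at hz
      obtain ⟨ξ, hξ, η, hη, rfl⟩ := Set.mem_add.1 hz
      have h1 : ‖η‖ ≤ δ := by simpa using hη
      have h2 : inner ℝ x η ≤ ‖x‖ * ‖η‖ := real_inner_le_norm _ _
      have h3 : ‖x‖ * ‖η‖ ≤ ‖x‖ * δ := mul_le_mul_of_nonneg_left h1 (norm_nonneg _)
      rw [inner_add_right]
      have h4 := hle x ξ hξ
      linarith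
    · have key : ∃ η : EuclideanSpace ℝ (Fin m), ‖η‖ ≤ δ ∧ inner ℝ x η = δ * ‖x‖ := by
        by_cases hx : x = 0
        · exact ⟨0, by rw [norm_zero]; exact hδ, by rw [hx, inner_zero_left, norm_zero, mul_zero]⟩
        · have hx0 : 0 < ‖x‖ := norm_pos_iff.2 hx
          refine ⟨(δ / ‖x‖) • x, ?_, ?_⟩
          · rw [norm_smul, Real.norm_eq_abs, abs_of_nonneg (div_nonneg hδ hx0.le),
              div_mul_cancel₀ _ hx0.ne']
          · rw [real_inner_smul_right, real_inner_self_eq_norm_sq]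
            field_simp
      obtain ⟨η, hη, hxη⟩ := key
      have h1 : spf K x ≤ spf (Metric.cthickening δ K) x - δ * ‖x‖ := by
        refine spf_props_sup K hne _ _ fun ξ hξ => ?_
        have h2 : ξ + η ∈ Metric.cthickening δ K := by
          rw [hsum]
          exact Set.add_mem_add hξ (by simpa using hη)
        have h3 := spf_props_le _ hcc x (ξ + η) h2
        rw [inner_add_right, hxη] at h3
        linarith
      linarith

end J_spf_props

alias spf_props := J_spf_props.spf_props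

end Pool.Agent.Helper192.Syn
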