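import Pool.Agent.Helper192.Syn.B1
import Pool.Agent.Helper192.Syn.B2

/-! Polya-Ehrenpreis-Martineau theorem -/

set_option linter.all false

open MeasureTheory Set Filter Topology Complex
open scoped BigOperators ContDiff ComplexConjugate

namespace Pool.Agent.Helper192.Syn

namespace J_pem

/-- Polya-Ehrenpreis-Martineau theorem, quantitative form -/
theorem pem (n : ℕ) (K : Set (EuclideanSpace ℝ (Fin (n + n)))) (hK : IsCompact K)
    (hc : Convex ℝ K) (hne : K.Nonempty) (δ : ℝ) (hδ : 0 < δ) :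
    ∃ C : ℝ, 0 ≤ C ∧ ∀ (F : Cn n → ℂ) (A : ℝ), Differentiable ℂ F →
    (∀ z, ‖F z‖ ≤ A * Real.exp (spf K (reE (Jm z)))) →
    ∃ ν : EuclideanSpace ℝ (Fin (n + n)) → ℂ, Continuous ν ∧
      (∀ x, x ∉ Metric.cthickening δ K → ν x = 0) ∧ (∀ x, ‖ν x‖ ≤ C * A) ∧
      ∀ z, F z = ∫ x, ν x * Complex.exp (∑ j, z j * io x j) := by
  obtain ⟨hconv, ⟨B, hB⟩, hle, hct⟩ := spf_props K hK hne
  obtain ⟨C1, N, hC1, hext⟩ := extJ n B
  obtain ⟨κ, C2, hκd, hκJ, hκb⟩ := kappa n δ hδ (N + (n + n + 1))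
  obtain ⟨C3, hC3, hpw⟩ := pw (n + n)
  refine ⟨C3 * (C1 * |C2|), by positivity, ?_⟩
  intro F A hF hFA
  have hA : 0 ≤ A := by
    have h0 := (norm_nonneg _).trans (hFA 0)
    exact nonneg_of_mul_nonneg_left h0 (Real.exp_pos _)
  obtain ⟨G, hGd, hGJ, hGb⟩ := hext (spf K) hconv hB F A hF hFA
  obtain ⟨ν, hν1, hν2, hν3, hν4⟩ := hpw (Metric.cthickening δ K) hK.cthickening (hc.cthickening δ)
    (hne.mono (Metric.self_subset_cthickening K)) (fun w => G w * κ w) (C1 * A * |C2|)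
    (hGd.mul hκd) (by
      intro w
      rw [norm_mul, hct _ δ hδ.le, Real.exp_add]
      have e1 := hGb w
      have e2 := hκb w
      have e3 : C2 ≤ |C2| := le_abs_self _
      calc ‖G w‖ * ‖κ w‖ * (1 + ‖w‖) ^ (n + n + 1)
          ≤ (C1 * A * (1 + ‖w‖) ^ N * Real.exp (spf K (reE w))) * ‖κ w‖ *
            (1 + ‖w‖) ^ (n + n + 1) := by gcongr
        _ = (C1 * A * Real.exp (spf K (reE w))) * (‖κ w‖ * (1 + ‖w‖) ^ (N + (n + n + 1))) := by
            rw [pow_add]; ring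
        _ ≤ (C1 * A * Real.exp (spf K (reE w))) * (|C2| * Real.exp (δ * ‖reE w‖)) := by
            refine mul_le_mul_of_nonneg_left (e2.trans ?_) (by positivity)
            exact mul_le_mul_of_nonneg_right e3 (Real.exp_pos _).le
        _ = C1 * A * |C2| * (Real.exp (spf K (reE w)) * Real.exp (δ * ‖reE w‖)) := by ring)
  refine ⟨ν, hν1, hν2, ?_, ?_⟩
  · intro x
    refine (hν3 x).trans (le_of_eq ?_)
    ring
  · intro z
    have h1 := hν4 (Jm z)
    simp only [hGJ, hκJ, mul_one] at h1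
    rw [h1]
    refine integral_congr_ae (Filter.Eventually.of_forall fun x => ?_)
    have h2 : ∑ j, Jm z j * (x j : ℂ) = ∑ j, z j * io x j := by
      rw [Fin.sum_univ_add, ← Finset.sum_add_distrib]
      refine Finset.sum_congr rfl fun j _ => ?_
      unfold Jm ap io
      rw [Fin.append_left, Fin.append_right, Pi.smul_apply, smul_eq_mul]
      ring
    simp only [h2]

end J_pem

alias pem := J_pem.pem

end Pool.Agent.Helper192.Syn
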