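import Pool.Agent.Helper192.Syn.DefsC
import Pool.Agent.Helper192.Syn.B2

/-! analytic functionals -/

set_option linter.all false

open MeasureTheory Set Filter Topology Complex
open scoped BigOperators ContDiff ComplexConjugate

namespace Pool.Agent.Helper192.Syn

namespace J_cont_bound

/-- continuity of an analytic functional -/
theorem cont_bound {n : ℕ} {Ω : Set (Cn n)} (T : Hol Ω →L[ℂ] ℂ) :
    ∃ (K : Set (Cn n)) (C : ℝ), IsCompact K ∧ K ⊆ Ω ∧ 0 ≤ C ∧ ∀ (f : Hol Ω) (M : ℝ), 0 ≤ M →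
      (∀ (ξ : Cn n) (hξ : ξ ∈ Ω), ξ ∈ K → ‖f.at ⟨ξ, hξ⟩‖ ≤ M) → ‖T f‖ ≤ C * M := by
  -- a neighbourhood of zero mapped into the unit ball
  have hcont : Continuous (fun f : Hol Ω => T f) := T.continuous
  have hU : (fun f : Hol Ω => T f) ⁻¹' Metric.ball 0 1 ∈ 𝓝 (0 : Hol Ω) := by
    apply hcont.continuousAt.preimage_mem_nhds
    rw [map_zero]
    exact Metric.ball_mem_nhds _ one_pos
  have hind : 𝓝 (0 : Hol Ω) = Filter.comap (fun f : Hol Ω => (Subtype.val f : C(Ω, ℂ))) (𝓝 (0 : C(Ω, ℂ))) :=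
    nhds_induced _ _
  rw [hind, Filter.mem_comap] at hU
  obtain ⟨V, hV, hVU⟩ := hU
  have hb := nhds_basis_uniformity' (ContinuousMap.hasBasis_compactConvergenceUniformity
    (α := Ω) (β := ℂ)) (x := (0 : C(Ω, ℂ)))
  obtain ⟨⟨K', W⟩, ⟨hK', hW⟩, hKW⟩ := hb.mem_iff.1 hV
  obtain ⟨ε, hε, hεW⟩ := Metric.mem_uniformity_dist.1 hW
  refine ⟨Subtype.val '' K', 2 / ε, hK'.image continuous_subtype_val, ?_, by positivity, ?_⟩
  · rintro _ ⟨x, _, rfl⟩
    exact x.2
  · intro f M hM hf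
    have key : ∀ t : ℝ, 0 < t → ‖T f‖ ≤ 2 / ε * M + 2 / ε * t := by
      intro t ht
      have hs : 0 < M + t := by linarith
      set r : ℝ := ε / 2 / (M + t) with hr
      have hr0 : 0 < r := by positivity
      have hmem : (r : ℂ) • f ∈ (fun f : Hol Ω => (Subtype.val f : C(Ω, ℂ))) ⁻¹' V := by
        apply hKW
        intro x hx
        apply hεW
        show dist ((0 : C(Ω, ℂ)) x) (((r : ℂ) • (Subtype.val f : C(Ω, ℂ))) x) < ε
        rw [ContinuousMap.zero_apply, dist_zero_left, ContinuousMap.smul_apply, norm_smul,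
          Complex.norm_real, Real.norm_eq_abs, abs_of_pos hr0]
        have h1 : ‖(Subtype.val f : C(Ω, ℂ)) x‖ ≤ M := hf x.1 x.2 ⟨x, hx, rfl⟩
        calc r * ‖(Subtype.val f : C(Ω, ℂ)) x‖ ≤ r * (M + t) := by
              apply mul_le_mul_of_nonneg_left _ hr0.le
              linarith
          _ = ε / 2 := by rw [hr]; field_simp
          _ < ε := by linarith
      have h2 := hVU hmem
      have h3 : ‖T ((r : ℂ) • f)‖ < 1 := by
        have : T ((r : ℂ) • f) ∈ Metric.ball (0 : ℂ) 1 := h2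
        rwa [mem_ball_zero_iff] at this
      rw [map_smul, norm_smul, Complex.norm_real, Real.norm_eq_abs, abs_of_pos hr0] at h3
      have h4 : ‖T f‖ < 1 / r := by
        rw [lt_div_iff₀ hr0]; linarith
      have h5 : 1 / r = 2 / ε * M + 2 / ε * t := by
        rw [hr]; field_simp
      linarith
    apply le_of_forall_pos_le_add
    intro δ hδ
    have h6 := key (δ * ε / 2) (by positivity)
    have h7 : 2 / ε * (δ * ε / 2) = δ := by field_simp
    linarith

end J_cont_bound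

alias cont_bound := J_cont_bound.cont_bound

namespace J_exists_functional

theorem exists_functional_io {n : ℕ} :
    Continuous (io : EuclideanSpace ℝ (Fin (n + n)) → Cn n) := by
  unfold io
  fun_prop

theorem exists_functional_L1 {n : ℕ}
    (ν : EuclideanSpace ℝ (Fin (n + n)) → ℂ) (hν : Continuous ν) (D : ℝ) (hD : ∀ x, ‖ν x‖ ≤ D)
    (S : Set (EuclideanSpace ℝ (Fin (n + n)))) (hS : IsCompact S) :
    ∃ L : C(S, ℂ) →ₗ[ℂ] ℂ, Continuous L ∧ (∀ g : C(S, ℂ), L g = ∫ x : S, ν x * g x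
      ∂(Measure.comap Subtype.val volume)) ∧
      ∀ (g : C(S, ℂ)) (M : ℝ), 0 ≤ M → (∀ x, ‖g x‖ ≤ M) → ‖L g‖ ≤ (volume S).toReal * D * M := by
  haveI : CompactSpace S := isCompact_iff_compactSpace.1 hS
  set μ : Measure S := Measure.comap Subtype.val volume with hμ
  have huniv : μ Set.univ = volume S := by
    rw [hμ, comap_subtype_coe_apply hS.measurableSet]
    simp
  haveI : IsFiniteMeasure μ := ⟨by rw [huniv]; exact hS.measure_lt_top⟩
  have hint : ∀ g : C(S, ℂ), Integrable (fun x : S => ν x * g x) μ := by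
    intro g
    exact Continuous.integrable_of_hasCompactSupport (by fun_prop)
      (HasCompactSupport.of_compactSpace _)
  let L : C(S, ℂ) →ₗ[ℂ] ℂ :=
    { toFun := fun g => ∫ x : S, ν x * g x ∂μ
      map_add' := by
        intro g h
        rw [← integral_add (hint g) (hint h)]
        refine integral_congr_ae (Eventually.of_forall fun x => ?_)
        simp only [ContinuousMap.add_apply]
        ring
      map_smul' := by
        intro c g
        simp only [RingHom.id_apply, smul_eq_mul]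
        rw [← integral_const_mul]
        refine integral_congr_ae (Eventually.of_forall fun x => ?_)
        simp only [ContinuousMap.smul_apply, smul_eq_mul]
        ring }
  have hL : ∀ g : C(S, ℂ), L g = ∫ x : S, ν x * g x ∂μ := fun g => rfl
  have hbd : ∀ (g : C(S, ℂ)) (M : ℝ), 0 ≤ M → (∀ x, ‖g x‖ ≤ M) →
      ‖L g‖ ≤ (volume S).toReal * D * M := by
    intro g M hM hg
    rw [hL]
    have h1 : ‖∫ x : S, ν x * g x ∂μ‖ ≤ (D * M) * μ.real Set.univ := by
      refine norm_integral_le_of_norm_le_const (Eventually.of_forall fun x => ?_)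
      rw [norm_mul]
      exact mul_le_mul (hD _) (hg x) (norm_nonneg _) ((norm_nonneg _).trans (hD x))
    rw [Measure.real, huniv] at h1
    linarith
  refine ⟨L, ?_, hL, hbd⟩
  refine AddMonoidHomClass.continuous_of_bound L ((volume S).toReal * D) ?_
  intro g
  exact hbd g ‖g‖ (norm_nonneg _) (fun x => g.norm_coe_le_norm x)

/-- functionals given by densities -/
theorem exists_functional {n : ℕ} {Ω : Set (Cn n)} (hΩ : IsOpen Ω)
    (ν : EuclideanSpace ℝ (Fin (n + n)) → ℂ) (hν : Continuous ν) (D : ℝ) (hD : ∀ x, ‖ν x‖ ≤ D)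
    (S : Set (EuclideanSpace ℝ (Fin (n + n)))) (hS : IsCompact S) (hSΩ : ∀ x ∈ S, io x ∈ Ω)
    (h0 : ∀ x, x ∉ S → ν x = 0) :
    ∃ L : Hol Ω →L[ℂ] ℂ, (∀ z, L (expF Ω z) = ∫ x, ν x * Complex.exp (∑ j, z j * io x j)) ∧
      ∀ (f : Hol Ω) (M : ℝ), 0 ≤ M →
        (∀ (ξ : Cn n) (hξ : ξ ∈ Ω), ξ ∈ io '' S → ‖f.at ⟨ξ, hξ⟩‖ ≤ M) →
        ‖L f‖ ≤ (volume S).toReal * D * M := by
  obtain ⟨L1, hLc, hL, hbd⟩ := exists_functional_L1 ν hν D hD S hS
  have hκc : Continuous (fun x : S => (⟨io (x : EuclideanSpace ℝ (Fin (n + n))), hSΩ x x.2⟩ : Ω)) :=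
    Continuous.subtype_mk (exists_functional_io.comp continuous_subtype_val) _
  let κ : C(S, Ω) := ⟨_, hκc⟩
  have hκ : ∀ x : S, κ x = ⟨io (x : EuclideanSpace ℝ (Fin (n + n))), hSΩ x x.2⟩ := fun x => rfl
  let L : Hol Ω →L[ℂ] ℂ :=
    { toFun := fun f => L1 ((Subtype.val f : C(Ω, ℂ)).comp κ)
      map_add' := by
        intro f g
        have h1 : (Subtype.val (f + g) : C(Ω, ℂ)).comp κ =
            (Subtype.val f : C(Ω, ℂ)).comp κ + (Subtype.val g : C(Ω, ℂ)).comp κ := rfl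
        rw [h1, map_add]
      map_smul' := by
        intro c f
        have h1 : (Subtype.val (c • f) : C(Ω, ℂ)).comp κ =
            c • (Subtype.val f : C(Ω, ℂ)).comp κ := rfl
        rw [h1, map_smul]
        rfl
      cont := hLc.comp ((ContinuousMap.continuous_precomp κ).comp continuous_subtype_val) }
  have hLd : ∀ f : Hol Ω, L f = L1 ((Subtype.val f : C(Ω, ℂ)).comp κ) := fun f => rfl
  refine ⟨L, ?_, ?_⟩
  · intro z
    rw [hLd, hL]
    have h1 : ∀ x : S, ν x * ((Subtype.val (expF Ω z) : C(Ω, ℂ)).comp κ) x =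
        (fun y : EuclideanSpace ℝ (Fin (n + n)) => ν y * Complex.exp (∑ j, z j * io y j)) x :=
      fun x => rfl
    simp only [h1]
    rw [integral_subtype_comap hS.measurableSet
      (fun y : EuclideanSpace ℝ (Fin (n + n)) => ν y * Complex.exp (∑ j, z j * io y j))]
    refine setIntegral_eq_integral_of_forall_compl_eq_zero ?_
    intro x hx
    rw [h0 x hx, zero_mul]
  · intro f M hM hf
    rw [hLd]
    refine hbd _ M hM ?_
    intro x
    exact hf (io (x : EuclideanSpace ℝ (Fin (n + n)))) (hSΩ x x.2) ⟨x, x.2, rfl⟩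

end J_exists_functional

alias exists_functional := J_exists_functional.exists_functional

namespace J_tendsto_of_bound

/-- convergence in the strong dual -/
theorem tendsto_of_bound {n : ℕ} {Ω : Set (Cn n)} (U : ℕ → Hol Ω →L[ℂ] ℂ) (T : Hol Ω →L[ℂ] ℂ)
    (K : Set (Cn n)) (hK : IsCompact K) (hKΩ : K ⊆ Ω) (δ : ℕ → ℝ) (hδ : Tendsto δ atTop (𝓝 0))
    (h : ∀ k (f : Hol Ω) (M : ℝ), 0 ≤ M → (∀ (ξ : Cn n) (hξ : ξ ∈ Ω), ξ ∈ K → ‖f.at ⟨ξ, hξ⟩‖ ≤ M) →
      ‖U k f - T f‖ ≤ δ k * M) : Tendsto U atTop (𝓝 T) := by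
  rw [← tendsto_sub_nhds_zero_iff]
  rw [(ContinuousLinearMap.hasBasis_nhds_zero_of_basis Metric.nhds_basis_ball).tendsto_right_iff]
  rintro ⟨S, ε⟩ ⟨hS, hε⟩
  -- the neighbourhood of zero
  let K' : Set Ω := Subtype.val ⁻¹' K
  have hK' : IsCompact K' := by
    refine (Topology.IsInducing.subtypeVal.isCompact_preimage_iff ?_).2 hK
    rw [Subtype.range_coe]
    exact hKΩ
  have hN : {f : Hol Ω | MapsTo (Subtype.val f : C(Ω, ℂ)) K' (Metric.ball 0 1)} ∈ 𝓝 (0 : Hol Ω) := by
    have h1 : IsOpen {g : C(Ω, ℂ) | MapsTo g K' (Metric.ball 0 1)} :=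
      ContinuousMap.isOpen_setOfPred_mapsTo hK' Metric.isOpen_ball
    have h2 : Continuous (Subtype.val : Hol Ω → C(Ω, ℂ)) := continuous_subtype_val
    refine (h1.preimage h2).mem_nhds ?_
    intro x _
    show (0 : ℂ) ∈ Metric.ball (0 : ℂ) 1
    simp
  obtain ⟨r, hr, hr'⟩ := (hS hN).exists_pos
  have hr1 := hr' (r : ℂ) (by simp [abs_of_pos hr])
  have hb : ∀ f ∈ S, ∀ (ξ : Cn n) (hξ : ξ ∈ Ω), ξ ∈ K → ‖f.at ⟨ξ, hξ⟩‖ ≤ r := by
    intro f hf ξ hξ hξK
    obtain ⟨g, hg, rfl⟩ := hr1 hf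
    have h3 : ‖(Subtype.val g : C(Ω, ℂ)) ⟨ξ, hξ⟩‖ < 1 := by
      have := hg (show (⟨ξ, hξ⟩ : Ω) ∈ K' from hξK)
      simpa using this
    show ‖(r : ℂ) * (Subtype.val g : C(Ω, ℂ)) ⟨ξ, hξ⟩‖ ≤ r
    rw [norm_mul, Complex.norm_real, Real.norm_eq_abs, abs_of_pos hr]
    nlinarith
  have hlim : Tendsto (fun k => δ k * r) atTop (𝓝 0) := by
    simpa using hδ.mul_const r
  filter_upwards [hlim.eventually_lt_const hε] with k hk
  intro f hf
  have h4 := h k f r hr.le (hb f hf)
  show (U k - T) f ∈ Metric.ball 0 ε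
  rw [mem_ball_zero_iff]
  exact lt_of_le_of_lt h4 hk

end J_tendsto_of_bound

alias tendsto_of_bound := J_tendsto_of_bound.tendsto_of_bound

namespace J_laplace_entire

/-- the function `ξ ↦ ξ_j e^{(z, ξ)}` -/
noncomputable def gC192 {n : ℕ} (Ω : Set (Cn n)) (z : Cn n) (i : Fin n) : C(Ω, ℂ) :=
  ⟨fun ξ => ξ.1 i * Complex.exp (∑ j, z j * ξ.1 j), by
    refine ((continuous_apply i).comp continuous_subtype_val).mul
      (Complex.continuous_exp.comp (continuous_finsetSum _ fun j _ => ?_))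
    exact continuous_const.mul ((continuous_apply j).comp continuous_subtype_val)⟩

/-- the function `ξ ↦ ξ_j e^{(z, ξ)}` as an element of `H(Ω)` -/
noncomputable def gF192 {n : ℕ} (Ω : Set (Cn n)) (z : Cn n) (i : Fin n) : Hol Ω :=
  ⟨gC192 Ω z i, by
    have h : ∀ w ∈ Ω, ext0 (gC192 Ω z i) w = w i * Complex.exp (∑ j, z j * w j) := by
      intro w hw
      simp [ext0, hw, gC192]
    change DifferentiableOn ℂ _ Ω
    refine DifferentiableOn.congr ?_ h
    fun_prop⟩

theorem at_add192 {n : ℕ} {Ω : Set (Cn n)} (f g : Hol Ω) (ξ : Ω) :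
    (f + g).at ξ = f.at ξ + g.at ξ := rfl

theorem at_sub192 {n : ℕ} {Ω : Set (Cn n)} (f g : Hol Ω) (ξ : Ω) :
    (f - g).at ξ = f.at ξ - g.at ξ := rfl

theorem at_smul192 {n : ℕ} {Ω : Set (Cn n)} (c : ℂ) (g : Hol Ω) (ξ : Ω) :
    (c • g).at ξ = c * g.at ξ := rfl

theorem at_zero192 {n : ℕ} {Ω : Set (Cn n)} (ξ : Ω) :
    (0 : Hol Ω).at ξ = 0 := rfl

theorem at_sum192 {n : ℕ} {Ω : Set (Cn n)} {ι : Type} (s : Finset ι) (g : ι → Hol Ω) (ξ : Ω) :
    (∑ i ∈ s, g i).at ξ = ∑ i ∈ s, (g i).at ξ := by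
  classical
  induction s using Finset.induction_on with
  | empty => simp [at_zero192]
  | insert a s ha ih => rw [Finset.sum_insert ha, Finset.sum_insert ha, at_add192, ih]

/-- the Laplace transform is entire -/
theorem laplace_entire {n : ℕ} {Ω : Set (Cn n)} (T : Hol Ω →L[ℂ] ℂ) :
    Differentiable ℂ (laplace T) := by
  obtain ⟨K, C, hK, hKΩ, hC, hb⟩ := cont_bound T
  obtain ⟨R, hR⟩ := hK.isBounded.exists_norm_le
  set R' : ℝ := max R 0 with hR'
  have hR0 : 0 ≤ R' := le_max_right _ _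
  have hRK : ∀ ξ ∈ K, ‖ξ‖ ≤ R' := fun ξ hξ => (hR ξ hξ).trans (le_max_left _ _)
  have hpair : ∀ (z ξ : Cn n), ξ ∈ K → ‖∑ j, z j * ξ j‖ ≤ n * (‖z‖ * R') := by
    intro z ξ hξ
    calc ‖∑ j, z j * ξ j‖ ≤ ∑ j : Fin n, ‖z j * ξ j‖ := norm_sum_le _ _
      _ ≤ ∑ j : Fin n, ‖z‖ * R' := by
          apply Finset.sum_le_sum
          intro j _
          rw [norm_mul]
          exact mul_le_mul (norm_le_pi_norm z j) ((norm_le_pi_norm ξ j).trans (hRK ξ hξ))
            (norm_nonneg _) (norm_nonneg _)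
      _ = n * (‖z‖ * R') := by simp
  intro z
  set L : Cn n →L[ℂ] ℂ := ∑ j, (T (gF192 Ω z j)) • (ContinuousLinearMap.proj j : Cn n →L[ℂ] ℂ)
    with hL
  have hLa : ∀ h : Cn n, L h = ∑ j, h j * T (gF192 Ω z j) := by
    intro h
    rw [hL, ContinuousLinearMap.sum_apply]
    apply Finset.sum_congr rfl
    intro j _
    simp [mul_comm]
  have hmain : ∀ h : Cn n, n * (‖h‖ * R') ≤ 1 →
      ‖laplace T (z + h) - laplace T z - L h‖ ≤
        C * (Real.exp (n * (‖z‖ * R')) * (n * (‖h‖ * R')) ^ 2) := by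
    intro h hh
    have e1 : laplace T (z + h) - laplace T z - L h =
        T (expF Ω (z + h) - expF Ω z - ∑ j, h j • gF192 Ω z j) := by
      rw [map_sub, map_sub, map_sum, hLa]
      simp only [map_smul, smul_eq_mul]
      rfl
    rw [e1]
    apply hb _ _ (by positivity)
    intro ξ hξ hξK
    have e2 : (expF Ω (z + h) - expF Ω z - ∑ j, h j • gF192 Ω z j).at ⟨ξ, hξ⟩ =
        Complex.exp (∑ j, z j * ξ j) *
          (Complex.exp (∑ j, h j * ξ j) - 1 - ∑ j, h j * ξ j) := by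
      rw [at_sub192, at_sub192, at_sum192]
      have e3 : (expF Ω (z + h)).at ⟨ξ, hξ⟩ = Complex.exp (∑ j, (z + h) j * ξ j) := rfl
      have e4 : (expF Ω z).at ⟨ξ, hξ⟩ = Complex.exp (∑ j, z j * ξ j) := rfl
      have e5 : ∀ j, (h j • gF192 Ω z j).at ⟨ξ, hξ⟩ =
          h j * (ξ j * Complex.exp (∑ j, z j * ξ j)) := fun j => rfl
      rw [e3, e4]
      simp only [e5]
      have e6 : ∑ j, (z + h) j * ξ j = ∑ j, z j * ξ j + ∑ j, h j * ξ j := by
        rw [← Finset.sum_add_distrib]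
        apply Finset.sum_congr rfl
        intro j _
        simp only [Pi.add_apply]
        ring
      rw [e6, Complex.exp_add]
      have e7 : ∑ j, h j * (ξ j * Complex.exp (∑ j, z j * ξ j)) =
          (∑ j, h j * ξ j) * Complex.exp (∑ j, z j * ξ j) := by
        rw [Finset.sum_mul]
        apply Finset.sum_congr rfl
        intro j _
        ring
      rw [e7]
      ring
    rw [e2, norm_mul]
    have b1 : ‖Complex.exp (∑ j, z j * ξ j)‖ ≤ Real.exp (n * (‖z‖ * R')) := by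
      rw [Complex.norm_exp]
      apply Real.exp_le_exp.2
      exact (Complex.re_le_norm _).trans (hpair z ξ hξK)
    have b2 := hpair h ξ hξK
    have b3 : ‖Complex.exp (∑ j, h j * ξ j) - 1 - ∑ j, h j * ξ j‖ ≤ ‖∑ j, h j * ξ j‖ ^ 2 :=
      Complex.norm_exp_sub_one_sub_id_le (b2.trans hh)
    have b4 : ‖∑ j, h j * ξ j‖ ^ 2 ≤ (n * (‖h‖ * R')) ^ 2 :=
      pow_le_pow_left₀ (norm_nonneg _) b2 2
    exact mul_le_mul b1 (b3.trans b4) (norm_nonneg _) (Real.exp_pos _).le
  have hd : HasFDerivAt (laplace T) L z := by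
    rw [hasFDerivAt_iff_isLittleO_nhds_zero]
    have hlo : (fun h : Cn n => ‖h‖ ^ 2) =o[𝓝 0] (fun h : Cn n => h) :=
      Asymptotics.isLittleO_norm_pow_id one_lt_two
    refine Asymptotics.IsBigO.trans_isLittleO ?_ hlo
    apply Asymptotics.IsBigO.of_bound (C * (Real.exp (n * (‖z‖ * R')) * (n * R') ^ 2))
    have hev : ∀ᶠ h : Cn n in 𝓝 0, n * (‖h‖ * R') < 1 := by
      have hc : Continuous (fun h : Cn n => (n : ℝ) * (‖h‖ * R')) := by fun_prop
      have := hc.tendsto 0
      simp only [norm_zero, zero_mul, mul_zero] at this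
      exact this.eventually (gt_mem_nhds zero_lt_one)
    filter_upwards [hev] with h hh
    refine (hmain h hh.le).trans (le_of_eq ?_)
    rw [norm_pow, norm_norm]
    ring
  exact hd.differentiableAt

end J_laplace_entire

alias laplace_entire := J_laplace_entire.laplace_entire

namespace J_laplace_bound

theorem isCompact_convexHull_of_isCompact {V : Type*} [NormedAddCommGroup V] [NormedSpace ℝ V]
    [FiniteDimensional ℝ V] {J : Set V} (hJ : IsCompact J) : IsCompact (convexHull ℝ J) := by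
  classical
  rcases J.eq_empty_or_nonempty with rfl | ⟨a, ha⟩
  · simp
  set d := Module.finrank ℝ V + 1 with hd
  set Φ : (Fin d → ℝ) × (Fin d → V) → V := fun p => ∑ i, p.1 i • p.2 i with hΦ
  have hcont : Continuous Φ := by
    fun_prop
  have hS : IsCompact ((stdSimplex ℝ (Fin d)) ×ˢ (Set.pi Set.univ (fun _ : Fin d => J))) :=
    (isCompact_stdSimplex ℝ (Fin d)).prod (isCompact_univ_pi (fun _ => hJ))
  have himg : convexHull ℝ J = Φ '' ((stdSimplex ℝ (Fin d)) ×ˢ (Set.pi Set.univ (fun _ : Fin d => J))) := by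
    apply Set.Subset.antisymm
    · intro x hx
      obtain ⟨ι, hι, z, w, hz, haff, hw, hw1, hx'⟩ := eq_pos_convex_span_of_mem_convexHull hx
      have hcard : Fintype.card ι ≤ Fintype.card (Fin d) := by
        rw [Fintype.card_fin]
        have h1 := haff.card_le_finrank_succ
        have h2 : Module.finrank ℝ (vectorSpan ℝ (Set.range z)) ≤ Module.finrank ℝ V :=
          Submodule.finrank_le _
        omega
      obtain ⟨e⟩ : Nonempty (ι ↪ Fin d) := Function.Embedding.nonempty_of_card_le hcard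
      refine ⟨(Function.extend e w 0, Function.extend e z (fun _ => a)), ⟨⟨?_, ?_⟩, ?_⟩, ?_⟩
      · intro j
        by_cases hj : ∃ i, e i = j
        · obtain ⟨i, rfl⟩ := hj
          simp only [e.injective.extend_apply]
          exact (hw i).le
        · simp [Function.extend_apply' _ _ _ hj]
      · rw [← hw1]
        symm
        apply Fintype.sum_of_injective e e.injective
        · intro j hj
          have : ¬ ∃ i, e i = j := by simpa using hj
          simp [Function.extend_apply' _ _ _ this]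
        · intro i
          simp [e.injective.extend_apply]
      · intro j _
        by_cases hj : ∃ i, e i = j
        · obtain ⟨i, rfl⟩ := hj
          simp only [e.injective.extend_apply]
          exact hz ⟨i, rfl⟩
        · simp only [Function.extend_apply' _ _ _ hj]
          exact ha
      · rw [← hx']
        symm
        apply Fintype.sum_of_injective e e.injective
        · intro j hj
          have : ¬ ∃ i, e i = j := by simpa using hj
          simp [Function.extend_apply' _ _ _ this]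
        · intro i
          simp [e.injective.extend_apply]
    · rintro x ⟨⟨w, z⟩, ⟨⟨hw0, hw1⟩, hz⟩, rfl⟩
      apply (convex_convexHull ℝ J).sum_mem (fun i _ => hw0 i) hw1
      intro i _
      exact subset_convexHull ℝ J (hz i (Set.mem_univ i))
  rw [himg]
  exact hS.image hcont

noncomputable def oi {n : ℕ} (ξ : Cn n) : EuclideanSpace ℝ (Fin (n + n)) :=
  WithLp.toLp 2 (Fin.append (fun j => (ξ j).re) (fun j => (ξ j).im))

theorem io_oi {n : ℕ} (ξ : Cn n) : io (oi ξ) = ξ := by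
  funext j
  unfold io oi
  simp only [Fin.append_left, Fin.append_right]
  rw [mul_comm]
  exact Complex.re_add_im (ξ j)

theorem oi_cont {n : ℕ} : Continuous (oi : Cn n → EuclideanSpace ℝ (Fin (n + n))) := by
  unfold oi
  refine (PiLp.continuous_toLp 2 _).comp ?_
  refine continuous_pi (fun i => ?_)
  refine Fin.addCases (fun j => ?_) (fun j => ?_) i
  · simp only [Fin.append_left]
    exact Complex.continuous_re.comp (continuous_apply j)
  · simp only [Fin.append_right]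
    exact Complex.continuous_im.comp (continuous_apply j)

theorem io_convex {n : ℕ} {Ω : Set (Cn n)} (hΩ : Convex ℝ Ω) :
    Convex ℝ {x : EuclideanSpace ℝ (Fin (n + n)) | io x ∈ Ω} := by
  intro x hx y hy a b ha hb hab
  have h := hΩ hx hy ha hb hab
  have e : io (a • x + b • y) = a • io x + b • io y := by
    funext j
    simp [io]
    ring
  show io (a • x + b • y) ∈ Ω
  rw [e]
  exact h

theorem inner_io {n : ℕ} (z : Cn n) (x : EuclideanSpace ℝ (Fin (n + n))) :
    (∑ j, z j * io x j).re = inner ℝ (reE (Jm z)) x := by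
  rw [PiLp.inner_apply, Fin.sum_univ_add, ← Finset.sum_add_distrib, Complex.re_sum]
  apply Finset.sum_congr rfl
  intro j _
  simp only [reE, Jm, ap, io, Fin.append_left, Fin.append_right]
  simp [-Fin.natAdd_eq_addNat]
  ring

/-- growth of the Laplace transforms of two functionals -/
theorem laplace_bound {n : ℕ} {Ω : Set (Cn n)} (hΩ : Convex ℝ Ω) (hne : Ω.Nonempty)
    (S T : Hol Ω →L[ℂ] ℂ) :
    ∃ (K : Set (EuclideanSpace ℝ (Fin (n + n)))) (A : ℝ), IsCompact K ∧ Convex ℝ K ∧ K.Nonempty ∧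
      (∀ x ∈ K, io x ∈ Ω) ∧ 0 ≤ A ∧
      (∀ z, ‖laplace S z‖ ≤ A * Real.exp (spf K (reE (Jm z)))) ∧
      (∀ z, ‖laplace T z‖ ≤ A * Real.exp (spf K (reE (Jm z)))) := by
  obtain ⟨K1, C1, hK1, hK1Ω, hC1, hS⟩ := cont_bound S
  obtain ⟨K2, C2, hK2, hK2Ω, hC2, hT⟩ := cont_bound T
  obtain ⟨p, hp⟩ := hne
  obtain ⟨K, hKdef⟩ : ∃ K : Set (EuclideanSpace ℝ (Fin (n + n))), K = convexHull ℝ (oi '' (K1 ∪ K2 ∪ {p})) :=
    ⟨_, rfl⟩
  have hsub : oi '' (K1 ∪ K2 ∪ {p}) ⊆ K := by rw [hKdef]; exact subset_convexHull ℝ _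
  have hKc : IsCompact K := by
    rw [hKdef]
    exact isCompact_convexHull_of_isCompact (((hK1.union hK2).union isCompact_singleton).image oi_cont)
  have hKne : K.Nonempty := ⟨oi p, hsub ⟨p, Or.inr rfl, rfl⟩⟩
  have hKΩ : ∀ x ∈ K, io x ∈ Ω := by
    have h1 : K ⊆ {x : EuclideanSpace ℝ (Fin (n + n)) | io x ∈ Ω} := by
      rw [hKdef]
      apply convexHull_min _ (io_convex hΩ)
      rintro _ ⟨ξ, hξ, rfl⟩
      show io (oi ξ) ∈ Ω
      rw [io_oi]
      rcases hξ with (hξ | hξ) | hξ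
      · exact hK1Ω hξ
      · exact hK2Ω hξ
      · rw [Set.mem_singleton_iff] at hξ
        rw [hξ]; exact hp
    exact h1
  have hspf := (spf_props K hKc hKne).2.2.1
  have hval : ∀ (z ξ : Cn n) (hξΩ : ξ ∈ Ω), ξ ∈ K1 ∪ K2 → ‖(expF Ω z).at ⟨ξ, hξΩ⟩‖ ≤ Real.exp (spf K (reE (Jm z))) := by
    intro z ξ hξΩ hξ
    have h1 : (expF Ω z).at ⟨ξ, hξΩ⟩ = Complex.exp (∑ j, z j * ξ j) := rfl
    rw [h1, Complex.norm_exp]
    apply Real.exp_le_exp.2
    have h2 := hspf (reE (Jm z)) (oi ξ) (hsub ⟨ξ, Or.inl hξ, rfl⟩)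
    rw [← inner_io, io_oi] at h2
    exact h2
  refine ⟨K, max C1 C2, hKc, ?_, hKne, hKΩ, le_max_of_le_left hC1, ?_, ?_⟩
  · rw [hKdef]; exact convex_convexHull ℝ _
  · intro z
    refine (hS (expF Ω z) (Real.exp (spf K (reE (Jm z)))) (Real.exp_pos _).le
      (fun ξ hξΩ hξ => hval z ξ hξΩ (Or.inl hξ))).trans ?_
    exact mul_le_mul_of_nonneg_right (le_max_left _ _) (Real.exp_pos _).le
  · intro z
    refine (hT (expF Ω z) (Real.exp (spf K (reE (Jm z)))) (Real.exp_pos _).le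
      (fun ξ hξΩ hξ => hval z ξ hξΩ (Or.inr hξ))).trans ?_
    exact mul_le_mul_of_nonneg_right (le_max_right _ _) (Real.exp_pos _).le

end J_laplace_bound

alias laplace_bound := J_laplace_bound.laplace_bound

end Pool.Agent.Helper192.Syn
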