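import Pool.Agent.Helper192.Syn.A3
import Pool.Agent.Helper192.Syn.B3
import Pool.Agent.Helper192.Syn.C1

/-! main theorem -/

set_option linter.all false

open MeasureTheory Set Filter Topology Complex
open scoped BigOperators ContDiff ComplexConjugate

namespace Pool.Agent.Helper192.Syn

namespace J_synthesis

theorem syn_norm {n : ℕ} (z : Cn n) : ‖reE (Jm z)‖ ^ 2 = nsq z := by
  rw [EuclideanSpace.norm_sq_eq, Fin.sum_univ_add, nsq, ← Finset.sum_add_distrib]
  refine Finset.sum_congr rfl fun j _ => ?_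
  simp only [reE, Jm, ap, Fin.append_left, Fin.append_right, Pi.smul_apply, smul_eq_mul,
    Complex.mul_re, Complex.I_re, Complex.I_im, zero_mul, one_mul, zero_sub, norm_neg,
    Real.norm_eq_abs, sq_abs]
  rw [Complex.sq_norm, Complex.normSq_apply]
  ring

theorem syn_sub {n : ℕ} (z w : Cn n) : reE (Jm z) - reE (Jm w) = reE (Jm (z - w)) := by
  ext j
  refine Fin.addCases (fun i => ?_) (fun i => ?_) j
  · simp [reE, Jm, ap]
  · simp only [reE, Jm, ap, Fin.append_right, PiLp.sub_apply, Pi.smul_apply, Pi.sub_apply,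
      smul_eq_mul, mul_sub, Complex.sub_re]

theorem syn_le1 {n : ℕ} (z : Cn n) : ‖z‖ ≤ ‖reE (Jm z)‖ := by
  rw [pi_norm_le_iff_of_nonneg (norm_nonneg _)]
  intro i
  have h1 : ‖z i‖ ^ 2 ≤ ‖reE (Jm z)‖ ^ 2 := by
    rw [syn_norm, nsq]
    exact Finset.single_le_sum (f := fun i => ‖z i‖ ^ 2) (fun j _ => by positivity)
      (Finset.mem_univ i)
  exact le_of_sq_le_sq h1 (norm_nonneg _)

theorem syn_le2 {n : ℕ} (z : Cn n) : ‖reE (Jm z)‖ ≤ (n : ℝ) * ‖z‖ := by
  have h1 : ‖reE (Jm z)‖ ^ 2 ≤ ((n : ℝ) * ‖z‖) ^ 2 := by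
    rw [syn_norm, nsq]
    have h2 : ∑ i : Fin n, ‖z i‖ ^ 2 ≤ ∑ i : Fin n, ‖z‖ ^ 2 := by
      refine Finset.sum_le_sum fun i _ => ?_
      have := norm_le_pi_norm z i
      gcongr
    refine h2.trans ?_
    rw [Finset.sum_const, Finset.card_univ, Fintype.card_fin, nsmul_eq_mul, mul_pow]
    rcases Nat.eq_zero_or_pos n with h0 | h0
    · subst h0; simp
    · have h3 : (1 : ℝ) ≤ n := by exact_mod_cast h0
      have h4 : (0 : ℝ) ≤ ‖z‖ ^ 2 := by positivity
      exact mul_le_mul_of_nonneg_right (by nlinarith) h4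
  exact le_of_sq_le_sq h1 (by positivity)

theorem syn_io {n : ℕ} : Continuous (io (n := n)) := by
  unfold io
  fun_prop

theorem syn_poly {n : ℕ} (p : MvPolynomial (Fin n) ℂ) :
    Differentiable ℂ fun z : Cn n => MvPolynomial.eval z p := by
  induction p using MvPolynomial.induction_on with
  | C a => simp
  | add p q hp hq =>
    simp only [map_add]
    exact hp.add hq
  | mul_X p i hp =>
    simp only [map_mul, MvPolynomial.eval_X]
    exact hp.mul (by fun_prop)

/-- main theorem: every quotient-divisible function is approximated by polynomial multiples -/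
theorem synthesis {n : ℕ} (Ω : Set (Cn n)) (hΩ : IsOpen Ω) (hc : Convex ℝ Ω) (hne : Ω.Nonempty)
    (S T : Hol Ω →L[ℂ] ℂ) (hS : ∃ z, laplace S z ≠ 0) (g : Cn n → ℂ) (hg : Differentiable ℂ g)
    (hgT : ∀ z, laplace T z = laplace S z * g z) :
    ∃ (P : ℕ → MvPolynomial (Fin n) ℂ) (U : ℕ → Hol Ω →L[ℂ] ℂ),
      (∀ k z, laplace (U k) z = laplace S z * MvPolynomial.eval z (P k)) ∧
      Tendsto U atTop (𝓝 T) := by
  obtain ⟨K, A, hKc, hKconv, hKne, hKΩ, hA0, hAS, hAT⟩ := laplace_bound hc hne S T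
  have hopen : IsOpen (io ⁻¹' Ω : Set (EuclideanSpace ℝ (Fin (n + n)))) := hΩ.preimage syn_io
  obtain ⟨δ, hδ, hδK⟩ := hKc.exists_cthickening_subset_open hopen (fun x hx => hKΩ x hx)
  obtain ⟨-, ⟨B, hB⟩, -, hth⟩ := spf_props K hKc hKne
  have hM : ∀ z w : Cn n, |spf K (reE (Jm z)) - spf K (reE (Jm w))| ≤ ((B : ℝ) * n) * ‖z - w‖ := by
    intro z w
    have h1 := hB.dist_le_mul (reE (Jm z)) (reE (Jm w))
    rw [Real.dist_eq, dist_eq_norm, syn_sub] at h1
    refine h1.trans ?_
    rw [mul_assoc]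
    exact mul_le_mul_of_nonneg_left (syn_le2 _) B.2
  obtain ⟨P, d, hd, hd0, hP⟩ := apx (laplace S) g (laplace_entire S) hg hS
    (fun z => spf K (reE (Jm z))) ((B : ℝ) * n) hM A hAS (by
      intro z
      rw [← hgT]
      exact hAT z) (δ / 2) (by linarith)
  have hδ2 : 0 < δ / 2 := by linarith
  have hK1c : IsCompact (Metric.cthickening (δ / 2) K) := hKc.cthickening
  have hK1conv : Convex ℝ (Metric.cthickening (δ / 2) K) := hKconv.cthickening _
  have hK1ne : (Metric.cthickening (δ / 2) K).Nonempty :=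
    hKne.mono (Metric.self_subset_cthickening K)
  obtain ⟨C, hC0, hC⟩ := pem n (Metric.cthickening (δ / 2) K) hK1c hK1conv hK1ne (δ / 2) hδ2
  have hF : ∀ k, ∃ ν : EuclideanSpace ℝ (Fin (n + n)) → ℂ, Continuous ν ∧
      (∀ x, x ∉ Metric.cthickening (δ / 2) (Metric.cthickening (δ / 2) K) → ν x = 0) ∧
      (∀ x, ‖ν x‖ ≤ C * d k) ∧
      ∀ z, laplace S z * (MvPolynomial.eval z (P k) - g z) =
        ∫ x, ν x * Complex.exp (∑ j, z j * io x j) := by
    intro k
    refine hC (fun z => laplace S z * (MvPolynomial.eval z (P k) - g z)) (d k) ?_ ?_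
    · exact (laplace_entire S).mul ((syn_poly (P k)).sub hg)
    · intro z
      refine (hP k z).trans ?_
      refine mul_le_mul_of_nonneg_left ?_ (hd0 k)
      apply Real.exp_le_exp.mpr
      rw [hth _ _ hδ2.le]
      have := syn_le1 z
      nlinarith
  choose ν hν1 hν2 hν3 hν4 using hF
  have hS'c : IsCompact (Metric.cthickening δ K) := hKc.cthickening
  have hL : ∀ k, ∃ L : Hol Ω →L[ℂ] ℂ,
      (∀ z, L (expF Ω z) = ∫ x, ν k x * Complex.exp (∑ j, z j * io x j)) ∧
      ∀ (f : Hol Ω) (M : ℝ), 0 ≤ M →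
        (∀ (ξ : Cn n) (hξ : ξ ∈ Ω), ξ ∈ io '' (Metric.cthickening δ K) → ‖f.at ⟨ξ, hξ⟩‖ ≤ M) →
        ‖L f‖ ≤ (volume (Metric.cthickening δ K)).toReal * (C * d k) * M := by
    intro k
    refine exists_functional hΩ (ν k) (hν1 k) (C * d k) (hν3 k) (Metric.cthickening δ K) hS'c
      (fun x hx => hδK hx) ?_
    intro x hx
    apply hν2 k x
    intro hx2
    apply hx
    have h1 := Metric.cthickening_cthickening_subset hδ2.le hδ2.le K hx2
    rwa [add_halves] at h1
  choose L hL1 hL2 using hL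
  refine ⟨P, fun k => T + L k, ?_, ?_⟩
  · intro k z
    have h1 : laplace (T + L k) z = laplace T z + L k (expF Ω z) := rfl
    rw [h1, hL1, ← hν4, hgT]
    ring
  · refine tendsto_of_bound (fun k => T + L k) T (io '' (Metric.cthickening δ K))
      (hS'c.image syn_io) ?_
      (fun k => (volume (Metric.cthickening δ K)).toReal * (C * d k)) ?_ ?_
    · rintro _ ⟨x, hx, rfl⟩
      exact hδK hx
    · have := (hd.const_mul C).const_mul (volume (Metric.cthickening δ K)).toReal
      simpa using this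
    · intro k f M hM0 hf
      have h1 : (T + L k) f - T f = L k f := by
        change T f + L k f - T f = L k f
        ring
      simp only [h1]
      exact hL2 k f M hM0 hf

end J_synthesis

alias synthesis := J_synthesis.synthesis

end Pool.Agent.Helper192.Syn
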