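import Mathlib

/-! Definitions: complex n-space, Wirtinger derivatives, Levi form. -/

set_option linter.all false

open MeasureTheory Set Filter Topology Complex
open scoped BigOperators ContDiff ComplexConjugate

namespace Pool.Agent.Helper192.Syn

/-- complex `n`-space -/
abbrev Cn (n : ℕ) := Fin n → ℂ

/-- squared Euclidean norm -/
noncomputable def nsq {n : ℕ} (z : Cn n) : ℝ := ∑ i, ‖z i‖ ^ 2

/-- Wirtinger derivative `∂/∂z_j` -/
noncomputable def dz {n : ℕ} (j : Fin n) (f : Cn n → ℂ) (z : Cn n) : ℂ :=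
  (1 / 2) * (fderiv ℝ f z (Pi.single j 1) - I * fderiv ℝ f z (Pi.single j I))

/-- Wirtinger derivative `∂/∂\bar z_j` -/
noncomputable def dzb {n : ℕ} (j : Fin n) (f : Cn n → ℂ) (z : Cn n) : ℂ :=
  (1 / 2) * (fderiv ℝ f z (Pi.single j 1) + I * fderiv ℝ f z (Pi.single j I))

/-- second derivative in the direction `w` -/
noncomputable def D2 {n : ℕ} (ψ : Cn n → ℝ) (z w : Cn n) : ℝ :=
  fderiv ℝ (fun y => fderiv ℝ ψ y w) z w

/-- four times the Levi form of `ψ` at `z` in the direction `w` -/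
noncomputable def Lev {n : ℕ} (ψ : Cn n → ℝ) (z w : Cn n) : ℝ := D2 ψ z w + D2 ψ z (I • w)

/-- smooth plurisubharmonic function -/
def Psh {n : ℕ} (ψ : Cn n → ℝ) : Prop := ContDiff ℝ ∞ ψ ∧ ∀ z w, 0 ≤ Lev ψ z w

/-- test function -/
def Tst {n : ℕ} (g : Cn n → ℂ) : Prop := ContDiff ℝ ∞ g ∧ HasCompactSupport g

/-- formal adjoint of `∂/∂\bar z_j` in `L²(e^{-ψ})` -/
noncomputable def del {n : ℕ} (ψ : Cn n → ℝ) (j : Fin n) (g : Cn n → ℂ) (z : Cn n) : ℂ :=
  - dz j g z + dz j (fun y => (ψ y : ℂ)) z * g z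

/-- append one coordinate -/
def sn {m : ℕ} (z : Cn m) (c : ℂ) : Cn (m + 1) := Fin.snoc (α := fun _ => ℂ) z c

/-- append coordinates -/
def ap {m k : ℕ} (z : Cn m) (z' : Cn k) : Cn (m + k) := Fin.append z z'

/-- real part as a vector of Euclidean space -/
noncomputable def reE {m : ℕ} (w : Cn m) : EuclideanSpace ℝ (Fin m) :=
  WithLp.toLp 2 (fun j => (w j).re)

/-- the embedding `z ↦ (z, i z)` -/
noncomputable def Jm {n : ℕ} (z : Cn n) : Cn (n + n) := ap z (I • z)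

/-- identification of `ℝ^{2n}` with `ℂ^n` -/
noncomputable def io {n : ℕ} (x : EuclideanSpace ℝ (Fin (n + n))) : Cn n :=
  fun j => (x (Fin.castAdd n j) : ℂ) + I * (x (Fin.natAdd n j) : ℂ)

/-- support function -/
noncomputable def spf {m : ℕ} (K : Set (EuclideanSpace ℝ (Fin m)))
    (x : EuclideanSpace ℝ (Fin m)) : ℝ := sSup ((fun ξ => inner ℝ x ξ) '' K)

end Pool.Agent.Helper192.Syn
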