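import Pool.Agent.Helper192.Syn.Defs

/-! The space of holomorphic functions on a domain and the Laplace transform. -/

set_option linter.all false

open MeasureTheory Set Filter Topology Complex
open scoped BigOperators ContDiff ComplexConjugate

namespace Pool.Agent.Helper192.Syn

/-- extension by zero of a function on `Ω` -/
noncomputable def ext0 {n : ℕ} {Ω : Set (Cn n)} (f : C(Ω, ℂ)) : Cn n → ℂ := by
  classical exact fun z => if h : z ∈ Ω then f ⟨z, h⟩ else 0

/-- the holomorphic functions on `Ω`, as a subspace of the continuous functions on `Ω` -/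
noncomputable def HolSub {n : ℕ} (Ω : Set (Cn n)) : Submodule ℂ C(Ω, ℂ) where
  carrier := {f | DifferentiableOn ℂ (ext0 f) Ω}
  add_mem' := by
    intro f g hf hg
    have h : ext0 (f + g) = fun z => ext0 f z + ext0 g z := by
      funext z
      by_cases h : z ∈ Ω <;> simp [ext0, h]
    change DifferentiableOn ℂ _ _
    rw [h]
    exact DifferentiableOn.add hf hg
  zero_mem' := by
    have h : ext0 (0 : C(Ω, ℂ)) = fun _ => 0 := by
      funext z
      by_cases h : z ∈ Ω <;> simp [ext0, h]
    change DifferentiableOn ℂ _ _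
    rw [h]
    exact differentiableOn_const _
  smul_mem' := by
    intro c f hf
    have h : ext0 (c • f) = fun z => c * ext0 f z := by
      funext z
      by_cases h : z ∈ Ω <;> simp [ext0, h]
    change DifferentiableOn ℂ _ _
    rw [h]
    exact DifferentiableOn.const_mul hf c

/-- the space `H(Ω)` -/
def Hol {n : ℕ} (Ω : Set (Cn n)) : Type := ↥(HolSub Ω)

noncomputable instance {n : ℕ} (Ω : Set (Cn n)) : AddCommGroup (Hol Ω) :=
  Submodule.addCommGroup (HolSub Ω)

noncomputable instance {n : ℕ} (Ω : Set (Cn n)) : Module ℂ (Hol Ω) :=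
  Submodule.module (HolSub Ω)

/-- the topology of uniform convergence on compact subsets of `Ω` (compact-open topology) -/
noncomputable instance {n : ℕ} (Ω : Set (Cn n)) : TopologicalSpace (Hol Ω) :=
  instTopologicalSpaceSubtype

/-- the value of `f ∈ H(Ω)` at a point of `Ω` -/
noncomputable def Hol.at {n : ℕ} {Ω : Set (Cn n)} (f : Hol Ω) (z : Ω) : ℂ := (Subtype.val f : C(Ω, ℂ)) z

/-- the exponential function `ξ ↦ e^{(z, ξ)}` as a continuous function on `Ω` -/
noncomputable def expC {n : ℕ} (Ω : Set (Cn n)) (z : Cn n) : C(Ω, ℂ) :=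
  ⟨fun ξ => Complex.exp (∑ j, z j * ξ.1 j), by
    refine Complex.continuous_exp.comp (continuous_finsetSum _ fun j _ => ?_)
    exact continuous_const.mul ((continuous_apply j).comp continuous_subtype_val)⟩

/-- the exponential function `ξ ↦ e^{(z, ξ)}` as an element of `H(Ω)` -/
noncomputable def expF {n : ℕ} (Ω : Set (Cn n)) (z : Cn n) : Hol Ω :=
  ⟨expC Ω z, by
    have h : ∀ w ∈ Ω, ext0 (expC Ω z) w = Complex.exp (∑ j, z j * w j) := by
      intro w hw
      simp [ext0, hw, expC]
    change DifferentiableOn ℂ _ Ω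
    refine DifferentiableOn.congr ?_ h
    fun_prop⟩

/-- the Laplace transform of an analytic functional -/
noncomputable def laplace {n : ℕ} {Ω : Set (Cn n)} (T : Hol Ω →L[ℂ] ℂ) (z : Cn n) : ℂ :=
  T (expF Ω z)

end Pool.Agent.Helper192.Syn
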