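import Pool.Agent.Helper192.Syn.Defs

/-! Hormander basic inequality -/

set_option linter.all false

open MeasureTheory Set Filter Topology Complex
open scoped BigOperators ContDiff ComplexConjugate

namespace Pool.Agent.Helper192.Syn

namespace J_levi_eq

theorem levi_decomp {n : ℕ} (w : Cn n) :
    w = ∑ k, ((w k).re • (Pi.single k (1 : ℂ) : Cn n) + (w k).im • (Pi.single k I : Cn n)) := by
  have h : ∀ k, ((w k).re • (Pi.single k (1 : ℂ) : Cn n) + (w k).im • (Pi.single k I : Cn n)) =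
      Pi.single k (w k) := by
    intro k
    rw [← Pi.single_smul, ← Pi.single_smul, ← Pi.single_add]
    congr 1
    rw [Complex.real_smul, Complex.real_smul, mul_one]
    exact Complex.re_add_im (w k)
  rw [Finset.sum_congr rfl fun k _ => h k]
  exact (Finset.univ_sum_single w).symm

theorem levi_bil {n : ℕ} (L : Cn n →L[ℝ] (Cn n →L[ℝ] ℝ)) (e f : Fin n → Cn n)
    (a b c d : Fin n → ℝ) :
    L (∑ k, (a k • e k + b k • f k)) (∑ j, (c j • e j + d j • f j)) =
      ∑ k, ∑ j, (a k * c j * L (e k) (e j) + a k * d j * L (e k) (f j) +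
        b k * c j * L (f k) (e j) + b k * d j * L (f k) (f j)) := by
  have h0 : L (∑ k, (a k • e k + b k • f k)) = ∑ k, L (a k • e k + b k • f k) := map_sum L _ _
  rw [h0, sum_apply]
  refine Finset.sum_congr rfl fun k _ => ?_
  rw [map_sum]
  refine Finset.sum_congr rfl fun j _ => ?_
  simp only [map_add, map_smul, add_apply, smul_apply, smul_eq_mul]
  ring

/-- complex Hessian and the Levi form -/
theorem levi_eq {n : ℕ} (ψ : Cn n → ℝ) (hψ : ContDiff ℝ ∞ ψ) (z w : Cn n) :
    ∑ j, ∑ k, dzb k (dz j (fun y => (ψ y : ℂ))) z * w j * conj (w k) = ((Lev ψ z w / 4 : ℝ) : ℂ) := by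
  have hd : Differentiable ℝ ψ := hψ.differentiable (by simp)
  have hψ' : ContDiff ℝ ∞ (fderiv ℝ ψ) := hψ.fderiv_right (m := ∞) (by simp)
  have hd' : Differentiable ℝ (fderiv ℝ ψ) := hψ'.differentiable (by simp)
  set L : Cn n →L[ℝ] (Cn n →L[ℝ] ℝ) := fderiv ℝ (fderiv ℝ ψ) z with hL
  have hLd : HasFDerivAt (fderiv ℝ ψ) L z := (hd' z).hasFDerivAt
  have hsym : ∀ a b, L a b = L b a := by
    have h := ContDiffAt.isSymmSndFDerivAt (n := ∞) (hψ.contDiffAt (x := z))
      (by rw [minSmoothness_of_isRCLikeNormedField]; exact WithTop.coe_le_coe.2 le_top)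
    exact fun a b => h a b
  have hap : ∀ v, HasFDerivAt (fun y => fderiv ℝ ψ y v)
      ((ContinuousLinearMap.apply ℝ ℝ v).comp L) z := fun v =>
    (ContinuousLinearMap.apply ℝ ℝ v).hasFDerivAt.comp z hLd
  have hD2 : ∀ v, D2 ψ z v = L v v := by
    intro v
    unfold D2
    rw [(hap v).fderiv]
    rfl
  have hC : ∀ y v, fderiv ℝ (fun y => (ψ y : ℂ)) y v = ((fderiv ℝ ψ y v : ℝ) : ℂ) := by
    intro y v
    have h := (ofRealCLM.hasFDerivAt (x := ψ y)).comp y (hd y).hasFDerivAt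
    have h2 : fderiv ℝ (fun y => (ψ y : ℂ)) y = ofRealCLM.comp (fderiv ℝ ψ y) := h.fderiv
    rw [h2]
    rfl
  have hdz : ∀ j, dz j (fun y => (ψ y : ℂ)) = fun y => (1 / 2 : ℂ) *
      (((fderiv ℝ ψ y (Pi.single j 1) : ℝ) : ℂ) - I * ((fderiv ℝ ψ y (Pi.single j I) : ℝ) : ℂ)) := by
    intro j
    funext y
    unfold dz
    rw [hC, hC]
  have hapC : ∀ v, HasFDerivAt (fun y => ((fderiv ℝ ψ y v : ℝ) : ℂ))
      (ofRealCLM.comp ((ContinuousLinearMap.apply ℝ ℝ v).comp L)) z := fun v =>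
    ofRealCLM.hasFDerivAt.comp z (hap v)
  have hfd : ∀ j x, fderiv ℝ (dz j (fun y => (ψ y : ℂ))) z x =
      (1 / 2 : ℂ) * ((L x (Pi.single j 1) : ℂ) - I * (L x (Pi.single j I) : ℂ)) := by
    intro j x
    rw [hdz j]
    have h := ((hapC (Pi.single j 1)).sub ((hapC (Pi.single j I)).const_mul I)).const_mul (1 / 2 : ℂ)
    have h' : HasFDerivAt (fun y => (1 / 2 : ℂ) * (((fderiv ℝ ψ y (Pi.single j 1) : ℝ) : ℂ) -
      I * ((fderiv ℝ ψ y (Pi.single j I) : ℝ) : ℂ))) _ z := h
    rw [h'.fderiv]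
    simp
  have hdzb : ∀ j k, dzb k (dz j (fun y => (ψ y : ℂ))) z = (1 / 4 : ℂ) *
      ((L (Pi.single k 1) (Pi.single j 1) : ℂ) + (L (Pi.single k I) (Pi.single j I) : ℂ) +
        I * (L (Pi.single k I) (Pi.single j 1) : ℂ) - I * (L (Pi.single k 1) (Pi.single j I) : ℂ)) := by
    intro j k
    unfold dzb
    rw [hfd, hfd]
    linear_combination (-(1 / 4 : ℂ)) * (L (Pi.single k I) (Pi.single j I) : ℂ) * Complex.I_sq
  have hw1 : D2 ψ z w = ∑ k, ∑ j, ((w k).re * (w j).re * L (Pi.single k 1) (Pi.single j 1) +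
      (w k).re * (w j).im * L (Pi.single k 1) (Pi.single j I) +
      (w k).im * (w j).re * L (Pi.single k I) (Pi.single j 1) +
      (w k).im * (w j).im * L (Pi.single k I) (Pi.single j I)) := by
    rw [hD2]
    conv_lhs => rw [levi_decomp w]
    exact levi_bil L _ _ _ _ _ _
  have hw2 : D2 ψ z (I • w) = ∑ k, ∑ j,
      ((-(w k).im) * (-(w j).im) * L (Pi.single k 1) (Pi.single j 1) +
      (-(w k).im) * (w j).re * L (Pi.single k 1) (Pi.single j I) +
      (w k).re * (-(w j).im) * L (Pi.single k I) (Pi.single j 1) +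
      (w k).re * (w j).re * L (Pi.single k I) (Pi.single j I)) := by
    rw [hD2]
    conv_lhs => rw [levi_decomp (I • w)]
    have e1 : ∀ k, ((I • w) k).re = -(w k).im := fun k => by simp
    have e2 : ∀ k, ((I • w) k).im = (w k).re := fun k => by simp
    simp only [e1, e2]
    exact levi_bil L _ _ _ _ _ _
  -- symmetrise
  set T : Fin n → Fin n → ℂ := fun j k => dzb k (dz j (fun y => (ψ y : ℂ))) z * w j * conj (w k)
    with hT
  have h2 : ∑ j, ∑ k, T j k = (1 / 2 : ℂ) * ∑ k, ∑ j, (T j k + T k j) := by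
    have h3 : ∑ k, ∑ j, (T j k + T k j) = (∑ j, ∑ k, T j k) + ∑ j, ∑ k, T j k := by
      rw [Finset.sum_congr rfl fun k _ => Finset.sum_add_distrib, Finset.sum_add_distrib]
      congr 1
      exact Finset.sum_comm
    rw [h3]
    ring
  show ∑ j, ∑ k, T j k = _
  rw [h2]
  have h4 : ((Lev ψ z w / 4 : ℝ) : ℂ) = (1 / 2 : ℂ) * ∑ k, ∑ j, (((1 / 2 : ℝ) *
      (((w k).re * (w j).re + (w k).im * (w j).im) *
        (L (Pi.single k 1) (Pi.single j 1) + L (Pi.single k I) (Pi.single j I)) +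
      ((w k).re * (w j).im - (w k).im * (w j).re) * L (Pi.single k 1) (Pi.single j I) +
      ((w k).im * (w j).re - (w k).re * (w j).im) * L (Pi.single k I) (Pi.single j 1)) : ℝ) : ℂ) := by
    unfold Lev
    rw [hw1, hw2, ← Finset.sum_add_distrib]
    rw [show (∑ k, ((∑ j, ((w k).re * (w j).re * L (Pi.single k 1) (Pi.single j 1) +
      (w k).re * (w j).im * L (Pi.single k 1) (Pi.single j I) +
      (w k).im * (w j).re * L (Pi.single k I) (Pi.single j 1) +
      (w k).im * (w j).im * L (Pi.single k I) (Pi.single j I))) +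
      ∑ j, ((-(w k).im) * (-(w j).im) * L (Pi.single k 1) (Pi.single j 1) +
      (-(w k).im) * (w j).re * L (Pi.single k 1) (Pi.single j I) +
      (w k).re * (-(w j).im) * L (Pi.single k I) (Pi.single j 1) +
      (w k).re * (w j).re * L (Pi.single k I) (Pi.single j I)))) / 4 =
      (1 / 2 : ℝ) * ∑ k, ∑ j, ((1 / 2 : ℝ) *
      (((w k).re * (w j).re + (w k).im * (w j).im) *
        (L (Pi.single k 1) (Pi.single j 1) + L (Pi.single k I) (Pi.single j I)) +
      ((w k).re * (w j).im - (w k).im * (w j).re) * L (Pi.single k 1) (Pi.single j I) +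
      ((w k).im * (w j).re - (w k).re * (w j).im) * L (Pi.single k I) (Pi.single j 1))) from ?_]
    · push_cast
      rfl
    · rw [Finset.sum_div, Finset.mul_sum]
      refine Finset.sum_congr rfl fun k _ => ?_
      rw [← Finset.sum_add_distrib, Finset.sum_div, Finset.mul_sum]
      refine Finset.sum_congr rfl fun j _ => ?_
      ring
  rw [h4]
  congr 1
  refine Finset.sum_congr rfl fun k _ => Finset.sum_congr rfl fun j _ => ?_
  simp only [hT]
  rw [hdzb, hdzb, hsym (Pi.single j 1) (Pi.single k 1), hsym (Pi.single j I) (Pi.single k I),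
    hsym (Pi.single j I) (Pi.single k 1), hsym (Pi.single j 1) (Pi.single k I)]
  have ek : w k = ((w k).re : ℂ) + ((w k).im : ℂ) * I := (Complex.re_add_im (w k)).symm
  have ej : w j = ((w j).re : ℂ) + ((w j).im : ℂ) * I := (Complex.re_add_im (w j)).symm
  have eck : conj (w k) = ((w k).re : ℂ) - ((w k).im : ℂ) * I := by
    apply Complex.ext <;> simp
  have ecj : conj (w j) = ((w j).re : ℂ) - ((w j).im : ℂ) * I := by
    apply Complex.ext <;> simp
  rw [eck, ecj]
  generalize (w k).re = a at *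
  generalize (w k).im = b at *
  generalize (w j).re = c at *
  generalize (w j).im = d at *
  rw [ek, ej]
  generalize L (Pi.single k 1) (Pi.single j 1) = p
  generalize L (Pi.single k I) (Pi.single j I) = q
  generalize L (Pi.single k I) (Pi.single j 1) = r
  generalize L (Pi.single k 1) (Pi.single j I) = s
  push_cast
  ring_nf
  simp only [Complex.I_sq]
  ring

end J_levi_eq

alias levi_eq := J_levi_eq.levi_eq

namespace J_adj

theorem adj_fderivG {n : ℕ} (ψ : Cn n → ℝ) (hψ : ContDiff ℝ ∞ ψ) (g : Cn n → ℂ)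
    (hg : ContDiff ℝ ∞ g) (z v : Cn n) :
    fderiv ℝ (fun z => conj (g z) * (Real.exp (-ψ z) : ℂ)) z v =
      conj (fderiv ℝ g z v) * (Real.exp (-ψ z) : ℂ) -
        conj (g z) * (fderiv ℝ ψ z v : ℂ) * (Real.exp (-ψ z) : ℂ) := by
  have hg1 : HasFDerivAt g (fderiv ℝ g z) z :=
    ((hg.differentiable (by simp)) z).hasFDerivAt
  have hψ1 : HasFDerivAt ψ (fderiv ℝ ψ z) z :=
    ((hψ.differentiable (by simp)) z).hasFDerivAt
  have h1 : HasFDerivAt (fun z => conj (g z))
      ((Complex.conjCLE : ℂ →L[ℝ] ℂ).comp (fderiv ℝ g z)) z :=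
    (Complex.conjCLE : ℂ →L[ℝ] ℂ).hasFDerivAt.comp z hg1
  have h2 : HasFDerivAt (fun z => ((Real.exp (-ψ z) : ℝ) : ℂ))
      (Complex.ofRealCLM.comp (Real.exp (-ψ z) • -(fderiv ℝ ψ z))) z :=
    Complex.ofRealCLM.hasFDerivAt.comp z (hψ1.neg.exp)
  have h3 := h1.mul h2
  have h5 : fderiv ℝ (fun z => conj (g z) * (Real.exp (-ψ z) : ℂ)) z = _ := HasFDerivAt.fderiv h3
  rw [h5]
  simp only [ContinuousLinearMap.add_apply, ContinuousLinearMap.smul_apply,
    ContinuousLinearMap.comp_apply, Complex.ofRealCLM_apply, ContinuousLinearMap.neg_apply,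
    smul_eq_mul, ContinuousLinearEquiv.coe_coe, Complex.conjCLE_apply]
  push_cast
  ring

theorem adj_pointwise {n : ℕ} (ψ : Cn n → ℝ) (hψ : ContDiff ℝ ∞ ψ) (k : Fin n) (g : Cn n → ℂ)
    (hg : ContDiff ℝ ∞ g) (z : Cn n) :
    -(1 / 2 * (fderiv ℝ (fun z => conj (g z) * (Real.exp (-ψ z) : ℂ)) z (Pi.single k 1) +
      I * fderiv ℝ (fun z => conj (g z) * (Real.exp (-ψ z) : ℂ)) z (Pi.single k I))) =
      conj (del ψ k g z) * (Real.exp (-ψ z) : ℂ) := by
  rw [adj_fderivG ψ hψ g hg, adj_fderivG ψ hψ g hg]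
  have hψ1 : HasFDerivAt ψ (fderiv ℝ ψ z) z :=
    ((hψ.differentiable (by simp)) z).hasFDerivAt
  have h4 : fderiv ℝ (fun y => (ψ y : ℂ)) z = Complex.ofRealCLM.comp (fderiv ℝ ψ z) :=
    (Complex.ofRealCLM.hasFDerivAt.comp z hψ1).fderiv
  unfold del dz
  rw [h4]
  simp only [ContinuousLinearMap.comp_apply, Complex.ofRealCLM_apply, map_add, map_neg, map_mul,
    map_sub, Complex.conj_I, Complex.conj_ofReal, map_div₀, map_one, map_ofNat]
  ring

/-- adjoint relation -/
theorem adj {n : ℕ} (ψ : Cn n → ℝ) (hψ : ContDiff ℝ ∞ ψ) (k : Fin n) (f g : Cn n → ℂ)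
    (hf : ContDiff ℝ ∞ f) (hg : Tst g) :
    ∫ z, dzb k f z * conj (g z) * (Real.exp (-ψ z) : ℂ)
      = ∫ z, f z * conj (del ψ k g z) * (Real.exp (-ψ z) : ℂ) := by
  obtain ⟨hg1, hg2⟩ := hg
  set G : Cn n → ℂ := fun z => conj (g z) * (Real.exp (-ψ z) : ℂ) with hG
  have hGc : ContDiff ℝ ∞ G :=
    ((Complex.conjCLE : ℂ →L[ℝ] ℂ).contDiff.comp hg1).mul
      (Complex.ofRealCLM.contDiff.comp (Real.contDiff_exp.comp hψ.neg))
  have hGs : HasCompactSupport G := by
    have h1 : HasCompactSupport (fun z => conj (g z)) :=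
      hg2.comp_left (g := fun w : ℂ => conj w) (map_zero _)
    exact h1.mul_right
  have hG' : ∀ v, Continuous fun z => fderiv ℝ G z v := fun v =>
    (hGc.continuous_fderiv (by simp)).clm_apply continuous_const
  have hf' : ∀ v, Continuous fun z => fderiv ℝ f z v := fun v =>
    (hf.continuous_fderiv (by simp)).clm_apply continuous_const
  have hfc := hf.continuous
  have i1 : ∀ v, Integrable fun z => fderiv ℝ f z v * G z := fun v =>
    ((hf' v).mul hGc.continuous).integrable_of_hasCompactSupport hGs.mul_left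
  have i2 : ∀ v, Integrable fun z => f z * fderiv ℝ G z v := fun v =>
    (hfc.mul (hG' v)).integrable_of_hasCompactSupport (hGs.fderiv_apply (𝕜 := ℝ) v).mul_left
  have i3 : Integrable fun z => f z * G z :=
    (hfc.mul hGc.continuous).integrable_of_hasCompactSupport hGs.mul_left
  have key : ∀ v, ∫ z, f z * fderiv ℝ G z v = - ∫ z, fderiv ℝ f z v * G z := fun v =>
    integral_mul_fderiv_eq_neg_fderiv_mul_of_integrable (i1 v) (i2 v) i3
      (fun x _ => (hf.differentiable (by simp)) x) (fun x _ => (hGc.differentiable (by simp)) x)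
  have e1 : ∀ z, dzb k f z * conj (g z) * (Real.exp (-ψ z) : ℂ) =
      1 / 2 * (fderiv ℝ f z (Pi.single k 1) * G z) +
        1 / 2 * I * (fderiv ℝ f z (Pi.single k I) * G z) := by
    intro z
    rw [hG]
    unfold dzb
    ring
  have e2 : ∀ z, f z * conj (del ψ k g z) * (Real.exp (-ψ z) : ℂ) =
      -(1 / 2) * (f z * fderiv ℝ G z (Pi.single k 1)) +
        -(1 / 2) * I * (f z * fderiv ℝ G z (Pi.single k I)) := by
    intro z
    rw [mul_assoc, ← adj_pointwise ψ hψ k g hg1 z]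
    ring
  simp only [e1, e2]
  rw [integral_add ((i1 _).const_mul _) ((i1 _).const_mul _),
    integral_add ((i2 _).const_mul _) ((i2 _).const_mul _), integral_const_mul, integral_const_mul,
    integral_const_mul, integral_const_mul, key, key]
  ring

end J_adj

alias adj := J_adj.adj

namespace J_comm

theorem comm_hd {n : ℕ} {f : Cn n → ℂ} (hf : ContDiff ℝ ∞ f) (z a : Cn n) :
    HasFDerivAt (fun y => fderiv ℝ f y a) ((fderiv ℝ (fderiv ℝ f) z).flip a) z := by
  have h1 : ContDiff ℝ ∞ (fderiv ℝ f) := hf.fderiv_right (by exact_mod_cast le_rfl)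
  have h2 : HasFDerivAt (fderiv ℝ f) (fderiv ℝ (fderiv ℝ f) z) z :=
    (h1.differentiable (by simp) z).hasFDerivAt
  have h3 := h2.clm_apply (hasFDerivAt_const a z)
  simpa using h3

theorem comm_dz {n : ℕ} {f : Cn n → ℂ} (hf : ContDiff ℝ ∞ f) (j : Fin n) (z v : Cn n) :
    DifferentiableAt ℝ (dz j f) z ∧ fderiv ℝ (dz j f) z v =
      (1 / 2) * (fderiv ℝ (fderiv ℝ f) z v (Pi.single j 1) -
        I * fderiv ℝ (fderiv ℝ f) z v (Pi.single j I)) := by
  have h := ((comm_hd hf z (Pi.single j 1)).sub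
    ((comm_hd hf z (Pi.single j I)).const_mul I)).const_mul (1 / 2 : ℂ)
  have h' : HasFDerivAt (dz j f) _ z := h
  refine ⟨h'.differentiableAt, ?_⟩
  rw [h'.fderiv]
  rfl

theorem comm_dzb {n : ℕ} {f : Cn n → ℂ} (hf : ContDiff ℝ ∞ f) (j : Fin n) (z v : Cn n) :
    DifferentiableAt ℝ (dzb j f) z ∧ fderiv ℝ (dzb j f) z v =
      (1 / 2) * (fderiv ℝ (fderiv ℝ f) z v (Pi.single j 1) +
        I * fderiv ℝ (fderiv ℝ f) z v (Pi.single j I)) := by
  have h := ((comm_hd hf z (Pi.single j 1)).add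
    ((comm_hd hf z (Pi.single j I)).const_mul I)).const_mul (1 / 2 : ℂ)
  have h' : HasFDerivAt (dzb j f) _ z := h
  refine ⟨h'.differentiableAt, ?_⟩
  rw [h'.fderiv]
  rfl

theorem comm_comm {n : ℕ} {f : Cn n → ℂ} (hf : ContDiff ℝ ∞ f) (j k : Fin n) (z : Cn n) :
    dzb k (dz j f) z = dz j (dzb k f) z := by
  have hs : ∀ a b : Cn n, fderiv ℝ (fderiv ℝ f) z a b = fderiv ℝ (fderiv ℝ f) z b a := by
    intro a b
    refine (hf.contDiffAt.isSymmSndFDerivAt ?_).eq a b
    rw [minSmoothness_of_isRCLikeNormedField]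
    exact WithTop.coe_le_coe.2 le_top
  have e1 : dzb k (dz j f) z = (1 / 2) * (fderiv ℝ (dz j f) z (Pi.single k 1) +
      I * fderiv ℝ (dz j f) z (Pi.single k I)) := rfl
  have e2 : dz j (dzb k f) z = (1 / 2) * (fderiv ℝ (dzb k f) z (Pi.single j 1) -
      I * fderiv ℝ (dzb k f) z (Pi.single j I)) := rfl
  rw [e1, e2, (comm_dz hf j z _).2, (comm_dz hf j z _).2, (comm_dzb hf k z _).2,
    (comm_dzb hf k z _).2, hs (Pi.single k 1) (Pi.single j 1), hs (Pi.single k 1) (Pi.single j I),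
    hs (Pi.single k I) (Pi.single j 1), hs (Pi.single k I) (Pi.single j I)]
  ring

/-- commutator relation -/
theorem comm {n : ℕ} (ψ : Cn n → ℝ) (hψ : ContDiff ℝ ∞ ψ) (j k : Fin n) (g : Cn n → ℂ)
    (hg : ContDiff ℝ ∞ g) (z : Cn n) :
    dzb k (del ψ j g) z = del ψ j (dzb k g) z + dzb k (dz j (fun y => (ψ y : ℂ))) z * g z := by
  have hψc : ContDiff ℝ ∞ (fun y => (ψ y : ℂ)) := Complex.ofRealCLM.contDiff.comp hψ
  obtain ⟨P, hP⟩ : ∃ P, P = dz j (fun y => (ψ y : ℂ)) := ⟨_, rfl⟩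
  have hPd : DifferentiableAt ℝ P z := by
    rw [hP]
    exact (comm_dz hψc j z 0).1
  have hgd : DifferentiableAt ℝ g z := hg.differentiable (by simp) z
  have hdel : ∀ v, fderiv ℝ (del ψ j g) z v = - fderiv ℝ (dz j g) z v +
      (fderiv ℝ P z v * g z + P z * fderiv ℝ g z v) := by
    intro v
    have h1 : HasFDerivAt (del ψ j g) (-(fderiv ℝ (dz j g) z) + (P z • fderiv ℝ g z + g z • fderiv ℝ P z)) z := by
      have h2 := ((comm_dz hg j z 0).1.hasFDerivAt.neg).add (hPd.hasFDerivAt.mul hgd.hasFDerivAt)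
      rw [hP] at h2 ⊢
      exact h2
    rw [h1.fderiv]
    simp only [ContinuousLinearMap.add_apply, ContinuousLinearMap.neg_apply,
      ContinuousLinearMap.smul_apply, smul_eq_mul]
    ring
  have e1 : dzb k (del ψ j g) z = (1 / 2) * (fderiv ℝ (del ψ j g) z (Pi.single k 1) +
      I * fderiv ℝ (del ψ j g) z (Pi.single k I)) := rfl
  have e2 : dzb k P z = (1 / 2) * (fderiv ℝ P z (Pi.single k 1) +
      I * fderiv ℝ P z (Pi.single k I)) := rfl
  have e3 : del ψ j (dzb k g) z = - dz j (dzb k g) z + P z * dzb k g z := by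
    rw [hP]
    rfl
  have e4 : dzb k g z = (1 / 2) * (fderiv ℝ g z (Pi.single k 1) +
      I * fderiv ℝ g z (Pi.single k I)) := rfl
  have e5 : dzb k (dz j g) z = (1 / 2) * (fderiv ℝ (dz j g) z (Pi.single k 1) +
      I * fderiv ℝ (dz j g) z (Pi.single k I)) := rfl
  rw [← hP, e3, ← comm_comm hg, e1, hdel, hdel, e2, e4, e5]
  ring

end J_comm

alias comm := J_comm.comm

namespace J_smooth_dz

/-- smoothness of the Wirtinger derivatives -/
theorem smooth_dz {n : ℕ} (j : Fin n) (f : Cn n → ℂ) (hf : ContDiff ℝ ∞ f) :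
    ContDiff ℝ ∞ (dz j f) ∧ ContDiff ℝ ∞ (dzb j f) := by
  have h : ∀ v : Cn n, ContDiff ℝ ∞ (fun z => fderiv ℝ f z v) := by
    intro v
    exact (hf.fderiv_right (m := ∞) (by simp)).clm_apply contDiff_const
  constructor
  · unfold dz
    exact contDiff_const.mul ((h _).sub (contDiff_const.mul (h _)))
  · unfold dzb
    exact contDiff_const.mul ((h _).add (contDiff_const.mul (h _)))

end J_smooth_dz

alias smooth_dz := J_smooth_dz.smooth_dz

namespace J_tst_dz

/-- Wirtinger derivatives of test functions -/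
theorem tst_dz {n : ℕ} (j : Fin n) (f : Cn n → ℂ) (hf : Tst f) : Tst (dz j f) ∧ Tst (dzb j f) := by
  obtain ⟨hs, hc⟩ := hf
  have hfd : ∀ z, z ∉ tsupport f → fderiv ℝ f z = 0 := by
    intro z hz
    have : z ∉ tsupport (fderiv ℝ f) := fun h => hz (tsupport_fderiv_subset ℝ h)
    exact image_eq_zero_of_notMem_tsupport this
  refine ⟨⟨(smooth_dz j f hs).1, ?_⟩, ⟨(smooth_dz j f hs).2, ?_⟩⟩
  · refine HasCompactSupport.intro hc fun z hz => ?_
    unfold dz
    rw [hfd z hz]
    simp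
  · refine HasCompactSupport.intro hc fun z hz => ?_
    unfold dzb
    rw [hfd z hz]
    simp

end J_tst_dz

alias tst_dz := J_tst_dz.tst_dz

namespace J_basic_ineq

theorem basic_ineq_int {n : ℕ} (ψ : Cn n → ℝ) (hψ : ContDiff ℝ ∞ ψ) (u v : Cn n → ℂ)
    (hu : Continuous u) (hv : Continuous v) (hc : HasCompactSupport u) :
    Integrable (fun z => u z * conj (v z) * (Real.exp (-ψ z) : ℂ)) := by
  have h0 := hψ.continuous
  have h1 : Continuous (fun z => ((Real.exp (-ψ z) : ℝ) : ℂ)) := by fun_prop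
  refine Continuous.integrable_of_hasCompactSupport ?_ ?_
  · exact (hu.mul (Complex.continuous_conj.comp hv)).mul h1
  · have h2 : HasCompactSupport (fun z => u z * (conj (v z) * (Real.exp (-ψ z) : ℂ))) :=
      hc.mul_right
    simpa only [mul_assoc] using h2

theorem basic_ineq_del {n : ℕ} (ψ : Cn n → ℝ) (hψ : ContDiff ℝ ∞ ψ) (j : Fin n) (g : Cn n → ℂ)
    (hg : Tst g) : Tst (del ψ j g) := by
  have h1 := (tst_dz j g hg).1
  have h2 := (smooth_dz j (fun y => (ψ y : ℂ)) (Complex.ofRealCLM.contDiff.comp hψ)).1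
  refine ⟨(h1.1.neg).add (h2.mul hg.1), ?_⟩
  have h3 : HasCompactSupport (fun z => dz j (fun y => (ψ y : ℂ)) z * g z) := hg.2.mul_left
  have h4 : HasCompactSupport (fun z => - dz j g z) := h1.2.comp_left (g := fun x => -x) neg_zero
  exact h4.add h3

theorem basic_ineq_cross {n : ℕ} (ψ : Cn n → ℝ) (hψ : ContDiff ℝ ∞ ψ) (j k : Fin n)
    (α : Fin n → Cn n → ℂ) (hα : ∀ j, Tst (α j)) :
    ∫ z, del ψ j (α j) z * conj (del ψ k (α k) z) * (Real.exp (-ψ z) : ℂ) =
      (∫ z, dzb k (α j) z * conj (dzb j (α k) z) * (Real.exp (-ψ z) : ℂ)) +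
      ∫ z, dzb k (dz j (fun y => (ψ y : ℂ))) z * α j z * conj (α k z) *
        (Real.exp (-ψ z) : ℂ) := by
  have hd := basic_ineq_del ψ hψ j (α j) (hα j)
  have hP := (tst_dz k (α j) (hα j)).2
  have hs := (smooth_dz k _ (smooth_dz j (fun y => (ψ y : ℂ))
    (Complex.ofRealCLM.contDiff.comp hψ)).1).2
  rw [← adj ψ hψ k (del ψ j (α j)) (α k) hd.1 (hα k)]
  have h1 : ∀ z, dzb k (del ψ j (α j)) z * conj (α k z) * (Real.exp (-ψ z) : ℂ) =
      del ψ j (dzb k (α j)) z * conj (α k z) * (Real.exp (-ψ z) : ℂ) +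
      dzb k (dz j (fun y => (ψ y : ℂ))) z * α j z * conj (α k z) * (Real.exp (-ψ z) : ℂ) := by
    intro z
    rw [comm ψ hψ j k (α j) (hα j).1 z]
    ring
  simp_rw [h1]
  rw [integral_add]
  · congr 1
    have h2 := adj ψ hψ j (α k) (dzb k (α j)) (hα k).1 hP
    have h3 := congrArg (starRingEnd ℂ) h2
    rw [← integral_conj, ← integral_conj] at h3
    simp only [map_mul, Complex.conj_conj, Complex.conj_ofReal] at h3
    calc ∫ z, del ψ j (dzb k (α j)) z * conj (α k z) * (Real.exp (-ψ z) : ℂ)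
        = ∫ z, conj (α k z) * del ψ j (dzb k (α j)) z * (Real.exp (-ψ z) : ℂ) := by
          congr 1
          funext z
          ring
      _ = ∫ z, conj (dzb j (α k) z) * dzb k (α j) z * (Real.exp (-ψ z) : ℂ) := h3.symm
      _ = _ := by
          congr 1
          funext z
          ring
  · have h5 := basic_ineq_del ψ hψ j _ hP
    exact basic_ineq_int ψ hψ _ _ h5.1.continuous (hα k).1.continuous h5.2
  · exact basic_ineq_int ψ hψ (fun z => dzb k (dz j (fun y => (ψ y : ℂ))) z * α j z) _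
      (hs.continuous.mul (hα j).1.continuous) (hα k).1.continuous (hα j).2.mul_left

theorem basic_ineq_alg {n : ℕ} (A' L' : ℝ) (B' P' : Fin n → Fin n → ℝ) (X Y : Fin n → Fin n → ℂ)
    (hA : (A' : ℂ) = ∑ j, ∑ k, (X j k + Y j k)) (hL : ∑ j, ∑ k, Y j k = (L' : ℂ))
    (hB : ∀ j k, (B' j k : ℂ) = P' k j - X k j - X j k + P' j k) :
    A' + 1 / 2 * ∑ j, ∑ k, B' j k = (∑ j, ∑ k, P' j k) + L' := by
  apply Complex.ofReal_injective
  push_cast
  rw [hA, ← hL]
  simp only [hB, Finset.sum_add_distrib, Finset.sum_sub_distrib]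
  rw [Finset.sum_comm (f := fun j k => (P' k j : ℂ)), Finset.sum_comm (f := fun j k => X k j)]
  ring

theorem basic_ineq_sum {n : ℕ} (f : Fin n → Fin n → Cn n → ℂ) (hf : ∀ j k, Integrable (f j k)) :
    ∫ z, ∑ j, ∑ k, f j k z = ∑ j, ∑ k, ∫ z, f j k z := by
  rw [integral_finset_sum]
  · refine Finset.sum_congr rfl fun j _ => ?_
    rw [integral_finset_sum]
    intro k _
    exact hf j k
  · intro j _
    exact integrable_finset_sum _ fun k _ => hf j k

/-- Hormander's basic inequality for test forms -/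
theorem basic_ineq {n : ℕ} (ψ lam : Cn n → ℝ) (hψ : ContDiff ℝ ∞ ψ) (hlam : Continuous lam)
    (hL : ∀ z w, 4 * lam z * nsq w ≤ Lev ψ z w) (α : Fin n → Cn n → ℂ) (hα : ∀ j, Tst (α j)) :
    ∫ z, lam z * (∑ j, ‖α j z‖ ^ 2) * Real.exp (-ψ z)
      ≤ (∫ z, ‖∑ j, del ψ j (α j) z‖ ^ 2 * Real.exp (-ψ z))
        + (1 / 2) * ∑ j, ∑ k, ∫ z, ‖dzb j (α k) z - dzb k (α j) z‖ ^ 2 * Real.exp (-ψ z) := by
  have hS : ContDiff ℝ ∞ (fun y => (ψ y : ℂ)) := Complex.ofRealCLM.contDiff.comp hψ
  have hψc := hψ.continuous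
  have hP : ∀ j k, Tst (dzb k (α j)) := fun j k => (tst_dz k (α j) (hα j)).2
  have hPi : ∀ j k l m, Integrable
      (fun z => dzb k (α j) z * conj (dzb m (α l) z) * (Real.exp (-ψ z) : ℂ)) := fun j k l m =>
    basic_ineq_int ψ hψ _ _ (hP j k).1.continuous (hP l m).1.continuous (hP j k).2
  have hYi : ∀ j k, Integrable (fun z => dzb k (dz j (fun y => (ψ y : ℂ))) z * α j z *
      conj (α k z) * (Real.exp (-ψ z) : ℂ)) := fun j k =>
    basic_ineq_int ψ hψ (fun z => dzb k (dz j (fun y => (ψ y : ℂ))) z * α j z) _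
      ((smooth_dz k _ (smooth_dz j _ hS).1).2.continuous.mul (hα j).1.continuous)
      (hα k).1.continuous (hα j).2.mul_left
  have hLevpt : ∀ z, ∑ j, ∑ k, dzb k (dz j (fun y => (ψ y : ℂ))) z * α j z *
      conj (α k z) * (Real.exp (-ψ z) : ℂ) =
      ((Lev ψ z (fun j => α j z) / 4 * Real.exp (-ψ z) : ℝ) : ℂ) := by
    intro z
    rw [Complex.ofReal_mul, ← levi_eq ψ hψ z (fun j => α j z), Finset.sum_mul]
    refine Finset.sum_congr rfl fun j _ => ?_
    rw [Finset.sum_mul]
  have key := basic_ineq_alg (∫ z, ‖∑ j, del ψ j (α j) z‖ ^ 2 * Real.exp (-ψ z))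
    (∫ z, Lev ψ z (fun j => α j z) / 4 * Real.exp (-ψ z))
    (fun j k => ∫ z, ‖dzb j (α k) z - dzb k (α j) z‖ ^ 2 * Real.exp (-ψ z))
    (fun j k => ∫ z, ‖dzb k (α j) z‖ ^ 2 * Real.exp (-ψ z))
    (fun j k => ∫ z, dzb k (α j) z * conj (dzb j (α k) z) * (Real.exp (-ψ z) : ℂ))
    (fun j k => ∫ z, dzb k (dz j (fun y => (ψ y : ℂ))) z * α j z * conj (α k z) *
        (Real.exp (-ψ z) : ℂ)) ?_ ?_ ?_
  · rw [key]
    have h1 : (0:ℝ) ≤ ∑ j, ∑ k, ∫ z, ‖dzb k (α j) z‖ ^ 2 * Real.exp (-ψ z) :=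
      Finset.sum_nonneg fun j _ => Finset.sum_nonneg fun k _ =>
        integral_nonneg fun z => by positivity
    have h2 : ∫ z, lam z * (∑ j, ‖α j z‖ ^ 2) * Real.exp (-ψ z) ≤
        ∫ z, Lev ψ z (fun j => α j z) / 4 * Real.exp (-ψ z) := by
      apply integral_mono
      · refine Continuous.integrable_of_hasCompactSupport ?_ ?_
        · have hac : ∀ j, Continuous (α j) := fun j => (hα j).1.continuous
          fun_prop
        · have h3 : HasCompactSupport (fun z => ∑ j, ‖α j z‖ ^ 2) := by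
            have h4 : ∀ s : Finset (Fin n), HasCompactSupport (fun z => ∑ j ∈ s, ‖α j z‖ ^ 2) := by
              intro s
              classical
              induction s using Finset.induction_on with
              | empty =>
                simp only [Finset.sum_empty]
                exact HasCompactSupport.zero
              | insert a s ha ih =>
                simp only [Finset.sum_insert ha]
                have h5 : HasCompactSupport (fun z => ‖α a z‖ ^ 2) :=
                  (hα a).2.comp_left (g := fun x => ‖x‖ ^ 2) (by simp)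
                exact h5.add ih
            exact h4 Finset.univ
          have h6 : HasCompactSupport (fun z => lam z * (∑ j, ‖α j z‖ ^ 2)) := h3.mul_left
          exact h6.mul_right
      · have h3 : Integrable (fun z => ∑ j, ∑ k, dzb k (dz j (fun y => (ψ y : ℂ))) z * α j z *
            conj (α k z) * (Real.exp (-ψ z) : ℂ)) :=
          integrable_finset_sum _ fun j _ => integrable_finset_sum _ fun k _ => hYi j k
        simp_rw [hLevpt] at h3
        have h4 := h3.re
        refine h4.congr (Filter.Eventually.of_forall fun z => ?_)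
        exact Complex.ofReal_re _
      · intro z
        show lam z * (∑ j, ‖α j z‖ ^ 2) * Real.exp (-ψ z) ≤
          Lev ψ z (fun j => α j z) / 4 * Real.exp (-ψ z)
        apply mul_le_mul_of_nonneg_right _ (Real.exp_pos _).le
        have h5 := hL z (fun j => α j z)
        unfold nsq at h5
        linarith
    linarith
  · rw [← integral_complex_ofReal]
    have h1 : ∀ z, ((‖∑ j, del ψ j (α j) z‖ ^ 2 * Real.exp (-ψ z) : ℝ) : ℂ) =
        ∑ j, ∑ k, del ψ j (α j) z * conj (del ψ k (α k) z) * (Real.exp (-ψ z) : ℂ) := by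
      intro z
      rw [Complex.ofReal_mul, Complex.ofReal_pow, ← Complex.mul_conj', map_sum,
        Finset.sum_mul_sum, Finset.sum_mul]
      refine Finset.sum_congr rfl fun j _ => ?_
      rw [Finset.sum_mul]
    simp_rw [h1]
    rw [basic_ineq_sum]
    · refine Finset.sum_congr rfl fun j _ => Finset.sum_congr rfl fun k _ => ?_
      exact basic_ineq_cross ψ hψ j k α hα
    · intro j k
      have h5 := basic_ineq_del ψ hψ j _ (hα j)
      have h6 := basic_ineq_del ψ hψ k _ (hα k)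
      exact basic_ineq_int ψ hψ _ _ h5.1.continuous h6.1.continuous h5.2
  · rw [← integral_complex_ofReal, ← basic_ineq_sum _ hYi]
    simp_rw [hLevpt]
  · intro j k
    rw [← integral_complex_ofReal, ← integral_complex_ofReal, ← integral_complex_ofReal]
    have h1 : ∀ z, ((‖dzb j (α k) z - dzb k (α j) z‖ ^ 2 * Real.exp (-ψ z) : ℝ) : ℂ) =
        dzb j (α k) z * conj (dzb j (α k) z) * (Real.exp (-ψ z) : ℂ) -
        dzb j (α k) z * conj (dzb k (α j) z) * (Real.exp (-ψ z) : ℂ) -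
        dzb k (α j) z * conj (dzb j (α k) z) * (Real.exp (-ψ z) : ℂ) +
        dzb k (α j) z * conj (dzb k (α j) z) * (Real.exp (-ψ z) : ℂ) := by
      intro z
      rw [Complex.ofReal_mul, Complex.ofReal_pow, ← Complex.mul_conj', map_sub]
      ring
    have h2 : ∀ (j k : Fin n) z, ((‖dzb k (α j) z‖ ^ 2 * Real.exp (-ψ z) : ℝ) : ℂ) =
        dzb k (α j) z * conj (dzb k (α j) z) * (Real.exp (-ψ z) : ℂ) := by
      intro j k z
      rw [Complex.ofReal_mul, Complex.ofReal_pow, ← Complex.mul_conj']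
    simp_rw [h1, h2]
    rw [integral_add, integral_sub, integral_sub]
    · exact hPi k j k j
    · exact hPi k j j k
    · exact (hPi k j k j).sub (hPi k j j k)
    · exact hPi j k k j
    · exact ((hPi k j k j).sub (hPi k j j k)).sub (hPi j k k j)
    · exact hPi j k j k

end J_basic_ineq

alias basic_ineq := J_basic_ineq.basic_ineq

end Pool.Agent.Helper192.Syn
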