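import Pool.Agent.Helper192.Syn.H1

/-! mollification -/

set_option linter.all false

open MeasureTheory Set Filter Topology Complex
open scoped BigOperators ContDiff ComplexConjugate

namespace Pool.Agent.Helper192.Syn

namespace J_exists_moll

theorem em_le_nsq {n : ℕ} (z : Cn n) : ‖z‖ ^ 2 ≤ nsq z := by
  have h0 : 0 ≤ nsq z := Finset.sum_nonneg fun i _ => sq_nonneg _
  have h1 : ‖z‖ ≤ Real.sqrt (nsq z) := by
    rw [pi_norm_le_iff_of_nonneg (Real.sqrt_nonneg _)]
    intro i
    apply Real.le_sqrt_of_sq_le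
    exact Finset.single_le_sum (f := fun i => ‖z i‖ ^ 2) (fun i _ => sq_nonneg _) (Finset.mem_univ i)
  calc ‖z‖ ^ 2 ≤ (Real.sqrt (nsq z)) ^ 2 := pow_le_pow_left₀ (norm_nonneg _) h1 2
    _ = nsq z := Real.sq_sqrt h0

theorem em_smooth {n : ℕ} : ContDiff ℝ ∞ (fun z : Cn n => nsq z) := by
  unfold nsq
  apply ContDiff.sum
  intro i _
  exact (contDiff_apply ℝ ℂ i).norm_sq ℝ

/-- smooth circled mollifier: there is a sequence of smooth nonnegative functions with integral one,
supports shrinking to the origin, invariant under multiplication by unimodular scalars -/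
theorem exists_moll (n : ℕ) : ∃ ρ : ℕ → Cn n → ℝ, (∀ m, ContDiff ℝ ∞ (ρ m)) ∧ (∀ m z, 0 ≤ ρ m z) ∧
    (∀ m, ∫ z, ρ m z = 1) ∧ (∀ (m : ℕ) z, 1 / ((m : ℝ) + 1) < ‖z‖ → ρ m z = 0) ∧
    (∀ m (c : ℂ) z, ‖c‖ = 1 → ρ m (c • z) = ρ m z) ∧ (∀ m z, ρ m (-z) = ρ m z) := by
  set F : ℕ → Cn n → ℝ := fun m z => Real.smoothTransition (1 - ((m : ℝ) + 1) ^ 2 * nsq z) with hF
  have hsm : ∀ m, ContDiff ℝ ∞ (F m) := fun m =>
    Real.smoothTransition.contDiff.comp (contDiff_const.sub (contDiff_const.mul em_smooth))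
  have h0 : ∀ m z, 0 ≤ F m z := fun m z => Real.smoothTransition.nonneg _
  have hz : ∀ (m : ℕ) z, 1 / ((m : ℝ) + 1) < ‖z‖ → F m z = 0 := by
    intro m z hz
    apply Real.smoothTransition.zero_of_nonpos
    have h1 := em_le_nsq z
    have hm : (0:ℝ) < (m : ℝ) + 1 := by positivity
    rw [div_lt_iff₀ hm] at hz
    have h2 : (1:ℝ) ≤ (‖z‖ * ((m : ℝ) + 1)) ^ 2 := one_le_pow₀ hz.le
    nlinarith [mul_le_mul_of_nonneg_left h1 (sq_nonneg ((m : ℝ) + 1))]
  have hc : ∀ m, HasCompactSupport (F m) := by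
    intro m
    apply HasCompactSupport.of_support_subset_isCompact
      (isCompact_closedBall (0 : Cn n) (1 / ((m : ℝ) + 1)))
    intro z hzz
    rw [mem_closedBall_zero_iff]
    by_contra hcon
    exact hzz (hz m z (not_le.mp hcon))
  have hpos : ∀ m, 0 < ∫ z, F m z := by
    intro m
    apply (hsm m).continuous.integral_pos_of_hasCompactSupport_nonneg_nonzero (hc m) (h0 m)
      (x := 0)
    have : F m 0 = 1 := by
      rw [hF]
      simp [nsq]
    rw [this]
    exact one_ne_zero
  have hcirc : ∀ m (c : ℂ) z, ‖c‖ = 1 → F m (c • z) = F m z := by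
    intro m c z hc
    have : nsq (c • z) = nsq z := by
      unfold nsq
      apply Finset.sum_congr rfl
      intro i _
      rw [Pi.smul_apply, norm_smul, hc, one_mul]
    simp only [hF, this]
  refine ⟨fun m z => F m z / ∫ y, F m y, fun m => (hsm m).div_const _, fun m z =>
    div_nonneg (h0 m z) (hpos m).le, fun m => ?_, fun m z hh => ?_, fun m c z hh => ?_, fun m z => ?_⟩
  · rw [integral_div]
    exact div_self (hpos m).ne'
  · show F m z / _ = 0
    rw [hz m z hh, zero_div]
  · show F m (c • z) / _ = F m z / _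
    rw [hcirc m c z hh]
  · show F m (-z) / _ = F m z / _
    have := hcirc m (-1) z (by simp)
    rw [neg_one_smul] at this
    rw [this]

end J_exists_moll

alias exists_moll := J_exists_moll.exists_moll

namespace J_moll_L2

/-- auxiliary: continuity of translations in `L²` -/
theorem mL_trans {n : ℕ} (f : Cn n → ℂ) (hf : MemLp f 2 volume) :
    Tendsto (fun y : Cn n => eLpNorm (fun z => f (z - y) - f z) 2 volume) (𝓝 0) (𝓝 0) := by
  have hmp : ∀ y : Cn n, MeasurePreserving (fun z : Cn n => z - y) volume volume :=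
    fun y => measurePreserving_sub_right volume y
  let G : Cn n → C(Cn n, Cn n) := fun y => ⟨fun z => z - y, by fun_prop⟩
  have hG : Continuous G := by
    refine ContinuousMap.continuous_of_continuous_uncurry _ ?_
    simp only [G, Function.uncurry_def, ContinuousMap.coe_mk]
    fun_prop
  have hc : Continuous (fun y : Cn n => Lp.compMeasurePreserving (G y) (hmp y) (hf.toLp f)) :=
    Continuous.compMeasurePreservingLp continuous_const hG (fun y => hmp y) (by simp)
  have h0 : Tendsto (fun y : Cn n => edist (Lp.compMeasurePreserving (G y) (hmp y) (hf.toLp f)) (hf.toLp f))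
      (𝓝 0) (𝓝 0) := by
    have h1 := (hc.edist (continuous_const (y := hf.toLp f))).tendsto (0 : Cn n)
    have h2 : edist (Lp.compMeasurePreserving (G 0) (hmp 0) (hf.toLp f)) (hf.toLp f) = 0 := by
      rw [Lp.toLp_compMeasurePreserving, Lp.edist_toLp_toLp]
      have h3 : (f ∘ (G 0) - f) = 0 := by
        ext z
        simp [G]
      rw [h3]
      simp
    rw [h2] at h1
    exact h1
  refine h0.congr fun y => ?_
  rw [Lp.toLp_compMeasurePreserving, Lp.edist_toLp_toLp]
  rfl

/-- auxiliary: Jensen -/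
theorem mL_jensen {α : Type*} [MeasurableSpace α] (μ : Measure α) (r g : α → ENNReal)
    (hr : Measurable r) (hr1 : ∫⁻ y, r y ∂μ = 1) (hg : Measurable g) :
    (∫⁻ y, r y * g y ∂μ) ^ (2 : ℝ) ≤ ∫⁻ y, r y * g y ^ (2 : ℝ) ∂μ := by
  have h22 : (2 : ℝ).HolderConjugate 2 := by
    rw [Real.holderConjugate_iff]; norm_num
  have h1 := ENNReal.lintegral_mul_le_Lp_mul_Lq (μ.withDensity r) h22
    (f := fun _ => 1) (g := g) aemeasurable_const hg.aemeasurable
  have h2 : ∫⁻ a, ((fun _ : α => (1 : ENNReal)) * g) a ∂(μ.withDensity r) = ∫⁻ y, r y * g y ∂μ := by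
    rw [lintegral_withDensity_eq_lintegral_mul μ hr (measurable_const.mul hg)]
    refine lintegral_congr fun a => ?_
    simp
  have h3 : ∫⁻ a : α, ((fun _ : α => (1 : ENNReal)) a) ^ (2 : ℝ) ∂(μ.withDensity r) = 1 := by
    simp only [ENNReal.one_rpow]
    rw [lintegral_withDensity_eq_lintegral_mul μ hr measurable_const]
    simpa using hr1
  have h4 : ∫⁻ a, (g a) ^ (2 : ℝ) ∂(μ.withDensity r) = ∫⁻ y, r y * g y ^ (2 : ℝ) ∂μ := by
    rw [lintegral_withDensity_eq_lintegral_mul μ hr (hg.pow_const _)]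
    rfl
  rw [h2, h3, h4, ENNReal.one_rpow, one_mul] at h1
  calc (∫⁻ y, r y * g y ∂μ) ^ (2 : ℝ) ≤ ((∫⁻ y, r y * g y ^ (2 : ℝ) ∂μ) ^ (1 / (2 : ℝ))) ^ (2 : ℝ) :=
        ENNReal.rpow_le_rpow h1 (by norm_num)
    _ = _ := by rw [← ENNReal.rpow_mul]; norm_num

/-- auxiliary: the main estimate, for a strongly measurable function -/
theorem mL_est {n : ℕ} (ρ : Cn n → ℝ) (h1 : Continuous ρ) (h2 : ∀ z, 0 ≤ ρ z)
    (h3 : ∫ z, ρ z = 1) (hcs : HasCompactSupport ρ) (δ : ℝ) (h4 : ∀ z, δ < ‖z‖ → ρ z = 0)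
    (f : Cn n → ℂ) (hf : MemLp f 2 volume) (hfm : StronglyMeasurable f) (ε : ENNReal)
    (hε : ∀ y : Cn n, ‖y‖ ≤ δ → eLpNorm (fun z => f (z - y) - f z) 2 volume ≤ ε) :
    eLpNorm (fun z => (∫ y, (ρ (z - y) : ℂ) * f y) - f z) 2 volume ≤ ε := by
  have hint : Integrable ρ := h1.integrable_of_hasCompactSupport hcs
  have hr1 : ∫⁻ y, ENNReal.ofReal (ρ y) = 1 := by
    rw [← ofReal_integral_eq_lintegral_ofReal hint (Filter.Eventually.of_forall h2), h3]
    simp
  have hloc : LocallyIntegrable f volume := hf.locallyIntegrable (by norm_num)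
  have key : ∀ z, (∫ y, (ρ (z - y) : ℂ) * f y) - f z = ∫ y, (ρ y : ℂ) * (f (z - y) - f z) := by
    intro z
    have e1 : Integrable (fun y => (ρ (z - y) : ℂ) * f y) := by
      have := hloc.integrable_smul_left_of_hasCompactSupport (g := fun y => ρ (z - y))
        (by fun_prop) (hcs.comp_homeomorph (Homeomorph.subLeft z))
      simpa [Complex.real_smul] using this
    have e2 : Integrable (fun y => (ρ y : ℂ) * f (z - y)) := by
      have := e1.comp_sub_left z
      simpa using this
    have e3 : Integrable (fun y => (ρ y : ℂ) * f z) := by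
      exact (hint.ofReal (𝕜 := ℂ)).mul_const _
    have e4 : ∫ y, (ρ (z - y) : ℂ) * f y = ∫ y, (ρ y : ℂ) * f (z - y) := by
      rw [← integral_sub_left_eq_self _ volume z]
      simp
    have e5 : ∫ y, (ρ y : ℂ) * f z = f z := by
      rw [integral_mul_const, integral_complex_ofReal, h3]
      simp
    simp_rw [mul_sub]
    rw [integral_sub e2 e3, e5, e4]
  simp_rw [key]
  have hF2 : ∀ g : Cn n → ℂ, eLpNorm g 2 volume = (∫⁻ x, ‖g x‖ₑ ^ (2 : ℝ)) ^ (1 / (2 : ℝ)) := by
    intro g
    rw [eLpNorm_eq_lintegral_rpow_enorm_toReal (by norm_num) (by norm_num)]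
    simp
  rw [hF2]
  have hmeas : Measurable (fun p : Cn n × Cn n => ENNReal.ofReal (ρ p.2) * ‖f (p.1 - p.2) - f p.1‖ₑ ^ (2 : ℝ)) := by
    have m1 : Measurable (fun p : Cn n × Cn n => ENNReal.ofReal (ρ p.2)) :=
      ENNReal.measurable_ofReal.comp (h1.measurable.comp measurable_snd)
    have m2 : Measurable (fun p : Cn n × Cn n => f (p.1 - p.2) - f p.1) :=
      (hfm.measurable.comp (measurable_fst.sub measurable_snd)).sub (hfm.measurable.comp measurable_fst)
    exact m1.mul (m2.enorm.pow_const _)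
  have hbound : ∫⁻ z, ‖∫ y, (ρ y : ℂ) * (f (z - y) - f z)‖ₑ ^ (2 : ℝ) ≤ ε ^ (2 : ℝ) := by
    calc ∫⁻ z, ‖∫ y, (ρ y : ℂ) * (f (z - y) - f z)‖ₑ ^ (2 : ℝ)
        ≤ ∫⁻ z, ∫⁻ y, ENNReal.ofReal (ρ y) * ‖f (z - y) - f z‖ₑ ^ (2 : ℝ) := by
          refine lintegral_mono fun z => ?_
          have a1 : ‖∫ y, (ρ y : ℂ) * (f (z - y) - f z)‖ₑ ≤ ∫⁻ y, ENNReal.ofReal (ρ y) * ‖f (z - y) - f z‖ₑ := by
            refine (enorm_integral_le_lintegral_enorm _).trans (le_of_eq ?_)
            refine lintegral_congr fun y => ?_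
            rw [enorm_mul]
            congr 1
            rw [← ofReal_norm, Complex.norm_real, Real.norm_of_nonneg (h2 y)]
          refine (ENNReal.rpow_le_rpow a1 (by norm_num)).trans ?_
          refine mL_jensen volume _ _ (ENNReal.measurable_ofReal.comp h1.measurable) hr1 ?_
          exact ((hfm.measurable.comp (measurable_const.sub measurable_id)).sub measurable_const).enorm
      _ = ∫⁻ y, ∫⁻ z, ENNReal.ofReal (ρ y) * ‖f (z - y) - f z‖ₑ ^ (2 : ℝ) :=
          lintegral_lintegral_swap hmeas.aemeasurable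
      _ ≤ ∫⁻ y, ENNReal.ofReal (ρ y) * ε ^ (2 : ℝ) := by
          refine lintegral_mono fun y => ?_
          simp only
          by_cases hy : δ < ‖y‖
          · simp [h4 y hy]
          · have b1 := hε y (not_lt.1 hy)
            rw [hF2] at b1
            rw [lintegral_const_mul' _ _ ENNReal.ofReal_ne_top]
            refine mul_le_mul_right ?_ _
            have b2 := ENNReal.rpow_le_rpow b1 (show (0 : ℝ) ≤ 2 by norm_num)
            rw [← ENNReal.rpow_mul] at b2
            norm_num at b2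
            simpa using b2
      _ = ε ^ (2 : ℝ) := by
          have hm0 : Measurable (fun y => ENNReal.ofReal (ρ y)) := ENNReal.measurable_ofReal.comp h1.measurable
          rw [lintegral_mul_const _ hm0, hr1, one_mul]
  have := ENNReal.rpow_le_rpow hbound (show (0 : ℝ) ≤ 1 / 2 by norm_num)
  refine this.trans (le_of_eq ?_)
  rw [← ENNReal.rpow_mul]
  norm_num

/-- mollification converges in `L²` -/
theorem moll_L2 {n : ℕ} (ρ : ℕ → Cn n → ℝ) (h1 : ∀ m, ContDiff ℝ ∞ (ρ m)) (h2 : ∀ m z, 0 ≤ ρ m z)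
    (h3 : ∀ m, ∫ z, ρ m z = 1) (h4 : ∀ (m : ℕ) z, 1 / ((m : ℝ) + 1) < ‖z‖ → ρ m z = 0)
    (f : Cn n → ℂ) (hf : MemLp f 2 volume) :
    Tendsto (fun m => eLpNorm (fun z => (∫ y, (ρ m (z - y) : ℂ) * f y) - f z) 2 volume)
      atTop (𝓝 0) := by
  classical
  set g : Cn n → ℂ := hf.1.mk f with hgdef
  have hgm : StronglyMeasurable g := hf.1.stronglyMeasurable_mk
  have hfg : f =ᵐ[volume] g := hf.1.ae_eq_mk
  have hg : MemLp g 2 volume := hf.ae_eq hfg
  have heq : ∀ m, eLpNorm (fun z => (∫ y, (ρ m (z - y) : ℂ) * f y) - f z) 2 volume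
      = eLpNorm (fun z => (∫ y, (ρ m (z - y) : ℂ) * g y) - g z) 2 volume := by
    intro m
    refine eLpNorm_congr_ae ?_
    filter_upwards [hfg] with z hz
    rw [hz]
    congr 1
    refine integral_congr_ae ?_
    filter_upwards [hfg] with y hy
    rw [hy]
  simp_rw [heq]
  rw [ENNReal.tendsto_nhds_zero]
  intro ε hε
  have ht := ENNReal.tendsto_nhds_zero.1 (mL_trans g hg) ε hε
  rw [Metric.eventually_nhds_iff_ball] at ht
  obtain ⟨δ, hδ, hb⟩ := ht
  have hlim : Tendsto (fun m : ℕ => 1 / ((m : ℝ) + 1)) atTop (𝓝 0) := tendsto_one_div_add_atTop_nhds_zero_nat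
  filter_upwards [hlim.eventually (gt_mem_nhds hδ)] with m hm
  have hcs : HasCompactSupport (ρ m) := by
    refine HasCompactSupport.intro (isCompact_closedBall (0 : Cn n) (1 / ((m : ℝ) + 1))) ?_
    intro x hx
    refine h4 m x ?_
    simpa using hx
  refine mL_est (ρ m) (h1 m).continuous (h2 m) (h3 m) hcs _ (h4 m) g hg hgm ε ?_
  intro y hy
  refine hb y ?_
  simpa using lt_of_le_of_lt hy hm

end J_moll_L2

alias moll_L2 := J_moll_L2.moll_L2

namespace J_moll_approx

theorem m_fd {n : ℕ} (G : Cn n → ℂ) (hG : ContDiff ℝ ∞ G) (z y v : Cn n) :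
    fderiv ℝ (fun y => G (z - y)) y v = - fderiv ℝ G (z - y) v := by
  have h1 : HasFDerivAt G (fderiv ℝ G (z - y)) (z - y) :=
    ((ContDiff.differentiable (𝕜 := ℝ) hG (by simp)) (z - y)).hasFDerivAt
  have h2 : HasFDerivAt (fun y : Cn n => z - y) (-(ContinuousLinearMap.id ℝ (Cn n))) y := by
    simpa using (hasFDerivAt_id (𝕜 := ℝ) y).const_sub z
  have h3 := h1.comp y h2
  have h4 : fderiv ℝ (fun y => G (z - y)) y
      = (fderiv ℝ G (z - y)).comp (-(ContinuousLinearMap.id ℝ (Cn n))) := h3.fderiv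
  rw [h4]
  simp

theorem m_dz {n : ℕ} (G : Cn n → ℂ) (hG : ContDiff ℝ ∞ G) (j : Fin n) (z y : Cn n) :
    dz j (fun y => G (z - y)) y = - dz j G (z - y) ∧
    dzb j (fun y => G (z - y)) y = - dzb j G (z - y) := by
  unfold dz dzb
  rw [m_fd G hG, m_fd G hG]
  constructor <;> ring

theorem m_cs {n : ℕ} (G : Cn n → ℂ) (hGc : HasCompactSupport G) (z : Cn n) :
    HasCompactSupport (fun y => G (z - y)) :=
  hGc.comp_homeomorph (Homeomorph.subLeft z)

theorem m_tst {n : ℕ} (G : Cn n → ℂ) (hG : Tst G) (z : Cn n) : Tst (fun y => G (z - y)) :=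
  ⟨hG.1.comp (contDiff_const.sub contDiff_id), m_cs G hG.2 z⟩

theorem m_int {n : ℕ} (G : Cn n → ℂ) (hG : Continuous G) (hGc : HasCompactSupport G)
    (f : Cn n → ℂ) (hf : MemLp f 2 volume) (z : Cn n) :
    Integrable (fun y => G (z - y) * f y) volume := by
  have h1 : Continuous (fun y => G (z - y)) := hG.comp (continuous_const.sub continuous_id)
  exact (h1.memLp_of_hasCompactSupport (p := 2) (m_cs G hGc z)).integrable_mul hf

theorem m_conv {n : ℕ} (G : Cn n → ℂ) (hG : Tst G) (f : Cn n → ℂ) (hf : MemLp f 2 volume) :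
    ContDiff ℝ ∞ (fun z => ∫ y, G (z - y) * f y) ∧
    (∀ z v, fderiv ℝ (fun z => ∫ y, G (z - y) * f y) z v
      = ∫ y, fderiv ℝ G (z - y) v * f y) := by
  have hfl : LocallyIntegrable f volume := hf.locallyIntegrable (by norm_num)
  have heq : (fun z => ∫ y, G (z - y) * f y)
      = (MeasureTheory.convolution f G (ContinuousLinearMap.mul ℝ ℂ) volume) := by
    funext z
    rw [convolution_def]
    congr 1; funext y
    simp [mul_comm]
  refine ⟨?_, ?_⟩
  · rw [heq]
    exact hG.2.contDiff_convolution_right _ hfl hG.1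
  · intro z v
    rw [heq, (hG.2.hasFDerivAt_convolution_right _ hfl (hG.1.of_le (by simp)) z).fderiv,
      convolution_precompR_apply _ hfl (hG.2.fderiv ℝ) (hG.1.continuous_fderiv (by simp)),
      convolution_def]
    congr 1; funext y; simp [mul_comm]

theorem m_dzconv {n : ℕ} (G : Cn n → ℂ) (hG : Tst G) (f : Cn n → ℂ) (hf : MemLp f 2 volume)
    (j : Fin n) (z : Cn n) :
    dz j (fun z => ∫ y, G (z - y) * f y) z = ∫ y, dz j G (z - y) * f y ∧
    dzb j (fun z => ∫ y, G (z - y) * f y) z = ∫ y, dzb j G (z - y) * f y := by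
  have hi : ∀ v, Integrable (fun y => fderiv ℝ G (z - y) v * f y) volume := by
    intro v
    apply m_int (fun y => fderiv ℝ G y v) _ _ f hf z
    · exact (hG.1.continuous_fderiv (by simp)).clm_apply continuous_const
    · exact hG.2.fderiv_apply ℝ v
  unfold dz dzb
  rw [(m_conv G hG f hf).2, (m_conv G hG f hf).2]
  constructor
  · rw [← integral_const_mul, ← integral_sub (hi _) ((hi _).const_mul _), ← integral_const_mul]
    congr 1; funext y; ring
  · rw [← integral_const_mul, ← integral_add (hi _) ((hi _).const_mul _), ← integral_const_mul]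
    congr 1; funext y; ring

/-- smooth approximation of compactly supported forms with weak derivatives in `L²` -/
theorem moll_approx {n : ℕ} (β : Fin n → Cn n → ℂ) (c : Fin n → Fin n → Cn n → ℂ) (d : Cn n → ℂ)
    (hβ : ∀ j, MemLp (β j) 2 volume) (hc : ∀ j k, MemLp (c j k) 2 volume) (hd : MemLp d 2 volume)
    (K : Set (Cn n)) (hK : IsCompact K) (hKβ : ∀ j z, z ∉ K → β j z = 0)
    (hwc : ∀ j k g, Tst g → ∫ z, (β k z * dzb j g z - β j z * dzb k g z) = - ∫ z, c j k z * g z)
    (hwd : ∀ g, Tst g → ∫ z, (∑ j, β j z * dz j g z) = - ∫ z, d z * g z) :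
    ∃ b : ℕ → Fin n → Cn n → ℂ, ∃ K' : Set (Cn n), IsCompact K' ∧ (∀ m j, ContDiff ℝ ∞ (b m j)) ∧
      (∀ m j z, z ∉ K' → b m j z = 0) ∧
      (∀ j, Tendsto (fun m => eLpNorm (fun z => b m j z - β j z) 2 volume) atTop (𝓝 0)) ∧
      (∀ j k, Tendsto (fun m => eLpNorm (fun z => dzb j (b m k) z - dzb k (b m j) z - c j k z)
        2 volume) atTop (𝓝 0)) ∧
      Tendsto (fun m => eLpNorm (fun z => (∑ j, dz j (b m j) z) - d z) 2 volume) atTop (𝓝 0) := by
  obtain ⟨ρ, h1, h2, h3, h4, -, -⟩ := exists_moll n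
  have hT : ∀ m, Tst (fun z => (ρ m z : ℂ)) := by
    intro m
    refine ⟨Complex.ofRealCLM.contDiff.comp (h1 m), ?_⟩
    apply HasCompactSupport.intro (isCompact_closedBall (0 : Cn n) 1)
    intro z hz
    rw [mem_closedBall_zero_iff, not_le] at hz
    have : 1 / ((m : ℝ) + 1) ≤ 1 := by
      rw [div_le_one (by positivity)]
      have : (0 : ℝ) ≤ m := Nat.cast_nonneg m
      linarith
    rw [h4 m z (lt_of_le_of_lt this hz)]
    simp
  refine ⟨fun m j z => ∫ y, (ρ m (z - y) : ℂ) * β j y, (fun p : Cn n × Cn n => p.1 + p.2) '' (K ×ˢ Metric.closedBall 0 1),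
    (hK.prod (isCompact_closedBall _ _)).image (continuous_fst.add continuous_snd), ?_, ?_, ?_, ?_, ?_⟩
  · intro m j
    exact (m_conv _ (hT m) (β j) (hβ j)).1
  · intro m j z hz
    have : ∀ y, (ρ m (z - y) : ℂ) * β j y = 0 := by
      intro y
      by_cases hy : y ∈ K
      · have hzy : 1 < ‖z - y‖ := by
          by_contra hle
          apply hz
          rw [not_lt] at hle
          refine ⟨(y, z - y), ⟨hy, ?_⟩, by simp⟩
          show z - y ∈ Metric.closedBall 0 1
          rw [mem_closedBall_zero_iff]; exact hle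
        have : 1 / ((m : ℝ) + 1) ≤ 1 := by
          rw [div_le_one (by positivity)]
          have : (0 : ℝ) ≤ m := Nat.cast_nonneg m
          linarith
        rw [h4 m _ (lt_of_le_of_lt this hzy)]
        simp
      · rw [hKβ j y hy, mul_zero]
    simp only [this, integral_zero]
  · intro j
    exact moll_L2 ρ h1 h2 h3 h4 (β j) (hβ j)
  · intro j k
    have key : ∀ m z, dzb j (fun z => ∫ y, (ρ m (z - y) : ℂ) * β k y) z
        - dzb k (fun z => ∫ y, (ρ m (z - y) : ℂ) * β j y) z
        = ∫ y, (ρ m (z - y) : ℂ) * c j k y := by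
      intro m z
      set G : Cn n → ℂ := fun z => (ρ m z : ℂ) with hGdef
      have hG : Tst G := hT m
      have hh := hwc j k (fun y => G (z - y)) (m_tst G hG z)
      have e1 := (m_dzconv G hG (β k) (hβ k) j z).2
      have e2 := (m_dzconv G hG (β j) (hβ j) k z).2
      have e1' : dzb j (fun z => ∫ y, (ρ m (z - y) : ℂ) * β k y) z
        = ∫ y, dzb j G (z - y) * β k y := e1
      have e2' : dzb k (fun z => ∫ y, (ρ m (z - y) : ℂ) * β j y) z
        = ∫ y, dzb k G (z - y) * β j y := e2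
      rw [e1', e2']
      have i1 : Integrable (fun y => dzb j G (z - y) * β k y) volume :=
        m_int _ (tst_dz j G hG).2.1.continuous (tst_dz j G hG).2.2 _ (hβ k) z
      have i2 : Integrable (fun y => dzb k G (z - y) * β j y) volume :=
        m_int _ (tst_dz k G hG).2.1.continuous (tst_dz k G hG).2.2 _ (hβ j) z
      rw [← integral_sub i1 i2]
      have e3 : (fun y => dzb j G (z - y) * β k y - dzb k G (z - y) * β j y)
          = fun y => - (β k y * dzb j (fun y => G (z - y)) y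
            - β j y * dzb k (fun y => G (z - y)) y) := by
        funext y
        rw [(m_dz G hG.1 j z y).2, (m_dz G hG.1 k z y).2]
        ring
      rw [e3, integral_neg, hh, neg_neg]
      congr 1; funext y; rw [mul_comm]
    simp only [key]
    exact moll_L2 ρ h1 h2 h3 h4 (c j k) (hc j k)
  · have key : ∀ m z, ∑ j, dz j (fun z => ∫ y, (ρ m (z - y) : ℂ) * β j y) z
        = ∫ y, (ρ m (z - y) : ℂ) * d y := by
      intro m z
      set G : Cn n → ℂ := fun z => (ρ m z : ℂ) with hGdef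
      have hG : Tst G := hT m
      have hh := hwd (fun y => G (z - y)) (m_tst G hG z)
      have e1' : ∀ j, dz j (fun z => ∫ y, (ρ m (z - y) : ℂ) * β j y) z
        = ∫ y, dz j G (z - y) * β j y := fun j => (m_dzconv G hG (β j) (hβ j) j z).1
      simp only [e1']
      have i1 : ∀ j, Integrable (fun y => dz j G (z - y) * β j y) volume := fun j =>
        m_int _ (tst_dz j G hG).1.1.continuous (tst_dz j G hG).1.2 _ (hβ j) z
      rw [← integral_finsetSum _ (fun j _ => i1 j)]
      have e3 : (fun y => ∑ j, dz j G (z - y) * β j y)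
          = fun y => - (∑ j, β j y * dz j (fun y => G (z - y)) y) := by
        funext y
        rw [← Finset.sum_neg_distrib]
        apply Finset.sum_congr rfl
        intro j _
        rw [(m_dz G hG.1 j z y).1]
        ring
      rw [e3, integral_neg, hh, neg_neg]
      congr 1; funext y; rw [mul_comm]
    simp only [key]
    exact moll_L2 ρ h1 h2 h3 h4 d hd

end J_moll_approx

alias moll_approx := J_moll_approx.moll_approx

end Pool.Agent.Helper192.Syn
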