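import Pool.Agent.Helper192.Syn.H1b

/-! the basic inequality for weak forms -/

set_option linter.all false

open MeasureTheory Set Filter Topology Complex
open scoped BigOperators ContDiff ComplexConjugate

namespace Pool.Agent.Helper192.Syn

namespace J_weak_ineq_compact

theorem wi_sq_tendsto {n : ℕ} (g : ℕ → Cn n → ℂ) (hg : ∀ m, MemLp (g m) 2 volume)
    (h : Tendsto (fun m => eLpNorm (g m) 2 volume) atTop (𝓝 0)) :
    Tendsto (fun m => ∫ z, ‖g m z‖ ^ 2) atTop (𝓝 0) := by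
  have h1 : ∀ m, ∫ z, ‖g m z‖ ^ 2 = (eLpNorm (g m) 2 volume).toReal ^ 2 := by
    intro m
    rw [(hg m).eLpNorm_eq_integral_rpow_norm (by norm_num) (by norm_num)]
    have h0 : 0 ≤ ∫ z, ‖g m z‖ ^ (2:ℝ) := integral_nonneg fun z => by positivity
    simp only [ENNReal.toReal_ofNat]
    rw [ENNReal.toReal_ofReal (by positivity), ← Real.rpow_natCast, ← Real.rpow_mul h0]
    norm_num
  simp only [h1]
  have h2 : Tendsto (fun m => (eLpNorm (g m) 2 volume).toReal) atTop (𝓝 0) := by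
    have := (ENNReal.tendsto_toReal ENNReal.zero_ne_top).comp h
    simpa [Function.comp_def] using this
  simpa using h2.pow 2

theorem wi_int {n : ℕ} (W : Cn n → ℝ) (hW : Continuous W) (K : Set (Cn n)) (hK : IsCompact K)
    (f : Cn n → ℂ) (hf : MemLp f 2 volume) (hz : ∀ z, z ∉ K → f z = 0) :
    Integrable (fun z => W z * ‖f z‖ ^ 2) := by
  obtain ⟨C, hC⟩ := hK.exists_bound_of_continuousOn hW.continuousOn
  have h2 : Integrable (fun z => ‖f z‖ ^ 2) := hf.integrable_norm_pow (by norm_num)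
  refine Integrable.mono' (h2.const_mul (|C|)) (hW.aestronglyMeasurable.mul
    h2.aestronglyMeasurable) (Eventually.of_forall fun z => ?_)
  by_cases hzK : z ∈ K
  · rw [norm_mul, norm_pow, norm_norm]
    exact mul_le_mul_of_nonneg_right ((hC z hzK).trans (le_abs_self C)) (by positivity)
  · rw [hz z hzK]
    simp

theorem wi_lim {n : ℕ} (W : Cn n → ℝ) (hW : Continuous W) (K : Set (Cn n)) (hK : IsCompact K)
    (f : ℕ → Cn n → ℂ) (f0 : Cn n → ℂ) (hf : ∀ m, MemLp (f m) 2 volume)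
    (hf0 : MemLp f0 2 volume) (hz : ∀ m z, z ∉ K → f m z = 0) (hz0 : ∀ z, z ∉ K → f0 z = 0)
    (h : Tendsto (fun m => eLpNorm (fun z => f m z - f0 z) 2 volume) atTop (𝓝 0)) :
    Tendsto (fun m => ∫ z, W z * ‖f m z‖ ^ 2) atTop (𝓝 (∫ z, W z * ‖f0 z‖ ^ 2)) := by
  obtain ⟨C', hC'⟩ := hK.exists_bound_of_continuousOn hW.continuousOn
  set C : ℝ := max C' 1 with hCd
  have hC1 : 1 ≤ C := le_max_right _ _
  have hC : ∀ z ∈ K, |W z| ≤ C := fun z hz => (hC' z hz).trans (le_max_left _ _)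
  have hdm : ∀ m, MemLp (fun z => f m z - f0 z) 2 volume := fun m => (hf m).sub hf0
  have hB := wi_sq_tendsto _ hdm h
  set A : ℝ := ∫ z, ‖f0 z‖ ^ 2 with hA
  have hA0 : 0 ≤ A := integral_nonneg fun z => by positivity
  have hi0 : Integrable (fun z => ‖f0 z‖ ^ 2) := hf0.integrable_norm_pow (by norm_num)
  rw [Metric.tendsto_atTop]
  intro ε hε
  set η : ℝ := ε / (2 * C * (A + 1)) with hη
  have hηp : 0 < η := by positivity
  have hD : 0 < C * (1 + 1 / η) := by positivity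
  obtain ⟨N, hN⟩ := (Metric.tendsto_atTop.mp hB) (ε / 2 / (C * (1 + 1 / η))) (by positivity)
  refine ⟨N, fun m hm => ?_⟩
  have hNm := hN m hm
  rw [Real.dist_eq, sub_zero] at hNm
  have hBm := le_abs_self (∫ z, ‖f m z - f0 z‖ ^ 2)
  have him : Integrable (fun z => ‖f m z - f0 z‖ ^ 2) := (hdm m).integrable_norm_pow (by norm_num)
  rw [Real.dist_eq, ← integral_sub (wi_int W hW K hK _ (hf m) (hz m))
    (wi_int W hW K hK _ hf0 hz0)]
  have key : |∫ z, (W z * ‖f m z‖ ^ 2 - W z * ‖f0 z‖ ^ 2)| ≤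
      ∫ z, (C * η * ‖f0 z‖ ^ 2 + C * (1 + 1 / η) * ‖f m z - f0 z‖ ^ 2) := by
    rw [← Real.norm_eq_abs]
    refine norm_integral_le_of_norm_le ((hi0.const_mul _).add (him.const_mul _))
      (Eventually.of_forall fun z => ?_)
    by_cases hzK : z ∈ K
    · rw [← mul_sub, norm_mul, Real.norm_eq_abs, Real.norm_eq_abs]
      set a := ‖f m z‖
      set b := ‖f0 z‖
      set e := ‖f m z - f0 z‖
      have h1 : |a - b| ≤ e := abs_norm_sub_norm_le _ _
      have ha0 : 0 ≤ a := norm_nonneg _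
      have hb0 : 0 ≤ b := norm_nonneg _
      have he0 : 0 ≤ e := norm_nonneg _
      have h2 : |a ^ 2 - b ^ 2| ≤ η * b ^ 2 + (1 + 1 / η) * e ^ 2 := by
        have e1 : a ^ 2 - b ^ 2 = (a - b) ^ 2 + 2 * b * (a - b) := by ring
        have h3 : |a ^ 2 - b ^ 2| ≤ e ^ 2 + 2 * b * e := by
          rw [e1]
          refine (abs_add_le _ _).trans (add_le_add ?_ ?_)
          · rw [abs_of_nonneg (sq_nonneg _), ← sq_abs]
            exact pow_le_pow_left₀ (abs_nonneg _) h1 2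
          · rw [abs_mul, abs_of_nonneg (by positivity : (0:ℝ) ≤ 2 * b)]
            exact mul_le_mul_of_nonneg_left h1 (by positivity)
        have h4 : 2 * b * e ≤ η * b ^ 2 + (1 / η) * e ^ 2 := by
          have h5 : 0 ≤ (η * b - e) ^ 2 / η := by positivity
          have h6 : (η * b - e) ^ 2 / η = η * b ^ 2 + (1 / η) * e ^ 2 - 2 * b * e := by
            field_simp
            ring
          linarith
        linarith
      calc |W z| * |a ^ 2 - b ^ 2| ≤ C * (η * b ^ 2 + (1 + 1 / η) * e ^ 2) :=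
            mul_le_mul (hC z hzK) h2 (abs_nonneg _) (by linarith)
        _ = _ := by ring
    · rw [hz m z hzK, hz0 z hzK]
      simp
  have e2 : ∫ z, (C * η * ‖f0 z‖ ^ 2 + C * (1 + 1 / η) * ‖f m z - f0 z‖ ^ 2) =
      C * η * A + C * (1 + 1 / η) * ∫ z, ‖f m z - f0 z‖ ^ 2 := by
    rw [integral_add (hi0.const_mul _) (him.const_mul _), integral_const_mul, integral_const_mul]
  rw [e2] at key
  have h7 : C * η * A < ε / 2 := by
    have : C * η * A = ε / 2 * (A / (A + 1)) := by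
      rw [hη]
      field_simp
    rw [this]
    have h8 : A / (A + 1) < 1 := by
      rw [div_lt_one (by positivity)]
      linarith
    nlinarith
  have h9 : C * (1 + 1 / η) * ∫ z, ‖f m z - f0 z‖ ^ 2 ≤ ε / 2 := by
    have h10 : ∫ z, ‖f m z - f0 z‖ ^ 2 ≤ ε / 2 / (C * (1 + 1 / η)) := (hBm.trans_lt hNm).le
    calc C * (1 + 1 / η) * ∫ z, ‖f m z - f0 z‖ ^ 2 ≤
        C * (1 + 1 / η) * (ε / 2 / (C * (1 + 1 / η))) := mul_le_mul_of_nonneg_left h10 hD.le
      _ = ε / 2 := by field_simp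
  linarith

theorem wi_bdd {n : ℕ} (p f : Cn n → ℂ) (hp : Continuous p) (K : Set (Cn n)) (hK : IsCompact K)
    (hf : MemLp f 2 volume) (hz : ∀ z, z ∉ K → f z = 0) :
    ∃ C : ℝ, 0 ≤ C ∧ (∀ z ∈ K, ‖p z‖ ≤ C) ∧ MemLp (fun z => p z * f z) 2 volume := by
  obtain ⟨C, hC⟩ := hK.exists_bound_of_continuousOn hp.continuousOn
  refine ⟨|C|, abs_nonneg _, fun z hz => (hC z hz).trans (le_abs_self C), ?_⟩
  refine MemLp.of_le_mul (c := |C|) hf (hp.aestronglyMeasurable.mul hf.1)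
    (Eventually.of_forall fun z => ?_)
  by_cases hzK : z ∈ K
  · rw [norm_mul]
    exact mul_le_mul_of_nonneg_right ((hC z hzK).trans (le_abs_self C)) (norm_nonneg _)
  · rw [hz z hzK]
    simp

theorem wi_conj {n : ℕ} (j : Fin n) (h : Cn n → ℂ) (z : Cn n) (hd : DifferentiableAt ℝ h z) :
    conj (dzb j (fun y => conj (h y)) z) = dz j h z := by
  have h1 : HasFDerivAt (fun y => conj (h y))
      (((Complex.conjCLE : ℂ ≃L[ℝ] ℂ) : ℂ →L[ℝ] ℂ).comp (fderiv ℝ h z)) z :=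
    ((Complex.conjCLE : ℂ ≃L[ℝ] ℂ) : ℂ →L[ℝ] ℂ).hasFDerivAt.comp z hd.hasFDerivAt
  unfold dzb dz
  rw [h1.fderiv]
  simp
  rw [show (starRingEnd ℂ) 2 = 2 from map_ofNat _ 2]
  ring

theorem wi_mul {n : ℕ} (j : Fin n) (G E : Cn n → ℂ) (z : Cn n) (hG : DifferentiableAt ℝ G z)
    (hE : DifferentiableAt ℝ E z) :
    dz j (fun y => G y * E y) z = dz j G z * E z + G z * dz j E z := by
  unfold dz
  rw [fderiv_fun_mul hG hE]
  simp only [ContinuousLinearMap.add_apply, ContinuousLinearMap.smul_apply, smul_eq_mul]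
  ring

theorem wi_exp {n : ℕ} (j : Fin n) (ψ : Cn n → ℝ) (z : Cn n) (hψ : DifferentiableAt ℝ ψ z) :
    dz j (fun y => (Real.exp (ψ y) : ℂ)) z =
      (Real.exp (ψ z) : ℂ) * dz j (fun y => (ψ y : ℂ)) z := by
  have h1 : HasFDerivAt (fun y => ((Real.exp (ψ y) : ℝ) : ℂ))
      (Complex.ofRealCLM.comp (Real.exp (ψ z) • fderiv ℝ ψ z)) z :=
    Complex.ofRealCLM.hasFDerivAt.comp z hψ.hasFDerivAt.exp
  have h2 : HasFDerivAt (fun y => ((ψ y : ℝ) : ℂ))
      (Complex.ofRealCLM.comp (fderiv ℝ ψ z)) z :=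
    Complex.ofRealCLM.hasFDerivAt.comp z hψ.hasFDerivAt
  unfold dz
  rw [h1.fderiv, h2.fderiv]
  simp
  ring

/-- the basic inequality for compactly supported forms with weak derivatives -/
theorem weak_ineq_compact {n : ℕ} (ψ lam : Cn n → ℝ) (hψ : ContDiff ℝ ∞ ψ) (hlam : Continuous lam)
    (hL : ∀ z w, 4 * lam z * nsq w ≤ Lev ψ z w)
    (β : Fin n → Cn n → ℂ) (c : Fin n → Fin n → Cn n → ℂ) (b : Cn n → ℂ)
    (hβ : ∀ j, MemLp (β j) 2 volume) (hc : ∀ j k, MemLp (c j k) 2 volume) (hb : MemLp b 2 volume)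
    (K : Set (Cn n)) (hK : IsCompact K) (hKβ : ∀ j z, z ∉ K → β j z = 0)
    (hKc : ∀ j k z, z ∉ K → c j k z = 0) (hKb : ∀ z, z ∉ K → b z = 0)
    (hwc : ∀ j k g, Tst g → ∫ z, (β k z * dzb j g z - β j z * dzb k g z) = - ∫ z, c j k z * g z)
    (hwb : ∀ g, Tst g → ∫ z, (∑ j, β j z * conj (dzb j g z)) * (Real.exp (-ψ z) : ℂ)
      = ∫ z, b z * conj (g z) * (Real.exp (-ψ z) : ℂ)) :
    ∫ z, lam z * (∑ j, ‖β j z‖ ^ 2) * Real.exp (-ψ z)
      ≤ (∫ z, ‖b z‖ ^ 2 * Real.exp (-ψ z))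
        + (1 / 2) * ∑ j, ∑ k, ∫ z, ‖c j k z‖ ^ 2 * Real.exp (-ψ z) := by
  have hψc : ContDiff ℝ ∞ (fun y => (ψ y : ℂ)) := Complex.ofRealCLM.contDiff.comp hψ
  have hψd : Differentiable ℝ ψ := hψ.differentiable (by simp)
  set ps : Fin n → Cn n → ℂ := fun j => dz j (fun y => (ψ y : ℂ)) with hps
  have hpsc : ∀ j, Continuous (ps j) := fun j => (smooth_dz j _ hψc).1.continuous
  have hpβ : ∀ j, MemLp (fun z => ps j z * β j z) 2 volume := fun j => by
    obtain ⟨-, -, -, h⟩ := wi_bdd (ps j) (β j) (hpsc j) K hK (hβ j) (hKβ j)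
    exact h
  set Y : Cn n → ℂ := fun z => ∑ j, ps j z * β j z with hY
  have hYm : MemLp Y 2 volume := memLp_finset_sum _ fun j _ => hpβ j
  set d : Cn n → ℂ := fun z => Y z - b z with hd
  have hdm : MemLp d 2 volume := hYm.sub hb
  have hwd : ∀ g, Tst g → ∫ z, (∑ j, β j z * dz j g z) = - ∫ z, d z * g z := by
    intro G hG
    have hGd : Differentiable ℝ G := hG.1.differentiable (by simp)
    have hEc : ContDiff ℝ ∞ (fun y => (Real.exp (ψ y) : ℂ)) :=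
      Complex.ofRealCLM.contDiff.comp hψ.exp
    have hEd : Differentiable ℝ (fun y => (Real.exp (ψ y) : ℂ)) := hEc.differentiable (by simp)
    set g : Cn n → ℂ := fun y => conj (G y * (Real.exp (ψ y) : ℂ)) with hg
    have hgt : Tst g := by
      refine ⟨(Complex.conjCLE : ℂ →L[ℝ] ℂ).contDiff.comp (hG.1.mul hEc), ?_⟩
      exact (hG.2.mul_right (f' := fun y => (Real.exp (ψ y) : ℂ))).comp_left
        (g := fun x : ℂ => conj x) (by simp)
    have h1 := hwb g hgt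
    have hexp : ∀ z, (Real.exp (ψ z) : ℂ) * (Real.exp (-ψ z) : ℂ) = 1 := by
      intro z
      rw [← Complex.ofReal_mul, ← Real.exp_add]
      simp
    have e1 : ∀ z, (∑ j, β j z * conj (dzb j g z)) * (Real.exp (-ψ z) : ℂ) =
        (∑ j, β j z * dz j G z) + Y z * G z := by
      intro z
      simp only [hY]
      rw [Finset.sum_mul, Finset.sum_mul, ← Finset.sum_add_distrib]
      refine Finset.sum_congr rfl fun j _ => ?_
      rw [hg, wi_conj j (fun y => G y * (Real.exp (ψ y) : ℂ)) z ((hGd z).mul (hEd z)), wi_mul j G _ z (hGd z) (hEd z),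
        wi_exp j ψ z (hψd z)]
      calc β j z * (dz j G z * (Real.exp (ψ z) : ℂ) + G z * ((Real.exp (ψ z) : ℂ) *
            dz j (fun y => (ψ y : ℂ)) z)) * (Real.exp (-ψ z) : ℂ)
          = (β j z * dz j G z + ps j z * β j z * G z) *
            ((Real.exp (ψ z) : ℂ) * (Real.exp (-ψ z) : ℂ)) := by simp only [hps]; ring
        _ = _ := by rw [hexp, mul_one]
    have e2 : ∀ z, b z * conj (g z) * (Real.exp (-ψ z) : ℂ) = b z * G z := by
      intro z
      simp only [hg]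
      rw [Complex.conj_conj]
      calc b z * (G z * (Real.exp (ψ z) : ℂ)) * (Real.exp (-ψ z) : ℂ) =
          b z * G z * ((Real.exp (ψ z) : ℂ) * (Real.exp (-ψ z) : ℂ)) := by ring
        _ = _ := by rw [hexp, mul_one]
    simp only [e1, e2] at h1
    have hGm : MemLp G 2 volume := hG.1.continuous.memLp_of_hasCompactSupport hG.2
    have hYG : Integrable (fun z => Y z * G z) := hYm.integrable_mul hGm
    have hbG : Integrable (fun z => b z * G z) := hb.integrable_mul hGm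
    have hX : Integrable (fun z => ∑ j, β j z * dz j G z) := by
      refine integrable_finset_sum _ fun j _ => ?_
      have ht := (tst_dz j G hG).1
      have htm : MemLp (dz j G) 2 volume := ht.1.continuous.memLp_of_hasCompactSupport ht.2
      exact (hβ j).integrable_mul htm
    rw [integral_add hX hYG] at h1
    have e3 : ∫ z, d z * G z = (∫ z, Y z * G z) - ∫ z, b z * G z := by
      rw [← integral_sub hYG hbG]
      refine integral_congr_ae (Eventually.of_forall fun z => ?_)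
      simp only [hd]
      ring
    rw [e3]
    linear_combination h1
  obtain ⟨bm, K', hK', hbs, hbz, hbβ, hbc, hbd⟩ := moll_approx β c d hβ hc hdm K hK hKβ hwc hwd
  set L : Set (Cn n) := K ∪ K' with hL'
  have hLc : IsCompact L := hK.union hK'
  have hbT : ∀ m j, Tst (bm m j) := fun m j => ⟨hbs m j, HasCompactSupport.intro hK' fun z hz =>
    hbz m j z hz⟩
  have hmem : ∀ {g : Cn n → ℂ}, Tst g → MemLp g 2 volume := fun {g} hg =>
    hg.1.continuous.memLp_of_hasCompactSupport hg.2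
  have hzL : ∀ m j z, z ∉ L → bm m j z = 0 := fun m j z hz => hbz m j z fun h => hz (Or.inr h)
  have hβL : ∀ j z, z ∉ L → β j z = 0 := fun j z hz => hKβ j z fun h => hz (Or.inl h)
  have hcL : ∀ j k z, z ∉ L → c j k z = 0 := fun j k z hz => hKc j k z fun h => hz (Or.inl h)
  have hbL : ∀ z, z ∉ L → b z = 0 := fun z hz => hKb z fun h => hz (Or.inl h)
  have hexpc : Continuous (fun z => Real.exp (-ψ z)) := (hψ.continuous.neg).rexp
  -- derivatives vanish off `L`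
  have hK'o : ∀ z, z ∉ L → ∀ m j i, dz i (bm m j) z = 0 ∧ dzb i (bm m j) z = 0 := by
    intro z hz m j i
    have h1 : bm m j =ᶠ[𝓝 z] fun _ => 0 := by
      have h2 : Lᶜ ∈ 𝓝 z := hLc.isClosed.isOpen_compl.mem_nhds hz
      filter_upwards [h2] with y hy
      exact hzL m j y hy
    unfold dz dzb
    rw [h1.fderiv_eq]
    simp
  have hbasic : ∀ m, ∫ z, lam z * (∑ j, ‖bm m j z‖ ^ 2) * Real.exp (-ψ z)
      ≤ (∫ z, ‖∑ j, del ψ j (bm m j) z‖ ^ 2 * Real.exp (-ψ z))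
        + (1 / 2) * ∑ j, ∑ k, ∫ z, ‖dzb j (bm m k) z - dzb k (bm m j) z‖ ^ 2 *
          Real.exp (-ψ z) := fun m => basic_ineq ψ lam hψ hlam hL (bm m) (hbT m)
  -- left side
  have hW : Continuous (fun z => lam z * Real.exp (-ψ z)) := hlam.mul hexpc
  have hleft : ∀ (h : Fin n → Cn n → ℂ), (∀ j, MemLp (h j) 2 volume) →
      (∀ j z, z ∉ L → h j z = 0) → ∫ z, lam z * (∑ j, ‖h j z‖ ^ 2) * Real.exp (-ψ z) =
        ∑ j, ∫ z, (lam z * Real.exp (-ψ z)) * ‖h j z‖ ^ 2 := by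
    intro h hh hh0
    rw [← integral_finset_sum _ fun j _ => wi_int _ hW L hLc _ (hh j) (hh0 j)]
    refine integral_congr_ae (Eventually.of_forall fun z => ?_)
    simp only [Finset.mul_sum, Finset.sum_mul]
    refine Finset.sum_congr rfl fun j _ => ?_
    ring
  have lim1 : Tendsto (fun m => ∫ z, lam z * (∑ j, ‖bm m j z‖ ^ 2) * Real.exp (-ψ z)) atTop
      (𝓝 (∫ z, lam z * (∑ j, ‖β j z‖ ^ 2) * Real.exp (-ψ z))) := by
    rw [hleft β hβ hβL]
    simp only [fun m => hleft (bm m) (fun j => hmem (hbT m j)) (hzL m)]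
    exact tendsto_finset_sum _ fun j _ => wi_lim _ hW L hLc _ _ (fun m => hmem (hbT m j)) (hβ j)
      (fun m => hzL m j) (hβL j) (hbβ j)
  have lim3 : ∀ j k, Tendsto (fun m => ∫ z, ‖dzb j (bm m k) z - dzb k (bm m j) z‖ ^ 2 *
      Real.exp (-ψ z)) atTop (𝓝 (∫ z, ‖c j k z‖ ^ 2 * Real.exp (-ψ z))) := by
    intro j k
    simp only [mul_comm _ (Real.exp _)]
    refine wi_lim _ hexpc L hLc (fun m z => dzb j (bm m k) z - dzb k (bm m j) z) _ (fun m => ?_)
      (hc j k) (fun m z hz => ?_) (hcL j k) (hbc j k)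
    · exact (hmem (tst_dz j _ (hbT m k)).2).sub (hmem (tst_dz k _ (hbT m j)).2)
    · rw [(hK'o z hz m k j).2, (hK'o z hz m j k).2, sub_self]
  have lim2 : Tendsto (fun m => ∫ z, ‖∑ j, del ψ j (bm m j) z‖ ^ 2 * Real.exp (-ψ z)) atTop
      (𝓝 (∫ z, ‖b z‖ ^ 2 * Real.exp (-ψ z))) := by
    simp only [mul_comm _ (Real.exp _)]
    refine wi_lim _ hexpc L hLc (fun m z => ∑ j, del ψ j (bm m j) z) _ (fun m => ?_)
      hb (fun m z hz => ?_) hbL ?_
    · refine memLp_finset_sum _ fun j _ => ?_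
      have h1 := hmem (tst_dz j _ (hbT m j)).1
      obtain ⟨-, -, -, h2⟩ := wi_bdd (ps j) (bm m j) (hpsc j) L hLc (hmem (hbT m j)) (hzL m j)
      exact h1.neg.add h2
    · refine Finset.sum_eq_zero fun j _ => ?_
      unfold del
      rw [(hK'o z hz m j j).1, hzL m j z hz]
      simp
    · -- convergence in `L²`
      have hex : ∀ j, ∃ C : ℝ, 0 ≤ C ∧ ∀ z ∈ L, ‖ps j z‖ ≤ C := fun j => by
        obtain ⟨C, hC⟩ := hLc.exists_bound_of_continuousOn (hpsc j).continuousOn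
        exact ⟨|C|, abs_nonneg _, fun z hz => (hC z hz).trans (le_abs_self C)⟩
      choose Cp hCp0 hCp using hex
      have hub : Tendsto (fun m => eLpNorm (fun z => (∑ j, dz j (bm m j) z) - d z) 2 volume +
          ∑ j, ENNReal.ofReal (Cp j) * eLpNorm (fun z => bm m j z - β j z) 2 volume) atTop
          (𝓝 0) := by
        have h1 : Tendsto (fun m => ∑ j, ENNReal.ofReal (Cp j) *
            eLpNorm (fun z => bm m j z - β j z) 2 volume) atTop (𝓝 (∑ j : Fin n, 0)) := by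
          refine tendsto_finset_sum _ fun j _ => ?_
          have h2 := ENNReal.Tendsto.const_mul (a := ENNReal.ofReal (Cp j)) (hbβ j)
            (Or.inr ENNReal.ofReal_ne_top)
          simpa using h2
        have h3 := hbd.add h1
        simpa using h3
      refine tendsto_of_tendsto_of_tendsto_of_le_of_le tendsto_const_nhds hub
        (fun m => bot_le) fun m => ?_
      have hmD : MemLp (fun z => (∑ j, dz j (bm m j) z) - d z) 2 volume :=
        (memLp_finset_sum _ fun j _ => hmem (tst_dz j _ (hbT m j)).1).sub hdm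
      have hmP : ∀ j, MemLp (fun z => ps j z * (bm m j z - β j z)) 2 volume := fun j => by
        obtain ⟨-, -, -, h2⟩ := wi_bdd (ps j) (fun z => bm m j z - β j z) (hpsc j) L hLc
          ((hmem (hbT m j)).sub (hβ j)) (fun z hz => by rw [hzL m j z hz, hβL j z hz, sub_self])
        exact h2
      have e1 : (fun z => (∑ j, del ψ j (bm m j) z) - b z) =
          (fun z => -((∑ j, dz j (bm m j) z) - d z)) +
            fun z => ∑ j, ps j z * (bm m j z - β j z) := by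
        funext z
        simp only [Pi.add_apply, del, hd, hY, Finset.sum_add_distrib, Finset.sum_neg_distrib,
          mul_sub, Finset.sum_sub_distrib]
        simp only [hps]
        ring
      rw [e1]
      refine (eLpNorm_add_le hmD.neg.1 (memLp_finset_sum _ fun j _ => hmP j).1
        (by norm_num)).trans (add_le_add ?_ ?_)
      · exact (eLpNorm_neg (f := fun z => (∑ j, dz j (bm m j) z) - d z) (p := 2)
          (μ := volume)).le
      · have e2 : (fun z => ∑ j, ps j z * (bm m j z - β j z)) =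
            ∑ j, fun z => ps j z * (bm m j z - β j z) := by
          funext z
          rw [Finset.sum_apply]
        rw [e2]
        refine (eLpNorm_sum_le (fun j _ => (hmP j).1) (by norm_num)).trans
          (Finset.sum_le_sum fun j _ => ?_)
        refine eLpNorm_le_mul_eLpNorm_of_ae_le_mul (Eventually.of_forall fun z => ?_) 2
        by_cases hz : z ∈ L
        · rw [norm_mul]
          exact mul_le_mul_of_nonneg_right (hCp j z hz) (norm_nonneg _)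
        · rw [hzL m j z hz, hβL j z hz]
          simp
  have lim23 : Tendsto (fun m => (∫ z, ‖∑ j, del ψ j (bm m j) z‖ ^ 2 * Real.exp (-ψ z))
        + (1 / 2) * ∑ j, ∑ k, ∫ z, ‖dzb j (bm m k) z - dzb k (bm m j) z‖ ^ 2 *
          Real.exp (-ψ z)) atTop (𝓝 ((∫ z, ‖b z‖ ^ 2 * Real.exp (-ψ z))
        + (1 / 2) * ∑ j, ∑ k, ∫ z, ‖c j k z‖ ^ 2 * Real.exp (-ψ z))) :=
    lim2.add ((tendsto_finset_sum _ fun j _ => tendsto_finset_sum _ fun k _ =>
      lim3 j k).const_mul _)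
  exact le_of_tendsto_of_tendsto' lim1 lim23 hbasic

end J_weak_ineq_compact

alias weak_ineq_compact := J_weak_ineq_compact.weak_ineq_compact

namespace J_weak_ineq

theorem weak_ineq_cut (n : ℕ) : ∃ (χ : ℕ → Cn n → ℝ) (C : ℝ), 0 ≤ C ∧
    (∀ m, ContDiff ℝ ∞ (χ m)) ∧ (∀ m, HasCompactSupport (χ m)) ∧
    (∀ m z, 0 ≤ χ m z ∧ χ m z ≤ 1) ∧ (∀ (m : ℕ) z, ‖z‖ ≤ (m : ℝ) + 1 → χ m z = 1) ∧
    (∀ (m : ℕ) z, ‖fderiv ℝ (χ m) z‖ ≤ C * (1 / ((m : ℝ) + 1))) := by
  let f : ContDiffBump (0 : Cn n) := ⟨1, 2, one_pos, one_lt_two⟩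
  have hf : ContDiff ℝ ∞ (f : Cn n → ℝ) := f.contDiff
  have hfs : HasCompactSupport (f : Cn n → ℝ) := f.hasCompactSupport
  obtain ⟨C, hC⟩ := (hf.continuous_fderiv (by simp)).bounded_above_of_compact_support
    (hfs.fderiv ℝ)
  have hC0 : 0 ≤ C := le_trans (norm_nonneg _) (hC 0)
  refine ⟨fun m z => f ((1 / ((m : ℝ) + 1)) • z), C, hC0, ?_, ?_, ?_, ?_, ?_⟩
  · intro m
    exact hf.comp (contDiff_const_smul _)
  · intro m
    have hm : (0 : ℝ) < (m : ℝ) + 1 := by positivity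
    exact hfs.comp_smul (one_div_pos.2 hm).ne'
  · intro m z
    exact ⟨f.nonneg, f.le_one⟩
  · intro m z hz
    have hm : (0 : ℝ) < (m : ℝ) + 1 := by positivity
    refine f.one_of_mem_closedBall ?_
    rw [mem_closedBall_zero_iff, norm_smul, Real.norm_of_nonneg (one_div_pos.2 hm).le]
    show 1 / ((m : ℝ) + 1) * ‖z‖ ≤ 1
    rw [one_div, inv_mul_le_iff₀ hm]
    linarith
  · intro m z
    have hm : (0 : ℝ) < (m : ℝ) + 1 := by positivity
    have h1 : fderiv ℝ (fun z => f ((1 / ((m : ℝ) + 1)) • z)) z =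
        (1 / ((m : ℝ) + 1)) • fderiv ℝ f ((1 / ((m : ℝ) + 1)) • z) := fderiv_comp_smul _
    rw [h1, norm_smul, Real.norm_of_nonneg (one_div_pos.2 hm).le, mul_comm]
    exact mul_le_mul_of_nonneg_right (hC _) (one_div_pos.2 hm).le

section
variable {n : ℕ}

theorem weak_ineq_fd (χ : Cn n → ℝ) (h : Differentiable ℝ χ) (z v : Cn n) :
    fderiv ℝ (fun y => (χ y : ℂ)) z v = ((fderiv ℝ χ z v : ℝ) : ℂ) := by
  have h1 : HasFDerivAt (fun y => (χ y : ℂ)) (Complex.ofRealCLM.comp (fderiv ℝ χ z)) z :=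
    Complex.ofRealCLM.hasFDerivAt.comp z (h z).hasFDerivAt
  rw [h1.fderiv]
  rfl

theorem weak_ineq_bd (χ : Cn n → ℝ) (h : Differentiable ℝ χ) (j : Fin n) (z : Cn n) :
    ‖dz j (fun y => (χ y : ℂ)) z‖ ≤ ‖fderiv ℝ χ z‖ ∧
    ‖dzb j (fun y => (χ y : ℂ)) z‖ ≤ ‖fderiv ℝ χ z‖ := by
  have h1 : ‖((fderiv ℝ χ z (Pi.single j 1) : ℝ) : ℂ)‖ ≤ ‖fderiv ℝ χ z‖ := by
    rw [Complex.norm_real]
    refine ((fderiv ℝ χ z).le_opNorm _).trans ?_
    rw [Pi.norm_single, norm_one, mul_one]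
  have h2 : ‖((fderiv ℝ χ z (Pi.single j I) : ℝ) : ℂ)‖ ≤ ‖fderiv ℝ χ z‖ := by
    rw [Complex.norm_real]
    refine ((fderiv ℝ χ z).le_opNorm _).trans ?_
    rw [Pi.norm_single, Complex.norm_I, mul_one]
  constructor
  · unfold dz
    rw [weak_ineq_fd χ h, weak_ineq_fd χ h, norm_mul]
    have h3 := norm_sub_le ((fderiv ℝ χ z (Pi.single j 1) : ℝ) : ℂ)
      (I * ((fderiv ℝ χ z (Pi.single j I) : ℝ) : ℂ))
    rw [norm_mul I, Complex.norm_I, one_mul] at h3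
    have h4 : ‖(1 / 2 : ℂ)‖ = 1 / 2 := by simp
    rw [h4]
    linarith
  · unfold dzb
    rw [weak_ineq_fd χ h, weak_ineq_fd χ h, norm_mul]
    have h3 := norm_add_le ((fderiv ℝ χ z (Pi.single j 1) : ℝ) : ℂ)
      (I * ((fderiv ℝ χ z (Pi.single j I) : ℝ) : ℂ))
    rw [norm_mul I, Complex.norm_I, one_mul] at h3
    have h4 : ‖(1 / 2 : ℂ)‖ = 1 / 2 := by simp
    rw [h4]
    linarith

theorem weak_ineq_conj (χ : Cn n → ℝ) (h : Differentiable ℝ χ) (j : Fin n) (z : Cn n) :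
    conj (dzb j (fun y => (χ y : ℂ)) z) = dz j (fun y => (χ y : ℂ)) z := by
  unfold dz dzb
  rw [weak_ineq_fd χ h, weak_ineq_fd χ h]
  simp only [map_mul, map_add, map_div₀, map_one, Complex.conj_I, Complex.conj_ofReal]
  have : conj (2 : ℂ) = 2 := Complex.conj_ofNat 2
  rw [this]
  ring

theorem weak_ineq_mul (a b : Cn n → ℂ) (j : Fin n) (z : Cn n) (ha : DifferentiableAt ℝ a z)
    (hb : DifferentiableAt ℝ b z) :
    dzb j (fun y => a y * b y) z = dzb j a z * b z + a z * dzb j b z := by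
  have h1 : fderiv ℝ (fun y => a y * b y) z = a z • fderiv ℝ b z + b z • fderiv ℝ a z :=
    fderiv_mul ha hb
  unfold dzb
  rw [h1]
  simp only [add_apply, smul_apply, smul_eq_mul]
  ring

theorem weak_ineq_amgm (x y s t : ℝ) (hs : 0 < s) (ht : 0 < t) (hst : s * t = 1)
    (hx : 0 ≤ x) (hy : 0 ≤ y) : x * y ≤ x ^ 2 * s + y ^ 2 * t := by
  have h1 : Real.sqrt s * Real.sqrt t = 1 := by
    rw [← Real.sqrt_mul hs.le, hst, Real.sqrt_one]
  have h2 := Real.sq_sqrt hs.le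
  have h3 := Real.sq_sqrt ht.le
  have h4 := sq_nonneg (x * Real.sqrt s - y * Real.sqrt t)
  have h5 : 0 ≤ x ^ 2 * s := by positivity
  have h6 : 0 ≤ y ^ 2 * t := by positivity
  have h7 : (x * Real.sqrt s - y * Real.sqrt t) ^ 2 =
      x ^ 2 * (Real.sqrt s ^ 2) - 2 * (x * y) * (Real.sqrt s * Real.sqrt t) +
        y ^ 2 * (Real.sqrt t ^ 2) := by ring
  rw [h7, h1, h2, h3] at h4
  nlinarith [mul_nonneg hx hy]

theorem weak_ineq_int (ψ : Cn n → ℝ) (hψ : Continuous ψ) (a φ : Cn n → ℂ)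
    (ha : AEStronglyMeasurable a volume)
    (hai : Integrable (fun z => ‖a z‖ ^ 2 * Real.exp (-ψ z)))
    (hφ : Continuous φ) (hs : HasCompactSupport φ) : Integrable (fun z => a z * φ z) := by
  have h1 : Integrable (fun z => ‖φ z‖ ^ 2 * Real.exp (ψ z)) := by
    refine Continuous.integrable_of_hasCompactSupport (by fun_prop) ?_
    refine hs.mono ?_
    intro z hz
    rw [Function.mem_support] at hz ⊢
    intro h
    apply hz
    rw [h]
    simp
  refine (hai.add h1).mono' (ha.mul hφ.aestronglyMeasurable) ?_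
  refine Eventually.of_forall fun z => ?_
  rw [norm_mul]
  exact weak_ineq_amgm _ _ _ _ (Real.exp_pos _) (Real.exp_pos _)
    (by rw [← Real.exp_add]; simp) (norm_nonneg _) (norm_nonneg _)

/-- bounded continuous times integrable -/
theorem weak_ineq_bm (f g : Cn n → ℝ) (hg : Integrable g) (hf : Continuous f)
    (hs : HasCompactSupport f) : Integrable (fun z => f z * g z) := by
  obtain ⟨C, hC⟩ := hf.bounded_above_of_compact_support hs
  exact hg.bdd_mul hf.aestronglyMeasurable (Eventually.of_forall hC)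

theorem weak_ineq_memLp (ψ : Cn n → ℝ) (hψ : Continuous ψ) (a φ : Cn n → ℂ)
    (ha : AEStronglyMeasurable a volume)
    (hai : Integrable (fun z => ‖a z‖ ^ 2 * Real.exp (-ψ z)))
    (hφ : Continuous φ) (hs : HasCompactSupport φ) : MemLp (fun z => φ z * a z) 2 volume := by
  have hm : AEStronglyMeasurable (fun z => φ z * a z) volume := hφ.aestronglyMeasurable.mul ha
  rw [memLp_two_iff_integrable_sq_norm hm]
  have h1 : Integrable (fun z => (‖φ z‖ ^ 2 * Real.exp (ψ z)) *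
      (‖a z‖ ^ 2 * Real.exp (-ψ z))) := by
    refine weak_ineq_bm _ _ hai (by fun_prop) ?_
    refine hs.mono ?_
    intro z hz
    rw [Function.mem_support] at hz ⊢
    intro h
    apply hz
    rw [h]
    simp
  refine h1.congr (Eventually.of_forall fun z => ?_)
  show (‖φ z‖ ^ 2 * Real.exp (ψ z)) * (‖a z‖ ^ 2 * Real.exp (-ψ z)) = ‖φ z * a z‖ ^ 2
  have h2 : Real.exp (ψ z) * Real.exp (-ψ z) = 1 := by rw [← Real.exp_add]; simp
  rw [norm_mul, mul_pow]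
  calc (‖φ z‖ ^ 2 * Real.exp (ψ z)) * (‖a z‖ ^ 2 * Real.exp (-ψ z))
      = ‖φ z‖ ^ 2 * ‖a z‖ ^ 2 * (Real.exp (ψ z) * Real.exp (-ψ z)) := by ring
    _ = ‖φ z‖ ^ 2 * ‖a z‖ ^ 2 := by rw [h2, mul_one]
end
section
variable {n : ℕ}

theorem weak_ineq_tst (χ : Cn n → ℝ) (hχ : ContDiff ℝ ∞ χ) (hχs : HasCompactSupport χ) :
    Tst (fun y => (χ y : ℂ)) := by
  refine ⟨Complex.ofRealCLM.contDiff.comp hχ, ?_⟩
  refine hχs.mono ?_
  intro z hz
  rw [Function.mem_support] at hz ⊢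
  intro h
  apply hz
  rw [h]
  simp

theorem weak_ineq_tmul (a g : Cn n → ℂ) (ha : ContDiff ℝ ∞ a) (hg : Tst g) :
    Tst (fun y => a y * g y) := by
  refine ⟨ha.mul hg.1, ?_⟩
  exact hg.2.mul_left

theorem weak_ineq_sq (p q x : ℝ) (hx : 0 < x) :
    (p + q) ^ 2 ≤ (1 + x) * p ^ 2 + (1 + 1 / x) * q ^ 2 := by
  have h1 : 0 ≤ (x * p - q) ^ 2 / x := by positivity
  have h2 : (x * p - q) ^ 2 / x = x * p ^ 2 - 2 * p * q + (1 / x) * q ^ 2 := by
    field_simp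
    ring
  nlinarith

theorem weak_ineq_closed (ψ : Cn n → ℝ) (hψ : ContDiff ℝ ∞ ψ)
    (α : Fin n → Cn n → ℂ)
    (hα0 : ∀ j, AEStronglyMeasurable (α j) volume)
    (hα : ∀ j, Integrable (fun z => ‖α j z‖ ^ 2 * Real.exp (-ψ z)))
    (hwc : ∀ j k g, Tst g → ∫ z, α k z * dzb j g z = ∫ z, α j z * dzb k g z)
    (χ : Cn n → ℝ) (hχ : ContDiff ℝ ∞ χ) (hχs : HasCompactSupport χ) (j k : Fin n)
    (g : Cn n → ℂ) (hg : Tst g) :
    ∫ z, (((χ z : ℂ) * α k z) * dzb j g z - ((χ z : ℂ) * α j z) * dzb k g z) =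
      - ∫ z, (dzb j (fun y => (χ y : ℂ)) z * α k z - dzb k (fun y => (χ y : ℂ)) z * α j z) * g z := by
  have hc := weak_ineq_tst χ hχ hχs
  have hcg := weak_ineq_tmul _ g hc.1 hg
  have hdc : Differentiable ℝ (fun y => (χ y : ℂ)) := hc.1.differentiable (by simp)
  have hdg : Differentiable ℝ g := hg.1.differentiable (by simp)
  have hψc := hψ.continuous
  have key := hwc j k _ hcg
  have i1 : ∀ j k : Fin n, Integrable (fun z => α k z * dzb j (fun y => (χ y : ℂ) * g y) z) :=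
    fun j k => weak_ineq_int ψ hψc _ _ (hα0 k) (hα k) (tst_dz j _ hcg).2.1.continuous
      (tst_dz j _ hcg).2.2
  have i2 : ∀ j k : Fin n, Integrable (fun z => α k z * (dzb j (fun y => (χ y : ℂ)) z * g z)) := by
    intro j k
    have ht := weak_ineq_tmul _ g (smooth_dz j _ hc.1).2 hg
    exact weak_ineq_int ψ hψc _ _ (hα0 k) (hα k) ht.1.continuous ht.2
  have e1 : (fun z => ((χ z : ℂ) * α k z) * dzb j g z - ((χ z : ℂ) * α j z) * dzb k g z) =
      fun z => (α k z * dzb j (fun y => (χ y : ℂ) * g y) z -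
        α j z * dzb k (fun y => (χ y : ℂ) * g y) z) -
        (α k z * (dzb j (fun y => (χ y : ℂ)) z * g z) -
          α j z * (dzb k (fun y => (χ y : ℂ)) z * g z)) := by
    funext z
    rw [weak_ineq_mul _ g j z (hdc z) (hdg z), weak_ineq_mul _ g k z (hdc z) (hdg z)]
    ring
  have e2 : (fun z => (dzb j (fun y => (χ y : ℂ)) z * α k z -
      dzb k (fun y => (χ y : ℂ)) z * α j z) * g z) =
      fun z => α k z * (dzb j (fun y => (χ y : ℂ)) z * g z) -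
          α j z * (dzb k (fun y => (χ y : ℂ)) z * g z) := by
    funext z
    ring
  have i3 : Integrable (fun z => α k z * dzb j (fun y => (χ y : ℂ) * g y) z -
        α j z * dzb k (fun y => (χ y : ℂ) * g y) z) := (i1 j k).sub (i1 k j)
  have i4 : Integrable (fun z => α k z * (dzb j (fun y => (χ y : ℂ)) z * g z) -
          α j z * (dzb k (fun y => (χ y : ℂ)) z * g z)) := (i2 j k).sub (i2 k j)
  rw [e1, e2, integral_sub i3 i4, integral_sub (i1 j k) (i1 k j), key, sub_self, zero_sub]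

theorem weak_ineq_div (ψ : Cn n → ℝ) (hψ : ContDiff ℝ ∞ ψ)
    (α : Fin n → Cn n → ℂ) (b : Cn n → ℂ)
    (hα0 : ∀ j, AEStronglyMeasurable (α j) volume) (hb0 : AEStronglyMeasurable b volume)
    (hα : ∀ j, Integrable (fun z => ‖α j z‖ ^ 2 * Real.exp (-ψ z)))
    (hb : Integrable (fun z => ‖b z‖ ^ 2 * Real.exp (-ψ z)))
    (hwb : ∀ g, Tst g → ∫ z, (∑ j, α j z * conj (dzb j g z)) * (Real.exp (-ψ z) : ℂ)
      = ∫ z, b z * conj (g z) * (Real.exp (-ψ z) : ℂ))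
    (χ : Cn n → ℝ) (hχ : ContDiff ℝ ∞ χ) (hχs : HasCompactSupport χ)
    (g : Cn n → ℂ) (hg : Tst g) :
    ∫ z, (∑ j, ((χ z : ℂ) * α j z) * conj (dzb j g z)) * (Real.exp (-ψ z) : ℂ)
      = ∫ z, ((χ z : ℂ) * b z - ∑ j, dz j (fun y => (χ y : ℂ)) z * α j z) * conj (g z) *
        (Real.exp (-ψ z) : ℂ) := by
  have hc := weak_ineq_tst χ hχ hχs
  have hcg := weak_ineq_tmul _ g hc.1 hg
  have hdc : Differentiable ℝ (fun y => (χ y : ℂ)) := hc.1.differentiable (by simp)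
  have hdχ : Differentiable ℝ χ := hχ.differentiable (by simp)
  have hdg : Differentiable ℝ g := hg.1.differentiable (by simp)
  have hψc := hψ.continuous
  have key := hwb _ hcg
  -- generic compactly supported factor
  have cs : ∀ φ : Cn n → ℂ, Tst φ → Continuous (fun z => conj (φ z) * (Real.exp (-ψ z) : ℂ)) ∧
      HasCompactSupport (fun z => conj (φ z) * (Real.exp (-ψ z) : ℂ)) := by
    intro φ hφ
    have hcφ := hφ.1.continuous
    refine ⟨by fun_prop, ?_⟩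
    refine hφ.2.mono ?_
    intro z hz
    rw [Function.mem_support] at hz ⊢
    intro h
    apply hz
    rw [h]
    simp
  have iP : ∀ j : Fin n, Integrable (fun z => α j z *
      (conj (dzb j (fun y => (χ y : ℂ) * g y) z) * (Real.exp (-ψ z) : ℂ))) := by
    intro j
    obtain ⟨h1, h2⟩ := cs _ (tst_dz j _ hcg).2
    exact weak_ineq_int ψ hψc _ _ (hα0 j) (hα j) h1 h2
  have iQ : ∀ j : Fin n, Integrable (fun z => α j z *
      (dz j (fun y => (χ y : ℂ)) z * (conj (g z) * (Real.exp (-ψ z) : ℂ)))) := by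
    intro j
    obtain ⟨h1, h2⟩ := cs g hg
    refine weak_ineq_int ψ hψc _ _ (hα0 j) (hα j) ?_ ?_
    · exact (smooth_dz j _ hc.1).1.continuous.mul h1
    · exact h2.mul_left
  have iR : Integrable (fun z => b z * (conj ((χ z : ℂ) * g z) * (Real.exp (-ψ z) : ℂ))) := by
    obtain ⟨h1, h2⟩ := cs _ hcg
    exact weak_ineq_int ψ hψc _ _ hb0 hb h1 h2
  have e1 : (fun z => (∑ j, ((χ z : ℂ) * α j z) * conj (dzb j g z)) * (Real.exp (-ψ z) : ℂ)) =
      fun z => (∑ j, α j z * (conj (dzb j (fun y => (χ y : ℂ) * g y) z) * (Real.exp (-ψ z) : ℂ))) -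
        ∑ j, α j z * (dz j (fun y => (χ y : ℂ)) z * (conj (g z) * (Real.exp (-ψ z) : ℂ))) := by
    funext z
    rw [Finset.sum_mul, ← Finset.sum_sub_distrib]
    refine Finset.sum_congr rfl fun j _ => ?_
    rw [weak_ineq_mul _ g j z (hdc z) (hdg z), ← weak_ineq_conj χ hdχ]
    simp only [map_add, map_mul, Complex.conj_ofReal]
    ring
  have e2 : (fun z => ((χ z : ℂ) * b z - ∑ j, dz j (fun y => (χ y : ℂ)) z * α j z) * conj (g z) *
        (Real.exp (-ψ z) : ℂ)) =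
      fun z => b z * (conj ((χ z : ℂ) * g z) * (Real.exp (-ψ z) : ℂ)) -
        ∑ j, α j z * (dz j (fun y => (χ y : ℂ)) z * (conj (g z) * (Real.exp (-ψ z) : ℂ))) := by
    funext z
    rw [sub_mul, sub_mul, Finset.sum_mul, Finset.sum_mul]
    congr 1
    · simp only [map_mul, Complex.conj_ofReal]
      ring
    · refine Finset.sum_congr rfl fun j _ => ?_
      ring
  have e3 : (fun z => (∑ j, α j z * conj (dzb j (fun y => (χ y : ℂ) * g y) z)) *
      (Real.exp (-ψ z) : ℂ)) =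
      fun z => ∑ j, α j z * (conj (dzb j (fun y => (χ y : ℂ) * g y) z) * (Real.exp (-ψ z) : ℂ)) := by
    funext z
    rw [Finset.sum_mul]
    refine Finset.sum_congr rfl fun j _ => ?_
    ring
  have e4 : (fun z => b z * conj ((χ z : ℂ) * g z) * (Real.exp (-ψ z) : ℂ)) =
      fun z => b z * (conj ((χ z : ℂ) * g z) * (Real.exp (-ψ z) : ℂ)) := by
    funext z
    ring
  rw [e3, e4] at key
  rw [e1, e2, integral_sub (integrable_finsetSum _ fun j _ => iP j)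
    (integrable_finsetSum _ fun j _ => iQ j),
    integral_sub iR (integrable_finsetSum _ fun j _ => iQ j), key]
end
section
variable {n : ℕ}

/-- pointwise bound of the divergence term -/
theorem weak_ineq_pt (δ x χ0 w : ℝ) (hδ : 0 ≤ δ) (hx : 0 < x) (h0 : 0 ≤ χ0) (h1 : χ0 ≤ 1) (hw : 0 ≤ w)
    (b0 : ℂ) (a d : Fin n → ℂ) (hd : ∀ j, ‖d j‖ ≤ δ) :
    ‖(χ0 : ℂ) * b0 - ∑ j, d j * a j‖ ^ 2 * w ≤
      (1 + x) * (‖b0‖ ^ 2 * w) + ((1 + 1 / x) * (n * δ ^ 2)) * ∑ j, ‖a j‖ ^ 2 * w := by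
  have h2 : ‖(χ0 : ℂ) * b0‖ ≤ ‖b0‖ := by
    rw [norm_mul, Complex.norm_real, Real.norm_of_nonneg h0]
    exact mul_le_of_le_one_left (norm_nonneg _) h1
  have h3 : ‖∑ j, d j * a j‖ ≤ δ * ∑ j, ‖a j‖ := by
    refine (norm_sum_le _ _).trans ?_
    rw [Finset.mul_sum]
    refine Finset.sum_le_sum fun j _ => ?_
    rw [norm_mul]
    exact mul_le_mul_of_nonneg_right (hd j) (norm_nonneg _)
  have h4 : (∑ j, ‖a j‖) ^ 2 ≤ n * ∑ j, ‖a j‖ ^ 2 := by
    have := sq_sum_le_card_mul_sum_sq (s := (Finset.univ : Finset (Fin n))) (f := fun j => ‖a j‖)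
    simpa using this
  have h5 : ‖(χ0 : ℂ) * b0 - ∑ j, d j * a j‖ ≤ ‖b0‖ + δ * ∑ j, ‖a j‖ :=
    (norm_sub_le _ _).trans (add_le_add h2 h3)
  have h6 : ‖(χ0 : ℂ) * b0 - ∑ j, d j * a j‖ ^ 2 ≤ (‖b0‖ + δ * ∑ j, ‖a j‖) ^ 2 :=
    pow_le_pow_left₀ (norm_nonneg _) h5 2
  have h7 := weak_ineq_sq ‖b0‖ (δ * ∑ j, ‖a j‖) x hx
  have h8 : (δ * ∑ j, ‖a j‖) ^ 2 ≤ (n * δ ^ 2) * ∑ j, ‖a j‖ ^ 2 := by
    rw [mul_pow]
    calc δ ^ 2 * (∑ j, ‖a j‖) ^ 2 ≤ δ ^ 2 * (n * ∑ j, ‖a j‖ ^ 2) :=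
          mul_le_mul_of_nonneg_left h4 (sq_nonneg _)
      _ = (n * δ ^ 2) * ∑ j, ‖a j‖ ^ 2 := by ring
  have h9 : 0 ≤ 1 + 1 / x := by positivity
  have h10 : (1 + 1 / x) * (δ * ∑ j, ‖a j‖) ^ 2 ≤
      (1 + 1 / x) * ((n * δ ^ 2) * ∑ j, ‖a j‖ ^ 2) := mul_le_mul_of_nonneg_left h8 h9
  have h11 : ‖(χ0 : ℂ) * b0 - ∑ j, d j * a j‖ ^ 2 ≤
      (1 + x) * ‖b0‖ ^ 2 + (1 + 1 / x) * ((n * δ ^ 2) * ∑ j, ‖a j‖ ^ 2) := by linarith
  calc ‖(χ0 : ℂ) * b0 - ∑ j, d j * a j‖ ^ 2 * w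
      ≤ ((1 + x) * ‖b0‖ ^ 2 + (1 + 1 / x) * ((n * δ ^ 2) * ∑ j, ‖a j‖ ^ 2)) * w :=
        mul_le_mul_of_nonneg_right h11 hw
    _ = (1 + x) * (‖b0‖ ^ 2 * w) + ((1 + 1 / x) * (n * δ ^ 2)) * ((∑ j, ‖a j‖ ^ 2) * w) := by ring
    _ = (1 + x) * (‖b0‖ ^ 2 * w) + ((1 + 1 / x) * (n * δ ^ 2)) * ∑ j, ‖a j‖ ^ 2 * w := by
        rw [Finset.sum_mul]

theorem weak_ineq_pt2 (δ w : ℝ) (hw : 0 ≤ w) (hδ : 0 ≤ δ)
    (a a' d d' : ℂ) (hd : ‖d‖ ≤ δ) (hd' : ‖d'‖ ≤ δ) :
    ‖d * a - d' * a'‖ ^ 2 * w ≤ (2 * δ ^ 2) * (‖a‖ ^ 2 * w) + (2 * δ ^ 2) * (‖a'‖ ^ 2 * w) := by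
  have h1 : ‖d * a - d' * a'‖ ≤ δ * ‖a‖ + δ * ‖a'‖ := by
    refine (norm_sub_le _ _).trans ?_
    rw [norm_mul, norm_mul]
    exact add_le_add (mul_le_mul_of_nonneg_right hd (norm_nonneg _))
      (mul_le_mul_of_nonneg_right hd' (norm_nonneg _))
  have h2 : ‖d * a - d' * a'‖ ^ 2 ≤ (δ * ‖a‖ + δ * ‖a'‖) ^ 2 :=
    pow_le_pow_left₀ (norm_nonneg _) h1 2
  have h3 : (δ * ‖a‖ + δ * ‖a'‖) ^ 2 ≤ (2 * δ ^ 2) * ‖a‖ ^ 2 + (2 * δ ^ 2) * ‖a'‖ ^ 2 := by
    nlinarith [sq_nonneg (δ * ‖a‖ - δ * ‖a'‖)]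
  calc ‖d * a - d' * a'‖ ^ 2 * w ≤ ((2 * δ ^ 2) * ‖a‖ ^ 2 + (2 * δ ^ 2) * ‖a'‖ ^ 2) * w :=
        mul_le_mul_of_nonneg_right (h2.trans h3) hw
    _ = _ := by ring

theorem weak_ineq_step (ψ lam : Cn n → ℝ) (hψ : ContDiff ℝ ∞ ψ) (hlam : Continuous lam)
    (hL : ∀ z w, 4 * lam z * nsq w ≤ Lev ψ z w)
    (α : Fin n → Cn n → ℂ) (b : Cn n → ℂ)
    (hα0 : ∀ j, AEStronglyMeasurable (α j) volume) (hb0 : AEStronglyMeasurable b volume)
    (hα : ∀ j, Integrable (fun z => ‖α j z‖ ^ 2 * Real.exp (-ψ z)))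
    (hb : Integrable (fun z => ‖b z‖ ^ 2 * Real.exp (-ψ z)))
    (hwc : ∀ j k g, Tst g → ∫ z, α k z * dzb j g z = ∫ z, α j z * dzb k g z)
    (hwb : ∀ g, Tst g → ∫ z, (∑ j, α j z * conj (dzb j g z)) * (Real.exp (-ψ z) : ℂ)
      = ∫ z, b z * conj (g z) * (Real.exp (-ψ z) : ℂ))
    (χ : Cn n → ℝ) (hχ : ContDiff ℝ ∞ χ) (hχs : HasCompactSupport χ)
    (hχ01 : ∀ z, 0 ≤ χ z ∧ χ z ≤ 1) (δ : ℝ) (hδ : 0 ≤ δ) (hχd : ∀ z, ‖fderiv ℝ χ z‖ ≤ δ)
    (x : ℝ) (hx : 0 < x) :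
    ∫ z, lam z * (∑ j, ‖(χ z : ℂ) * α j z‖ ^ 2) * Real.exp (-ψ z) ≤
      (1 + x) * (∫ z, ‖b z‖ ^ 2 * Real.exp (-ψ z)) +
        ((1 + 1 / x) * (n * δ ^ 2)) * (∑ j, ∫ z, ‖α j z‖ ^ 2 * Real.exp (-ψ z)) +
        2 * n * δ ^ 2 * (∑ j, ∫ z, ‖α j z‖ ^ 2 * Real.exp (-ψ z)) := by
  have hc := weak_ineq_tst χ hχ hχs
  have hdχ : Differentiable ℝ χ := hχ.differentiable (by simp)
  have hψc := hψ.continuous
  have hb1 : ∀ j z, ‖dz j (fun y => (χ y : ℂ)) z‖ ≤ δ := fun j z =>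
    ((weak_ineq_bd χ hdχ j z).1).trans (hχd z)
  have hb2 : ∀ j z, ‖dzb j (fun y => (χ y : ℂ)) z‖ ≤ δ := fun j z =>
    ((weak_ineq_bd χ hdχ j z).2).trans (hχd z)
  have hz0 : ∀ z, z ∉ tsupport χ → χ z = 0 := fun z hz => image_eq_zero_of_notMem_tsupport hz
  have hf0 : ∀ z, z ∉ tsupport χ → fderiv ℝ χ z = 0 := by
    intro z hz
    by_contra h
    exact hz (support_fderiv_subset ℝ h)
  have hd0 : ∀ j z, z ∉ tsupport χ → dz j (fun y => (χ y : ℂ)) z = 0 := by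
    intro j z hz
    have := (weak_ineq_bd χ hdχ j z).1
    rw [hf0 z hz, norm_zero] at this
    exact norm_le_zero_iff.1 this
  have hdb0 : ∀ j z, z ∉ tsupport χ → dzb j (fun y => (χ y : ℂ)) z = 0 := by
    intro j z hz
    have := (weak_ineq_bd χ hdχ j z).2
    rw [hf0 z hz, norm_zero] at this
    exact norm_le_zero_iff.1 this
  have mem1 : ∀ j, MemLp (fun z => (χ z : ℂ) * α j z) 2 volume := fun j =>
    weak_ineq_memLp ψ hψc _ _ (hα0 j) (hα j) hc.1.continuous hc.2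
  have mem2 : ∀ j k, MemLp (fun z => dzb j (fun y => (χ y : ℂ)) z * α k z) 2 volume := fun j k =>
    weak_ineq_memLp ψ hψc _ _ (hα0 k) (hα k) (tst_dz j _ hc).2.1.continuous (tst_dz j _ hc).2.2
  have mem3 : ∀ j, MemLp (fun z => dz j (fun y => (χ y : ℂ)) z * α j z) 2 volume := fun j =>
    weak_ineq_memLp ψ hψc _ _ (hα0 j) (hα j) (tst_dz j _ hc).1.1.continuous (tst_dz j _ hc).1.2
  have mem4 : MemLp (fun z => (χ z : ℂ) * b z) 2 volume :=
    weak_ineq_memLp ψ hψc _ _ hb0 hb hc.1.continuous hc.2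
  have main := weak_ineq_compact ψ lam hψ hlam hL (fun j z => (χ z : ℂ) * α j z)
    (fun j k z => dzb j (fun y => (χ y : ℂ)) z * α k z - dzb k (fun y => (χ y : ℂ)) z * α j z)
    (fun z => (χ z : ℂ) * b z - ∑ j, dz j (fun y => (χ y : ℂ)) z * α j z)
    mem1 (fun j k => (mem2 j k).sub (mem2 k j))
    (mem4.sub (memLp_finsetSum _ fun j _ => mem3 j))
    (tsupport χ) hχs
    (by intro j z hz; simp [hz0 z hz])
    (by intro j k z hz; simp [hdb0 _ z hz])
    (by intro z hz; simp [hz0 z hz, hd0 _ z hz])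
    (fun j k g hg => weak_ineq_closed ψ hψ α hα0 hα hwc χ hχ hχs j k g hg)
    (fun g hg => weak_ineq_div ψ hψ α b hα0 hb0 hα hb hwb χ hχ hχs g hg)
  refine main.trans ?_
  have iA : Integrable (fun z => ∑ j, ‖α j z‖ ^ 2 * Real.exp (-ψ z)) :=
    integrable_finsetSum _ fun j _ => hα j
  have B1 : ∫ z, ‖(χ z : ℂ) * b z - ∑ j, dz j (fun y => (χ y : ℂ)) z * α j z‖ ^ 2 *
      Real.exp (-ψ z) ≤ (1 + x) * (∫ z, ‖b z‖ ^ 2 * Real.exp (-ψ z)) +
        ((1 + 1 / x) * (n * δ ^ 2)) * (∑ j, ∫ z, ‖α j z‖ ^ 2 * Real.exp (-ψ z)) := by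
    rw [← integral_finsetSum _ fun j _ => hα j, ← integral_const_mul, ← integral_const_mul,
      ← integral_add (hb.const_mul _) (iA.const_mul _)]
    refine integral_mono_of_nonneg (Eventually.of_forall fun z => ?_)
      ((hb.const_mul _).add (iA.const_mul _)) (Eventually.of_forall fun z => ?_)
    · show (0 : ℝ) ≤ _
      positivity
    · exact weak_ineq_pt δ x (χ z) _ hδ hx (hχ01 z).1 (hχ01 z).2 (Real.exp_pos _).le _ _ _
        (fun j => hb1 j z)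
  have B2 : ∀ j k, ∫ z, ‖dzb j (fun y => (χ y : ℂ)) z * α k z -
      dzb k (fun y => (χ y : ℂ)) z * α j z‖ ^ 2 * Real.exp (-ψ z) ≤
      (2 * δ ^ 2) * (∫ z, ‖α k z‖ ^ 2 * Real.exp (-ψ z)) +
      (2 * δ ^ 2) * (∫ z, ‖α j z‖ ^ 2 * Real.exp (-ψ z)) := by
    intro j k
    rw [← integral_const_mul, ← integral_const_mul,
      ← integral_add ((hα k).const_mul _) ((hα j).const_mul _)]
    refine integral_mono_of_nonneg (Eventually.of_forall fun z => ?_)
      (((hα k).const_mul _).add ((hα j).const_mul _)) (Eventually.of_forall fun z => ?_)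
    · show (0 : ℝ) ≤ _
      positivity
    · exact weak_ineq_pt2 δ _ (Real.exp_pos _).le hδ _ _ _ _ (hb2 j z) (hb2 k z)
  have B3 : (1 / 2 : ℝ) * ∑ j, ∑ k, ∫ z, ‖dzb j (fun y => (χ y : ℂ)) z * α k z -
      dzb k (fun y => (χ y : ℂ)) z * α j z‖ ^ 2 * Real.exp (-ψ z) ≤
      2 * n * δ ^ 2 * (∑ j, ∫ z, ‖α j z‖ ^ 2 * Real.exp (-ψ z)) := by
    have h1 : ∑ j, ∑ k, ∫ z, ‖dzb j (fun y => (χ y : ℂ)) z * α k z -
        dzb k (fun y => (χ y : ℂ)) z * α j z‖ ^ 2 * Real.exp (-ψ z) ≤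
        ∑ j : Fin n, ∑ k : Fin n, ((2 * δ ^ 2) * (∫ z, ‖α k z‖ ^ 2 * Real.exp (-ψ z)) +
      (2 * δ ^ 2) * (∫ z, ‖α j z‖ ^ 2 * Real.exp (-ψ z))) :=
      Finset.sum_le_sum fun j _ => Finset.sum_le_sum fun k _ => B2 j k
    have h2 : ∑ j : Fin n, ∑ k : Fin n, ((2 * δ ^ 2) * (∫ z, ‖α k z‖ ^ 2 * Real.exp (-ψ z)) +
      (2 * δ ^ 2) * (∫ z, ‖α j z‖ ^ 2 * Real.exp (-ψ z))) =
      4 * n * δ ^ 2 * (∑ j, ∫ z, ‖α j z‖ ^ 2 * Real.exp (-ψ z)) := by
      simp only [Finset.sum_add_distrib, ← Finset.mul_sum, Finset.sum_const, Finset.card_univ,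
        Fintype.card_fin, nsmul_eq_mul]
      ring
    linarith
  linarith
end
/-- the basic inequality for weakly closed forms -/
theorem weak_ineq {n : ℕ} (ψ lam : Cn n → ℝ) (hψ : ContDiff ℝ ∞ ψ) (hlam : Continuous lam)
    (hlam0 : ∀ z, 0 ≤ lam z) (hL : ∀ z w, 4 * lam z * nsq w ≤ Lev ψ z w)
    (α : Fin n → Cn n → ℂ) (b : Cn n → ℂ)
    (hα0 : ∀ j, AEStronglyMeasurable (α j) volume) (hb0 : AEStronglyMeasurable b volume)
    (hα : ∀ j, Integrable (fun z => ‖α j z‖ ^ 2 * Real.exp (-ψ z)))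
    (hb : Integrable (fun z => ‖b z‖ ^ 2 * Real.exp (-ψ z)))
    (hwc : ∀ j k g, Tst g → ∫ z, α k z * dzb j g z = ∫ z, α j z * dzb k g z)
    (hwb : ∀ g, Tst g → ∫ z, (∑ j, α j z * conj (dzb j g z)) * (Real.exp (-ψ z) : ℂ)
      = ∫ z, b z * conj (g z) * (Real.exp (-ψ z) : ℂ)) :
    Integrable (fun z => lam z * (∑ j, ‖α j z‖ ^ 2) * Real.exp (-ψ z)) ∧
    ∫ z, lam z * (∑ j, ‖α j z‖ ^ 2) * Real.exp (-ψ z) ≤ ∫ z, ‖b z‖ ^ 2 * Real.exp (-ψ z) := by
  obtain ⟨χ, C, hC0, h1, h2, h3, h4, h5⟩ := weak_ineq_cut n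
  set B : ℝ := ∫ z, ‖b z‖ ^ 2 * Real.exp (-ψ z) with hB
  set A : ℝ := ∑ j, ∫ z, ‖α j z‖ ^ 2 * Real.exp (-ψ z) with hA
  set F : Cn n → ℝ := fun z => lam z * (∑ j, ‖α j z‖ ^ 2) * Real.exp (-ψ z) with hF
  set G : ℕ → Cn n → ℝ := fun m z => lam z * (∑ j, ‖(χ m z : ℂ) * α j z‖ ^ 2) * Real.exp (-ψ z)
    with hG
  have hF0 : ∀ z, 0 ≤ F z := fun z => mul_nonneg (mul_nonneg (hlam0 z)
    (Finset.sum_nonneg fun j _ => sq_nonneg _)) (Real.exp_pos _).le
  have hG0 : ∀ m z, 0 ≤ G m z := fun m z => mul_nonneg (mul_nonneg (hlam0 z)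
    (Finset.sum_nonneg fun j _ => sq_nonneg _)) (Real.exp_pos _).le
  have iA : Integrable (fun z => ∑ j, ‖α j z‖ ^ 2 * Real.exp (-ψ z)) :=
    integrable_finsetSum _ fun j _ => hα j
  have iG : ∀ m, Integrable (G m) := by
    intro m
    have hcont := (h1 m).continuous
    have h6 : Integrable (fun z => (lam z * (χ m z) ^ 2) *
        (∑ j, ‖α j z‖ ^ 2 * Real.exp (-ψ z))) := by
      refine weak_ineq_bm _ _ iA (by fun_prop) ?_
      refine (h2 m).mono ?_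
      intro z hz
      rw [Function.mem_support] at hz ⊢
      intro h
      apply hz
      rw [h]
      simp
    refine h6.congr (Eventually.of_forall fun z => ?_)
    show (lam z * (χ m z) ^ 2) * (∑ j, ‖α j z‖ ^ 2 * Real.exp (-ψ z)) =
      lam z * (∑ j, ‖(χ m z : ℂ) * α j z‖ ^ 2) * Real.exp (-ψ z)
    have h7 : ∀ j, ‖(χ m z : ℂ) * α j z‖ ^ 2 = (χ m z) ^ 2 * ‖α j z‖ ^ 2 := by
      intro j
      rw [norm_mul, mul_pow, Complex.norm_real, Real.norm_eq_abs, sq_abs]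
    simp only [h7]
    rw [← Finset.mul_sum, ← Finset.sum_mul]
    ring
  have hFG : ∀ (m : ℕ) z, z ∈ Metric.closedBall (0 : Cn n) ((m : ℝ) + 1) → G m z = F z := by
    intro m z hz
    rw [mem_closedBall_zero_iff] at hz
    show lam z * (∑ j, ‖(χ m z : ℂ) * α j z‖ ^ 2) * Real.exp (-ψ z) = _
    rw [h4 m z hz]
    simp [hF]
  have hball : ∀ m : ℕ, MeasurableSet (Metric.closedBall (0 : Cn n) ((m : ℝ) + 1)) :=
    fun m => Metric.isClosed_closedBall.measurableSet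
  have iF : ∀ m : ℕ, IntegrableOn F (Metric.closedBall (0 : Cn n) ((m : ℝ) + 1)) := by
    intro m
    exact ((iG m).integrableOn).congr_fun (fun z hz => hFG m z hz) (hball m)
  set U : ℕ → ℝ := fun m => (1 + 1 / ((m : ℝ) + 1)) * B +
    ((1 / ((m : ℝ) + 1)) ^ 2 + 1 / ((m : ℝ) + 1)) * (n * C ^ 2 * A) +
    2 * (1 / ((m : ℝ) + 1)) ^ 2 * (n * C ^ 2 * A) with hU
  have hUt : Tendsto U atTop (𝓝 B) := by
    have h6 : Continuous (fun x : ℝ => (1 + x) * B + (x ^ 2 + x) * (n * C ^ 2 * A) +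
      2 * x ^ 2 * (n * C ^ 2 * A)) := by fun_prop
    have h7 := (h6.tendsto 0).comp (tendsto_one_div_add_atTop_nhds_zero_nat (𝕜 := ℝ))
    simpa [Function.comp_def, hU] using h7
  have hle : ∀ m : ℕ, ∫ z in Metric.closedBall (0 : Cn n) ((m : ℝ) + 1), F z ≤ U m := by
    intro m
    have hm : (0 : ℝ) < (m : ℝ) + 1 := by positivity
    have hx : (0 : ℝ) < 1 / ((m : ℝ) + 1) := one_div_pos.2 hm
    have hs := weak_ineq_step ψ lam hψ hlam hL α b hα0 hb0 hα hb hwc hwb (χ m) (h1 m) (h2 m)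
      (h3 m) (C * (1 / ((m : ℝ) + 1))) (mul_nonneg hC0 hx.le) (h5 m) (1 / ((m : ℝ) + 1)) hx
    have h6 : ∫ z in Metric.closedBall (0 : Cn n) ((m : ℝ) + 1), F z =
        ∫ z in Metric.closedBall (0 : Cn n) ((m : ℝ) + 1), G m z :=
      setIntegral_congr_fun (hball m) fun z hz => (hFG m z hz).symm
    rw [h6]
    refine (setIntegral_le_integral (iG m) (Eventually.of_forall (hG0 m))).trans ?_
    refine hs.trans (le_of_eq ?_)
    rw [hU]
    simp only
    rw [← hB, ← hA]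
    field_simp
  have hcov : AECover volume atTop
      (fun m : ℕ => Metric.closedBall (0 : Cn n) ((m : ℝ) + 1)) :=
    aecover_closedBall (tendsto_atTop_add_const_right _ _ tendsto_natCast_atTop_atTop)
  have hint : Integrable F := by
    refine hcov.integrable_of_integral_bounded_of_nonneg_ae (B + 1) iF
      (Eventually.of_forall hF0) ?_
    filter_upwards [hUt.eventually_le_const (lt_add_one B)] with m hm
    exact (hle m).trans hm
  refine ⟨hint, ?_⟩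
  exact le_of_tendsto_of_tendsto' (hcov.integral_tendsto_of_countably_generated hint) hUt hle

end J_weak_ineq

alias weak_ineq := J_weak_ineq.weak_ineq

end Pool.Agent.Helper192.Syn
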