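import Pool.Agent.Helper192.Syn.H2a

/-! weak existence theorem -/

set_option linter.all false

open MeasureTheory Set Filter Topology Complex
open scoped BigOperators ContDiff ComplexConjugate

namespace Pool.Agent.Helper192.Syn

namespace J_test_bound

theorem tb_dzb_comm {n : ℕ} (j k : Fin n) (h : Cn n → ℂ) (hh : ContDiff ℝ ∞ h) (z : Cn n) :
    dzb k (dzb j h) z = dzb j (dzb k h) z := by
  have h2 : DifferentiableAt ℝ (fderiv ℝ h) z :=
    ((hh.fderiv_right (m := ∞) le_rfl).differentiable (by simp)) z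
  have hv : ∀ v, HasFDerivAt (fun y => fderiv ℝ h y v) ((fderiv ℝ (fderiv ℝ h) z).flip v) z := by
    intro v
    have := h2.hasFDerivAt.clm_apply (hasFDerivAt_const v z)
    simpa using this
  have e : ∀ (l : Fin n) (w : Cn n), fderiv ℝ (dzb l h) z w =
      (1 / 2) * (fderiv ℝ (fderiv ℝ h) z w (Pi.single l 1) +
        I * fderiv ℝ (fderiv ℝ h) z w (Pi.single l I)) := by
    intro l w
    have h3 := ((hv (Pi.single l 1)).add ((hv (Pi.single l I)).const_mul I)).const_mul (1 / 2 : ℂ)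
    have h4 : HasFDerivAt (dzb l h) _ z := h3
    rw [h4.fderiv]
    simp
    ring
  have hs : ∀ a b, fderiv ℝ (fderiv ℝ h) z a b = fderiv ℝ (fderiv ℝ h) z b a := by
    intro a b
    have h5 : IsSymmSndFDerivAt ℝ h z :=
      (hh.contDiffAt).isSymmSndFDerivAt (by
        simp only [minSmoothness_of_isRCLikeNormedField]
        exact ENat.LEInfty.out)
    exact h5 a b
  have o : ∀ (l : Fin n) (u : Cn n → ℂ), dzb l u z =
      (1 / 2) * (fderiv ℝ u z (Pi.single l 1) + I * fderiv ℝ u z (Pi.single l I)) :=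
    fun l u => rfl
  rw [o k (dzb j h), o j (dzb k h), e, e, e, e, hs (Pi.single k 1) (Pi.single j 1),
    hs (Pi.single k 1) (Pi.single j I), hs (Pi.single k I) (Pi.single j 1),
    hs (Pi.single k I) (Pi.single j I)]
  ring

theorem tb_dz_conj {n : ℕ} (k : Fin n) (u : Cn n → ℂ) (z : Cn n) (hu : DifferentiableAt ℝ u z) :
    dz k (fun y => conj (u y)) z = conj (dzb k u z) := by
  have h1 : HasFDerivAt (fun y => conj (u y))
      ((Complex.conjCLE : ℂ →L[ℝ] ℂ).comp (fderiv ℝ u z)) z :=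
    (Complex.conjCLE.hasFDerivAt).comp z hu.hasFDerivAt
  unfold dz dzb
  rw [h1.fderiv]
  simp only [ContinuousLinearMap.comp_apply, map_mul, map_add, map_div₀, map_one, map_ofNat,
    Complex.conj_I]
  simp
  ring

theorem tb_tst_conj {n : ℕ} (u : Cn n → ℂ) (hu : Tst u) : Tst (fun y => conj (u y)) := by
  refine ⟨Complex.conjCLE.contDiff.comp hu.1, ?_⟩
  exact hu.2.comp_left (g := fun x => conj x) (by simp)

theorem tb_ibp1 {n : ℕ} (j k : Fin n) (g h : Cn n → ℂ) (hg : Tst g) (hh : Tst h) :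
    ∫ z, dzb k g z * dzb j h z = - ∫ z, g z * dzb k (dzb j h) z := by
  have hjh := (tst_dz j h hh).2
  have h1 := adj (fun _ => (0:ℝ)) contDiff_const k g (fun z => conj (dzb j h z)) hg.1
    (tb_tst_conj _ hjh)
  have h2 : ∀ z, del (fun _ => (0:ℝ)) k (fun z => conj (dzb j h z)) z =
      - conj (dzb k (dzb j h) z) := by
    intro z
    unfold del
    rw [tb_dz_conj k (dzb j h) z ((hjh.1.differentiable (by simp)) z)]
    have : dz k (fun _ : Cn n => (((0:ℝ)) : ℂ)) z = 0 := by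
      unfold dz
      simp
    rw [this, zero_mul, add_zero]
  simp only [h2, Complex.conj_conj, neg_zero, Real.exp_zero, Complex.ofReal_one, mul_one, map_neg,
    mul_neg] at h1
  rw [integral_neg] at h1
  exact h1

theorem tb_ibp {n : ℕ} (j k : Fin n) (g h : Cn n → ℂ) (hg : Tst g) (hh : Tst h) :
    ∫ z, dzb k g z * dzb j h z = ∫ z, dzb j g z * dzb k h z := by
  rw [tb_ibp1 j k g h hg hh, tb_ibp1 k j g h hg hh]
  congr 1
  apply integral_congr_ae
  filter_upwards with z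
  rw [tb_dzb_comm j k h hh.1 z]

theorem tb_tst_del {n : ℕ} (ψ : Cn n → ℝ) (hψ : ContDiff ℝ ∞ ψ) (j : Fin n) (g : Cn n → ℂ)
    (hg : Tst g) : Tst (del ψ j g) := by
  have h1 := (tst_dz j g hg).1
  have hψ' : ContDiff ℝ ∞ (fun y => (ψ y : ℂ)) := Complex.ofRealCLM.contDiff.comp hψ
  have h2 := (smooth_dz j _ hψ').1
  refine ⟨?_, ?_⟩
  · exact h1.1.neg.add (h2.mul hg.1)
  · exact (h1.2.neg).add (hg.2.mul_left)


/-- the real weight `exp (c ψ)` as a complex function -/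
noncomputable def tbw {n : ℕ} (ψ : Cn n → ℝ) (c : ℝ) (z : Cn n) : ℂ := ((Real.exp (c * ψ z) : ℝ) : ℂ)

theorem tbw_cont {n : ℕ} (ψ : Cn n → ℝ) (hψ : ContDiff ℝ ∞ ψ) (c : ℝ) : Continuous (tbw ψ c) :=
  Complex.continuous_ofReal.comp (Real.continuous_exp.comp (continuous_const.mul hψ.continuous))

theorem tbw_mul {n : ℕ} (ψ : Cn n → ℝ) (c d : ℝ) (z : Cn n) :
    tbw ψ c z * tbw ψ d z = tbw ψ (c + d) z := by
  unfold tbw
  rw [← Complex.ofReal_mul, ← Real.exp_add, add_mul]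

theorem tbw_zero {n : ℕ} (ψ : Cn n → ℝ) (z : Cn n) : tbw ψ 0 z = 1 := by
  unfold tbw
  simp

theorem tbw_neg_one {n : ℕ} (ψ : Cn n → ℝ) (z : Cn n) :
    tbw ψ (-1) z = ((Real.exp (-ψ z) : ℝ) : ℂ) := by
  unfold tbw
  rw [neg_one_mul]

theorem tbw_conj {n : ℕ} (ψ : Cn n → ℝ) (c : ℝ) (z : Cn n) : conj (tbw ψ c z) = tbw ψ c z :=
  Complex.conj_ofReal _

theorem tbw_norm_sq {n : ℕ} (ψ : Cn n → ℝ) (c : ℝ) (z : Cn n) (u : ℂ) :
    ‖u * tbw ψ c z‖ ^ 2 = ‖u‖ ^ 2 * Real.exp (2 * c * ψ z) := by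
  unfold tbw
  rw [norm_mul, mul_pow, Complex.norm_real, Real.norm_eq_abs, abs_of_pos (Real.exp_pos _),
    ← Real.exp_nat_mul]
  congr 2
  push_cast
  ring

theorem tbw_memLp {n : ℕ} (ψ : Cn n → ℝ) (hψ : ContDiff ℝ ∞ ψ) (u : Cn n → ℂ)
    (hu0 : AEStronglyMeasurable u volume)
    (hu : Integrable (fun z => ‖u z‖ ^ 2 * Real.exp (-ψ z))) :
    MemLp (fun z => u z * tbw ψ (-1 / 2) z) 2 volume := by
  have hm : AEStronglyMeasurable (fun z => u z * tbw ψ (-1 / 2) z) volume :=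
    hu0.mul (tbw_cont ψ hψ _).aestronglyMeasurable
  rw [memLp_two_iff_integrable_sq_norm hm]
  refine hu.congr (Filter.Eventually.of_forall fun z => ?_)
  beta_reduce
  rw [tbw_norm_sq]
  congr 2
  ring

theorem tbw_memLp_tst {n : ℕ} (ψ : Cn n → ℝ) (hψ : ContDiff ℝ ∞ ψ) (c : ℝ) (u : Cn n → ℂ)
    (hu : Tst u) : MemLp (fun z => u z * tbw ψ c z) 2 volume :=
  (hu.1.continuous.mul (tbw_cont ψ hψ c)).memLp_of_hasCompactSupport hu.2.mul_right

/-- the Hilbert space -/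
abbrev TBH (n : ℕ) : Type := PiLp 2 (fun _ : Fin n => Lp ℂ 2 (volume : Measure (Cn n)))

/-- vectors given by functions -/
noncomputable def tbmk {n : ℕ} (u : Fin n → Cn n → ℂ) (hu : ∀ j, MemLp (u j) 2 volume) : TBH n :=
  WithLp.toLp 2 (fun j => (hu j).toLp (u j))

theorem tb_inner {n : ℕ} (u : Fin n → Cn n → ℂ) (hu : ∀ j, MemLp (u j) 2 volume) (X : TBH n) :
    inner ℂ (tbmk u hu) X = ∑ j, ∫ z, (X j : Cn n → ℂ) z * conj (u j z) := by
  rw [PiLp.inner_apply]
  refine Finset.sum_congr rfl fun j _ => ?_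
  rw [L2.inner_def]
  apply integral_congr_ae
  filter_upwards [(hu j).coeFn_toLp] with z hz
  have : (tbmk u hu) j = (hu j).toLp (u j) := rfl
  rw [this, hz, RCLike.inner_apply]
  
theorem tb_int {n : ℕ} (u v : Cn n → ℂ) (hu : MemLp u 2 volume) (hv : MemLp v 2 volume) :
    Integrable (fun z => u z * v z) := hu.integrable_mul hv


theorem tb_inner2 {n : ℕ} (u v : Fin n → Cn n → ℂ) (hu : ∀ j, MemLp (u j) 2 volume)
    (hv : ∀ j, MemLp (v j) 2 volume) :
    inner ℂ (tbmk u hu) (tbmk v hv) = ∑ j, ∫ z, v j z * conj (u j z) := by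
  rw [tb_inner]
  refine Finset.sum_congr rfl fun j _ => ?_
  apply integral_congr_ae
  filter_upwards [(hv j).coeFn_toLp] with z hz
  have : (tbmk v hv) j = (hv j).toLp (v j) := rfl
  rw [this, hz]

theorem tbW_memLp {n : ℕ} (ψ : Cn n → ℝ) (hψ : ContDiff ℝ ∞ ψ) (j k : Fin n) (g : Cn n → ℂ)
    (hg : Tst g) (l : Fin n) :
    MemLp (if l = k then (fun z => conj (dzb j g z) * tbw ψ (1 / 2) z) else 0) 2
      (volume : Measure (Cn n)) := by
  split_ifs
  · exact tbw_memLp_tst ψ hψ _ _ (tb_tst_conj _ (tst_dz j g hg).2)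
  · exact MemLp.zero'

/-- the vectors whose differences span the complement of the closed forms -/
noncomputable def tbW {n : ℕ} (ψ : Cn n → ℝ) (hψ : ContDiff ℝ ∞ ψ) (j k : Fin n) (g : Cn n → ℂ)
    (hg : Tst g) : TBH n :=
  tbmk (fun l => if l = k then (fun z => conj (dzb j g z) * tbw ψ (1 / 2) z) else 0)
    (tbW_memLp ψ hψ j k g hg)

theorem tbW_inner {n : ℕ} (ψ : Cn n → ℝ) (hψ : ContDiff ℝ ∞ ψ) (j k : Fin n) (g : Cn n → ℂ)
    (hg : Tst g) (X : TBH n) :
    inner ℂ (tbW ψ hψ j k g hg) X = ∫ z, (X k : Cn n → ℂ) z * (dzb j g z * tbw ψ (1 / 2) z) := by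
  unfold tbW
  rw [tb_inner, Finset.sum_eq_single k]
  · apply integral_congr_ae
    filter_upwards with z
    simp only [if_true, map_mul, Complex.conj_conj, tbw_conj]
  · intro l _ hl
    simp [hl]
  · intro h
    exact absurd (Finset.mem_univ k) h

/-- the complement of the closed forms -/
noncomputable def tbK {n : ℕ} (ψ : Cn n → ℝ) (hψ : ContDiff ℝ ∞ ψ) : Submodule ℂ (TBH n) :=
  Submodule.span ℂ {V | ∃ (j k : Fin n) (g : Cn n → ℂ) (hg : Tst g),
    V = tbW ψ hψ j k g hg - tbW ψ hψ k j g hg}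

theorem tbK_mem {n : ℕ} (ψ : Cn n → ℝ) (hψ : ContDiff ℝ ∞ ψ) (X : TBH n) :
    X ∈ (tbK ψ hψ)ᗮ ↔ ∀ (j k : Fin n) (g : Cn n → ℂ), Tst g →
      ∫ z, (X k : Cn n → ℂ) z * (dzb j g z * tbw ψ (1 / 2) z) =
      ∫ z, (X j : Cn n → ℂ) z * (dzb k g z * tbw ψ (1 / 2) z) := by
  rw [Submodule.mem_orthogonal]
  constructor
  · intro h j k g hg
    have h1 := h (tbW ψ hψ j k g hg - tbW ψ hψ k j g hg)
      (Submodule.subset_span ⟨j, k, g, hg, rfl⟩)
    rw [inner_sub_left, tbW_inner, tbW_inner, sub_eq_zero] at h1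
    exact h1
  · intro h V hV
    unfold tbK at hV
    induction hV using Submodule.span_induction with
    | mem V hV =>
      obtain ⟨j, k, g, hg, rfl⟩ := hV
      rw [inner_sub_left, tbW_inner, tbW_inner, sub_eq_zero]
      exact h j k g hg
    | zero => exact inner_zero_left _
    | add u v _ _ hu hv => rw [inner_add_left, hu, hv, add_zero]
    | smul c u _ hu => rw [inner_smul_left, hu, mul_zero]

theorem tbK_mem_mk {n : ℕ} (ψ : Cn n → ℝ) (hψ : ContDiff ℝ ∞ ψ) (u : Fin n → Cn n → ℂ)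
    (hu : ∀ j, MemLp (fun z => u j z * tbw ψ (-1 / 2) z) 2 volume)
    (h : ∀ (j k : Fin n) (g : Cn n → ℂ), Tst g →
      ∫ z, u k z * dzb j g z = ∫ z, u j z * dzb k g z) :
    tbmk (fun j z => u j z * tbw ψ (-1 / 2) z) hu ∈ (tbK ψ hψ)ᗮ := by
  rw [tbK_mem]
  intro j k g hg
  have key : ∀ (l m : Fin n), ∫ z, ((tbmk (fun j z => u j z * tbw ψ (-1 / 2) z) hu) l : Cn n → ℂ) z *
      (dzb m g z * tbw ψ (1 / 2) z) = ∫ z, u l z * dzb m g z := by
    intro l m
    apply integral_congr_ae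
    filter_upwards [(hu l).coeFn_toLp] with z hz
    have : (tbmk (fun j z => u j z * tbw ψ (-1 / 2) z) hu) l = (hu l).toLp _ := rfl
    rw [this, hz]
    have h2 : tbw ψ (-1 / 2) z * tbw ψ (1 / 2) z = 1 := by
      rw [tbw_mul, show (-1 / 2 + 1 / 2 : ℝ) = 0 by norm_num, tbw_zero]
    calc u l z * tbw ψ (-1 / 2) z * (dzb m g z * tbw ψ (1 / 2) z)
        = u l z * dzb m g z * (tbw ψ (-1 / 2) z * tbw ψ (1 / 2) z) := by ring
      _ = u l z * dzb m g z := by rw [h2, mul_one]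
  rw [key, key]
  exact h j k g hg

theorem tb_disc (x P Q : ℝ) (hx : 0 ≤ x) (hP : 0 ≤ P) (hQ : 0 ≤ Q)
    (h : ∀ t : ℝ, 0 < t → 2 * x ≤ t * P + Q / t) : x ^ 2 ≤ P * Q := by
  have h1 : ∀ t : ℝ, 0 ≤ P * (t * t) + (-(2 * x)) * t + Q := by
    intro t
    rcases lt_or_ge 0 t with ht | ht
    · have h2 := mul_le_mul_of_nonneg_right (h t ht) ht.le
      have h3 : (t * P + Q / t) * t = P * (t * t) + Q := by
        field_simp
      rw [h3] at h2
      linarith
    · have h4 : 0 ≤ -(t * x) := by nlinarith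
      nlinarith [mul_nonneg hP (mul_self_nonneg t)]
  have h5 := discrim_le_zero h1
  unfold discrim at h5
  nlinarith

theorem tb_sum_tst {n : ℕ} (u : Fin n → Cn n → ℂ) (hu : ∀ j, Tst (u j)) :
    Tst (fun z => ∑ j, u j z) := by
  classical
  have : ∀ s : Finset (Fin n), Tst (fun z => ∑ j ∈ s, u j z) := by
    intro s
    induction s using Finset.induction_on with
    | empty =>
      simp only [Finset.sum_empty]
      exact ⟨contDiff_const, HasCompactSupport.zero⟩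
    | insert a s ha ih =>
      simp only [Finset.sum_insert ha]
      exact ⟨(hu a).1.add ih.1, (hu a).2.add ih.2⟩
  exact this Finset.univ

theorem tb_sum_int {n : ℕ} (ψ : Cn n → ℝ) (u v : Fin n → Cn n → ℂ)
    (hu : ∀ j, MemLp (fun z => u j z * tbw ψ (-1 / 2) z) 2 volume)
    (hv : ∀ j, MemLp (fun z => v j z * tbw ψ (-1 / 2) z) 2 volume) :
    inner ℂ (tbmk (fun j z => u j z * tbw ψ (-1 / 2) z) hu)
      (tbmk (fun j z => v j z * tbw ψ (-1 / 2) z) hv) =
      ∫ z, (∑ j, v j z * conj (u j z)) * (Real.exp (-ψ z) : ℂ) := by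
  rw [tb_inner2]
  have e : ∀ z, (∑ j, v j z * conj (u j z)) * (Real.exp (-ψ z) : ℂ) =
      ∑ j, (v j z * tbw ψ (-1 / 2) z) * conj (u j z * tbw ψ (-1 / 2) z) := by
    intro z
    rw [Finset.sum_mul]
    refine Finset.sum_congr rfl fun j _ => ?_
    rw [map_mul, tbw_conj, ← tbw_neg_one ψ z, show (-1 : ℝ) = -1 / 2 + -1 / 2 by norm_num,
      ← tbw_mul]
    ring_nf
  simp only [e]
  rw [integral_finsetSum]
  intro j _
  exact (hv j).integrable_mul (hu j).star

/-- bound of the pairing of a weakly closed form with a test form -/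
theorem test_bound {n : ℕ} (ψ lam : Cn n → ℝ) (hψ : ContDiff ℝ ∞ ψ) (hlam : Continuous lam)
    (hlam0 : ∀ z, 0 < lam z) (hL : ∀ z w, 4 * lam z * nsq w ≤ Lev ψ z w)
    (f : Fin n → Cn n → ℂ) (hf0 : ∀ j, AEStronglyMeasurable (f j) volume)
    (hf : Integrable (fun z => (∑ j, ‖f j z‖ ^ 2) / lam z * Real.exp (-ψ z)))
    (hf2 : ∀ j, Integrable (fun z => ‖f j z‖ ^ 2 * Real.exp (-ψ z)))
    (hcl : ∀ j k g, Tst g → ∫ z, f k z * dzb j g z = ∫ z, f j z * dzb k g z)
    (α : Fin n → Cn n → ℂ) (hα : ∀ j, Tst (α j)) :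
    ‖∫ z, (∑ j, f j z * conj (α j z)) * (Real.exp (-ψ z) : ℂ)‖ ^ 2
      ≤ (∫ z, (∑ j, ‖f j z‖ ^ 2) / lam z * Real.exp (-ψ z))
        * ∫ z, ‖∑ j, del ψ j (α j) z‖ ^ 2 * Real.exp (-ψ z) := by
  classical
  have hFm : ∀ j, MemLp (fun z => f j z * tbw ψ (-1 / 2) z) 2 volume := fun j =>
    tbw_memLp ψ hψ (f j) (hf0 j) (hf2 j)
  have hAm : ∀ j, MemLp (fun z => α j z * tbw ψ (-1 / 2) z) 2 volume := fun j =>
    tbw_memLp_tst ψ hψ _ _ (hα j)
  set F : TBH n := tbmk (fun j z => f j z * tbw ψ (-1 / 2) z) hFm with hFd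
  set A : TBH n := tbmk (fun j z => α j z * tbw ψ (-1 / 2) z) hAm with hAd
  have hFN : F ∈ (tbK ψ hψ)ᗮ := tbK_mem_mk ψ hψ f hFm hcl
  have hcomp : CompleteSpace ((tbK ψ hψ)ᗮ : Submodule ℂ (TBH n)) :=
    (Submodule.isClosed_orthogonal (tbK ψ hψ)).completeSpace_coe
  set B : TBH n := ((tbK ψ hψ)ᗮ).starProjection A with hBd
  have hBN : B ∈ (tbK ψ hψ)ᗮ := Submodule.starProjection_apply_mem _ _
  have hAB : ∀ X ∈ (tbK ψ hψ)ᗮ, inner ℂ A X = inner ℂ B X := by
    intro X hX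
    have h1 := ((tbK ψ hψ)ᗮ).starProjection_inner_eq_zero A X hX
    rw [inner_sub_left, sub_eq_zero] at h1
    exact h1
  -- the projected form
  set a : Fin n → Cn n → ℂ := fun j z => (B j : Cn n → ℂ) z * tbw ψ (1 / 2) z with had
  have hBsq : ∀ j, Integrable (fun z => ‖(B j : Cn n → ℂ) z‖ ^ 2) := fun j =>
    (memLp_two_iff_integrable_sq_norm (Lp.aestronglyMeasurable (B j))).1 (Lp.memLp (B j))
  have ha0 : ∀ j, AEStronglyMeasurable (a j) volume := fun j =>
    (Lp.aestronglyMeasurable (B j)).mul (tbw_cont ψ hψ _).aestronglyMeasurable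
  have ha : ∀ j, Integrable (fun z => ‖a j z‖ ^ 2 * Real.exp (-ψ z)) := by
    intro j
    refine (hBsq j).congr (Filter.Eventually.of_forall fun z => ?_)
    rw [had]
    beta_reduce
    rw [tbw_norm_sq, mul_assoc, ← Real.exp_add]
    rw [show 2 * (1 / 2) * ψ z + -ψ z = 0 by ring, Real.exp_zero, mul_one]
  have haw : ∀ j z, a j z * tbw ψ (-1 / 2) z = (B j : Cn n → ℂ) z := by
    intro j z
    rw [had]
    beta_reduce
    rw [mul_assoc, tbw_mul, show (1 / 2 + -1 / 2 : ℝ) = 0 by norm_num, tbw_zero, mul_one]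
  have haM : ∀ j, MemLp (fun z => a j z * tbw ψ (-1 / 2) z) 2 volume := fun j =>
    tbw_memLp ψ hψ (a j) (ha0 j) (ha j)
  have hB : B = tbmk (fun j z => a j z * tbw ψ (-1 / 2) z) haM := by
    apply PiLp.ext
    intro j
    have h1 : (tbmk (fun j z => a j z * tbw ψ (-1 / 2) z) haM) j = (haM j).toLp _ := rfl
    rw [h1]
    apply Lp.ext
    filter_upwards [(haM j).coeFn_toLp] with z hz
    rw [hz, haw]
  -- the pairing with the gradient of a test function
  have hb := tb_sum_tst (fun j => del ψ j (α j)) (fun j => tb_tst_del ψ hψ j (α j) (hα j))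
  have hbint : Integrable (fun z => ‖∑ j, del ψ j (α j) z‖ ^ 2 * Real.exp (-ψ z)) := by
    apply Continuous.integrable_of_hasCompactSupport
    · exact (hb.1.continuous.norm.pow 2).mul (Real.continuous_exp.comp hψ.continuous.neg)
    · refine HasCompactSupport.mul_right ?_
      exact hb.2.comp_left (g := fun x : ℂ => ‖x‖ ^ 2) (by simp)
  obtain ⟨hQi, hQ⟩ := weak_ineq ψ lam hψ hlam (fun z => (hlam0 z).le) hL a
    (fun z => ∑ j, del ψ j (α j) z) ha0 hb.1.continuous.aestronglyMeasurable ha hbint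
    (by
      intro j k g hg
      have h1 := (tbK_mem ψ hψ B).1 hBN j k g hg
      have e : ∀ l m, ∫ z, a l z * dzb m g z =
          ∫ z, (B l : Cn n → ℂ) z * (dzb m g z * tbw ψ (1 / 2) z) := by
        intro l m
        apply integral_congr_ae
        filter_upwards with z
        rw [had]
        ring
      rw [e, e]
      exact h1)
    (by
      intro g hg
      have hGm : ∀ j, MemLp (fun z => dzb j g z * tbw ψ (-1 / 2) z) 2 volume := fun j =>
        tbw_memLp_tst ψ hψ _ _ (tst_dz j g hg).2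
      have hGN : tbmk (fun j z => dzb j g z * tbw ψ (-1 / 2) z) hGm ∈ (tbK ψ hψ)ᗮ :=
        tbK_mem_mk ψ hψ (fun j => dzb j g) hGm (fun j k h hh => tb_ibp j k g h hg hh)
      have h1 := tb_sum_int ψ (fun j => dzb j g) a hGm haM
      have h2 := tb_sum_int ψ (fun j => dzb j g) α hGm hAm
      rw [← hB] at h1
      rw [← hAd] at h2
      have h3 := hAB _ hGN
      have h4 : inner ℂ (tbmk (fun j z => dzb j g z * tbw ψ (-1 / 2) z) hGm) A =
          inner ℂ (tbmk (fun j z => dzb j g z * tbw ψ (-1 / 2) z) hGm) B := by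
        rw [← inner_conj_symm, h3, inner_conj_symm]
      rw [← h1, ← h4, h2]
      -- adjoint relation
      have h5 : ∀ j, Integrable (fun z => α j z * conj (dzb j g z) * (Real.exp (-ψ z) : ℂ)) := by
        intro j
        apply Continuous.integrable_of_hasCompactSupport
        · exact ((hα j).1.continuous.mul (tb_tst_conj _ (tst_dz j g hg).2).1.continuous).mul
            (Complex.continuous_ofReal.comp (Real.continuous_exp.comp hψ.continuous.neg))
        · exact ((hα j).2.mul_right).mul_right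
      have h6 : ∀ j, Integrable (fun z => del ψ j (α j) z * conj (g z) *
          (Real.exp (-ψ z) : ℂ)) := by
        intro j
        have := tb_tst_del ψ hψ j (α j) (hα j)
        apply Continuous.integrable_of_hasCompactSupport
        · exact (this.1.continuous.mul (tb_tst_conj _ hg).1.continuous).mul
            (Complex.continuous_ofReal.comp (Real.continuous_exp.comp hψ.continuous.neg))
        · exact (this.2.mul_right).mul_right
      have h7 : ∀ j, ∫ z, α j z * conj (dzb j g z) * (Real.exp (-ψ z) : ℂ) =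
          ∫ z, del ψ j (α j) z * conj (g z) * (Real.exp (-ψ z) : ℂ) := by
        intro j
        have h8 := congrArg conj (adj ψ hψ j g (α j) hg.1 (hα j))
        rw [← integral_conj, ← integral_conj] at h8
        simp only [map_mul, Complex.conj_conj, Complex.conj_ofReal] at h8
        rw [show (fun z => α j z * conj (dzb j g z) * (Real.exp (-ψ z) : ℂ)) =
          fun z => conj (dzb j g z) * α j z * (Real.exp (-ψ z) : ℂ) from by
            funext z; ring, h8]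
        congr 1
        funext z
        ring
      simp only [Finset.sum_mul]
      rw [integral_finsetSum _ (fun j _ => h5 j), integral_finset_sum _ (fun j _ => h6 j)]
      exact Finset.sum_congr rfl fun j _ => h7 j)
  -- conclusion
  have hI : ‖∫ z, (∑ j, f j z * conj (α j z)) * (Real.exp (-ψ z) : ℂ)‖ =
      ‖∫ z, (∑ j, f j z * conj (a j z)) * (Real.exp (-ψ z) : ℂ)‖ := by
    rw [← tb_sum_int ψ α f hAm hFm, ← tb_sum_int ψ a f haM hFm, ← hAd, ← hFd, ← hB, hAB F hFN]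
  rw [hI]
  have hP0 : 0 ≤ ∫ z, (∑ j, ‖f j z‖ ^ 2) / lam z * Real.exp (-ψ z) :=
    integral_nonneg fun z => mul_nonneg (div_nonneg (Finset.sum_nonneg fun j _ => sq_nonneg _)
      (hlam0 z).le) (Real.exp_pos _).le
  have hQ0 : 0 ≤ ∫ z, lam z * (∑ j, ‖a j z‖ ^ 2) * Real.exp (-ψ z) :=
    integral_nonneg fun z => mul_nonneg (mul_nonneg (hlam0 z).le
      (Finset.sum_nonneg fun j _ => sq_nonneg _)) (Real.exp_pos _).le
  refine le_trans (tb_disc _ _ _ (norm_nonneg _) hP0 hQ0 ?_)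
    (mul_le_mul_of_nonneg_left hQ hP0)
  intro t ht
  have hbd : ∀ z, ‖(∑ j, f j z * conj (a j z)) * (Real.exp (-ψ z) : ℂ)‖ ≤
      (t / 2) * ((∑ j, ‖f j z‖ ^ 2) / lam z * Real.exp (-ψ z)) +
        (1 / (2 * t)) * (lam z * (∑ j, ‖a j z‖ ^ 2) * Real.exp (-ψ z)) := by
    intro z
    rw [norm_mul, Complex.norm_real, Real.norm_eq_abs, abs_of_pos (Real.exp_pos _)]
    have hl := hlam0 z
    have h9 : ‖∑ j, f j z * conj (a j z)‖ ≤ (t / 2) * ((∑ j, ‖f j z‖ ^ 2) / lam z) +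
        (1 / (2 * t)) * (lam z * ∑ j, ‖a j z‖ ^ 2) := by
      calc ‖∑ j, f j z * conj (a j z)‖ ≤ ∑ j, ‖f j z‖ * ‖a j z‖ := by
            refine (norm_sum_le _ _).trans (Finset.sum_le_sum fun j _ => ?_)
            rw [norm_mul, RCLike.norm_conj]
        _ ≤ ∑ j, ((t / 2) * (‖f j z‖ ^ 2 / lam z) + (1 / (2 * t)) * (lam z * ‖a j z‖ ^ 2)) := by
            refine Finset.sum_le_sum fun j _ => ?_
            have h10 : (t / 2) * (‖f j z‖ ^ 2 / lam z) + (1 / (2 * t)) * (lam z * ‖a j z‖ ^ 2) -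
                ‖f j z‖ * ‖a j z‖ = (t * ‖f j z‖ - lam z * ‖a j z‖) ^ 2 / (2 * t * lam z) := by
              field_simp
              ring
            have h11 : 0 ≤ (t * ‖f j z‖ - lam z * ‖a j z‖) ^ 2 / (2 * t * lam z) := by positivity
            linarith
        _ = (t / 2) * ((∑ j, ‖f j z‖ ^ 2) / lam z) +
            (1 / (2 * t)) * (lam z * ∑ j, ‖a j z‖ ^ 2) := by
            rw [Finset.sum_add_distrib, ← Finset.mul_sum, ← Finset.mul_sum, ← Finset.mul_sum,
              Finset.sum_div]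
    have h12 := mul_le_mul_of_nonneg_right h9 (Real.exp_pos (-ψ z)).le
    refine h12.trans (le_of_eq ?_)
    ring
  have h13 := norm_integral_le_of_norm_le ((hf.const_mul (t / 2)).add (hQi.const_mul (1 / (2 * t))))
    (Filter.Eventually.of_forall hbd)
  have h14 : ∫ z, (((t / 2) * ((∑ j, ‖f j z‖ ^ 2) / lam z * Real.exp (-ψ z))) +
        ((1 / (2 * t)) * (lam z * (∑ j, ‖a j z‖ ^ 2) * Real.exp (-ψ z)))) =
      (t / 2) * (∫ z, (∑ j, ‖f j z‖ ^ 2) / lam z * Real.exp (-ψ z)) +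
      (1 / (2 * t)) * ∫ z, lam z * (∑ j, ‖a j z‖ ^ 2) * Real.exp (-ψ z) := by
    rw [integral_add (hf.const_mul (t / 2)) (hQi.const_mul (1 / (2 * t))), integral_const_mul,
      integral_const_mul]
  have h15 : ‖∫ z, (∑ j, f j z * conj (a j z)) * (Real.exp (-ψ z) : ℂ)‖ ≤
      (t / 2) * (∫ z, (∑ j, ‖f j z‖ ^ 2) / lam z * Real.exp (-ψ z)) +
      (1 / (2 * t)) * ∫ z, lam z * (∑ j, ‖a j z‖ ^ 2) * Real.exp (-ψ z) := by
    rw [← h14]
    exact h13
  have h16 : t * (∫ z, (∑ j, ‖f j z‖ ^ 2) / lam z * Real.exp (-ψ z)) +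
      (∫ z, lam z * (∑ j, ‖a j z‖ ^ 2) * Real.exp (-ψ z)) / t =
      2 * ((t / 2) * (∫ z, (∑ j, ‖f j z‖ ^ 2) / lam z * Real.exp (-ψ z)) +
      (1 / (2 * t)) * ∫ z, lam z * (∑ j, ‖a j z‖ ^ 2) * Real.exp (-ψ z)) := by
    field_simp
  rw [h16]
  linarith

end J_test_bound

alias test_bound := J_test_bound.test_bound

namespace J_riesz_range

/-- Riesz representation on the range of a linear map -/
theorem riesz_range {D : Type*} [AddCommGroup D] [Module ℂ D] {H : Type*} [NormedAddCommGroup H]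
    [InnerProductSpace ℂ H] [CompleteSpace H] (δ : D →ₗ[ℂ] H) (l : D →ₗ[ℂ] ℂ) (C : ℝ) (hC0 : 0 ≤ C)
    (hC : ∀ a, ‖l a‖ ≤ C * ‖δ a‖) : ∃ u : H, ‖u‖ ≤ C ∧ ∀ a, l a = inner ℂ u (δ a) := by
  have hker : LinearMap.ker δ ≤ LinearMap.ker l := by
    intro a ha
    rw [LinearMap.mem_ker] at ha ⊢
    have h1 := hC a
    rw [ha, norm_zero, mul_zero] at h1
    exact norm_le_zero_iff.1 h1
  obtain ⟨f0, hf0⟩ : ∃ f0 : LinearMap.range δ →ₗ[ℂ] ℂ, ∀ a, f0 ⟨δ a, LinearMap.mem_range_self δ a⟩ = l a := by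
    refine ⟨((LinearMap.ker δ).liftQ l hker).comp δ.quotKerEquivRange.symm.toLinearMap, ?_⟩
    intro a
    have h1 : δ.quotKerEquivRange.symm ⟨δ a, LinearMap.mem_range_self δ a⟩ =
        (LinearMap.ker δ).mkQ a := by
      rw [LinearEquiv.symm_apply_eq]
      rfl
    show ((LinearMap.ker δ).liftQ l hker) (δ.quotKerEquivRange.symm ⟨δ a, _⟩) = l a
    rw [h1]
    rfl
  have hb : ∀ x : LinearMap.range δ, ‖f0 x‖ ≤ C * ‖x‖ := by
    rintro ⟨_, a, rfl⟩
    have h1 := hf0 a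
    have h2 := hC a
    rw [← h1] at h2
    exact h2
  obtain ⟨g, hg, hgn⟩ := exists_extension_norm_eq (LinearMap.range δ) (f0.mkContinuous C hb)
  refine ⟨(InnerProductSpace.toDual ℂ H).symm g, ?_, ?_⟩
  · rw [LinearIsometryEquiv.norm_map, hgn]
    exact LinearMap.mkContinuous_norm_le _ hC0 _
  · intro a
    rw [InnerProductSpace.toDual_symm_apply]
    have h1 := hg ⟨δ a, LinearMap.mem_range_self δ a⟩
    have h2 : (f0.mkContinuous C hb) ⟨δ a, LinearMap.mem_range_self δ a⟩ =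
      f0 ⟨δ a, LinearMap.mem_range_self δ a⟩ := rfl
    rw [h2, hf0 a] at h1
    exact h1.symm

end J_riesz_range

alias riesz_range := J_riesz_range.riesz_range

namespace J_exist_weak

section EW
variable {n : ℕ}

theorem ew_ofReal_smooth (ψ : Cn n → ℝ) (hψ : ContDiff ℝ ∞ ψ) : ContDiff ℝ ∞ (fun y => (ψ y : ℂ)) :=
  Complex.ofRealCLM.contDiff.comp hψ

theorem ew_dz_add (j : Fin n) (f g : Cn n → ℂ) (z : Cn n) (hf : DifferentiableAt ℝ f z)
    (hg : DifferentiableAt ℝ g z) : dz j (f + g) z = dz j f z + dz j g z := by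
  unfold dz
  rw [fderiv_add hf hg]
  simp only [ContinuousLinearMap.add_apply]
  ring

theorem ew_dz_smul (j : Fin n) (c : ℂ) (f : Cn n → ℂ) (z : Cn n) (hf : DifferentiableAt ℝ f z) :
    dz j (c • f) z = c * dz j f z := by
  unfold dz
  rw [fderiv_const_smul hf]
  simp only [ContinuousLinearMap.smul_apply, smul_eq_mul]
  ring

theorem ew_del_add (ψ : Cn n → ℝ) (j : Fin n) (f g : Cn n → ℂ) (z : Cn n) (hf : DifferentiableAt ℝ f z)
    (hg : DifferentiableAt ℝ g z) : del ψ j (f + g) z = del ψ j f z + del ψ j g z := by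
  unfold del
  rw [ew_dz_add j f g z hf hg, Pi.add_apply]
  ring

theorem ew_del_smul (ψ : Cn n → ℝ) (j : Fin n) (c : ℂ) (f : Cn n → ℂ) (z : Cn n)
    (hf : DifferentiableAt ℝ f z) : del ψ j (c • f) z = c * del ψ j f z := by
  unfold del
  rw [ew_dz_smul j c f z hf, Pi.smul_apply, smul_eq_mul]
  ring

theorem ew_fderiv (ψ : Cn n → ℝ) (g : Cn n → ℂ) (z w : Cn n) (hψ : DifferentiableAt ℝ ψ z)
    (hg : DifferentiableAt ℝ g z) :
    fderiv ℝ (fun y => conj (g y) * (Real.exp (ψ y) : ℂ)) z w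
      = conj (fderiv ℝ g z w) * (Real.exp (ψ z) : ℂ)
        + conj (g z) * (Real.exp (ψ z) : ℂ) * fderiv ℝ (fun y => (ψ y : ℂ)) z w := by
  have h1 : HasFDerivAt (fun y => conj (g y))
      ((Complex.conjCLE : ℂ →L[ℝ] ℂ).comp (fderiv ℝ g z)) z :=
    ((Complex.conjCLE : ℂ →L[ℝ] ℂ).hasFDerivAt).comp z hg.hasFDerivAt
  have h2 : HasFDerivAt (fun y => (Real.exp (ψ y) : ℂ))
      (Complex.ofRealCLM.comp (Real.exp (ψ z) • fderiv ℝ ψ z)) z :=
    (Complex.ofRealCLM.hasFDerivAt).comp z hψ.hasFDerivAt.exp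
  have h3 : HasFDerivAt (fun y => (ψ y : ℂ)) (Complex.ofRealCLM.comp (fderiv ℝ ψ z)) z :=
    (Complex.ofRealCLM.hasFDerivAt).comp z hψ.hasFDerivAt
  have h4 : HasFDerivAt (fun y => conj (g y) * (Real.exp (ψ y) : ℂ)) _ z := h1.mul h2
  rw [h4.fderiv, h3.fderiv]
  simp
  ring

theorem ew_del_conj (ψ : Cn n → ℝ) (j : Fin n) (g : Cn n → ℂ) (z : Cn n) (hψ : DifferentiableAt ℝ ψ z)
    (hg : DifferentiableAt ℝ g z) :
    del ψ j (fun y => conj (g y) * (Real.exp (ψ y) : ℂ)) z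
      = - ((Real.exp (ψ z) : ℂ) * conj (dzb j g z)) := by
  unfold del dz dzb
  rw [ew_fderiv ψ g z _ hψ hg, ew_fderiv ψ g z _ hψ hg]
  simp only [map_mul, map_add, Complex.conj_I, map_div₀, map_one, Complex.conj_ofNat]
  ring

theorem ew_tst_conj (ψ : Cn n → ℝ) (hψ : ContDiff ℝ ∞ ψ) (g : Cn n → ℂ) (hg : Tst g) :
    Tst (fun y => conj (g y) * (Real.exp (ψ y) : ℂ)) := by
  refine ⟨?_, ?_⟩
  · refine ContDiff.mul ?_ ?_
    · exact (Complex.conjCLE : ℂ →L[ℝ] ℂ).contDiff.comp hg.1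
    · exact ew_ofReal_smooth _ (Real.contDiff_exp.comp hψ)
  · refine HasCompactSupport.mul_right ?_
    exact hg.2.comp_left (g := fun z : ℂ => conj z) (by simp)

theorem ew_tst_zero : Tst (0 : Cn n → ℂ) := ⟨contDiff_const, HasCompactSupport.zero⟩

theorem ew_tst_add (f g : Cn n → ℂ) (hf : Tst f) (hg : Tst g) : Tst (f + g) :=
  ⟨hf.1.add hg.1, hf.2.add hg.2⟩

theorem ew_tst_smul (c : ℂ) (f : Cn n → ℂ) (hf : Tst f) : Tst (c • f) :=
  ⟨hf.1.const_smul c, hf.2.smul_left (f := fun _ => c)⟩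

theorem ew_tst_del (ψ : Cn n → ℝ) (hψ : ContDiff ℝ ∞ ψ) (j : Fin n) (g : Cn n → ℂ) (hg : Tst g) :
    Tst (del ψ j g) := by
  have h1 := (tst_dz j g hg).1
  have h2 := (smooth_dz j (fun y => (ψ y : ℂ)) (ew_ofReal_smooth ψ hψ)).1
  have h3 : del ψ j g = (fun z => - dz j g z) + (fun z => dz j (fun y => (ψ y : ℂ)) z * g z) := by
    funext z
    rfl
  rw [h3]
  refine ew_tst_add _ _ ⟨h1.1.neg, ?_⟩ ⟨h2.mul hg.1, ?_⟩
  · exact h1.2.comp_left (g := fun z : ℂ => - z) (by simp)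
  · exact hg.2.mul_left

/-- the weighted divergence of a form -/
noncomputable def ewF (ψ : Cn n → ℝ) (a : Fin n → Cn n → ℂ) (z : Cn n) : ℂ :=
  (∑ j, del ψ j (a j) z) * (Real.exp (-ψ z / 2) : ℂ)

theorem ew_expc (ψ : Cn n → ℝ) (hψ : ContDiff ℝ ∞ ψ) (c : ℝ) :
    Continuous (fun z => (Real.exp (c * ψ z) : ℂ)) := by
  have := hψ.continuous
  fun_prop

theorem ew_F_memLp (ψ : Cn n → ℝ) (hψ : ContDiff ℝ ∞ ψ) (a : Fin n → Cn n → ℂ) (ha : ∀ j, Tst (a j)) :
    MemLp (ewF ψ a) 2 volume := by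
  have hc : Continuous ψ := hψ.continuous
  have h1 : ∀ j, Tst (del ψ j (a j)) := fun j => ew_tst_del ψ hψ j (a j) (ha j)
  have h2 : MemLp (fun z => ∑ j, del ψ j (a j) z * (Real.exp (-ψ z / 2) : ℂ)) 2 volume := by
    apply memLp_finsetSum
    intro j _
    have h3 : Continuous (fun z => del ψ j (a j) z * (Real.exp (-ψ z / 2) : ℂ)) := by
      have := (h1 j).1.continuous
      fun_prop
    exact h3.memLp_of_hasCompactSupport ((h1 j).2.mul_right)
  refine h2.ae_eq (Eventually.of_forall fun z => ?_)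
  simp only [ewF, Finset.sum_mul]

theorem ew_F_add (ψ : Cn n → ℝ) (a b : Fin n → Cn n → ℂ) (ha : ∀ j, Tst (a j)) (hb : ∀ j, Tst (b j)) :
    ewF ψ (a + b) = ewF ψ a + ewF ψ b := by
  funext z
  simp only [ewF, Pi.add_apply]
  rw [← add_mul, ← Finset.sum_add_distrib]
  congr 1
  refine Finset.sum_congr rfl fun j _ => ?_
  exact ew_del_add ψ j (a j) (b j) z ((ha j).1.differentiable (by simp) z)
    ((hb j).1.differentiable (by simp) z)

theorem ew_F_smul (ψ : Cn n → ℝ) (c : ℂ) (a : Fin n → Cn n → ℂ) (ha : ∀ j, Tst (a j)) :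
    ewF ψ (c • a) = c • ewF ψ a := by
  funext z
  simp only [ewF, Pi.smul_apply, smul_eq_mul]
  rw [← mul_assoc, Finset.mul_sum]
  congr 1
  refine Finset.sum_congr rfl fun j _ => ?_
  exact ew_del_smul ψ j c (a j) z ((ha j).1.differentiable (by simp) z)

/-- the space of test forms -/
def ewD (n : ℕ) : Submodule ℂ (Fin n → Cn n → ℂ) where
  carrier := {a | ∀ j, Tst (a j)}
  add_mem' := fun ha hb j => ew_tst_add _ _ (ha j) (hb j)
  zero_mem' := fun _ => ew_tst_zero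
  smul_mem' := fun c _ ha j => ew_tst_smul c _ (ha j)

noncomputable def ewδ (ψ : Cn n → ℝ) (hψ : ContDiff ℝ ∞ ψ) : ewD n →ₗ[ℂ] Lp ℂ 2 (volume : Measure (Cn n)) where
  toFun a := (ew_F_memLp ψ hψ a.1 a.2).toLp (ewF ψ a.1)
  map_add' a b := by
    rw [← MemLp.toLp_add]
    congr 1
    exact ew_F_add ψ a.1 b.1 a.2 b.2
  map_smul' c a := by
    rw [RingHom.id_apply, ← MemLp.toLp_const_smul]
    congr 1
    exact ew_F_smul ψ c a.1 a.2

theorem ew_half (ψ : Cn n → ℝ) (z : Cn n) : (Real.exp (-ψ z / 2) : ℂ) * (Real.exp (-ψ z / 2) : ℂ) = (Real.exp (-ψ z) : ℂ) := by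
  rw [← Complex.ofReal_mul, ← Real.exp_add]
  congr 2
  ring

theorem ew_pair_int (ψ : Cn n → ℝ) (hψ : ContDiff ℝ ∞ ψ) (a f : Cn n → ℂ) (ha : Tst a)
    (hf0 : AEStronglyMeasurable f volume) (hf2 : Integrable (fun z => ‖f z‖ ^ 2 * Real.exp (-ψ z))) :
    Integrable (fun z => a z * conj (f z) * (Real.exp (-ψ z) : ℂ)) := by
  have hc : Continuous ψ := hψ.continuous
  have hce : Continuous (fun z => (Real.exp (-ψ z / 2) : ℂ)) := by fun_prop
  have h1 : MemLp (fun z => a z * (Real.exp (-ψ z / 2) : ℂ)) 2 volume := by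
    have h3 : Continuous (fun z => a z * (Real.exp (-ψ z / 2) : ℂ)) := ha.1.continuous.mul hce
    exact h3.memLp_of_hasCompactSupport (ha.2.mul_right)
  have h2 : MemLp (fun z => conj (f z) * (Real.exp (-ψ z / 2) : ℂ)) 2 volume := by
    have hm : AEStronglyMeasurable (fun z => conj (f z) * (Real.exp (-ψ z / 2) : ℂ)) volume :=
      (Complex.continuous_conj.comp_aestronglyMeasurable hf0).mul hce.aestronglyMeasurable
    rw [memLp_two_iff_integrable_sq_norm hm]
    refine hf2.congr (Eventually.of_forall fun z => ?_)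
    simp only [norm_mul, RCLike.norm_conj, mul_pow, Complex.norm_real, Real.norm_eq_abs, Real.abs_exp]
    congr 1
    rw [sq, ← Real.exp_add]
    congr 1
    ring
  refine (h1.integrable_mul h2).congr (Eventually.of_forall fun z => ?_)
  simp only [Pi.mul_apply]
  rw [← ew_half ψ z]
  ring

noncomputable def ewl (ψ : Cn n → ℝ) (hψ : ContDiff ℝ ∞ ψ) (f : Fin n → Cn n → ℂ)
    (hf0 : ∀ j, AEStronglyMeasurable (f j) volume)
    (hf2 : ∀ j, Integrable (fun z => ‖f j z‖ ^ 2 * Real.exp (-ψ z))) : ewD n →ₗ[ℂ] ℂ where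
  toFun a := ∑ j, ∫ z, a.1 j z * conj (f j z) * (Real.exp (-ψ z) : ℂ)
  map_add' a b := by
    rw [← Finset.sum_add_distrib]
    refine Finset.sum_congr rfl fun j _ => ?_
    rw [← integral_add (ew_pair_int ψ hψ _ _ (a.2 j) (hf0 j) (hf2 j))
      (ew_pair_int ψ hψ _ _ (b.2 j) (hf0 j) (hf2 j))]
    refine integral_congr_ae (Eventually.of_forall fun z => ?_)
    simp only [Submodule.coe_add, Pi.add_apply]
    ring
  map_smul' c a := by
    rw [RingHom.id_apply, smul_eq_mul, Finset.mul_sum]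
    refine Finset.sum_congr rfl fun j _ => ?_
    rw [← integral_const_mul]
    refine integral_congr_ae (Eventually.of_forall fun z => ?_)
    simp only [Submodule.coe_smul, Pi.smul_apply, smul_eq_mul]
    ring

theorem ew_norm_sq (F : Cn n → ℂ) (hF : MemLp F 2 volume) : ‖hF.toLp F‖ ^ 2 = ∫ z, ‖F z‖ ^ 2 := by
  have h := (MeasureTheory.L2.inner_def (𝕜 := ℂ) (hF.toLp F) (hF.toLp F))
  rw [inner_self_eq_norm_sq_to_K] at h
  have h2 : ∫ a, inner ℂ ((hF.toLp F) a) ((hF.toLp F) a) = ((∫ z, ‖F z‖ ^ 2 : ℝ) : ℂ) := by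
    rw [← integral_complex_ofReal]
    refine integral_congr_ae ?_
    filter_upwards [hF.coeFn_toLp] with z hz
    rw [hz, inner_self_eq_norm_sq_to_K]
    simp
  rw [h2] at h
  apply Complex.ofReal_injective
  rw [← h]
  simp

theorem ew_norm_sq' (U : Lp ℂ 2 (volume : Measure (Cn n))) : ‖U‖ ^ 2 = ∫ z, ‖U z‖ ^ 2 := by
  have h := ew_norm_sq (fun z => U z) (Lp.memLp U)
  rw [Lp.toLp_coeFn] at h
  exact h

end EW

/-- Hormander's existence theorem, weak form -/
theorem exist_weak {n : ℕ} (ψ lam : Cn n → ℝ) (hψ : ContDiff ℝ ∞ ψ) (hlam : Continuous lam)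
    (hlam0 : ∀ z, 0 < lam z) (hL : ∀ z w, 4 * lam z * nsq w ≤ Lev ψ z w)
    (f : Fin n → Cn n → ℂ) (hf0 : ∀ j, AEStronglyMeasurable (f j) volume)
    (hf : Integrable (fun z => (∑ j, ‖f j z‖ ^ 2) / lam z * Real.exp (-ψ z)))
    (hf2 : ∀ j, Integrable (fun z => ‖f j z‖ ^ 2 * Real.exp (-ψ z)))
    (hcl : ∀ j k g, Tst g → ∫ z, f k z * dzb j g z = ∫ z, f j z * dzb k g z) :
    ∃ u : Cn n → ℂ, AEStronglyMeasurable u volume ∧
      Integrable (fun z => ‖u z‖ ^ 2 * Real.exp (-ψ z)) ∧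
      ∫ z, ‖u z‖ ^ 2 * Real.exp (-ψ z) ≤ ∫ z, (∑ j, ‖f j z‖ ^ 2) / lam z * Real.exp (-ψ z) ∧
      ∀ j g, Tst g → ∫ z, u z * dzb j g z = - ∫ z, f j z * g z := by
  set C0 : ℝ := ∫ z, (∑ j, ‖f j z‖ ^ 2) / lam z * Real.exp (-ψ z) with hC0
  have hC00 : 0 ≤ C0 := by
    apply integral_nonneg
    intro z
    have := hlam0 z
    positivity
  have hψc : Continuous ψ := hψ.continuous
  obtain ⟨U, hU1, hU2⟩ := riesz_range (ewδ ψ hψ) (ewl ψ hψ f hf0 hf2) (Real.sqrt C0) (Real.sqrt_nonneg _) (by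
    intro a
    have h1 := test_bound ψ lam hψ hlam hlam0 hL f hf0 hf hf2 hcl a.1 a.2
    have h2 : ‖ewδ ψ hψ a‖ ^ 2 = ∫ z, ‖∑ j, del ψ j (a.1 j) z‖ ^ 2 * Real.exp (-ψ z) := by
      have := ew_norm_sq (ewF ψ a.1) (ew_F_memLp ψ hψ a.1 a.2)
      rw [show ewδ ψ hψ a = (ew_F_memLp ψ hψ a.1 a.2).toLp (ewF ψ a.1) from rfl, this]
      refine integral_congr_ae (Eventually.of_forall fun z => ?_)
      simp only [ewF, norm_mul, mul_pow, Complex.norm_real, Real.norm_eq_abs, Real.abs_exp]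
      congr 1
      rw [sq, ← Real.exp_add]
      congr 1
      ring
    have h3 : ewl ψ hψ f hf0 hf2 a = conj (∫ z, (∑ j, f j z * conj (a.1 j z)) * (Real.exp (-ψ z) : ℂ)) := by
      rw [← integral_conj]
      show ∑ j, ∫ z, a.1 j z * conj (f j z) * (Real.exp (-ψ z) : ℂ) = _
      rw [← integral_finsetSum _ (fun j _ => ew_pair_int ψ hψ _ _ (a.2 j) (hf0 j) (hf2 j))]
      refine integral_congr_ae (Eventually.of_forall fun z => ?_)
      simp only [map_mul, map_sum, Complex.conj_conj, Complex.conj_ofReal, Finset.sum_mul]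
      refine Finset.sum_congr rfl fun j _ => ?_
      ring
    rw [← h2] at h1
    rw [h3, RCLike.norm_conj]
    have h4 : (Real.sqrt C0 * ‖ewδ ψ hψ a‖) ^ 2 = C0 * ‖ewδ ψ hψ a‖ ^ 2 := by
      rw [mul_pow, Real.sq_sqrt hC00]
    rw [← h4] at h1
    exact le_of_sq_le_sq h1 (by positivity))
  have hexpc : Continuous (fun z => (Real.exp (ψ z / 2) : ℂ)) := by fun_prop
  have hnorm : ∀ z, ‖U z * (Real.exp (ψ z / 2) : ℂ)‖ ^ 2 * Real.exp (-ψ z) = ‖U z‖ ^ 2 := by
    intro z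
    simp only [norm_mul, mul_pow, Complex.norm_real, Real.norm_eq_abs, Real.abs_exp]
    rw [mul_assoc]
    have : Real.exp (ψ z / 2) ^ 2 * Real.exp (-ψ z) = 1 := by
      rw [sq, ← Real.exp_add, ← Real.exp_add, ← Real.exp_zero]
      congr 1
      ring
    rw [this, mul_one]
  refine ⟨fun z => U z * (Real.exp (ψ z / 2) : ℂ), ?_, ?_, ?_, ?_⟩
  · exact (Lp.aestronglyMeasurable U).mul hexpc.aestronglyMeasurable
  · simp only [hnorm]
    exact (memLp_two_iff_integrable_sq_norm (Lp.aestronglyMeasurable U)).1 (Lp.memLp U)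
  · simp only [hnorm]
    rw [← ew_norm_sq' U]
    calc ‖U‖ ^ 2 ≤ (Real.sqrt C0) ^ 2 := pow_le_pow_left₀ (norm_nonneg _) hU1 2
      _ = C0 := Real.sq_sqrt hC00
  · intro j g hg
    let a0 : Fin n → Cn n → ℂ := fun k => if k = j then (fun y => conj (g y) * (Real.exp (ψ y) : ℂ)) else 0
    have ha0 : ∀ k, Tst (a0 k) := by
      intro k
      by_cases hk : k = j
      · simp only [a0, hk, if_true]
        exact ew_tst_conj ψ hψ g hg
      · simp only [a0, hk, if_false]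
        exact ew_tst_zero
    let a : ewD n := ⟨a0, ha0⟩
    have h1 := hU2 a
    have hl : ewl ψ hψ f hf0 hf2 a = conj (∫ z, f j z * g z) := by
      rw [← integral_conj]
      show ∑ k, ∫ z, a0 k z * conj (f k z) * (Real.exp (-ψ z) : ℂ) = _
      rw [Finset.sum_eq_single j]
      · refine integral_congr_ae (Eventually.of_forall fun z => ?_)
        simp only [a0, if_true, map_mul]
        have : (Real.exp (ψ z) : ℂ) * (Real.exp (-ψ z) : ℂ) = 1 := by
          rw [← Complex.ofReal_mul, ← Real.exp_add]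
          simp
        linear_combination (conj (g z) * conj (f j z)) * this
      · intro k _ hk
        simp [a0, hk]
      · simp
    have hF : ∀ z, ewF ψ a0 z = - ((Real.exp (ψ z / 2) : ℂ) * conj (dzb j g z)) := by
      intro z
      unfold ewF
      rw [Finset.sum_eq_single j]
      · simp only [a0, if_true]
        rw [ew_del_conj ψ j g z (hψ.differentiable (by simp) z) (hg.1.differentiable (by simp) z)]
        have : (Real.exp (ψ z) : ℂ) * (Real.exp (-ψ z / 2) : ℂ) = (Real.exp (ψ z / 2) : ℂ) := by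
          rw [← Complex.ofReal_mul, ← Real.exp_add]
          congr 2
          ring
        linear_combination (- conj (dzb j g z)) * this
      · intro k _ hk
        simp only [a0, hk, if_false]
        simp [del, dz]
      · simp
    have hin : inner ℂ U (ewδ ψ hψ a) = - conj (∫ z, U z * (Real.exp (ψ z / 2) : ℂ) * dzb j g z) := by
      rw [MeasureTheory.L2.inner_def, ← integral_conj, ← integral_neg]
      refine integral_congr_ae ?_
      have h5 := (ew_F_memLp ψ hψ a.1 a.2).coeFn_toLp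
      filter_upwards [h5] with z hz
      rw [show ewδ ψ hψ a = (ew_F_memLp ψ hψ a.1 a.2).toLp (ewF ψ a.1) from rfl, hz]
      rw [show ewF ψ a.1 z = ewF ψ a0 z from rfl, hF z]
      simp only [RCLike.inner_apply, map_mul, Complex.conj_ofReal]
      ring
    rw [hl, hin] at h1
    have h2 := congrArg conj h1
    rw [map_neg, Complex.conj_conj, Complex.conj_conj] at h2
    rw [h2, neg_neg]

end J_exist_weak

alias exist_weak := J_exist_weak.exist_weak

end Pool.Agent.Helper192.Syn
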