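import Pool.Agent.Helper192.Syn.H1b

/-! Weyl lemma and Levi forms -/

set_option linter.all false

open MeasureTheory Set Filter Topology Complex
open scoped BigOperators ContDiff ComplexConjugate

namespace Pool.Agent.Helper192.Syn

namespace J_holo_of_dzb

theorem hod_single {n : ℕ} (L : Cn n →L[ℝ] ℂ)
    (hL : ∀ j, L (Pi.single j 1) + I * L (Pi.single j I) = 0) (j : Fin n) (w : ℂ) :
    L (Pi.single j w) = w * L (Pi.single j 1) := by
  have h1 : L (Pi.single j I) = I * L (Pi.single j 1) := by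
    have := hL j
    linear_combination (-I) * this + (L (Pi.single j I)) * I_mul_I
  have h2 : (Pi.single j w : Cn n) = w.re • (Pi.single j (1 : ℂ) : Cn n) +
      w.im • (Pi.single j I : Cn n) := by
    funext i
    by_cases hij : i = j
    · subst hij
      simp only [Pi.single_eq_same, Pi.add_apply, Pi.smul_apply, Complex.real_smul, mul_one]
      exact (Complex.re_add_im w).symm
    · simp [Pi.single_eq_of_ne hij]
  rw [h2, map_add, map_smul, map_smul, h1, Complex.real_smul, Complex.real_smul]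
  conv_rhs => rw [← Complex.re_add_im w]
  ring

/-- a smooth function with vanishing `∂/∂\bar z_j` is holomorphic -/
theorem holo_of_dzb {n : ℕ} (f : Cn n → ℂ) (hf : ContDiff ℝ ∞ f) (h : ∀ j z, dzb j f z = 0) :
    Differentiable ℂ f := by
  intro z
  have hd : DifferentiableAt ℝ f z := (hf.differentiable (by simp)) z
  rw [differentiableAt_iff_restrictScalars ℝ hd]
  have hL : ∀ j, fderiv ℝ f z (Pi.single j 1) + I * fderiv ℝ f z (Pi.single j I) = 0 := by
    intro j
    have := h j z
    rw [dzb] at this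
    rcases mul_eq_zero.1 this with h1 | h1
    · norm_num at h1
    · exact h1
  refine ⟨∑ j, (fderiv ℝ f z (Pi.single j 1)) • (ContinuousLinearMap.proj (R := ℂ)
    (φ := fun _ : Fin n => ℂ) j), ?_⟩
  ext v
  have hv : fderiv ℝ f z v = ∑ j, fderiv ℝ f z (Pi.single j (v j)) := by
    rw [← map_sum, Finset.univ_sum_single]
  rw [hv]
  simp only [ContinuousLinearMap.coe_restrictScalars', ContinuousLinearMap.sum_apply,
    ContinuousLinearMap.smul_apply, ContinuousLinearMap.proj_apply, smul_eq_mul]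
  refine Finset.sum_congr rfl (fun j _ => ?_)
  rw [hod_single (fderiv ℝ f z) hL j (v j)]
  ring

end J_holo_of_dzb

alias holo_of_dzb := J_holo_of_dzb.holo_of_dzb

namespace J_mean_value

theorem mp_rot {n : ℕ} (c : ℂ) (hc : ‖c‖ = 1) :
    MeasurePreserving (fun w : Cn n => c • w) volume volume := by
  have hmem : c ∈ Submonoid.unitSphere ℂ := by
    rw [Submonoid.unitSphere]
    simpa using hc
  have h1 : ∀ _ : Fin n, MeasurePreserving (fun w : ℂ => c • w) volume volume := by
    intro _
    have := (rotation (⟨c, hmem⟩ : Circle)).measurePreserving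
    convert! this using 1
  have h2 := volume_preserving_pi h1
  convert! h2 using 1

theorem circ_mean {n : ℕ} (h : Cn n → ℂ) (hh : Differentiable ℂ h) (z w : Cn n) :
    ∫ t in (0:ℝ)..2 * Real.pi, h (z + circleMap 0 1 t • w) = (2 * Real.pi : ℂ) * h z := by
  have h1 : Differentiable ℂ (fun l : ℂ => h (z + l • w)) := by
    refine hh.comp ?_
    fun_prop
  have h2 := DiffContOnCl.circleAverage (f := fun l : ℂ => h (z + l • w)) (c := 0) (R := 1)
    h1.diffContOnCl
  rw [Real.circleAverage_def] at h2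
  simp only [zero_smul, add_zero] at h2
  have hpi : (2 * Real.pi : ℂ) ≠ 0 := by
    exact_mod_cast (mul_pos two_pos Real.pi_pos).ne'
  rw [← h2, Complex.real_smul]
  push_cast
  rw [← mul_assoc, mul_inv_cancel₀ hpi, one_mul]

/-- mean value property for circled weights -/
theorem mean_value {n : ℕ} (h : Cn n → ℂ) (hh : Differentiable ℂ h) (ρ : Cn n → ℝ)
    (hρ : Continuous ρ) (hρc : HasCompactSupport ρ) (hρ1 : ∫ z, ρ z = 1)
    (hρi : ∀ (c : ℂ) z, ‖c‖ = 1 → ρ (c • z) = ρ z) (z : Cn n) :
    ∫ w, (ρ w : ℂ) * h (z + w) = h z := by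
  have hc1 : ∀ t : ℝ, ‖circleMap 0 1 t‖ = 1 := by
    intro t
    simp [circleMap]
  have hinv : ∀ t : ℝ, ∫ w, (ρ w : ℂ) * h (z + circleMap 0 1 t • w) =
      ∫ w, (ρ w : ℂ) * h (z + w) := by
    intro t
    have hmp := mp_rot (n := n) (circleMap 0 1 t) (hc1 t)
    have he : MeasurableEmbedding (fun w : Cn n => circleMap 0 1 t • w) :=
      (Homeomorph.smulOfNeZero (circleMap 0 1 t) (by
        rw [← norm_ne_zero_iff, hc1 t]; exact one_ne_zero)).measurableEmbedding
    have := hmp.integral_comp he (fun w => (ρ w : ℂ) * h (z + w))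
    rw [← this]
    refine integral_congr_ae (Filter.Eventually.of_forall fun w => ?_)
    simp only [hρi _ w (hc1 t)]
  have hcont : Continuous (Function.uncurry fun (t : ℝ) (w : Cn n) =>
      (ρ w : ℂ) * h (z + circleMap 0 1 t • w)) := by
    have h1 : Continuous fun p : ℝ × Cn n => circleMap 0 1 p.1 :=
      (continuous_circleMap 0 1).comp continuous_fst
    have h2 : Continuous fun p : ℝ × Cn n => h (z + circleMap 0 1 p.1 • p.2) :=
      hh.continuous.comp (continuous_const.add (h1.smul continuous_snd))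
    exact (Complex.continuous_ofReal.comp (hρ.comp continuous_snd)).mul h2
  have hint : Integrable (Function.uncurry fun (t : ℝ) (w : Cn n) =>
      (ρ w : ℂ) * h (z + circleMap 0 1 t • w))
      ((volume.restrict (Set.uIoc 0 (2 * Real.pi))).prod volume) := by
    have h1 : IntegrableOn (Function.uncurry fun (t : ℝ) (w : Cn n) =>
        (ρ w : ℂ) * h (z + circleMap 0 1 t • w))
        (Set.uIcc 0 (2 * Real.pi) ×ˢ tsupport ρ) (volume.prod volume) :=
      hcont.continuousOn.integrableOn_compact (isCompact_uIcc.prod hρc)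
    have h2 : IntegrableOn (Function.uncurry fun (t : ℝ) (w : Cn n) =>
        (ρ w : ℂ) * h (z + circleMap 0 1 t • w))
        (Set.uIoc 0 (2 * Real.pi) ×ˢ (Set.univ : Set (Cn n))) (volume.prod volume) := by
      refine h1.of_forall_sdiff_eq_zero (measurableSet_uIoc.prod MeasurableSet.univ) ?_
      rintro ⟨t, w⟩ ⟨⟨ht, _⟩, hn⟩
      have hw : w ∉ tsupport ρ := fun hw => hn ⟨Set.uIoc_subset_uIcc ht, hw⟩
      simp [Function.uncurry, image_eq_zero_of_notMem_tsupport hw]
    rw [IntegrableOn, ← Measure.prod_restrict, Measure.restrict_univ] at h2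
    exact h2
  have hswap := intervalIntegral_integral_swap hint
  simp only [hinv] at hswap
  rw [intervalIntegral.integral_const] at hswap
  have hr : ∀ w : Cn n, ∫ t in (0:ℝ)..2 * Real.pi, (ρ w : ℂ) * h (z + circleMap 0 1 t • w) =
      (ρ w : ℂ) * ((2 * Real.pi : ℂ) * h z) := by
    intro w
    rw [intervalIntegral.integral_const_mul, circ_mean h hh z w]
  simp only [hr] at hswap
  have hpi : (2 * Real.pi : ℂ) ≠ 0 := by
    exact_mod_cast (mul_pos two_pos Real.pi_pos).ne'
  have h5 : ∫ w, (ρ w : ℂ) * ((2 * Real.pi : ℂ) * h z) = (2 * Real.pi : ℂ) * h z := by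
    have := MeasureTheory.integral_mul_const (μ := (volume : Measure (Cn n)))
      ((2 * Real.pi : ℂ) * h z) (fun w => (ρ w : ℂ))
    rw [this, integral_complex_ofReal, hρ1]
    simp
  rw [h5, Complex.real_smul] at hswap
  push_cast at hswap
  rw [sub_zero] at hswap
  exact mul_left_cancel₀ hpi hswap

end J_mean_value

alias mean_value := J_mean_value.mean_value

namespace J_weyl

theorem weyl_fub {n : ℕ} (P : Cn n → ℂ) (hP : LocallyIntegrable P volume) (G : Cn n → Cn n → ℂ)
    (hG : Continuous (fun x : Cn n × Cn n => G x.1 x.2)) (R : ℝ)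
    (hR : ∀ y w, (R < ‖y‖ ∨ R < ‖w‖) → G y w = 0) :
    ∫ w, ∫ y, P y * G y w = ∫ y, P y * ∫ w, G y w ∧
    Integrable (fun y => P y * ∫ w, G y w) := by
  obtain ⟨C, hC⟩ := ((isCompact_closedBall (0 : Cn n) R).prod
    (isCompact_closedBall (0 : Cn n) R)).exists_bound_of_continuousOn hG.continuousOn
  have hbd : ∀ y w, ‖G y w‖ ≤ max C 0 := by
    intro y w
    by_cases hy : ‖y‖ ≤ R ∧ ‖w‖ ≤ R
    · exact (hC (y, w) ⟨by simpa using hy.1, by simpa using hy.2⟩).trans (le_max_left _ _)
    · have : R < ‖y‖ ∨ R < ‖w‖ := by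
        by_contra hc
        push Not at hc
        exact hy hc
      rw [hR y w this, norm_zero]
      exact le_max_right _ _
  have hA : Integrable ((Metric.closedBall (0 : Cn n) R).indicator P) :=
    (integrable_indicator_iff measurableSet_closedBall).2
      (hP.integrableOn_isCompact (isCompact_closedBall 0 R))
  have hB : Integrable ((Metric.closedBall (0 : Cn n) R).indicator (fun _ => (1 : ℂ))) :=
    (integrable_indicator_iff measurableSet_closedBall).2
      (integrableOn_const (measure_closedBall_lt_top.ne))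
  have hAB := hB.mul_prod hA
  have hG' : Continuous (fun x : Cn n × Cn n => G x.2 x.1) :=
    hG.comp (continuous_snd.prodMk continuous_fst)
  have hint : Integrable (fun x : Cn n × Cn n => P x.2 * G x.2 x.1)
      ((volume : Measure (Cn n)).prod (volume : Measure (Cn n))) := by
    have h1 := hAB.mul_bdd hG'.aestronglyMeasurable (Eventually.of_forall fun x => hbd x.2 x.1)
    refine h1.congr (Eventually.of_forall fun x => ?_)
    by_cases hx : x.1 ∈ Metric.closedBall (0 : Cn n) R ∧ x.2 ∈ Metric.closedBall (0 : Cn n) R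
    · simp only [indicator_of_mem hx.1, indicator_of_mem hx.2, one_mul]
    · have h0 : G x.2 x.1 = 0 := by
        apply hR
        by_contra hc
        push Not at hc
        exact hx ⟨by simpa using hc.2, by simpa using hc.1⟩
      simp only [h0, mul_zero]
  constructor
  · rw [integral_integral_swap (f := fun w y => P y * G y w) hint]
    congr 1
    funext y
    rw [integral_const_mul]
  · have h2 := hint.integral_prod_right
    refine h2.congr (Eventually.of_forall fun y => ?_)
    simp only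
    rw [integral_const_mul]

theorem weyl_int {n : ℕ} (P : Cn n → ℂ) (hP : LocallyIntegrable P volume) (g : Cn n → ℂ)
    (hg : Continuous g) (R : ℝ) (h0 : ∀ y, R < ‖y‖ → g y = 0) :
    Integrable (fun y => P y * g y) := by
  obtain ⟨C, hC⟩ := (isCompact_closedBall (0 : Cn n) R).exists_bound_of_continuousOn hg.continuousOn
  have hbd : ∀ y, ‖g y‖ ≤ max C 0 := by
    intro y
    by_cases hy : ‖y‖ ≤ R
    · exact (hC y (by simpa using hy)).trans (le_max_left _ _)
    · rw [h0 y (not_le.1 hy), norm_zero]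
      exact le_max_right _ _
  have hA : Integrable ((Metric.closedBall (0 : Cn n) R).indicator P) :=
    (integrable_indicator_iff measurableSet_closedBall).2
      (hP.integrableOn_isCompact (isCompact_closedBall 0 R))
  have h1 := hA.mul_bdd hg.aestronglyMeasurable (Eventually.of_forall hbd)
  refine h1.congr (Eventually.of_forall fun y => ?_)
  by_cases hy : y ∈ Metric.closedBall (0 : Cn n) R
  · simp only [indicator_of_mem hy]
  · have : g y = 0 := by
      apply h0
      by_contra hc
      push Not at hc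
      exact hy (by simpa using hc)
    simp only [this, mul_zero]

theorem weyl_h {n : ℕ} (P : Cn n → ℂ) (hP : LocallyIntegrable P volume)
    (hw : ∀ j g, Tst g → ∫ z, P z * dzb j g z = 0) (ρ : Cn n → ℝ) (hρ : ContDiff ℝ ∞ ρ)
    (hc : HasCompactSupport ρ) :
    ContDiff ℝ ∞ (fun z => ∫ y, P y * (ρ (z - y) : ℂ)) ∧
    ∀ j z, dzb j (fun z => ∫ y, P y * (ρ (z - y) : ℂ)) z = 0 := by
  set R : Cn n → ℂ := fun z => (ρ z : ℂ) with hRdef
  have hR : ContDiff ℝ ∞ R := Complex.ofRealCLM.contDiff.comp hρ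
  have hRc : HasCompactSupport R := hc.comp_left (g := fun x : ℝ => (x : ℂ)) (by simp)
  set L := ContinuousLinearMap.mul ℝ ℂ with hL
  have heq : (fun z => ∫ y, P y * (ρ (z - y) : ℂ)) = convolution P R L volume := rfl
  rw [heq]
  refine ⟨hRc.contDiff_convolution_right L hP hR, ?_⟩
  intro j z
  have hR1 : ContDiff ℝ 1 R := hR.of_le (by exact_mod_cast le_top)
  have hcf : Continuous (fderiv ℝ R) := hR.continuous_fderiv (by simp)
  have hint := (hRc.fderiv ℝ).convolutionExists_right (L.precompR (Cn n)) hP hcf z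
  have hfd := (hRc.hasFDerivAt_convolution_right L hP hR1 z).fderiv
  have hint' : Integrable (fun t => (L.precompR (Cn n)) (P t) (fderiv ℝ R (z - t))) := hint
  have hval : ∀ v, fderiv ℝ (convolution P R L volume) z v = ∫ t, P t * fderiv ℝ R (z - t) v := by
    intro v
    rw [hfd, convolution_def, ContinuousLinearMap.integral_apply hint']
    rfl
  have hA : ∀ v, Integrable (fun t => P t * fderiv ℝ R (z - t) v) := by
    intro v
    exact hint'.apply_continuousLinearMap v
  -- the test function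
  have hg : Tst (fun t => R (z - t)) := by
    constructor
    · exact hR.comp (contDiff_const.sub contDiff_id)
    · exact hRc.comp_homeomorph (Homeomorph.subLeft z)
  have hgd : ∀ t v, fderiv ℝ (fun t => R (z - t)) t v = -(fderiv ℝ R (z - t) v) := by
    intro t v
    have h1 : HasFDerivAt R (fderiv ℝ R (z - t)) (z - t) :=
      ((hR.differentiable (by simp)) (z - t)).hasFDerivAt
    have h2 : HasFDerivAt (fun t : Cn n => z - t) (-(ContinuousLinearMap.id ℝ (Cn n))) t :=
      (hasFDerivAt_id t).const_sub z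
    have h3 := (h1.comp t h2).fderiv
    have h4 : fderiv ℝ (fun t => R (z - t)) t = (fderiv ℝ R (z - t)).comp
      (-(ContinuousLinearMap.id ℝ (Cn n))) := h3
    rw [h4]
    simp
  have h0 := hw j _ hg
  have h1 : ∫ t, P t * dzb j (fun t => R (z - t)) t =
      (-(1 / 2)) * (∫ t, P t * fderiv ℝ R (z - t) (Pi.single j 1)) +
      (-(1 / 2) * I) * ∫ t, P t * fderiv ℝ R (z - t) (Pi.single j I) := by
    rw [← integral_const_mul, ← integral_const_mul, ← integral_add ((hA _).const_mul _)
      ((hA _).const_mul _)]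
    congr 1
    funext t
    unfold dzb
    rw [hgd, hgd]
    ring
  rw [h1] at h0
  unfold dzb
  rw [hval, hval]
  linear_combination (-1 : ℂ) * h0

theorem weyl_comm {n : ℕ} (P : Cn n → ℂ) (hP : LocallyIntegrable P volume) (a b : Cn n → ℝ)
    (ha : Continuous a) (hb : Continuous b) (ha0 : ∀ z, 1 < ‖z‖ → a z = 0)
    (hb0 : ∀ z, 1 < ‖z‖ → b z = 0) (hae : ∀ z, a (-z) = a z) (hbe : ∀ z, b (-z) = b z)
    (z : Cn n) :
    ∫ w, (a w : ℂ) * ∫ y, P y * (b (z + w - y) : ℂ) =
      ∫ w, (b w : ℂ) * ∫ y, P y * (a (z + w - y) : ℂ) := by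
  have key : ∀ a b : Cn n → ℝ, Continuous a → Continuous b → (∀ z, 1 < ‖z‖ → a z = 0) →
      (∀ z, 1 < ‖z‖ → b z = 0) → ∫ w, (a w : ℂ) * ∫ y, P y * (b (z + w - y) : ℂ) =
      ∫ y, P y * ∫ w, (a w : ℂ) * (b (z + w - y) : ℂ) := by
    intro a b ha hb ha0 hb0
    rw [← (weyl_fub P hP (fun y w => (a w : ℂ) * (b (z + w - y) : ℂ)) ?_ (‖z‖ + 2) ?_).1]
    · congr 1
      funext w
      rw [← integral_const_mul]
      congr 1
      funext y
      ring
    · exact (Complex.continuous_ofReal.comp (ha.comp continuous_snd)).mul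
        (Complex.continuous_ofReal.comp (hb.comp
          ((continuous_const.add continuous_snd).sub continuous_fst)))
    · intro y w h
      by_cases hw : 1 < ‖w‖
      · rw [ha0 w hw]
        simp
      · push Not at hw
        have hy : ‖z‖ + 2 < ‖y‖ := by
          rcases h with h | h
          · exact h
          · have := norm_nonneg z
            linarith
        have h1 : ‖y‖ ≤ ‖z + w - y‖ + ‖z‖ + ‖w‖ := by
          have e : y = (z + w) - (z + w - y) := by abel
          calc ‖y‖ = ‖(z + w) - (z + w - y)‖ := by rw [← e]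
            _ ≤ ‖z + w‖ + ‖z + w - y‖ := norm_sub_le _ _
            _ ≤ _ := by linarith [norm_add_le z w]
        rw [hb0 (z + w - y) (by linarith)]
        simp
  rw [key a b ha hb ha0 hb0, key b a hb ha hb0 ha0]
  congr 1
  funext y
  congr 1
  rw [← integral_sub_left_eq_self (fun w => (a w : ℂ) * (b (z + w - y) : ℂ)) volume (y - z)]
  congr 1
  funext w
  have e1 : z + (y - z - w) - y = -w := by abel
  have e2 : y - z - w = -(z + w - y) := by abel
  rw [e1, hbe, e2, hae]
  ring

theorem weyl_lim {n : ℕ} (P : Cn n → ℂ) (hP : LocallyIntegrable P volume)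
    (ρ : ℕ → Cn n → ℝ) (h1 : ∀ m, Continuous (ρ m)) (h2 : ∀ m z, 0 ≤ ρ m z)
    (h3 : ∀ m, ∫ z, ρ m z = 1) (h4 : ∀ (m : ℕ) z, 1 / ((m : ℝ) + 1) < ‖z‖ → ρ m z = 0)
    (h : Cn n → ℂ) (hh : ∀ m z, h z = ∫ y, P y * (ρ m (z - y) : ℂ)) (g : Cn n → ℝ)
    (hg : ContDiff ℝ ∞ g) (hgc : HasCompactSupport g) :
    ∫ x, g x • P x = ∫ x, g x • h x := by
  obtain ⟨R, hR, hR0⟩ := hgc.exists_pos_le_norm
  have huc : UniformContinuous g := hgc.uniformContinuous_of_continuous hg.continuous
  have hm1 : ∀ m : ℕ, 1 / ((m : ℝ) + 1) ≤ 1 := by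
    intro m
    rw [div_le_one (by positivity)]
    have : (0 : ℝ) ≤ m := Nat.cast_nonneg m
    linarith
  have hρi : ∀ m, Integrable (ρ m) := by
    intro m
    by_contra hc
    have := integral_undef hc
    rw [h3 m] at this
    exact one_ne_zero this
  set A : ℝ := ∫ y in Metric.closedBall (0 : Cn n) (R + 1), ‖P y‖ with hA
  have hPi : IntegrableOn P (Metric.closedBall (0 : Cn n) (R + 1)) :=
    hP.integrableOn_isCompact (isCompact_closedBall 0 (R + 1))
  have hA0 : 0 ≤ A := integral_nonneg fun _ => norm_nonneg _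
  have hPg : Integrable (fun y => P y * (g y : ℂ)) :=
    weyl_int P hP (fun y => (g y : ℂ)) (Complex.continuous_ofReal.comp hg.continuous) R
      (fun y hy => by simp only [hR0 y hy.le, Complex.ofReal_zero])
  have hest : ∀ ε : ℝ, 0 < ε → ‖(∫ x, g x • h x) - ∫ x, g x • P x‖ ≤ ε * A := by
    intro ε hε
    obtain ⟨δ, hδ, hδg⟩ := Metric.uniformContinuous_iff.1 huc ε hε
    obtain ⟨m, hm⟩ := exists_nat_one_div_lt hδ
    have hG0 : ∀ y x, (R + 1 < ‖y‖ ∨ R + 1 < ‖x‖) → (g x : ℂ) * (ρ m (x - y) : ℂ) = 0 := by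
      intro y x hyx
      by_cases hx : R ≤ ‖x‖
      · rw [hR0 x hx]
        simp
      · push Not at hx
        have hy : R + 1 < ‖y‖ := by
          rcases hyx with h | h
          · exact h
          · linarith
        have h5 : ‖y‖ ≤ ‖x‖ + ‖x - y‖ := by
          have e : y = x - (x - y) := by abel
          calc ‖y‖ = ‖x - (x - y)‖ := by rw [← e]
            _ ≤ _ := norm_sub_le _ _
        rw [h4 m (x - y) (lt_of_le_of_lt (hm1 m) (by linarith))]
        simp
    have hGc : Continuous (fun x : Cn n × Cn n => (g x.2 : ℂ) * (ρ m (x.2 - x.1) : ℂ)) :=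
      (Complex.continuous_ofReal.comp (hg.continuous.comp continuous_snd)).mul
        (Complex.continuous_ofReal.comp ((h1 m).comp (continuous_snd.sub continuous_fst)))
    obtain ⟨f1, f2⟩ := weyl_fub P hP (fun y x => (g x : ℂ) * (ρ m (x - y) : ℂ)) hGc (R + 1) hG0
    have e1 : ∫ x, g x • h x = ∫ y, P y * ∫ x, (g x : ℂ) * (ρ m (x - y) : ℂ) := by
      rw [← f1]
      congr 1
      funext x
      rw [hh m x, Complex.real_smul, ← integral_const_mul]
      congr 1
      funext y
      ring
    have e2 : ∫ x, g x • P x = ∫ y, P y * (g y : ℂ) := by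
      congr 1
      funext y
      rw [Complex.real_smul, mul_comm]
    rw [e1, e2, ← integral_sub f2 hPg]
    have e3 : ε * A = ∫ y, (Metric.closedBall (0 : Cn n) (R + 1)).indicator
        (fun y => ε * ‖P y‖) y := by
      rw [integral_indicator measurableSet_closedBall, integral_const_mul]
    rw [e3]
    refine norm_integral_le_of_norm_le ?_ (Eventually.of_forall fun y => ?_)
    · exact (integrable_indicator_iff measurableSet_closedBall).2 (hPi.norm.const_mul ε)
    · -- pointwise bound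
      have hc : ‖(∫ x, (g x : ℂ) * (ρ m (x - y) : ℂ)) - (g y : ℂ)‖ ≤ ε := by
        have e4 : ∫ x, (g x : ℂ) * (ρ m (x - y) : ℂ) = ∫ w, (g (y + w) : ℂ) * (ρ m w : ℂ) := by
          rw [← integral_add_left_eq_self (fun x => (g x : ℂ) * (ρ m (x - y) : ℂ)) y]
          congr 1
          funext w
          rw [add_sub_cancel_left]
        have e5 : (g y : ℂ) = ∫ w, (g y : ℂ) * (ρ m w : ℂ) := by
          rw [integral_const_mul]
          have : ∫ w, (ρ m w : ℂ) = ((∫ w, ρ m w : ℝ) : ℂ) := integral_ofReal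
          rw [this, h3 m]
          simp
        have hρc : Integrable (fun w => (ρ m w : ℂ)) := (hρi m).ofReal
        have i1 : Integrable (fun w => (g (y + w) : ℂ) * (ρ m w : ℂ)) := by
          obtain ⟨C, hC⟩ := hgc.exists_bound_of_continuous hg.continuous
          refine hρc.bdd_mul (c := C) ?_ (Eventually.of_forall fun w => ?_)
          · exact (Complex.continuous_ofReal.comp
              (hg.continuous.comp (continuous_const.add continuous_id))).aestronglyMeasurable
          · rw [Complex.norm_real]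
            exact hC _
        have i2 : Integrable (fun w => (g y : ℂ) * (ρ m w : ℂ)) := hρc.const_mul _
        rw [e4]
        rw [e5]
        rw [← integral_sub i1 i2]
        have e6 : ε = ∫ w, ε * ρ m w := by
          rw [integral_const_mul, h3 m, mul_one]
        rw [e6]
        refine norm_integral_le_of_norm_le ((hρi m).const_mul ε) (Eventually.of_forall fun w => ?_)
        rw [← sub_mul, norm_mul, Complex.norm_real (ρ m w), Real.norm_of_nonneg (h2 m w)]
        by_cases hw : 1 / ((m : ℝ) + 1) < ‖w‖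
        · rw [h4 m w hw]
          simp
        · push Not at hw
          refine mul_le_mul_of_nonneg_right ?_ (h2 m w)
          have h6 : dist (y + w) y < δ := by
            rw [dist_eq_norm, add_sub_cancel_left]
            exact lt_of_le_of_lt hw hm
          have h7 := hδg h6
          rw [Real.dist_eq] at h7
          rw [← Complex.ofReal_sub, Complex.norm_real, Real.norm_eq_abs]
          exact h7.le
      by_cases hy : y ∈ Metric.closedBall (0 : Cn n) (R + 1)
      · rw [indicator_of_mem hy, ← mul_sub, norm_mul, mul_comm]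
        exact mul_le_mul_of_nonneg_right hc (norm_nonneg _)
      · rw [indicator_of_notMem hy]
        have hy' : R + 1 < ‖y‖ := by
          by_contra hcc
          push Not at hcc
          exact hy (by simpa using hcc)
        have e7 : (fun x => (g x : ℂ) * (ρ m (x - y) : ℂ)) = fun _ => 0 := by
          funext x
          exact hG0 y x (Or.inl hy')
        rw [e7, hR0 y (by linarith)]
        simp
  have hz : ‖(∫ x, g x • h x) - ∫ x, g x • P x‖ ≤ 0 := by
    by_contra hc
    push Not at hc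
    have h5 := hest (‖(∫ x, g x • h x) - ∫ x, g x • P x‖ / (2 * (A + 1))) (by positivity)
    have h6 : ‖(∫ x, g x • h x) - ∫ x, g x • P x‖ / (2 * (A + 1)) * A <
        ‖(∫ x, g x • h x) - ∫ x, g x • P x‖ := by
      rw [div_mul_eq_mul_div, div_lt_iff₀ (by positivity)]
      nlinarith
    linarith
  have := norm_le_zero_iff.1 hz
  exact (sub_eq_zero.1 this).symm

/-- Weyl's lemma for the Cauchy-Riemann system -/
theorem weyl {n : ℕ} (P : Cn n → ℂ) (hP : LocallyIntegrable P volume)
    (hw : ∀ j g, Tst g → ∫ z, P z * dzb j g z = 0) :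
    ∃ h : Cn n → ℂ, Differentiable ℂ h ∧ P =ᵐ[volume] h := by
  obtain ⟨ρ, h1, h2, h3, h4, h5, h6⟩ := exists_moll n
  have hm1 : ∀ m : ℕ, 1 / ((m : ℝ) + 1) ≤ 1 := by
    intro m
    rw [div_le_one (by positivity)]
    have : (0 : ℝ) ≤ m := Nat.cast_nonneg m
    linarith
  have hc : ∀ m, HasCompactSupport (ρ m) := by
    intro m
    refine HasCompactSupport.intro (isCompact_closedBall (0 : Cn n) 1) fun x hx => ?_
    apply h4
    refine lt_of_le_of_lt (hm1 m) ?_
    by_contra hcc
    push Not at hcc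
    exact hx (by simpa using hcc)
  have h40 : ∀ m z, 1 < ‖z‖ → ρ m z = 0 := fun m z hz => h4 m z (lt_of_le_of_lt (hm1 m) hz)
  set H : ℕ → Cn n → ℂ := fun m z => ∫ y, P y * (ρ m (z - y) : ℂ) with hH
  have hsm : ∀ m, ContDiff ℝ ∞ (H m) := fun m => (weyl_h P hP hw (ρ m) (h1 m) (hc m)).1
  have hdz : ∀ m j z, dzb j (H m) z = 0 := fun m => (weyl_h P hP hw (ρ m) (h1 m) (hc m)).2
  have hhol : ∀ m, Differentiable ℂ (H m) := fun m => holo_of_dzb (H m) (hsm m) (hdz m)
  have heq : ∀ m k z, H m z = H k z := by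
    intro m k z
    have e1 := mean_value (H m) (hhol m) (ρ k) (h1 k).continuous (hc k) (h3 k) (h5 k) z
    have e2 := mean_value (H k) (hhol k) (ρ m) (h1 m).continuous (hc m) (h3 m) (h5 m) z
    rw [← e1, ← e2]
    exact weyl_comm P hP (ρ k) (ρ m) (h1 k).continuous (h1 m).continuous (h40 k) (h40 m)
      (h6 k) (h6 m) z
  refine ⟨H 0, hhol 0, ?_⟩
  apply ae_eq_of_integral_contDiff_smul_eq hP (hhol 0).continuous.locallyIntegrable
  intro g hg hgc
  exact weyl_lim P hP ρ (fun m => (h1 m).continuous) h2 h3 h4 (H 0) (fun m z => heq 0 m z) g hg hgc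

end J_weyl

alias weyl := J_weyl.weyl

namespace J_lev_log_nsq

/-- bilinear form -/
noncomputable def h940_a {n : ℕ} (z w : Cn n) : ℝ := ∑ i, 2 * ((z i).re * (w i).re + (z i).im * (w i).im)

theorem h940_nsq {n : ℕ} (z : Cn n) : nsq z = ∑ i, ((z i).re * (z i).re + (z i).im * (z i).im) := by
  unfold nsq
  refine Finset.sum_congr rfl fun i _ => ?_
  rw [← Complex.normSq_eq_norm_sq, Complex.normSq_apply]

theorem h940_nsq_add {n : ℕ} (z w : Cn n) (t : ℝ) :
    nsq (z + t • w) = nsq z + t * h940_a z w + t ^ 2 * nsq w := by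
  rw [h940_nsq, h940_nsq, h940_nsq]
  unfold h940_a
  rw [Finset.mul_sum, Finset.mul_sum, ← Finset.sum_add_distrib, ← Finset.sum_add_distrib]
  refine Finset.sum_congr rfl fun i _ => ?_
  simp only [Pi.add_apply, Pi.smul_apply, Complex.add_re, Complex.add_im, Complex.real_smul,
    Complex.mul_re, Complex.mul_im, Complex.ofReal_re, Complex.ofReal_im]
  ring

theorem h940_a_add {n : ℕ} (z w : Cn n) (t : ℝ) :
    h940_a (z + t • w) w = h940_a z w + t * (2 * nsq w) := by
  rw [h940_nsq]
  unfold h940_a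
  rw [Finset.mul_sum, Finset.mul_sum, ← Finset.sum_add_distrib]
  refine Finset.sum_congr rfl fun i _ => ?_
  simp only [Pi.add_apply, Pi.smul_apply, Complex.add_re, Complex.add_im, Complex.real_smul,
    Complex.mul_re, Complex.mul_im, Complex.ofReal_re, Complex.ofReal_im]
  ring

theorem h940_fd {n : ℕ} {g : Cn n → ℝ} {z w : Cn n} (hg : DifferentiableAt ℝ g z) {c : ℝ}
    (h : HasDerivAt (fun t : ℝ => g (z + t • w)) c 0) : fderiv ℝ g z w = c := by
  have h1 : HasDerivAt (fun t : ℝ => z + t • w) w 0 := by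
    have h2 : HasDerivAt (fun t : ℝ => t • w) ((1 : ℝ) • w) 0 := (hasDerivAt_id (0 : ℝ)).smul_const w
    rw [one_smul] at h2
    exact h2.const_add z
  have h3 : HasFDerivAt g (fderiv ℝ g z) (z + (0 : ℝ) • w) := by
    rw [zero_smul, add_zero]; exact hg.hasFDerivAt
  have h4 := h3.comp_hasDerivAt (0 : ℝ) h1
  exact h4.unique h

theorem h940_nsq_nonneg {n : ℕ} (z : Cn n) : 0 ≤ nsq z :=
  Finset.sum_nonneg fun i _ => by positivity

theorem h940_cd_nsq {n : ℕ} : ContDiff ℝ ∞ (fun z : Cn n => nsq z) := by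
  unfold nsq
  exact ContDiff.sum fun i _ => (contDiff_apply ℝ ℂ i).norm_sq ℝ

theorem h940_cd_a {n : ℕ} (w : Cn n) : ContDiff ℝ ∞ (fun z : Cn n => h940_a z w) := by
  unfold h940_a
  refine ContDiff.sum fun i _ => ?_
  have h1 : ContDiff ℝ ∞ (fun z : Cn n => (z i).re) := Complex.reCLM.contDiff.comp (contDiff_apply ℝ ℂ i)
  have h2 : ContDiff ℝ ∞ (fun z : Cn n => (z i).im) := Complex.imCLM.contDiff.comp (contDiff_apply ℝ ℂ i)
  exact contDiff_const.mul ((h1.mul contDiff_const).add (h2.mul contDiff_const))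

theorem h940_cd_log {n : ℕ} : ContDiff ℝ ∞ (fun z : Cn n => Real.log (1 + nsq z)) := by
  refine ContDiff.log (contDiff_const.add h940_cd_nsq) ?_
  intro z
  have := h940_nsq_nonneg z
  positivity

theorem h940_fd1 {n : ℕ} (y w : Cn n) :
    fderiv ℝ (fun z : Cn n => Real.log (1 + nsq z)) y w = h940_a y w / (1 + nsq y) := by
  have hq : 0 < 1 + nsq y := by have := h940_nsq_nonneg y; positivity
  refine h940_fd (h940_cd_log.differentiable (by simp) y) ?_
  have h1 : HasDerivAt (fun t : ℝ => 1 + (nsq y + t * h940_a y w + t ^ 2 * nsq w)) (h940_a y w) 0 := by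
    have h2 : HasDerivAt (fun t : ℝ => 1 + (nsq y + t * h940_a y w + t ^ 2 * nsq w))
        (1 * h940_a y w + (2 * (0:ℝ) ^ 1 * 1) * nsq w) 0 := by
      refine HasDerivAt.const_add 1 ?_
      refine HasDerivAt.add (HasDerivAt.const_add _ ((hasDerivAt_id (0:ℝ)).mul_const _)) ?_
      exact ((hasDerivAt_id (0:ℝ)).pow 2).mul_const _
    simpa using h2
  have h3 := h1.log (by simpa using hq.ne')
  have h4 : (fun t : ℝ => Real.log (1 + nsq (y + t • w)))
      = fun t : ℝ => Real.log (1 + (nsq y + t * h940_a y w + t ^ 2 * nsq w)) := by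
    funext t
    rw [h940_nsq_add]
  rw [h4]
  simpa using h3

theorem h940_D2 {n : ℕ} (z w : Cn n) : D2 (fun z : Cn n => Real.log (1 + nsq z)) z w
    = (2 * nsq w * (1 + nsq z) - h940_a z w * h940_a z w) / (1 + nsq z) ^ 2 := by
  have hq : 0 < 1 + nsq z := by have := h940_nsq_nonneg z; positivity
  unfold D2
  have h0 : (fun y => fderiv ℝ (fun z : Cn n => Real.log (1 + nsq z)) y w)
      = fun y => h940_a y w / (1 + nsq y) := by
    funext y; exact h940_fd1 y w
  rw [h0]
  refine h940_fd ?_ ?_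
  · have hB : DifferentiableAt ℝ (fun y : Cn n => 1 + nsq y) z :=
      (contDiff_const.add h940_cd_nsq).differentiable (by simp) z
    have hA : DifferentiableAt ℝ (fun y : Cn n => h940_a y w) z :=
      (h940_cd_a w).differentiable (by simp) z
    have hAB := hA.mul (hB.inv hq.ne')
    exact hAB.congr_of_eventuallyEq (Filter.Eventually.of_forall fun y => by
      simp [div_eq_mul_inv])
  · have h1 : HasDerivAt (fun t : ℝ => 1 + (nsq z + t * h940_a z w + t ^ 2 * nsq w)) (h940_a z w) 0 := by
      have h2 : HasDerivAt (fun t : ℝ => 1 + (nsq z + t * h940_a z w + t ^ 2 * nsq w))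
          (1 * h940_a z w + (2 * (0:ℝ) ^ 1 * 1) * nsq w) 0 := by
        refine HasDerivAt.const_add 1 ?_
        refine HasDerivAt.add (HasDerivAt.const_add _ ((hasDerivAt_id (0:ℝ)).mul_const _)) ?_
        exact ((hasDerivAt_id (0:ℝ)).pow 2).mul_const _
      simpa using h2
    have h5 : HasDerivAt (fun t : ℝ => h940_a z w + t * (2 * nsq w)) (2 * nsq w) 0 := by
      have h6 : HasDerivAt (fun t : ℝ => h940_a z w + t * (2 * nsq w)) (1 * (2 * nsq w)) 0 :=
        HasDerivAt.const_add _ ((hasDerivAt_id (0:ℝ)).mul_const _)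
      simpa using h6
    have h3 := h5.div h1 (by simpa using hq.ne')
    have h4 : (fun t : ℝ => h940_a (z + t • w) w / (1 + nsq (z + t • w)))
        = fun t : ℝ => (h940_a z w + t * (2 * nsq w)) / (1 + (nsq z + t * h940_a z w + t ^ 2 * nsq w)) := by
      funext t
      rw [h940_nsq_add, h940_a_add]
    rw [h4]
    have h6 := h3.congr_of_eventuallyEq (f₁ := fun t : ℝ => (h940_a z w + t * (2 * nsq w)) / (1 + (nsq z + t * h940_a z w + t ^ 2 * nsq w))) (Filter.Eventually.of_forall fun t => rfl)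
    simpa using h6

theorem h940_aI {n : ℕ} (z w : Cn n) : h940_a z w * h940_a z w + h940_a z (I • w) * h940_a z (I • w)
    = 4 * ‖∑ i, conj (z i) * w i‖ ^ 2 := by
  have h1 : h940_a z w = 2 * (∑ i, conj (z i) * w i).re := by
    unfold h940_a
    rw [Complex.re_sum, Finset.mul_sum]
    refine Finset.sum_congr rfl fun i _ => ?_
    simp only [Complex.mul_re, Complex.conj_re, Complex.conj_im]
    ring
  have h2 : h940_a z (I • w) = - 2 * (∑ i, conj (z i) * w i).im := by
    unfold h940_a
    rw [Complex.im_sum, Finset.mul_sum]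
    refine Finset.sum_congr rfl fun i _ => ?_
    simp only [Pi.smul_apply, smul_eq_mul, Complex.mul_re, Complex.mul_im, Complex.conj_re,
      Complex.conj_im, Complex.I_re, Complex.I_im]
    ring
  rw [h1, h2, ← Complex.normSq_eq_norm_sq, Complex.normSq_apply]
  ring

theorem h940_nsqI {n : ℕ} (w : Cn n) : nsq (I • w) = nsq w := by
  unfold nsq
  refine Finset.sum_congr rfl fun i _ => ?_
  simp

theorem h940_cs {n : ℕ} (z w : Cn n) : ‖∑ i, conj (z i) * w i‖ ^ 2 ≤ nsq z * nsq w := by
  have h1 : ‖∑ i, conj (z i) * w i‖ ≤ ∑ i, ‖z i‖ * ‖w i‖ := by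
    refine (norm_sum_le _ _).trans (le_of_eq ?_)
    refine Finset.sum_congr rfl fun i _ => ?_
    rw [norm_mul, RCLike.norm_conj]
  have h2 : (∑ i, ‖z i‖ * ‖w i‖) ^ 2 ≤ (∑ i, ‖z i‖ ^ 2) * (∑ i, ‖w i‖ ^ 2) :=
    Finset.sum_mul_sq_le_sq_mul_sq _ _ _
  calc ‖∑ i, conj (z i) * w i‖ ^ 2 ≤ (∑ i, ‖z i‖ * ‖w i‖) ^ 2 := by gcongr
    _ ≤ _ := h2

/-- Levi form of `log (1 + |z|^2)` -/
theorem lev_log_nsq (n : ℕ) : ContDiff ℝ ∞ (fun z : Cn n => Real.log (1 + nsq z)) ∧
    ∀ z w : Cn n, 4 * (1 / (1 + nsq z) ^ 2) * nsq w ≤ Lev (fun y => Real.log (1 + nsq y)) z w := by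
  refine ⟨h940_cd_log, fun z w => ?_⟩
  have hq : 0 < 1 + nsq z := by have := h940_nsq_nonneg z; positivity
  unfold Lev
  rw [h940_D2, h940_D2, h940_nsqI, ← add_div]
  have h1 : 2 * nsq w * (1 + nsq z) - h940_a z w * h940_a z w
      + (2 * nsq w * (1 + nsq z) - h940_a z (I • w) * h940_a z (I • w))
      = 4 * nsq w * (1 + nsq z) - 4 * ‖∑ i, conj (z i) * w i‖ ^ 2 := by
    rw [← h940_aI]; ring
  rw [h1]
  have h2 : 4 * (1 / (1 + nsq z) ^ 2) * nsq w = (4 * nsq w) / (1 + nsq z) ^ 2 := by ring
  rw [h2]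
  apply div_le_div_of_nonneg_right _ (by positivity)
  have h3 := h940_cs z w
  nlinarith

end J_lev_log_nsq

alias lev_log_nsq := J_lev_log_nsq.lev_log_nsq

namespace J_lev_add

theorem D2_add {n : ℕ} (u v : Cn n → ℝ) (hu : ContDiff ℝ ∞ u) (hv : ContDiff ℝ ∞ v) (z w : Cn n) :
    D2 (fun y => u y + v y) z w = D2 u z w + D2 v z w := by
  unfold D2
  have hud : Differentiable ℝ u := hu.differentiable (by simp)
  have hvd : Differentiable ℝ v := hv.differentiable (by simp)
  have hu2 : Differentiable ℝ (fun y => fderiv ℝ u y w) :=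
    ((hu.fderiv_right (m := ∞) (by simp)).differentiable (by simp)).clm_apply
      (differentiable_const w)
  have hv2 : Differentiable ℝ (fun y => fderiv ℝ v y w) :=
    ((hv.fderiv_right (m := ∞) (by simp)).differentiable (by simp)).clm_apply
      (differentiable_const w)
  have h1 : (fun y => fderiv ℝ (fun y => u y + v y) y w) =
      fun y => fderiv ℝ u y w + fderiv ℝ v y w := by
    funext y
    have h2 : fderiv ℝ (fun y => u y + v y) y = fderiv ℝ u y + fderiv ℝ v y :=
      fderiv_add (hud y) (hvd y)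
    rw [h2]
    rfl
  rw [h1]
  have h3 : fderiv ℝ (fun y => fderiv ℝ u y w + fderiv ℝ v y w) z =
      fderiv ℝ (fun y => fderiv ℝ u y w) z + fderiv ℝ (fun y => fderiv ℝ v y w) z :=
    fderiv_add (hu2 z) (hv2 z)
  rw [h3]
  rfl

/-- additivity of the Levi form -/
theorem lev_add {n : ℕ} (u v : Cn n → ℝ) (hu : ContDiff ℝ ∞ u) (hv : ContDiff ℝ ∞ v) (z w : Cn n) :
    Lev (fun y => u y + v y) z w = Lev u z w + Lev v z w := by
  unfold Lev
  rw [D2_add u v hu hv, D2_add u v hu hv]
  ring

end J_lev_add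

alias lev_add := J_lev_add.lev_add

namespace J_ibp_dzb

theorem ibp_dir {n : ℕ} (v : Cn n) (f g : Cn n → ℂ) (hf : ContDiff ℝ ∞ f) (hg : Tst g) :
    Integrable (fun z => fderiv ℝ f z v * g z) ∧ Integrable (fun z => f z * fderiv ℝ g z v) ∧
    ∫ z, f z * fderiv ℝ g z v = - ∫ z, fderiv ℝ f z v * g z := by
  have hgc : Continuous g := hg.1.continuous
  have hfc : Continuous f := hf.continuous
  have hf1 : Continuous (fun z => fderiv ℝ f z v) :=
    (hf.continuous_fderiv (by simp)).clm_apply continuous_const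
  have hg1 : Continuous (fun z => fderiv ℝ g z v) :=
    (hg.1.continuous_fderiv (by simp)).clm_apply continuous_const
  have hgs : HasCompactSupport (fun z => fderiv ℝ g z v) := by
    exact (hg.2.fderiv_apply (𝕜 := ℝ) v)
  have i1 : Integrable (fun z => fderiv ℝ f z v * g z) :=
    (hf1.mul hgc).integrable_of_hasCompactSupport hg.2.mul_left
  have i2 : Integrable (fun z => f z * fderiv ℝ g z v) :=
    (hfc.mul hg1).integrable_of_hasCompactSupport hgs.mul_left
  have i3 : Integrable (fun z => f z * g z) :=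
    (hfc.mul hgc).integrable_of_hasCompactSupport hg.2.mul_left
  refine ⟨i1, i2, ?_⟩
  exact integral_mul_fderiv_eq_neg_fderiv_mul_of_integrable i1 i2 i3
    (fun x _ => (hf.differentiable (by simp)) x) (fun x _ => (hg.1.differentiable (by simp)) x)

/-- integration by parts for `∂/∂\bar z_j` -/
theorem ibp_dzb {n : ℕ} (j : Fin n) (f g : Cn n → ℂ) (hf : ContDiff ℝ ∞ f) (hg : Tst g) :
    ∫ z, dzb j f z * g z = - ∫ z, f z * dzb j g z := by
  obtain ⟨a1, a2, a3⟩ := ibp_dir (Pi.single j 1) f g hf hg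
  obtain ⟨b1, b2, b3⟩ := ibp_dir (Pi.single j I) f g hf hg
  have e1 : ∫ z, dzb j f z * g z = (1 / 2) * (∫ z, fderiv ℝ f z (Pi.single j 1) * g z)
      + (1 / 2) * I * (∫ z, fderiv ℝ f z (Pi.single j I) * g z) := by
    rw [← integral_const_mul, ← integral_const_mul, ← integral_add (a1.const_mul _) (b1.const_mul _)]
    refine integral_congr_ae (Eventually.of_forall fun z => ?_)
    simp only [dzb]
    ring
  have e2 : ∫ z, f z * dzb j g z = (1 / 2) * (∫ z, f z * fderiv ℝ g z (Pi.single j 1))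
      + (1 / 2) * I * (∫ z, f z * fderiv ℝ g z (Pi.single j I)) := by
    rw [← integral_const_mul, ← integral_const_mul, ← integral_add (a2.const_mul _) (b2.const_mul _)]
    refine integral_congr_ae (Eventually.of_forall fun z => ?_)
    simp only [dzb]
    ring
  rw [e1, e2, a3, b3]
  ring

end J_ibp_dzb

alias ibp_dzb := J_ibp_dzb.ibp_dzb

namespace J_closed_dzb

theorem closed_dzb_fd {n : ℕ} (g : Cn n → ℂ) (hg : ContDiff ℝ ∞ g) (j : Fin n) (z u : Cn n) :
    fderiv ℝ (dzb j g) z u = (1 / 2) * (fderiv ℝ (fderiv ℝ g) z u (Pi.single j 1) +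
      I * fderiv ℝ (fderiv ℝ g) z u (Pi.single j I)) := by
  have hd : Differentiable ℝ (fderiv ℝ g) :=
    (hg.fderiv_right (m := ∞) (by simp)).differentiable (by simp)
  have h1 : ∀ w, HasFDerivAt (fun z => fderiv ℝ g z w) ((fderiv ℝ (fderiv ℝ g) z).flip w) z := by
    intro w
    have := (hd z).hasFDerivAt.clm_apply (hasFDerivAt_const w z)
    simpa using this
  have h2 : HasFDerivAt (dzb j g) ((1 / 2 : ℂ) • ((fderiv ℝ (fderiv ℝ g) z).flip (Pi.single j 1) +
      I • (fderiv ℝ (fderiv ℝ g) z).flip (Pi.single j I))) z :=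
    ((h1 _).add ((h1 _).const_mul I)).const_mul (1 / 2)
  rw [h2.fderiv]
  simp
  ring

theorem closed_dzb_comm {n : ℕ} (g : Cn n → ℂ) (hg : ContDiff ℝ ∞ g) (j k : Fin n) (z : Cn n) :
    dzb k (dzb j g) z = dzb j (dzb k g) z := by
  have hs : IsSymmSndFDerivAt ℝ g z :=
    hg.contDiffAt.isSymmSndFDerivAt (by
      rw [minSmoothness_of_isRCLikeNormedField]
      exact WithTop.coe_le_coe.2 (le_top : (2 : ℕ∞) ≤ ⊤))
  have e : ∀ j k, dzb k (dzb j g) z = (1 / 4) * (fderiv ℝ (fderiv ℝ g) z (Pi.single k 1) (Pi.single j 1) +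
      I * fderiv ℝ (fderiv ℝ g) z (Pi.single k 1) (Pi.single j I) +
      I * fderiv ℝ (fderiv ℝ g) z (Pi.single k I) (Pi.single j 1) -
      fderiv ℝ (fderiv ℝ g) z (Pi.single k I) (Pi.single j I)) := by
    intro j k
    have : dzb k (dzb j g) z = (1 / 2) * (fderiv ℝ (dzb j g) z (Pi.single k 1) +
      I * fderiv ℝ (dzb j g) z (Pi.single k I)) := rfl
    rw [this, closed_dzb_fd g hg, closed_dzb_fd g hg]
    linear_combination (1 / 4) * fderiv ℝ (fderiv ℝ g) z (Pi.single k I) (Pi.single j I) * I_sq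
  rw [e j k, e k j, hs.eq (Pi.single k 1) (Pi.single j 1), hs.eq (Pi.single k 1) (Pi.single j I),
    hs.eq (Pi.single k I) (Pi.single j 1), hs.eq (Pi.single k I) (Pi.single j I)]
  ring

/-- weak closedness of `\bar\partial v` -/
theorem closed_dzb {n : ℕ} (v : Cn n → ℂ) (hv : ContDiff ℝ ∞ v) (j k : Fin n) (g : Cn n → ℂ)
    (hg : Tst g) : ∫ z, dzb k v z * dzb j g z = ∫ z, dzb j v z * dzb k g z := by
  rw [ibp_dzb k v (dzb j g) hv (tst_dz j g hg).2, ibp_dzb j v (dzb k g) hv (tst_dz k g hg).2]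
  congr 1
  refine integral_congr_ae (Filter.Eventually.of_forall fun z => ?_)
  simp only
  rw [closed_dzb_comm g hg.1 j k z]

end J_closed_dzb

alias closed_dzb := J_closed_dzb.closed_dzb

end Pool.Agent.Helper192.Syn
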