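import Pool.Agent.Helper192.Syn.H2b
import Pool.Agent.Helper192.Syn.H3

/-! Hormander theorem -/

set_option linter.all false

open MeasureTheory Set Filter Topology Complex
open scoped BigOperators ContDiff ComplexConjugate

namespace Pool.Agent.Helper192.Syn

namespace J_HD

theorem HD_nsq_cont (n : ℕ) : Continuous (fun z : Cn n => nsq z) := by
  unfold nsq
  fun_prop

theorem HD_nsq_nonneg {n : ℕ} (z : Cn n) : 0 ≤ nsq z := by
  unfold nsq
  positivity

theorem HD_exp {n : ℕ} (φ : Cn n → ℝ) (z : Cn n) :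
    Real.exp (-(φ z + Real.log (1 + nsq z))) = Real.exp (-φ z) / (1 + nsq z) := by
  have h1 : 0 < 1 + nsq z := by linarith [HD_nsq_nonneg z]
  rw [neg_add, Real.exp_add, Real.exp_neg (Real.log (1 + nsq z)), Real.exp_log h1, div_eq_mul_inv]

theorem HD_locint {n : ℕ} (ψ : Cn n → ℝ) (hψ : Continuous ψ) (u : Cn n → ℂ)
    (hu : AEStronglyMeasurable u volume)
    (hi : Integrable (fun z => ‖u z‖ ^ 2 * Real.exp (-ψ z))) : LocallyIntegrable u volume := by
  have h1 : LocallyIntegrable (fun z => ‖u z‖ ^ 2 * Real.exp (-ψ z) + Real.exp (ψ z)) volume := by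
    apply LocallyIntegrable.add hi.locallyIntegrable
    exact (Real.continuous_exp.comp hψ).locallyIntegrable
  refine h1.mono hu (Eventually.of_forall fun z => ?_)
  have h2 : 0 < Real.exp (-ψ z) := Real.exp_pos _
  have h3 : 0 < Real.exp (ψ z) := Real.exp_pos _
  have h4 : Real.exp (-ψ z) * Real.exp (ψ z) = 1 := by
    rw [← Real.exp_add, neg_add_cancel, Real.exp_zero]
  rw [Real.norm_of_nonneg (by positivity)]
  obtain ⟨a, ha⟩ : ∃ a, a = ‖u z‖ := ⟨_, rfl⟩
  obtain ⟨x, hx⟩ : ∃ x, x = Real.exp (-ψ z) := ⟨_, rfl⟩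
  obtain ⟨y, hy⟩ : ∃ y, y = Real.exp (ψ z) := ⟨_, rfl⟩
  rw [← ha, ← hx, ← hy]
  rw [← hx] at h2 h4
  rw [← hy] at h3 h4
  have h5 : 0 ≤ x * (a - y / 2) ^ 2 := by positivity
  have h6 : x * (a - y / 2) ^ 2 = a ^ 2 * x - a * (x * y) + (x * y) * y / 4 := by ring
  rw [h4] at h6
  linarith

theorem HD_mul_int {n : ℕ} (P : Cn n → ℂ) (hP : LocallyIntegrable P volume) (g : Cn n → ℂ)
    (hg : Tst g) : Integrable (fun z => P z * g z) := by
  have h1 := hP.integrable_smul_right_of_hasCompactSupport hg.1.continuous hg.2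
  exact h1

/-- Hormander's theorem in the form used below -/
theorem HD {n : ℕ} (φ : Cn n → ℝ) (hφ : Psh φ) (v : Cn n → ℂ) (hv : ContDiff ℝ ∞ v)
    (hint : Integrable (fun z => (∑ j, ‖dzb j v z‖ ^ 2) * (1 + nsq z) * Real.exp (-φ z))) :
    ∃ h : Cn n → ℂ, Differentiable ℂ h ∧
      Integrable (fun z => ‖v z - h z‖ ^ 2 / (1 + nsq z) * Real.exp (-φ z)) ∧
      ∫ z, ‖v z - h z‖ ^ 2 / (1 + nsq z) * Real.exp (-φ z)
        ≤ ∫ z, (∑ j, ‖dzb j v z‖ ^ 2) * (1 + nsq z) * Real.exp (-φ z) := by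
  obtain ⟨hlog, hlev⟩ := lev_log_nsq n
  have hψ : ContDiff ℝ ∞ (fun z : Cn n => φ z + Real.log (1 + nsq z)) := hφ.1.add hlog
  have hN := HD_nsq_cont n
  have hN0 : ∀ z : Cn n, 0 < 1 + nsq z := fun z => by linarith [HD_nsq_nonneg z]
  have hlam : Continuous (fun z : Cn n => 1 / (1 + nsq z) ^ 2) :=
    continuous_const.div ((continuous_const.add hN).pow 2) (fun z => by
      have := hN0 z
      positivity)
  have hE : (fun z => (∑ j, ‖dzb j v z‖ ^ 2) / (1 / (1 + nsq z) ^ 2) *
      Real.exp (-(φ z + Real.log (1 + nsq z)))) =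
      fun z => (∑ j, ‖dzb j v z‖ ^ 2) * (1 + nsq z) * Real.exp (-φ z) := by
    funext z
    have := hN0 z
    rw [HD_exp]
    field_simp
  have hcont : ∀ j, Continuous (dzb j v) := fun j => (smooth_dz j v hv).2.continuous
  have hφc := hφ.1.continuous
  obtain ⟨u, hu0, hu1, hu2, hu3⟩ := exist_weak (fun z : Cn n => φ z + Real.log (1 + nsq z))
    (fun z => 1 / (1 + nsq z) ^ 2) hψ hlam (fun z => by have := hN0 z; positivity)
    (fun z w => by
      rw [lev_add φ (fun y => Real.log (1 + nsq y)) hφ.1 hlog z w]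
      have h1 := hφ.2 z w
      have h2 := hlev z w
      linarith)
    (fun j => dzb j v) (fun j => (hcont j).aestronglyMeasurable) (by rw [hE]; exact hint)
    (fun j => by
      refine hint.mono' ?_ (Eventually.of_forall fun z => ?_)
      · apply Continuous.aestronglyMeasurable
        have := hcont j
        have h3 := hψ.continuous
        fun_prop
      · have h0 := hN0 z
        rw [Real.norm_of_nonneg (by positivity), HD_exp]
        have h1 : ‖dzb j v z‖ ^ 2 ≤ ∑ j, ‖dzb j v z‖ ^ 2 :=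
          Finset.single_le_sum (f := fun j => ‖dzb j v z‖ ^ 2) (fun i _ => by positivity)
            (Finset.mem_univ j)
        have h2 : Real.exp (-φ z) / (1 + nsq z) ≤ (1 + nsq z) * Real.exp (-φ z) := by
          rw [div_le_iff₀ h0]
          have h3 : (1 : ℝ) ≤ (1 + nsq z) * (1 + nsq z) := by
            nlinarith [HD_nsq_nonneg z]
          have h4 := Real.exp_pos (-φ z)
          nlinarith
        calc ‖dzb j v z‖ ^ 2 * (Real.exp (-φ z) / (1 + nsq z))
            ≤ (∑ j, ‖dzb j v z‖ ^ 2) * ((1 + nsq z) * Real.exp (-φ z)) :=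
              mul_le_mul h1 h2 (by positivity) (by positivity)
          _ = (∑ j, ‖dzb j v z‖ ^ 2) * (1 + nsq z) * Real.exp (-φ z) := by ring)
    (fun j k g hg => closed_dzb v hv j k g hg)
  have hul : LocallyIntegrable u volume :=
    HD_locint (fun z : Cn n => φ z + Real.log (1 + nsq z)) hψ.continuous u hu0 hu1
  have hvl : LocallyIntegrable v volume := hv.continuous.locallyIntegrable
  obtain ⟨h, hh, hPh⟩ := weyl (fun z => v z - u z) (hvl.sub hul) (fun j g hg => by
    have hg' : Tst (dzb j g) := (tst_dz j g hg).2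
    have h1 : ∫ z, (v z - u z) * dzb j g z = (∫ z, v z * dzb j g z) - ∫ z, u z * dzb j g z := by
      rw [← integral_sub (HD_mul_int v hvl _ hg') (HD_mul_int u hul _ hg')]
      refine integral_congr_ae (Eventually.of_forall fun z => ?_)
      show (v z - u z) * dzb j g z = v z * dzb j g z - u z * dzb j g z
      ring
    show ∫ z, (v z - u z) * dzb j g z = 0
    rw [h1, hu3 j g hg, ibp_dzb j v g hv hg]
    ring)
  have hae : (fun z => ‖u z‖ ^ 2 * Real.exp (-(φ z + Real.log (1 + nsq z)))) =ᵐ[volume]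
      fun z => ‖v z - h z‖ ^ 2 / (1 + nsq z) * Real.exp (-φ z) := by
    filter_upwards [hPh] with z hz
    have h1 : u z = v z - h z := by
      rw [← hz]
      ring
    rw [HD_exp, ← h1]
    ring
  refine ⟨h, hh, hu1.congr hae, ?_⟩
  rw [← integral_congr_ae hae]
  refine hu2.trans (le_of_eq ?_)
  exact congrArg (fun F => ∫ z, F z) hE

end J_HD

alias HD := J_HD.HD

end Pool.Agent.Helper192.Syn
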