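import Pool.Agent.Helper192.Syn.B1
import Pool.Agent.Helper192.Syn.C1

/-! Runge approximation and injectivity of the Laplace transform -/

set_option linter.all false

open MeasureTheory Set Filter Topology Complex
open scoped BigOperators ContDiff ComplexConjugate

namespace Pool.Agent.Helper192.Syn

namespace J_runge

theorem rg_fderiv_bound {n : ℕ} (f : Cn n → ℂ) (R1 M : ℝ) (hR1 : 0 < R1)
    (hf : DifferentiableOn ℂ f (Metric.ball 0 R1))
    (hM : ∀ z ∈ Metric.ball (0 : Cn n) R1, ‖f z‖ ≤ M) (y : Cn n) (hy : ‖y‖ < R1 / 2) :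
    ‖fderiv ℂ f y‖ ≤ M / (R1 / 4) := by
  have hM0 : 0 ≤ M := (norm_nonneg _).trans (hM 0 (by simpa using hR1))
  refine ContinuousLinearMap.opNorm_le_bound _ (by positivity) fun v => ?_
  rcases eq_or_ne v 0 with rfl | hv
  · simp
  have hv' : 0 < ‖v‖ := norm_pos_iff.mpr hv
  have hmem : ∀ t : ℂ, ‖t‖ ≤ (R1 / 4) / ‖v‖ → y + t • v ∈ Metric.ball (0 : Cn n) R1 := by
    intro t ht
    rw [mem_ball_zero_iff]
    calc ‖y + t • v‖ ≤ ‖y‖ + ‖t‖ * ‖v‖ := by
          refine (norm_add_le _ _).trans ?_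
          rw [norm_smul]
      _ ≤ ‖y‖ + (R1 / 4) / ‖v‖ * ‖v‖ := by gcongr
      _ = ‖y‖ + R1 / 4 := by field_simp
      _ < R1 := by linarith
  have hdy : DifferentiableAt ℂ f y :=
    (hf y (by rw [mem_ball_zero_iff]; linarith)).differentiableAt
      (Metric.isOpen_ball.mem_nhds (by rw [mem_ball_zero_iff]; linarith))
  have hder : deriv (fun t : ℂ => f (y + t • v)) 0 = fderiv ℂ f y v := by
    have h1 : HasDerivAt (fun t : ℂ => y + t • v) v 0 := by
      simpa using ((hasDerivAt_id (0 : ℂ)).smul_const v).const_add y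
    have h2 : HasFDerivAt f (fderiv ℂ f y) (y + (0 : ℂ) • v) := by simpa using hdy.hasFDerivAt
    exact (h2.comp_hasDerivAt (0 : ℂ) h1).deriv
  rw [← hder]
  have := Complex.norm_deriv_le_of_forall_mem_sphere_norm_le (c := 0) (R := (R1 / 4) / ‖v‖)
    (C := M) (f := fun t : ℂ => f (y + t • v)) (by positivity) ?_ ?_
  · calc _ ≤ M / ((R1 / 4) / ‖v‖) := this
      _ = M / (R1 / 4) * ‖v‖ := by field_simp
  · apply DifferentiableOn.diffContOnCl
    rw [closure_ball _ (by positivity)]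
    intro t ht
    have h3 : y + t • v ∈ Metric.ball (0 : Cn n) R1 := hmem t (by simpa using ht)
    have h4 : DifferentiableAt ℂ f (y + t • v) :=
      (hf _ h3).differentiableAt (Metric.isOpen_ball.mem_nhds h3)
    have h5 : DifferentiableAt ℂ (fun t : ℂ => y + t • v) t := by fun_prop
    exact (DifferentiableAt.comp t h4 h5).differentiableWithinAt
  · intro t ht
    exact hM _ (hmem t (by simpa using ht.le))

theorem rg_diff_circ {n : ℕ} (f : Cn n → ℂ) (R1 M : ℝ) (hR1 : 0 < R1)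
    (hf : DifferentiableOn ℂ f (Metric.ball 0 R1))
    (hM : ∀ z ∈ Metric.ball (0 : Cn n) R1, ‖f z‖ ≤ M) (k : ℕ) (ρ : ℝ) (hρ : 0 < ρ) (z0 : Cn n)
    (hz : ρ * ‖z0‖ < R1 / 2) :
    DifferentiableAt ℂ (fun z => ∮ s in C(0, ρ), (s⁻¹) ^ (k + 1) • f (s • z)) z0 := by
  have hM0 : 0 ≤ M := (norm_nonneg _).trans (hM 0 (by simpa using hR1))
  set c : ℝ → ℂ := fun θ => deriv (circleMap 0 ρ) θ * ((circleMap 0 ρ θ)⁻¹) ^ (k + 1) with hc
  have hcm : ∀ θ, ‖circleMap 0 ρ θ‖ = ρ := by
    intro θ; simp [abs_of_pos hρ]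
  have hcm0 : ∀ θ, circleMap 0 ρ θ ≠ 0 := by
    intro θ h
    have := hcm θ
    rw [h, norm_zero] at this
    linarith
  have hcont_cm : Continuous (circleMap 0 ρ) := continuous_circleMap 0 ρ
  have hcc : Continuous c := by
    rw [hc]
    simp only [deriv_circleMap]
    have : Continuous fun θ => (circleMap 0 ρ θ)⁻¹ := hcont_cm.inv₀ hcm0
    fun_prop
  have hcn : ∀ θ, ‖c θ‖ = ρ * (ρ⁻¹) ^ (k + 1) := by
    intro θ
    simp [hc, deriv_circleMap, abs_of_pos hρ]
  set s : Set (Cn n) := {z | ρ * ‖z‖ < R1 / 2} with hs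
  have hso : IsOpen s := isOpen_lt (by fun_prop) continuous_const
  have hsn : s ∈ 𝓝 z0 := hso.mem_nhds hz
  have hmem : ∀ z ∈ s, ∀ θ, circleMap 0 ρ θ • z ∈ Metric.ball (0 : Cn n) R1 := by
    intro z hz θ
    rw [mem_ball_zero_iff, norm_smul, hcm]
    have : ρ * ‖z‖ < R1 / 2 := hz
    linarith
  have hfc : ∀ z ∈ s, Continuous fun θ => c θ * f (circleMap 0 ρ θ • z) := by
    intro z hz
    refine hcc.mul ?_
    exact hf.continuousOn.comp_continuous (by fun_prop) (hmem z hz)
  have key := intervalIntegral.hasFDerivAt_integral_of_dominated_of_fderiv_le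
    (μ := volume) (𝕜 := ℂ) (a := 0) (b := 2 * Real.pi)
    (F := fun (z : Cn n) (θ : ℝ) => c θ * f (circleMap 0 ρ θ • z))
    (F' := fun (z : Cn n) (θ : ℝ) => (c θ * circleMap 0 ρ θ) • fderiv ℂ f (circleMap 0 ρ θ • z))
    (x₀ := z0) (s := s) (bound := fun _ => (ρ * (ρ⁻¹) ^ (k + 1)) * ρ * (M / (R1 / 4)))
    hsn ?_ ?_ ?_ ?_ ?_ ?_
  · have h1 := key.differentiableAt
    refine h1.congr_of_eventuallyEq (Filter.Eventually.of_forall fun z => ?_)
    simp only [circleIntegral, smul_eq_mul, hc, mul_assoc]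
  · filter_upwards [hsn] with z hz
    exact (hfc z hz).aestronglyMeasurable
  · exact (hfc z0 hz).intervalIntegrable _ _
  · have g1 : AEStronglyMeasurable (fun θ : ℝ => c θ * circleMap 0 ρ θ)
        (volume.restrict (Set.uIoc 0 (2 * Real.pi))) :=
      (hcc.mul hcont_cm).aestronglyMeasurable
    have g2 : AEStronglyMeasurable (fun θ : ℝ => fderiv ℂ f (circleMap 0 ρ θ • z0))
        (volume.restrict (Set.uIoc 0 (2 * Real.pi))) := by
      have h2 : Continuous fun θ : ℝ => circleMap 0 ρ θ • z0 := by fun_prop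
      exact ((measurable_fderiv ℂ f).comp h2.measurable).aestronglyMeasurable
    exact g1.smul g2
  · refine Filter.Eventually.of_forall fun θ _ z hz => ?_
    rw [norm_smul, norm_mul, hcn, hcm]
    gcongr
    refine rg_fderiv_bound f R1 M hR1 hf hM _ ?_
    rw [norm_smul, hcm]
    exact hz
  · exact intervalIntegrable_const
  · refine Filter.Eventually.of_forall fun θ _ z hz => ?_
    have h3 := hmem z hz θ
    have h4 : HasFDerivAt f (fderiv ℂ f (circleMap 0 ρ θ • z)) (circleMap 0 ρ θ • z) :=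
      ((hf _ h3).differentiableAt (Metric.isOpen_ball.mem_nhds h3)).hasFDerivAt
    have h5 : HasFDerivAt (fun z : Cn n => circleMap 0 ρ θ • z)
        (circleMap 0 ρ θ • ContinuousLinearMap.id ℂ (Cn n)) z :=
      (circleMap 0 ρ θ • ContinuousLinearMap.id ℂ (Cn n)).hasFDerivAt
    have h6 := (h4.comp z h5).const_mul (c θ)
    refine h6.congr_fderiv ?_
    ext v
    simp [mul_assoc]

theorem rg_circ_indep {n : ℕ} (f : Cn n → ℂ) (R1 : ℝ)
    (hf : DifferentiableOn ℂ f (Metric.ball 0 R1)) (k : ℕ) (r R : ℝ) (hr : 0 < r) (hrR : r ≤ R)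
    (z : Cn n) (hz : R * ‖z‖ < R1) :
    (∮ s in C(0, R), (s⁻¹) ^ (k + 1) • f (s • z)) = ∮ s in C(0, r), (s⁻¹) ^ (k + 1) • f (s • z) := by
  have hmem : ∀ s : ℂ, ‖s‖ ≤ R → s • z ∈ Metric.ball (0 : Cn n) R1 := by
    intro s hs
    rw [mem_ball_zero_iff, norm_smul]
    calc ‖s‖ * ‖z‖ ≤ R * ‖z‖ := by gcongr
      _ < R1 := hz
  have hda : ∀ s : ℂ, ‖s‖ ≤ R → s ≠ 0 → DifferentiableAt ℂ (fun s : ℂ => (s⁻¹) ^ k • f (s • z)) s := by
    intro s hs hs0
    have h3 := hmem s hs
    have h4 : DifferentiableAt ℂ f (s • z) :=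
      (hf _ h3).differentiableAt (Metric.isOpen_ball.mem_nhds h3)
    have h5 : DifferentiableAt ℂ (fun s : ℂ => s • z) s := by fun_prop
    have h6 : DifferentiableAt ℂ (fun s : ℂ => f (s • z)) s := DifferentiableAt.comp s h4 h5
    exact ((differentiableAt_inv hs0).pow k).smul h6
  have := Complex.circleIntegral_sub_center_inv_smul_eq_of_differentiable_on_annulus_off_countable
    (c := 0) (r := r) (R := R) hr hrR (f := fun s : ℂ => (s⁻¹) ^ k • f (s • z)) (s := ∅)
    Set.countable_empty ?_ ?_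
  · simpa [pow_succ', mul_assoc] using this
  · intro s hs
    have h1 : ‖s‖ ≤ R := by simpa using hs.1
    have h2 : s ≠ 0 := by
      rintro rfl
      apply hs.2
      simpa using hr
    exact (hda s h1 h2).continuousAt.continuousWithinAt
  · intro s hs
    have h1 : ‖s‖ < R := by simpa using hs.1.1
    have h2 : s ≠ 0 := by
      rintro rfl
      apply hs.1.2
      simpa using hr.le
    exact hda s h1.le h2

theorem rg_coeff {n : ℕ} (f : Cn n → ℂ) (R1 M : ℝ) (hR1 : 0 < R1)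
    (hf : DifferentiableOn ℂ f (Metric.ball 0 R1))
    (hM : ∀ z ∈ Metric.ball (0 : Cn n) R1, ‖f z‖ ≤ M) (k : ℕ) :
    ∃ P : Cn n → ℂ, Differentiable ℂ P ∧ ∀ (ρ : ℝ) (z : Cn n), 0 < ρ → ρ * ‖z‖ < R1 / 2 →
      P z = ∮ s in C(0, ρ), (s⁻¹) ^ (k + 1) • f (s • z) := by
  have hρ : ∀ z : Cn n, 0 < (R1 / 4) / (1 + ‖z‖) := fun z => by positivity
  have hρz : ∀ z : Cn n, (R1 / 4) / (1 + ‖z‖) * ‖z‖ < R1 / 2 := by
    intro z
    have h1 : 0 < 1 + ‖z‖ := by positivity
    rw [div_mul_eq_mul_div, div_lt_iff₀ h1]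
    nlinarith [norm_nonneg z]
  refine ⟨fun z => ∮ s in C(0, (R1 / 4) / (1 + ‖z‖)), (s⁻¹) ^ (k + 1) • f (s • z), ?_, ?_⟩
  swap
  · intro ρ z h0 h1
    show (∮ s in C(0, (R1 / 4) / (1 + ‖z‖)), (s⁻¹) ^ (k + 1) • f (s • z)) = _
    rcases le_total ρ ((R1 / 4) / (1 + ‖z‖)) with h | h
    · exact rg_circ_indep f R1 hf k _ _ h0 h z (by have := hρz z; linarith)
    · exact (rg_circ_indep f R1 hf k _ _ (hρ z) h z (by linarith)).symm
  · intro z0
    have h0 : 0 < (R1 / 4) / (2 + ‖z0‖) := by positivity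
    have h1 : (R1 / 4) / (2 + ‖z0‖) * ‖z0‖ < R1 / 2 := by
      have h1 : 0 < 2 + ‖z0‖ := by positivity
      rw [div_mul_eq_mul_div, div_lt_iff₀ h1]
      nlinarith [norm_nonneg z0]
    refine (rg_diff_circ f R1 M hR1 hf hM k _ h0 z0 h1).congr_of_eventuallyEq ?_
    have hev : ∀ᶠ z in 𝓝 z0, ‖z‖ < 1 + ‖z0‖ :=
      (continuous_norm.continuousAt (x := z0)).eventually_lt continuousAt_const (by simp)
    filter_upwards [hev] with z hz
    refine rg_circ_indep f R1 hf k _ _ h0 ?_ z (by have := hρz z; linarith)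
    exact div_le_div_of_nonneg_left (by positivity) (by positivity) (by linarith)

theorem rg_eval {X : Type*} [TopologicalSpace X] [CompactSpace X] (G : ℂ → C(X, ℂ)) (c : ℂ) (R : ℝ)
    (hG : CircleIntegrable G c R) (z : X) :
    (∮ ζ in C(c, R), G ζ) z = ∮ ζ in C(c, R), G ζ z := by
  have := ContinuousLinearMap.intervalIntegral_comp_comm (ContinuousMap.evalCLM ℂ z) hG.out
  simp only [circleIntegral]
  exact this.symm

theorem rg_star {n : ℕ} (Ω : Set (Cn n)) (hΩ : IsOpen Ω) (f : Cn n → ℂ)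
    (hf : DifferentiableOn ℂ f Ω) (K : Set (Cn n)) (hK : IsCompact K) (h0Ω : (0 : Cn n) ∈ Ω)
    (hstar : ∀ z ∈ K, ∀ t : ℝ, 0 ≤ t → t ≤ 1 → (t : ℂ) • z ∈ Ω) (ε : ℝ)
    (hε : 0 < ε) : ∃ h : Cn n → ℂ, Differentiable ℂ h ∧ ∀ z ∈ K, ‖f z - h z‖ ≤ ε := by
  classical
  have : CompactSpace K := isCompact_iff_compactSpace.mp hK
  set U : Set ℂ := {t | ∀ z ∈ K, t • z ∈ Ω} with hU
  have hUo : IsOpen U := by
    rw [isOpen_iff_eventually]
    intro t ht
    refine hK.eventually_forall_of_forall_eventually fun z hz => ?_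
    have hc : ContinuousAt (fun p : ℂ × Cn n => p.1 • p.2) (t, z) := by fun_prop
    exact hc.eventually (hΩ.mem_nhds (ht z hz))
  let ft : C(U × K, ℂ) := ⟨fun p => f ((p.1 : ℂ) • (p.2 : Cn n)), by
    exact hf.continuousOn.comp_continuous (by fun_prop) (fun p => p.1.2 p.2 p.2.2)⟩
  let G : ℂ → C(K, ℂ) := fun t => if h : t ∈ U then ft.curry ⟨t, h⟩ else 0
  have hGa : ∀ t (_ : t ∈ U) (z : K), G t z = f (t • (z : Cn n)) := by
    intro t ht z
    simp [G, ht, ft]
  have hGc : ContinuousOn G U := by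
    rw [continuousOn_iff_continuous_domRestrict]
    have : U.domRestrict G = fun t => ft.curry t := by
      funext t
      simp [G, Set.domRestrict]
    rw [this]
    exact ft.curry.continuous
  have hpow : ∀ (t : ℂ) (R : NNReal), 0 < R → Metric.closedBall t R ⊆ U →
      HasFPowerSeriesOnBall G (cauchyPowerSeries G t R) t R := by
    intro t R hR hRU
    have hR' : (0 : ℝ) < R := by exact_mod_cast hR
    have hsU : Metric.sphere t R ⊆ U := Metric.sphere_subset_closedBall.trans hRU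
    have hci : CircleIntegrable G t R := ContinuousOn.circleIntegrable hR'.le (hGc.mono hsU)
    have hps := hasFPowerSeriesOn_cauchy_integral hci hR
    refine hps.congr ?_
    intro w hw
    have hw' : w ∈ Metric.ball t (R : ℝ) := by
      simpa using hw
    ext z
    have hci2 : CircleIntegrable (fun ζ => (ζ - w)⁻¹ • G ζ) t R := by
      refine ContinuousOn.circleIntegrable hR'.le ?_
      have g1 : ContinuousOn (fun ζ : ℂ => (ζ - w)⁻¹) (Metric.sphere t R) := by
        refine ContinuousOn.inv₀ (by fun_prop) ?_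
        intro ζ hζ h
        have : ζ = w := sub_eq_zero.mp h
        subst this
        have h1 : dist ζ t = R := hζ
        have h2 : dist ζ t < R := hw'
        linarith
      have g2 := hGc.mono hsU
      exact g1.smul g2
    have hda : ∀ s ∈ U, DifferentiableAt ℂ (fun s : ℂ => f (s • (z : Cn n))) s := by
      intro s hs
      have h4 : DifferentiableAt ℂ f (s • (z : Cn n)) :=
        (hf _ (hs z z.2)).differentiableAt (hΩ.mem_nhds (hs z z.2))
      have h5 : DifferentiableAt ℂ (fun s : ℂ => s • (z : Cn n)) s := by fun_prop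
      exact DifferentiableAt.comp s h4 h5
    have hcf := Complex.two_pi_I_inv_smul_circleIntegral_sub_inv_smul_of_differentiable_on_off_countable
      Set.countable_empty hw' (f := fun s : ℂ => f (s • (z : Cn n)))
      (fun s hs => (hda s (hRU hs)).continuousAt.continuousWithinAt)
      (fun s hs => hda s (hRU (Metric.ball_subset_closedBall hs.1)))
    rw [ContinuousMap.smul_apply, rg_eval _ _ _ hci2, hGa w (hRU (Metric.ball_subset_closedBall hw'))]
    rw [← hcf]
    congr 1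
    refine circleIntegral.integral_congr hR'.le ?_
    intro ζ hζ
    simp only [ContinuousMap.smul_apply]
    rw [hGa ζ (hsU hζ)]
  let A : Submodule ℂ C(K, ℂ) :=
    { carrier := {g | ∃ h : Cn n → ℂ, Differentiable ℂ h ∧ ∀ z : K, g z = h z}
      add_mem' := by
        rintro a b ⟨h1, hh1, e1⟩ ⟨h2, hh2, e2⟩
        exact ⟨fun z => h1 z + h2 z, hh1.add hh2, fun z => by simp [e1, e2]⟩
      zero_mem' := ⟨fun _ => 0, differentiable_const _, fun z => rfl⟩
      smul_mem' := by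
        rintro c a ⟨h1, hh1, e1⟩
        exact ⟨fun z => c * h1 z, hh1.const_mul c, fun z => by simp [e1]⟩ }
  let B := A.topologicalClosure
  have hBc : IsClosed (B : Set C(K, ℂ)) := A.isClosed_topologicalClosure
  have := hBc
  have hABle : A ≤ B := A.le_topologicalClosure
  let Q : C(K, ℂ) →L[ℂ] C(K, ℂ) ⧸ B := B.mkQL
  let S : Set ℂ := (fun t : ℝ => (t : ℂ)) '' Set.Icc 0 1
  have hSU : S ⊆ U := by
    rintro _ ⟨t, ht, rfl⟩ z hz
    exact hstar z hz t ht.1 ht.2
  have hSp : IsPreconnected S := isPreconnected_Icc.image _ (by fun_prop)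
  have hanal : AnalyticOnNhd ℂ (fun t => Q (G t)) S := by
    intro t ht
    obtain ⟨R, hR, hRU⟩ := Metric.nhds_basis_closedBall.mem_iff.mp (hUo.mem_nhds (hSU ht))
    lift R to NNReal using hR.le
    have h1 : AnalyticAt ℂ G t := (hpow t R (by exact_mod_cast hR) hRU).analyticAt
    exact (Q.analyticAt _).comp h1
  have h0U : (0 : ℂ) ∈ U := by
    intro z _
    rw [zero_smul]; exact h0Ω
  have hzero : (fun t => Q (G t)) =ᶠ[𝓝 (0 : ℂ)] 0 := by
    obtain ⟨R1, hR1, hR1Ω⟩ := Metric.nhds_basis_closedBall.mem_iff.mp (hΩ.mem_nhds h0Ω)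
    have hfb : DifferentiableOn ℂ f (Metric.ball 0 R1) :=
      hf.mono (Metric.ball_subset_closedBall.trans hR1Ω)
    obtain ⟨M, hM⟩ := (isCompact_closedBall (0 : Cn n) R1).exists_bound_of_continuousOn
      (hf.continuousOn.mono hR1Ω)
    obtain ⟨C, hC⟩ := hK.isBounded.exists_norm_le
    obtain ⟨R2, hR2, hR2U⟩ := Metric.nhds_basis_closedBall.mem_iff.mp (hUo.mem_nhds h0U)
    set R : ℝ := min R2 (R1 / 4 / (|C| + 1)) with hRdef
    have hR : 0 < R := by positivity
    have hRU : Metric.closedBall (0 : ℂ) R ⊆ U :=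
      (Metric.closedBall_subset_closedBall (min_le_left _ _)).trans hR2U
    have hRK : ∀ z ∈ K, R * ‖z‖ < R1 / 2 := by
      intro z hz
      have h1 : ‖z‖ ≤ |C| + 1 := (hC z hz).trans (by linarith [le_abs_self C])
      have h2 : R ≤ R1 / 4 / (|C| + 1) := min_le_right _ _
      have h3 : (0 : ℝ) < |C| + 1 := by positivity
      calc R * ‖z‖ ≤ (R1 / 4 / (|C| + 1)) * (|C| + 1) := by gcongr
        _ = R1 / 4 := by field_simp
        _ < R1 / 2 := by linarith
    clear_value R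
    lift R to NNReal using hR.le
    have hRn : 0 < R := by exact_mod_cast hR
    have hps := hpow 0 R hRn hRU
    have hev : ∀ᶠ t : ℂ in 𝓝 0, t ∈ Metric.ball (0 : ℂ) R := Metric.ball_mem_nhds _ hR
    filter_upwards [hev] with t ht
    have hsum := hps.hasSum (y := t) (by simpa using ht)
    rw [zero_add] at hsum
    have hterm : ∀ k : ℕ, (cauchyPowerSeries G 0 R k fun _ => t) ∈ A := by
      intro k
      obtain ⟨P, hP, hPe⟩ := rg_coeff f R1 M hR1 hfb
        (fun z hz => hM z (Metric.ball_subset_closedBall hz)) k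
      refine ⟨fun z => (2 * Real.pi * I : ℂ)⁻¹ * (t ^ k * P z), (hP.const_mul _).const_mul _, ?_⟩
      intro z
      have hci2 : CircleIntegrable (fun ζ => (t / (ζ - 0)) ^ k • (ζ - 0)⁻¹ • G ζ) 0 R := by
        refine ContinuousOn.circleIntegrable hR.le ?_
        have hne : ∀ ζ ∈ Metric.sphere (0 : ℂ) R, ζ - 0 ≠ 0 := by
          intro ζ hζ h
          have h1 : ‖ζ‖ = R := by simpa using hζ
          rw [sub_zero] at h
          rw [h, norm_zero] at h1
          linarith
        have g1 : ContinuousOn (fun ζ : ℂ => (t / (ζ - 0)) ^ k) (Metric.sphere 0 R) :=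
          (ContinuousOn.div (by fun_prop) (by fun_prop) hne).pow k
        have g2 : ContinuousOn (fun ζ : ℂ => (ζ - 0)⁻¹) (Metric.sphere 0 R) :=
          ContinuousOn.inv₀ (by fun_prop) hne
        have g3 := hGc.mono (Metric.sphere_subset_closedBall.trans hRU)
        exact g1.smul (g2.smul g3)
      rw [cauchyPowerSeries_apply, ContinuousMap.smul_apply, rg_eval _ _ _ hci2, smul_eq_mul]
      congr 1
      rw [hPe R z hR (hRK z z.2), ← smul_eq_mul (t ^ k), ← circleIntegral.integral_smul]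
      refine circleIntegral.integral_congr hR.le ?_
      intro ζ hζ
      have hζU : ζ ∈ U := hRU (Metric.sphere_subset_closedBall hζ)
      simp only [ContinuousMap.smul_apply, sub_zero, smul_eq_mul]
      rw [hGa ζ hζU, div_pow, pow_succ]
      rw [div_eq_mul_inv, inv_pow]
      ring
    have hmem : G t ∈ B := by
      refine hBc.mem_of_tendsto hsum (Filter.Eventually.of_forall fun s => ?_)
      exact B.sum_mem fun k _ => hABle (hterm k)
    show Q (G t) = 0
    exact (Submodule.Quotient.mk_eq_zero B).mpr hmem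
  have hid := hanal.eqOn_zero_of_preconnected_of_eventuallyEq_zero hSp
    (z₀ := 0) ⟨0, by simp, by simp⟩ hzero
  have h1S : (1 : ℂ) ∈ S := ⟨1, by simp, by simp⟩
  have hG1 : G 1 ∈ B := (Submodule.Quotient.mk_eq_zero B).mp (hid h1S)
  have hG1' : G 1 ∈ closure (A : Set C(K, ℂ)) := hG1
  obtain ⟨g, ⟨h, hh, hgh⟩, hdist⟩ := Metric.mem_closure_iff.mp hG1' ε hε
  refine ⟨h, hh, fun z hz => ?_⟩
  have e1 : G 1 ⟨z, hz⟩ = f z := by
    rw [hGa 1 (hSU h1S), one_smul]
  rw [← e1, ← hgh ⟨z, hz⟩]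
  calc ‖G 1 ⟨z, hz⟩ - g ⟨z, hz⟩‖ = ‖(G 1 - g) ⟨z, hz⟩‖ := by rw [ContinuousMap.sub_apply]
    _ ≤ ‖G 1 - g‖ := ContinuousMap.norm_coe_le_norm _ _
    _ = dist (G 1) g := (dist_eq_norm _ _).symm
    _ ≤ ε := hdist.le

/-- Runge type approximation on convex domains by entire functions -/
theorem runge {n : ℕ} (Ω : Set (Cn n)) (hΩ : IsOpen Ω) (hc : Convex ℝ Ω) (f : Cn n → ℂ)
    (hf : DifferentiableOn ℂ f Ω) (K : Set (Cn n)) (hK : IsCompact K) (hKΩ : K ⊆ Ω) (ε : ℝ)
    (hε : 0 < ε) : ∃ h : Cn n → ℂ, Differentiable ℂ h ∧ ∀ z ∈ K, ‖f z - h z‖ ≤ ε := by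
  rcases K.eq_empty_or_nonempty with hKe | ⟨a, ha⟩
  · exact ⟨fun _ => 0, differentiable_const _, fun z hz => by simp [hKe] at hz⟩
  have haΩ : a ∈ Ω := hKΩ ha
  have hst : ∀ z ∈ (fun z => z - a) '' K, ∀ t : ℝ, 0 ≤ t → t ≤ 1 →
      (t : ℂ) • z ∈ {w : Cn n | a + w ∈ Ω} := by
    rintro _ ⟨z, hz, rfl⟩ t ht0 ht1
    show a + (t : ℂ) • (z - a) ∈ Ω
    have h1 := hc haΩ (hKΩ hz) (a := 1 - t) (b := t) (by linarith) ht0 (by ring)
    have h2 : a + (t : ℂ) • (z - a) = (1 - t) • a + t • z := by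
      ext i
      simp
      ring
    rw [h2]
    exact h1
  obtain ⟨h, hh, hb⟩ := rg_star {w : Cn n | a + w ∈ Ω} (hΩ.preimage (by fun_prop))
    (fun w => f (a + w)) (hf.comp (by fun_prop) (fun w hw => hw)) ((fun z => z - a) '' K)
    (hK.image (by fun_prop)) (by simpa using haΩ) hst ε hε
  refine ⟨fun z => h (z - a), hh.comp (by fun_prop), fun z hz => ?_⟩
  have := hb (z - a) ⟨z, hz, rfl⟩
  simpa using this

end J_runge

alias runge := J_runge.runge

namespace J_entire_approx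

theorem entire_approx_grad {n : ℕ} (h : Cn n → ℂ) (hh : Differentiable ℂ h) (R M : ℝ)
    (hM : ∀ w, ‖w‖ ≤ R + 1 → ‖h w‖ ≤ M) (w : Cn n) (hw : ‖w‖ ≤ R) : ‖fderiv ℂ h w‖ ≤ M := by
  have hM0 : 0 ≤ M := (norm_nonneg _).trans (hM w (by linarith))
  refine ContinuousLinearMap.opNorm_le_bound _ hM0 fun v => ?_
  by_cases hv : v = 0
  · rw [hv, map_zero, norm_zero, norm_zero, mul_zero]
  have hv' : 0 < ‖v‖ := norm_pos_iff.2 hv
  obtain ⟨e, he0⟩ : ∃ e : Cn n, e = ((‖v‖⁻¹ : ℝ) : ℂ) • v := ⟨_, rfl⟩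
  have he : ‖e‖ = 1 := by
    rw [he0, norm_smul, Complex.norm_real, norm_inv, norm_norm, inv_mul_cancel₀ hv'.ne']
  have hg : ∀ t : ℂ, HasDerivAt (fun t : ℂ => h (w + t • e)) (fderiv ℂ h (w + t • e) e) t := by
    intro t
    have h1 : HasDerivAt (fun t : ℂ => w + t • e) e t := by
      simpa using ((hasDerivAt_id t).smul_const e).const_add w
    exact (hh (w + t • e)).hasFDerivAt.comp_hasDerivAt t h1
  have hgd : Differentiable ℂ (fun t : ℂ => h (w + t • e)) := fun t => (hg t).differentiableAt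
  have h2 := Complex.norm_deriv_le_of_forall_mem_sphere_norm_le (c := 0) (R := 1) (C := M)
    (f := fun t : ℂ => h (w + t • e)) one_pos hgd.diffContOnCl (by
      intro t ht
      apply hM
      have ht1 : ‖t‖ = 1 := by simpa using ht
      calc ‖w + t • e‖ ≤ ‖w‖ + ‖t • e‖ := norm_add_le _ _
        _ ≤ R + 1 := by
          rw [norm_smul, ht1, he]
          linarith)
  rw [(hg 0).deriv] at h2
  simp only [zero_smul, add_zero, div_one] at h2
  have h3 : fderiv ℂ h w e = ((‖v‖⁻¹ : ℝ) : ℂ) * fderiv ℂ h w v := by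
    rw [he0, map_smul, smul_eq_mul]
  rw [h3, norm_mul, Complex.norm_real, norm_inv, norm_norm, inv_mul_le_iff₀ hv'] at h2
  linarith

theorem entire_approx_diff {n : ℕ} (h : Cn n → ℂ) (hh : Differentiable ℂ h) (k : ℕ) :
    Differentiable ℂ
      (fun z : Cn n => ∮ w in C(0, 1), (1 / (w - 0) ^ (k + 1)) • h (w • z)) := by
  intro x₀
  obtain ⟨M, hM⟩ := (isCompact_closedBall (0 : Cn n) (‖x₀‖ + 1 + 1)).exists_bound_of_continuousOn
    hh.continuous.continuousOn
  have hu : ∀ θ : ℝ, ‖circleMap 0 1 θ‖ = 1 := fun θ => by simp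
  have hu0 : ∀ θ : ℝ, circleMap 0 1 θ ≠ 0 := fun θ => by
    rw [← norm_pos_iff, hu]
    exact one_pos
  obtain ⟨c, hc⟩ : ∃ c : ℝ → ℂ, c = fun θ => deriv (circleMap 0 1) θ *
    (1 / (circleMap 0 1 θ - 0) ^ (k + 1)) := ⟨_, rfl⟩
  have hcm : Continuous (circleMap 0 1) := continuous_circleMap 0 1
  have hcc : Continuous c := by
    rw [hc]
    simp only [deriv_circleMap, sub_zero]
    refine Continuous.mul (hcm.mul continuous_const) ?_
    refine Continuous.div continuous_const (hcm.pow _) ?_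
    intro θ
    exact pow_ne_zero _ (hu0 θ)
  have hcn : ∀ θ, ‖c θ‖ = 1 := by
    intro θ
    rw [hc]
    simp [deriv_circleMap]
  have hI : (fun z : Cn n => ∮ w in C(0, 1), (1 / (w - 0) ^ (k + 1)) • h (w • z)) =
      fun z => ∫ θ in (0:ℝ)..2 * Real.pi, c θ * h (circleMap 0 1 θ • z) := by
    funext z
    simp only [circleIntegral, hc, smul_eq_mul, mul_assoc]
  rw [hI]
  haveI : ProperSpace (Cn n →L[ℂ] ℂ) := FiniteDimensional.proper ℂ (Cn n →L[ℂ] ℂ)
  have hcs : ∀ z : Cn n, Continuous (fun θ : ℝ => circleMap 0 1 θ • z) := fun z =>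
    hcm.smul continuous_const
  have hFc : ∀ z : Cn n, Continuous (fun θ : ℝ => c θ * h (circleMap 0 1 θ • z)) := fun z =>
    hcc.mul (hh.continuous.comp (hcs z))
  have key := intervalIntegral.hasFDerivAt_integral_of_dominated_of_fderiv_le (𝕜 := ℂ)
    (μ := volume) (F := fun z θ => c θ * h (circleMap 0 1 θ • z))
    (F' := fun z θ => c θ • (circleMap 0 1 θ • fderiv ℂ h (circleMap 0 1 θ • z)))
    (x₀ := x₀) (a := 0) (b := 2 * Real.pi) (bound := fun _ => M) (s := Metric.ball x₀ 1)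
    (Metric.ball_mem_nhds x₀ one_pos)
    (Filter.Eventually.of_forall fun z => (hFc z).aestronglyMeasurable)
    ((hFc x₀).intervalIntegrable _ _) ?_ ?_ intervalIntegrable_const ?_
  · exact key.differentiableAt
  · have h1 : Measurable (fun θ : ℝ => fderiv ℂ h (circleMap 0 1 θ • x₀)) :=
      (measurable_fderiv ℂ h).comp (hcs x₀).measurable
    have h2 : StronglyMeasurable (fun θ : ℝ => fderiv ℂ h (circleMap 0 1 θ • x₀)) :=
      h1.stronglyMeasurable
    exact (hcc.stronglyMeasurable.smul (hcm.stronglyMeasurable.smul h2)).aestronglyMeasurable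
  · refine Filter.Eventually.of_forall fun θ _ z hz => ?_
    rw [norm_smul, norm_smul, hcn, hu, one_mul, one_mul]
    refine entire_approx_grad h hh (‖x₀‖ + 1) M (fun w hw => hM w ?_) _ ?_
    · exact mem_closedBall_zero_iff.2 hw
    · rw [norm_smul, hu, one_mul]
      have h3 : ‖z - x₀‖ < 1 := by rwa [← dist_eq_norm]
      have h4 : ‖z‖ ≤ ‖x₀‖ + ‖z - x₀‖ := by
        have := norm_add_le x₀ (z - x₀)
        rwa [add_sub_cancel] at this
      linarith
  · refine Filter.Eventually.of_forall fun θ _ z hz => ?_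
    have h1 := (hh (circleMap 0 1 θ • z)).hasFDerivAt.comp z
      ((hasFDerivAt_id (𝕜 := ℂ) z).const_smul (circleMap 0 1 θ))
    have h2 := h1.const_mul (c θ)
    have e : c θ • circleMap 0 1 θ • fderiv ℂ h (circleMap 0 1 θ • z) =
        c θ • (fderiv ℂ h (circleMap 0 1 θ • z)).comp
          (circleMap 0 1 θ • ContinuousLinearMap.id ℂ (Cn n)) := by
      rw [ContinuousLinearMap.comp_smul, ContinuousLinearMap.comp_id]
    show HasFDerivAt (fun x => c θ * h (circleMap 0 1 θ • x))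
      (c θ • circleMap 0 1 θ • fderiv ℂ h (circleMap 0 1 θ • z)) z
    rw [e]
    exact h2

/-- local approximation of entire functions by polynomials -/
theorem entire_approx {n : ℕ} (h : Cn n → ℂ) (hh : Differentiable ℂ h) (K : Set (Cn n))
    (hK : IsCompact K) (ε : ℝ) (hε : 0 < ε) :
    ∃ P : MvPolynomial (Fin n) ℂ, ∀ z ∈ K, ‖h z - MvPolynomial.eval z P‖ ≤ ε := by
  obtain ⟨a, ha⟩ : ∃ a : ℕ → Cn n → ℂ, a = fun k z => (k.factorial : ℂ)⁻¹ •
    iteratedDeriv k (fun w : ℂ => h (w • z)) 0 := ⟨_, rfl⟩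
  have hg : ∀ z : Cn n, Differentiable ℂ (fun w : ℂ => h (w • z)) := fun z => by
    intro w
    have h1 : DifferentiableAt ℂ (fun w : ℂ => w • z) w := by fun_prop
    exact (hh (w • z)).comp w h1
  have hfac : ∀ k : ℕ, (k.factorial : ℂ) ≠ 0 := fun k => by exact_mod_cast k.factorial_ne_zero
  have hadiff : ∀ k, Differentiable ℂ (a k) := by
    intro k
    have e : a k = fun z => (2 * Real.pi * I : ℂ)⁻¹ *
        ∮ w in C(0, 1), (1 / (w - 0) ^ (k + 1)) • h (w • z) := by
      funext z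
      rw [(hg z).diffContOnCl.circleIntegral_one_div_sub_center_pow_smul one_pos k, ha]
      have h2 : (2 * Real.pi * I : ℂ) ≠ 0 := Complex.two_pi_I_ne_zero
      simp only [smul_eq_mul]
      field_simp
    rw [e]
    exact (entire_approx_diff h hh k).const_mul _
  have hbound : ∀ (k : ℕ) (z : Cn n) (r M : ℝ), 0 < r → (∀ w : Cn n, ‖w‖ ≤ r * ‖z‖ → ‖h w‖ ≤ M) →
      ‖a k z‖ ≤ M / r ^ k := by
    intro k z r M hr hM
    rw [ha]
    simp only
    have h1 := Complex.norm_iteratedDeriv_le_of_forall_mem_sphere_norm_le (c := 0) (R := r)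
      (C := M) k hr (hg z).diffContOnCl (by
        intro w hw
        apply hM
        rw [norm_smul]
        have : ‖w‖ = r := by simpa using hw
        rw [this])
    rw [norm_smul, norm_inv, Complex.norm_natCast, inv_mul_le_iff₀ (by positivity)]
    calc _ ≤ _ := h1
      _ = _ := by ring
  obtain ⟨M₁, hM₁⟩ := (isCompact_closedBall (0 : Cn n) 1).exists_bound_of_continuousOn
    hh.continuous.continuousOn
  have hpoly : ∀ k, ∃ P : MvPolynomial (Fin n) ℂ, ∀ z, a k z = MvPolynomial.eval z P := by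
    intro k
    refine poly_of_growth (a k) (hadiff k) M₁ k fun z => ?_
    have hz : 0 < 1 + ‖z‖ := by positivity
    have h1 := hbound k z (1 + ‖z‖)⁻¹ M₁ (inv_pos.2 hz) (fun w hw => by
      apply hM₁ w
      rw [mem_closedBall_zero_iff]
      refine hw.trans ?_
      rw [inv_mul_le_iff₀ hz]
      linarith)
    rw [inv_pow, div_inv_eq_mul] at h1
    exact h1
  choose P hP using hpoly
  obtain ⟨ρ, hρ⟩ := hK.isBounded.exists_norm_le
  obtain ⟨M₂, hM₂⟩ := (isCompact_closedBall (0 : Cn n) (2 * ρ)).exists_bound_of_continuousOn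
    hh.continuous.continuousOn
  have hlim : Tendsto (fun N : ℕ => M₂ * (1 / 2 : ℝ) ^ N / (1 - 1 / 2)) atTop (𝓝 0) := by
    have h1 := tendsto_pow_atTop_nhds_zero_of_lt_one (r := (1 / 2 : ℝ)) (by norm_num)
      (by norm_num)
    have h2 := (h1.const_mul M₂).div_const (1 - 1 / 2)
    simpa using h2
  obtain ⟨N, hN⟩ := (hlim.eventually (gt_mem_nhds hε)).exists
  refine ⟨∑ k ∈ Finset.range N, P k, fun z hz => ?_⟩
  have hs : HasSum (fun k => a k z) (h z) := by
    have h1 := Complex.hasSum_taylorSeries_of_entire (hg z) 0 1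
    rw [ha]
    simpa using h1
  have hb : ∀ k, ‖a k z‖ ≤ M₂ * (1 / 2 : ℝ) ^ k := by
    intro k
    have h1 := hbound k z 2 M₂ two_pos (fun w hw => by
      apply hM₂ w
      rw [mem_closedBall_zero_iff]
      exact hw.trans (mul_le_mul_of_nonneg_left (hρ z hz) two_pos.le))
    calc ‖a k z‖ ≤ M₂ / 2 ^ k := h1
      _ = M₂ * (1 / 2 : ℝ) ^ k := by rw [one_div, inv_pow, div_eq_mul_inv]
  have h2 := norm_sub_le_of_geometric_bound_of_hasSum (by norm_num : (1 / 2 : ℝ) < 1) hb hs N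
  rw [map_sum]
  have h3 : ∑ k ∈ Finset.range N, MvPolynomial.eval z (P k) = ∑ k ∈ Finset.range N, a k z :=
    Finset.sum_congr rfl fun k _ => (hP k z).symm
  rw [h3, norm_sub_rev]
  exact h2.trans hN.le

end J_entire_approx

alias entire_approx := J_entire_approx.entire_approx

namespace J_laplace_injective

/-- entire functions as elements of `Hol` -/
noncomputable def lapinj_mk {n : ℕ} (Ω : Set (Cn n)) (g : Cn n → ℂ) (hg : Differentiable ℂ g) :
    Hol Ω :=
  ⟨⟨fun ξ => g ξ.1, hg.continuous.comp continuous_subtype_val⟩, by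
    have h : ∀ w ∈ Ω, ext0 (⟨fun ξ => g ξ.1, hg.continuous.comp continuous_subtype_val⟩ : C(Ω, ℂ)) w
        = g w := by
      intro w hw
      simp [ext0, hw]
    change DifferentiableOn ℂ _ Ω
    exact hg.differentiableOn.congr h⟩

theorem lapinj_ext {n : ℕ} {Ω : Set (Cn n)} (f g : Hol Ω) (h : ∀ ξ, f.at ξ = g.at ξ) : f = g :=
  Subtype.ext (ContinuousMap.ext h)

theorem lapinj_poly_diff {n : ℕ} (p : MvPolynomial (Fin n) ℂ) :
    Differentiable ℂ (fun ξ : Cn n => MvPolynomial.eval ξ p) := by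
  induction p using MvPolynomial.induction_on with
  | C a =>
    simp only [MvPolynomial.eval_C]
    exact differentiable_const _
  | add p q hp hq =>
    simp only [map_add]
    exact hp.add hq
  | mul_X p j hp =>
    simp only [map_mul, MvPolynomial.eval_X]
    exact hp.mul (differentiable_apply j)

/-- polynomial times exponential -/
noncomputable def lapinj_G {n : ℕ} (p : MvPolynomial (Fin n) ℂ) (z ξ : Cn n) : ℂ :=
  MvPolynomial.eval ξ p * Complex.exp (∑ j, z j * ξ j)

theorem lapinj_G_diff {n : ℕ} (p : MvPolynomial (Fin n) ℂ) (z : Cn n) :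
    Differentiable ℂ (lapinj_G p z) := by
  unfold lapinj_G
  exact (lapinj_poly_diff p).mul (by fun_prop)

theorem lapinj_G_shift {n : ℕ} (p : MvPolynomial (Fin n) ℂ) (z ξ : Cn n) (j : Fin n) (t : ℂ) :
    lapinj_G p (z + Pi.single j t) ξ = lapinj_G p z ξ * Complex.exp (t * ξ j) := by
  unfold lapinj_G
  have h : ∑ i, (z + Pi.single j t : Cn n) i * ξ i = ∑ i, z i * ξ i + t * ξ j := by
    simp only [Pi.add_apply, add_mul, Finset.sum_add_distrib]
    congr 1
    rw [Finset.sum_eq_single j]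
    · rw [Pi.single_eq_same]
    · intro i _ hi
      rw [Pi.single_eq_of_ne hi, zero_mul]
    · intro h
      exact absurd (Finset.mem_univ j) h
  rw [h, Complex.exp_add]
  ring

theorem lapinj_step {n : ℕ} {Ω : Set (Cn n)} (S : Hol Ω →L[ℂ] ℂ) (p : MvPolynomial (Fin n) ℂ)
    (j : Fin n) (hp : ∀ z, S (lapinj_mk Ω (lapinj_G p z) (lapinj_G_diff p z)) = 0) (z : Cn n) :
    S (lapinj_mk Ω (lapinj_G (p * MvPolynomial.X j) z)
      (lapinj_G_diff (p * MvPolynomial.X j) z)) = 0 := by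
  obtain ⟨K, C, hK, hKΩ, hC, hb⟩ := cont_bound S
  obtain ⟨B, hB⟩ := hK.exists_bound_of_continuousOn (f := lapinj_G p z)
    (lapinj_G_diff p z).continuous.continuousOn
  obtain ⟨R, hR⟩ := hK.exists_bound_of_continuousOn (f := fun ξ : Cn n => ξ j)
    (continuous_apply j).continuousOn
  have hclaim : ∀ t : ℝ, 0 < t → t * (max R 1) ≤ 1 →
      ‖S (lapinj_mk Ω (lapinj_G (p * MvPolynomial.X j) z)
        (lapinj_G_diff (p * MvPolynomial.X j) z))‖ ≤ C * ((max B 0) * ((max R 1) ^ 2 * t)) := by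
    intro t ht ht1
    have ht0 : (t : ℂ) ≠ 0 := by exact_mod_cast ht.ne'
    have hS : S (lapinj_mk Ω (lapinj_G (p * MvPolynomial.X j) z)
        (lapinj_G_diff (p * MvPolynomial.X j) z)) =
        S (lapinj_mk Ω (lapinj_G (p * MvPolynomial.X j) z)
        (lapinj_G_diff (p * MvPolynomial.X j) z) -
          (t : ℂ)⁻¹ • (lapinj_mk Ω (lapinj_G p (z + Pi.single j (t : ℂ))) (lapinj_G_diff p _) -
            lapinj_mk Ω (lapinj_G p z) (lapinj_G_diff p z))) := by
      rw [map_sub, map_smul, map_sub, hp, hp, sub_zero, smul_zero, sub_zero]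
    rw [hS]
    apply hb _ _ (by positivity)
    intro ξ hξ hξK
    have h1 : (lapinj_mk Ω (lapinj_G (p * MvPolynomial.X j) z)
        (lapinj_G_diff (p * MvPolynomial.X j) z) -
          (t : ℂ)⁻¹ • (lapinj_mk Ω (lapinj_G p (z + Pi.single j (t : ℂ))) (lapinj_G_diff p _) -
            lapinj_mk Ω (lapinj_G p z) (lapinj_G_diff p z))).at ⟨ξ, hξ⟩ =
        lapinj_G (p * MvPolynomial.X j) z ξ - (t : ℂ)⁻¹ * (lapinj_G p (z + Pi.single j (t : ℂ)) ξ -
          lapinj_G p z ξ) := rfl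
    rw [h1, lapinj_G_shift]
    have h2 : lapinj_G (p * MvPolynomial.X j) z ξ = lapinj_G p z ξ * ξ j := by
      unfold lapinj_G
      rw [map_mul, MvPolynomial.eval_X]
      ring
    have h3 : lapinj_G (p * MvPolynomial.X j) z ξ - (t : ℂ)⁻¹ *
        (lapinj_G p z ξ * Complex.exp ((t : ℂ) * ξ j) - lapinj_G p z ξ) =
        - (lapinj_G p z ξ * ((t : ℂ)⁻¹ * (Complex.exp ((t : ℂ) * ξ j) - 1 - (t : ℂ) * ξ j))) := by
      rw [h2]
      field_simp
      ring
    rw [h3, norm_neg, norm_mul]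
    have hRξ : ‖ξ j‖ ≤ max R 1 := (hR ξ hξK).trans (le_max_left _ _)
    have htn : ‖(t : ℂ) * ξ j‖ = t * ‖ξ j‖ := by
      rw [norm_mul, Complex.norm_real, Real.norm_of_nonneg ht.le]
    have h4 : ‖Complex.exp ((t : ℂ) * ξ j) - 1 - (t : ℂ) * ξ j‖ ≤ ‖(t : ℂ) * ξ j‖ ^ 2 := by
      apply Complex.norm_exp_sub_one_sub_id_le
      rw [htn]
      exact (mul_le_mul_of_nonneg_left hRξ ht.le).trans ht1
    have h5 : ‖(t : ℂ)⁻¹ * (Complex.exp ((t : ℂ) * ξ j) - 1 - (t : ℂ) * ξ j)‖ ≤
        (max R 1) ^ 2 * t := by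
      rw [norm_mul, norm_inv, Complex.norm_real, Real.norm_of_nonneg ht.le]
      calc t⁻¹ * ‖Complex.exp ((t : ℂ) * ξ j) - 1 - (t : ℂ) * ξ j‖
          ≤ t⁻¹ * (t * ‖ξ j‖) ^ 2 := by
            rw [← htn]
            exact mul_le_mul_of_nonneg_left h4 (by positivity)
        _ = ‖ξ j‖ ^ 2 * t := by field_simp
        _ ≤ (max R 1) ^ 2 * t := by gcongr
    exact mul_le_mul ((hB ξ hξK).trans (le_max_left _ _)) h5 (norm_nonneg _) (le_max_right _ _)
  have hfin : ‖S (lapinj_mk Ω (lapinj_G (p * MvPolynomial.X j) z)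
      (lapinj_G_diff (p * MvPolynomial.X j) z))‖ ≤ 0 := by
    apply le_of_forall_pos_le_add
    intro ε hε
    have hR1 : 0 < max R 1 := lt_of_lt_of_le one_pos (le_max_right _ _)
    obtain ⟨D, hD⟩ : ∃ D : ℝ, D = C * ((max B 0) * (max R 1) ^ 2) := ⟨_, rfl⟩
    have hD0 : 0 ≤ D := by rw [hD]; positivity
    have ht := hclaim (min (1 / max R 1) (ε / (D + 1))) (lt_min (by positivity) (by positivity)) (by
      have := min_le_left (1 / max R 1) (ε / (D + 1))
      calc min (1 / max R 1) (ε / (D + 1)) * max R 1 ≤ (1 / max R 1) * max R 1 := by gcongr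
        _ = 1 := by field_simp)
    refine ht.trans ?_
    have h6 : C * ((max B 0) * ((max R 1) ^ 2 * min (1 / max R 1) (ε / (D + 1)))) =
        D * min (1 / max R 1) (ε / (D + 1)) := by
      rw [hD]
      ring
    rw [h6, zero_add]
    calc D * min (1 / max R 1) (ε / (D + 1)) ≤ D * (ε / (D + 1)) :=
          mul_le_mul_of_nonneg_left (min_le_right _ _) hD0
      _ = ε * (D / (D + 1)) := by ring
      _ ≤ ε * 1 := mul_le_mul_of_nonneg_left (by rw [div_le_one (by positivity)]; linarith) hε.le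
      _ = ε := mul_one _
  exact norm_le_zero_iff.1 hfin

theorem lapinj_poly {n : ℕ} {Ω : Set (Cn n)} (S : Hol Ω →L[ℂ] ℂ)
    (hS : ∀ z, S (expF Ω z) = 0) (p : MvPolynomial (Fin n) ℂ) :
    ∀ z, S (lapinj_mk Ω (lapinj_G p z) (lapinj_G_diff p z)) = 0 := by
  induction p using MvPolynomial.induction_on with
  | C a =>
    intro z
    have h : lapinj_mk Ω (lapinj_G (MvPolynomial.C a) z) (lapinj_G_diff (MvPolynomial.C a) z) =
        a • expF Ω z := by
      apply lapinj_ext
      intro ξ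
      show MvPolynomial.eval ξ.1 (MvPolynomial.C a) * Complex.exp (∑ j, z j * ξ.1 j) =
        a * Complex.exp (∑ j, z j * ξ.1 j)
      rw [MvPolynomial.eval_C]
    rw [h, map_smul, hS, smul_zero]
  | add p q hp hq =>
    intro z
    have h : lapinj_mk Ω (lapinj_G (p + q) z) (lapinj_G_diff (p + q) z) =
        lapinj_mk Ω (lapinj_G p z) (lapinj_G_diff p z) +
        lapinj_mk Ω (lapinj_G q z) (lapinj_G_diff q z) := by
      apply lapinj_ext
      intro ξ
      show MvPolynomial.eval ξ.1 (p + q) * Complex.exp (∑ j, z j * ξ.1 j) =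
        MvPolynomial.eval ξ.1 p * Complex.exp (∑ j, z j * ξ.1 j) +
        MvPolynomial.eval ξ.1 q * Complex.exp (∑ j, z j * ξ.1 j)
      rw [map_add]
      ring
    rw [h, map_add, hp, hq, add_zero]
  | mul_X p j hp =>
    intro z
    exact lapinj_step S p j hp z

/-- the Laplace transform is injective -/
theorem laplace_injective {n : ℕ} (Ω : Set (Cn n)) (hΩ : IsOpen Ω) (hc : Convex ℝ Ω) :
    Function.Injective (fun (T : Hol Ω →L[ℂ] ℂ) => laplace T) := by
  intro T T' hTT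
  have hS : ∀ z, (T - T') (expF Ω z) = 0 := by
    intro z
    have h1 : laplace T z = laplace T' z := congrFun hTT z
    rw [ContinuousLinearMap.sub_apply]
    exact sub_eq_zero.2 h1
  obtain ⟨K, C, hK, hKΩ, hC, hb⟩ := cont_bound (T - T')
  have hpoly : ∀ P : MvPolynomial (Fin n) ℂ,
      (T - T') (lapinj_mk Ω (fun ξ => MvPolynomial.eval ξ P) (lapinj_poly_diff P)) = 0 := by
    intro P
    have h1 := lapinj_poly (T - T') hS P 0
    have h2 : lapinj_mk Ω (lapinj_G P 0) (lapinj_G_diff P 0) =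
        lapinj_mk Ω (fun ξ => MvPolynomial.eval ξ P) (lapinj_poly_diff P) := by
      apply lapinj_ext
      intro ξ
      show MvPolynomial.eval ξ.1 P * Complex.exp (∑ j, (0 : Cn n) j * ξ.1 j) =
        MvPolynomial.eval ξ.1 P
      simp
    rw [h2] at h1
    exact h1
  have hzero : ∀ f : Hol Ω, (T - T') f = 0 := by
    intro f
    have hle : ‖(T - T') f‖ ≤ 0 := by
      apply le_of_forall_pos_le_add
      intro ε hε
      obtain ⟨δ, hδ⟩ : ∃ δ : ℝ, δ = ε / (2 * (C + 1)) := ⟨_, rfl⟩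
      have hδ0 : 0 < δ := by rw [hδ]; positivity
      obtain ⟨h, hh, hfh⟩ := runge Ω hΩ hc (ext0 (Subtype.val f : C(Ω, ℂ))) f.2 K hK hKΩ δ hδ0
      obtain ⟨P, hP⟩ := entire_approx h hh K hK δ hδ0
      have h1 : (T - T') f = (T - T') (f - lapinj_mk Ω (fun ξ => MvPolynomial.eval ξ P)
          (lapinj_poly_diff P)) := by
        rw [map_sub, hpoly P, sub_zero]
      rw [h1]
      refine (hb _ (2 * δ) (by positivity) ?_).trans ?_
      · intro ξ hξ hξK
        have h2 : (f - lapinj_mk Ω (fun ξ => MvPolynomial.eval ξ P)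
          (lapinj_poly_diff P)).at ⟨ξ, hξ⟩ = f.at ⟨ξ, hξ⟩ - MvPolynomial.eval ξ P := rfl
        have h3 : f.at ⟨ξ, hξ⟩ = ext0 (Subtype.val f : C(Ω, ℂ)) ξ := by
          simp only [ext0, dif_pos hξ]
          rfl
        rw [h2, h3]
        have h4 : ext0 (Subtype.val f : C(Ω, ℂ)) ξ - MvPolynomial.eval ξ P =
            (ext0 (Subtype.val f : C(Ω, ℂ)) ξ - h ξ) + (h ξ - MvPolynomial.eval ξ P) := by ring
        rw [h4]
        refine (norm_add_le _ _).trans ?_
        have h5 := hfh ξ hξK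
        have h6 := hP ξ hξK
        linarith
      · rw [hδ, zero_add]
        calc C * (2 * (ε / (2 * (C + 1)))) = ε * (C / (C + 1)) := by field_simp
          _ ≤ ε * 1 := mul_le_mul_of_nonneg_left (by rw [div_le_one (by positivity)]; linarith) hε.le
          _ = ε := mul_one _
    exact norm_le_zero_iff.1 hle
  ext f
  have h := hzero f
  rw [ContinuousLinearMap.sub_apply] at h
  exact sub_eq_zero.1 h

end J_laplace_injective

alias laplace_injective := J_laplace_injective.laplace_injective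

end Pool.Agent.Helper192.Syn
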